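import Pool.Agent.N785.MG.Stm

/-!
Project MG (helper785), part CL (helper232): a positive proportion of the classes has an irregular window.
-/

set_option autoImplicit false
open Finset Polynomial

namespace Pool.Agent.N785.MG.CL_

/-! ### congruences -/

theorem dvd_iff {g : ℤ[X]} {p : ℕ} {c c' : ℤ} (h : (p : ℤ) ∣ c - c') (x : ℤ) :
    (p : ℤ) ∣ g.eval x + c ↔ (p : ℤ) ∣ g.eval x + c' := by
  have e : g.eval x + c = (g.eval x + c') + (c - c') := by ring
  rw [e]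
  exact dvd_add_left h

theorem nu_congr {g : ℤ[X]} {p : ℕ} {c c' : ℤ} (h : (p : ℤ) ∣ c - c') : nu g p c = nu g p c' := by
  unfold nu
  congr 1
  refine filter_congr fun t _ => ?_
  exact dvd_iff h _

theorem AA_congr {g : ℤ[X]} {p : ℕ} {c c' : ℤ} (h : (p : ℤ) ∣ c - c') (r : ℕ) :
    AA g p c r = AA g p c' r := by
  unfold AA
  have e : (range p).filter (fun t : ℕ => (p : ℤ) ∣ g.eval (t : ℤ) + c ∧
      ¬ (p : ℤ) ∣ g.eval ((t + r : ℕ) : ℤ) + c) = (range p).filter (fun t : ℕ =>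
      (p : ℤ) ∣ g.eval (t : ℤ) + c' ∧ ¬ (p : ℤ) ∣ g.eval ((t + r : ℕ) : ℤ) + c') :=
    filter_congr fun t _ => by rw [dvd_iff h, dvd_iff h]
  rw [nu_congr h, e]

theorem modEq_dvd {P : Finset ℕ} {n m : ℕ} (h : n ≡ m [MOD prm P]) {p : ℕ} (hp : p ∈ P) :
    (p : ℤ) ∣ (n : ℤ) - (m : ℤ) := by
  have h1 : n ≡ m [MOD p] := h.of_dvd (dvd_prod_of_mem (fun p => p) hp)
  exact (Nat.modEq_iff_dvd.1 h1.symm)

theorem bh_congr {g : ℤ[X]} {P : Finset ℕ} {n m : ℕ} (h : n ≡ m [MOD prm P]) :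
    bh g P (n : ℤ) = bh g P (m : ℤ) := by
  unfold bh
  exact prod_congr rfl fun p hp => by rw [nu_congr (modEq_dvd h hp)]

theorem XL_congr {g : ℤ[X]} {P : Finset ℕ} {n m : ℕ} (h : n ≡ m [MOD prm P]) (H : ℕ) :
    XL g P (n : ℤ) H = XL g P (m : ℤ) H := by
  unfold XL
  exact sum_congr rfl fun r _ => prod_congr rfl fun p hp => AA_congr (modEq_dvd h hp) r

/-! ### bounds -/

theorem nu_le (g : ℤ[X]) (p : ℕ) (c : ℤ) : nu g p c ≤ p := by
  unfold nu
  exact (card_filter_le _ _).trans (by rw [card_range])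

theorem fac_nonneg (g : ℤ[X]) (p : ℕ) (c : ℤ) : 0 ≤ 1 - (nu g p c : ℝ) / p := by
  have h : (nu g p c : ℝ) ≤ p := by exact_mod_cast nu_le g p c
  rcases Nat.eq_zero_or_pos p with rfl | hp
  · simp
  · have hp' : (0 : ℝ) < p := by exact_mod_cast hp
    have : (nu g p c : ℝ) / p ≤ 1 := (div_le_one hp').2 h
    linarith

theorem dens_nonneg (g : ℤ[X]) (P : Finset ℕ) (c : ℤ) : 0 ≤ dens g P c :=
  prod_nonneg fun p _ => fac_nonneg g p c

theorem exp_le (t : ℝ) (h0 : 0 ≤ t) (h1 : t ≤ 1 / 2) : Real.exp (-(2 * t)) ≤ 1 - t := by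
  have h2 := Real.add_one_le_exp (2 * t)
  rw [Real.exp_neg]
  have h3 : (0 : ℝ) < Real.exp (2 * t) := Real.exp_pos _
  rw [inv_le_comm₀ h3 (by linarith)]
  refine le_trans ?_ h2
  rw [inv_le_iff_one_le_mul₀ (by linarith)]
  nlinarith

/-- the factors are at least `exp (-2d/p)` -/
theorem fac_ge {g : ℤ[X]} {p d : ℕ} {c : ℤ} (hn : nu g p c ≤ d) (hd : 2 * d ≤ p) (hp : 0 < p) :
    Real.exp (-(2 * ((d : ℝ) / p))) ≤ 1 - (nu g p c : ℝ) / p := by
  have hp' : (0 : ℝ) < p := by exact_mod_cast hp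
  have h1 : (nu g p c : ℝ) / p ≤ (d : ℝ) / p := by
    apply div_le_div_of_nonneg_right _ hp'.le
    exact_mod_cast hn
  have h2 : (d : ℝ) / p ≤ 1 / 2 := by
    rw [div_le_div_iff₀ hp' (by norm_num)]
    have : (2 * d : ℝ) ≤ p := by exact_mod_cast hd
    linarith
  have h3 := exp_le ((d : ℝ) / p) (by positivity) h2
  linarith

theorem AA_bd {g : ℤ[X]} {p d : ℕ} {c : ℤ} (hn : nu g p c ≤ d) (hd : 2 * d ≤ p) (hp : 0 < p)
    (r : ℕ) : 0 ≤ AA g p c r ∧ AA g p c r ≤ Real.exp (2 * ((d : ℝ) / p)) := by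
  have h1 := fac_ge hn hd hp
  have h2 : (0 : ℝ) < 1 - (nu g p c : ℝ) / p := (Real.exp_pos _).trans_le h1
  have h3 : 0 ≤ (if nu g p c = 0 then (1 : ℝ) else
    (((range p).filter (fun t : ℕ => (p : ℤ) ∣ g.eval (t : ℤ) + c ∧
      ¬ (p : ℤ) ∣ g.eval ((t + r : ℕ) : ℤ) + c)).card : ℝ) / nu g p c) := by
    split_ifs <;> positivity
  have h4 : (if nu g p c = 0 then (1 : ℝ) else
    (((range p).filter (fun t : ℕ => (p : ℤ) ∣ g.eval (t : ℤ) + c ∧
      ¬ (p : ℤ) ∣ g.eval ((t + r : ℕ) : ℤ) + c)).card : ℝ) / nu g p c) ≤ 1 := by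
    split_ifs with h
    · exact le_rfl
    · have h5 : (0 : ℝ) < nu g p c := by exact_mod_cast Nat.pos_of_ne_zero h
      rw [div_le_one h5]
      have h6 : ((range p).filter (fun t : ℕ => (p : ℤ) ∣ g.eval (t : ℤ) + c ∧
          ¬ (p : ℤ) ∣ g.eval ((t + r : ℕ) : ℤ) + c)).card ≤ nu g p c := by
        unfold nu
        refine card_le_card fun t ht => ?_
        rw [mem_filter] at ht ⊢
        exact ⟨ht.1, ht.2.1⟩
      exact_mod_cast h6
  unfold AA
  refine ⟨div_nonneg h3 h2.le, ?_⟩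
  rw [div_le_iff₀ h2]
  refine h4.trans ?_
  have h7 := mul_le_mul_of_nonneg_left h1 (Real.exp_pos (2 * ((d : ℝ) / p))).le
  rwa [← Real.exp_add, add_neg_cancel, Real.exp_zero] at h7

section
variable {g : ℤ[X]} {PL : Finset ℕ} {d : ℕ}

theorem prod_bd {f : ℕ → ℝ} (hf : ∀ p ∈ PL, 0 ≤ f p ∧ f p ≤ Real.exp (2 * ((d : ℝ) / p)))
    (hs : ∑ p ∈ PL, (1 : ℝ) / p ≤ 1) : 0 ≤ ∏ p ∈ PL, f p ∧ ∏ p ∈ PL, f p ≤ Real.exp (2 * d) := by
  refine ⟨prod_nonneg fun p hp => (hf p hp).1, ?_⟩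
  refine (prod_le_prod (fun p hp => (hf p hp).1) fun p hp => (hf p hp).2).trans ?_
  rw [← Real.exp_sum]
  apply Real.exp_le_exp.2
  have e : ∑ p ∈ PL, 2 * ((d : ℝ) / p) = 2 * d * ∑ p ∈ PL, (1 : ℝ) / p := by
    rw [mul_sum]
    exact sum_congr rfl fun p _ => by ring
  rw [e]
  exact mul_le_of_le_one_right (by positivity) hs

theorem XL_bd {c : ℤ} (hn : ∀ p ∈ PL, nu g p c ≤ d) (hd : ∀ p ∈ PL, 2 * d ≤ p)
    (hp : ∀ p ∈ PL, 0 < p) (hs : ∑ p ∈ PL, (1 : ℝ) / p ≤ 1) (H : ℕ) :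
    0 ≤ XL g PL c H ∧ XL g PL c H ≤ Real.exp (2 * d) * H := by
  have h := fun r : ℕ => prod_bd (PL := PL) (d := d) (f := fun p => AA g p c r)
    (fun p hp' => AA_bd (hn p hp') (hd p hp') (hp p hp') r) hs
  unfold XL
  refine ⟨sum_nonneg fun r _ => (h r).1, ?_⟩
  refine (sum_le_sum fun r _ => (h r).2).trans ?_
  rw [sum_const, Nat.card_Icc, nsmul_eq_mul, Nat.add_sub_cancel, mul_comm]

theorem bh_ge {c : ℤ} (hn : ∀ p ∈ PL, nu g p c ≤ d) (hd : ∀ p ∈ PL, 2 * d ≤ p)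
    (hp : ∀ p ∈ PL, p.Prime) (hs : ∑ p ∈ PL, (1 : ℝ) / p ≤ 1) :
    Real.exp (-(2 * d)) ≤ bh g PL c := by
  have h1 : Real.exp (-(2 * d)) ≤ ∏ p ∈ PL, Real.exp (-(2 * ((d : ℝ) / p))) := by
    rw [← Real.exp_sum]
    apply Real.exp_le_exp.2
    have e : ∑ p ∈ PL, -(2 * ((d : ℝ) / p)) = -(2 * d * ∑ p ∈ PL, (1 : ℝ) / p) := by
      rw [mul_sum, ← sum_neg_distrib]
      exact sum_congr rfl fun p _ => by ring
    rw [e]
    have : 2 * (d : ℝ) * ∑ p ∈ PL, (1 : ℝ) / p ≤ 2 * d := mul_le_of_le_one_right (by positivity) hs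
    linarith
  refine h1.trans ?_
  unfold bh
  refine prod_le_prod (fun p _ => (Real.exp_pos _).le) fun p hp' => ?_
  have h2 := fac_ge (hn p hp') (hd p hp') (hp p hp').pos
  have h3 : (1 : ℝ) < p := by exact_mod_cast (hp p hp').one_lt
  have h4 : 0 < 1 - 1 / (p : ℝ) := by
    have : 1 / (p : ℝ) < 1 := (div_lt_one (by linarith)).2 h3
    linarith
  rw [le_div_iff₀ h4]
  have h5 : 1 - 1 / (p : ℝ) ≤ 1 := by
    have : 0 ≤ 1 / (p : ℝ) := by positivity
    linarith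
  calc Real.exp (-(2 * ((d : ℝ) / p))) * (1 - 1 / (p : ℝ)) ≤ Real.exp (-(2 * ((d : ℝ) / p))) :=
        mul_le_of_le_one_right (Real.exp_pos _).le h5
    _ ≤ _ := h2

end

theorem fac_bh_nonneg (g : ℤ[X]) (P : Finset ℕ) (hP : ∀ p ∈ P, p.Prime) (c : ℤ) :
    0 ≤ bh g P c := by
  unfold bh
  refine prod_nonneg fun p hp => div_nonneg (fac_nonneg g p c) ?_
  have h3 : (1 : ℝ) < p := by exact_mod_cast (hP p hp).one_lt
  have : 1 / (p : ℝ) < 1 := (div_lt_one (by linarith)).2 h3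
  linarith

/-- counting from a mean value -/
theorem count (N : ℕ) (D : ℕ → ℝ) (B : ℕ → Prop) (a M H : ℝ) (hM : 0 < M) (hH : 0 < H) (ha : 0 < a)
    (hD : ∀ n ∈ range N, D n ≤ M * H) (hB : ∀ n ∈ range N, a / 2 * H ≤ D n → B n)
    (hS : N * (a * H) ≤ ∑ n ∈ range N, D n) :
    a / (2 * M) * N ≤ Nat.card {n // n < N ∧ B n} := by
  classical
  have e : Nat.card {n // n < N ∧ B n} = ((range N).filter B).card :=
    Nat.subtype_card _ fun n => by rw [mem_filter, mem_range]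
  rw [e]
  have h1 : ∑ n ∈ range N, D n ≤ ∑ n ∈ range N, ((if B n then M * H else 0) + a / 2 * H) := by
    refine sum_le_sum fun n hn => ?_
    split_ifs with h
    · have := hD n hn
      have : 0 < a / 2 * H := by positivity
      linarith
    · have : ¬ a / 2 * H ≤ D n := fun h' => h (hB n hn h')
      linarith [not_le.1 this]
  rw [sum_add_distrib, sum_const, card_range, nsmul_eq_mul, ← sum_filter, sum_const,
    nsmul_eq_mul] at h1
  have h2 : (N : ℝ) * (a * H) ≤ ((range N).filter B).card * (M * H) + N * (a / 2 * H) :=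
    hS.trans h1
  have h3 : (N : ℝ) * (a / 2) * H ≤ (((range N).filter B).card * M) * H := by linarith
  have h4 := le_of_mul_le_mul_right h3 hH
  rw [div_mul_eq_mul_div, div_le_iff₀ (by positivity)]
  linarith

theorem card_mono (N : ℕ) {Q Q' : ℕ → Prop} (h : ∀ n, n < N ∧ Q n → n < N ∧ Q' n) :
    Nat.card {n // n < N ∧ Q n} ≤ Nat.card {n // n < N ∧ Q' n} := by
  classical
  have e : Nat.card {n // n < N ∧ Q n} = ((range N).filter Q).card :=
    Nat.subtype_card _ fun n => by rw [mem_filter, mem_range]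
  have e' : Nat.card {n // n < N ∧ Q' n} = ((range N).filter Q').card :=
    Nat.subtype_card _ fun n => by rw [mem_filter, mem_range]
  rw [e, e']
  refine card_le_card fun n hn => ?_
  rw [mem_filter, mem_range] at hn ⊢
  exact h n hn

theorem prm_union {P1 P2 : Finset ℕ} (h : Disjoint P1 P2) : prm (P1 ∪ P2) = prm P1 * prm P2 := by
  unfold prm
  exact prod_union h

end Pool.Agent.N785.MG.CL_

namespace Pool.Agent.N785.MG

open CL_

theorem t_CL (h1 : S_T1) (h2 : S_T2) (ha : S_T3a) (hb : S_T3b) (hc : S_T3c) (hd : S_T3d) : S_CL := by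
  classical
  intro g k c0 hg hk hc0
  obtain ⟨p0, C, hC, hT2⟩ := h2 g hg
  set d := g.natDegree with hdd
  have hd0 : (0 : ℝ) < d := by exact_mod_cast hg
  obtain ⟨δ1, y1, hδ1, hT1⟩ := h1 k C (c0 / d) hk hC (by positivity)
  obtain ⟨c1, c2, hc1, hc2, hT3d⟩ := hd g hg
  set M : ℝ := Real.exp (2 * d) with hM
  have hM0 : 0 < M := Real.exp_pos _
  have hM1 : 1 ≤ M := Real.one_le_exp (by positivity)
  refine ⟨δ1 / 2, c2 * (δ1 / (2 * M)), c1 * Real.exp (-(2 * d)), max (max p0 y1) 1, by positivity,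
    by positivity, by positivity, ?_⟩
  intro P y z R H hy hR hP hH hHy hs0 hs1
  set PL := P.filter (fun p => y < p) with hPL
  set PS := P.filter (fun p => ¬ y < p) with hPS
  have hPLs : PL ⊆ P := filter_subset _ _
  have hPSs : PS ⊆ P := filter_subset _ _
  have hdis : Disjoint PS PL := (disjoint_filter_filter_not P P (fun p => y < p)).symm
  have hun : PS ∪ PL = P := by
    rw [union_comm]
    exact filter_union_filter_not_eq _ _
  have hPLp : ∀ p ∈ PL, p.Prime := fun p hp => (hP p (hPLs hp)).1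
  have hPSp : ∀ p ∈ PS, p.Prime := fun p hp => (hP p (hPSs hp)).1
  have hPLy : ∀ p ∈ PL, y < p := fun p hp => (mem_filter.1 hp).2
  have hyp0 : p0 ≤ y := ((le_max_left p0 y1).trans (le_max_left _ 1)).trans hy
  have hyy1 : y1 ≤ y := ((le_max_right p0 y1).trans (le_max_left _ 1)).trans hy
  have hRy1 : y1 ≤ R := ((le_max_right p0 y1).trans (le_max_left _ 1)).trans hR
  have hR1 : 1 ≤ R := (le_max_right _ 1).trans hR
  have hT := fun p hp => hT2 p (hPLp p hp) (hyp0.trans (hPLy p hp).le)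
  -- `H` is positive
  have hH0 : 0 < H := by
    have hne : PL.Nonempty := by
      by_contra hne
      rw [not_nonempty_iff_eq_empty] at hne
      rw [hne, sum_empty] at hs0
      linarith
    obtain ⟨p, hp⟩ := hne
    have hz : 0 < z := (hPLp p hp).pos.trans_le (hP p (hPLs hp)).2
    have : 0 < z ^ k * R := Nat.mul_pos (pow_pos hz k) hR1
    omega
  have hH0' : (0 : ℝ) < H := by exact_mod_cast hH0
  -- the mean value
  have hmean := hT1 y z R H PL (ee g) hyy1 hRy1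
    (fun p hp => ⟨hPLp p hp, hPLy p hp, (hP p (hPLs hp)).2⟩) hH hHy hs1 (by
      calc c0 / d ≤ (∑ p ∈ PL, (1 : ℝ) / p) / d := div_le_div_of_nonneg_right hs0 hd0.le
        _ = ∑ p ∈ PL, (1 / (d : ℝ)) / p := by
          rw [sum_div]
          exact sum_congr rfl fun p _ => by ring
        _ ≤ ∑ p ∈ PL, (1 - ee g p 0) / p := sum_le_sum fun p hp =>
          div_le_div_of_nonneg_right (hT p hp).2.2.2.2.2.1 (Nat.cast_nonneg p))
    (fun p hp => ⟨(hT p hp).2.2.2.2.1, by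
      have h3 := (hT p hp).2.2.2.2.2.1
      have : (0 : ℝ) < 1 / (d : ℝ) := by positivity
      linarith⟩)
    (fun p hp => (hT p hp).2.2.1) (fun p hp => (hT p hp).2.2.2.1)
    (fun p hp => (hT p hp).2.2.2.2.2.2)
  have hXL : ∀ c : ℤ, 0 ≤ XL g PL c H ∧ XL g PL c H ≤ M * H := fun c =>
    XL_bd (fun p hp => (hT p hp).1 c) (fun p hp => (hT p hp).2.1) (fun p hp => (hPLp p hp).pos)
      hs1 H
  have hsgn : ((-1 : ℝ) ^ k = 1 ∧ Even k) ∨ ((-1 : ℝ) ^ k = -1 ∧ Odd k) := by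
    rcases Nat.even_or_odd k with h | h
    · exact Or.inl ⟨h.neg_one_pow, h⟩
    · exact Or.inr ⟨h.neg_one_pow, h⟩
  set B : ℕ → Prop := fun n => δ1 / 2 * H ≤ (-1 : ℝ) ^ k * (XL g PL (n : ℤ) H - H) with hBd
  have hcB : δ1 / (2 * M) * (prm PL : ℕ) ≤ Nat.card {n // n < prm PL ∧ B n} := by
    refine count (prm PL) (fun n => (-1 : ℝ) ^ k * (XL g PL (n : ℤ) H - H)) B δ1 M H hM0 hH0' hδ1
      (fun n _ => ?_) (fun n _ h => h) ?_
    · have h3 := hXL (n : ℤ)
      have h4 : (H : ℝ) ≤ M * H := le_mul_of_one_le_left hH0'.le hM1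
      rcases hsgn with ⟨h5, _⟩ | ⟨h5, _⟩
      · simp only [h5]
        linarith [h3.2]
      · simp only [h5]
        linarith [h3.1]
    · rw [← mul_sum, sum_sub_distrib, hb g PL H hPLp, sum_const, card_range, nsmul_eq_mul]
      have h3 := mul_le_mul_of_nonneg_left hmean (Nat.cast_nonneg (prm PL) : (0 : ℝ) ≤ prm PL)
      calc _ ≤ _ := h3
        _ = _ := by ring
  have hcA := hT3d PS hPSp
  have hcAB := hc PS PL (fun n => c1 ≤ bh g PS (n : ℤ)) B hPSp hPLp hdis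
    (fun n m h => by simp only [bh_congr h]) (fun n m h => by simp only [hBd, XL_congr h H])
  rw [hun] at hcAB
  have hprm : prm P = prm PS * prm PL := by rw [← hun, prm_union hdis]
  -- the inclusion
  have hle : Nat.card {n // n < prm P ∧ c1 ≤ bh g PS (n : ℤ) ∧ B n} ≤
      Nat.card {γ : ℕ // γ < prm P ∧ c1 * Real.exp (-(2 * d)) ≤ bh g P (γ : ℤ) ∧
      ∃ u, u < prm P ∧ δ1 / 2 * (dens g P (γ : ℤ) * H) ≤
        (-1 : ℝ) ^ k * (surv g P (γ : ℤ) u H - dens g P (γ : ℤ) * H)} := by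
    have himp : ∀ n : ℕ, n < prm P ∧ c1 ≤ bh g PS (n : ℤ) ∧ B n →
        n < prm P ∧ c1 * Real.exp (-(2 * d)) ≤ bh g P (n : ℤ) ∧
      ∃ u, u < prm P ∧ δ1 / 2 * (dens g P (n : ℤ) * H) ≤
        (-1 : ℝ) ^ k * (surv g P (n : ℤ) u H - dens g P (n : ℤ) * H) := by
      rintro n ⟨hn, hA, hB⟩
      refine ⟨hn, ?_, ?_⟩
      · have e : bh g P (n : ℤ) = bh g PS (n : ℤ) * bh g PL (n : ℤ) := by
          rw [← hun]
          unfold bh
          exact prod_union hdis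
        rw [e]
        exact mul_le_mul hA (bh_ge (fun p hp => (hT p hp).1 _) (fun p hp => (hT p hp).2.1) hPLp hs1)
          (Real.exp_pos _).le (hc1.le.trans hA)
      · obtain ⟨⟨u1, hu1, hu1'⟩, ⟨u2, hu2, hu2'⟩⟩ := ha g P PL (n : ℤ) H (fun p hp => (hP p hp).1)
          hPLs (fun p hp => by
            have h3 := (hT p hp).1 (n : ℤ)
            have h4 := (hT p hp).2.1
            omega)
        have hdn := dens_nonneg g P (n : ℤ)
        have hB' : δ1 / 2 * H ≤ (-1 : ℝ) ^ k * (XL g PL (n : ℤ) H - H) := hB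
        have h6 := mul_le_mul_of_nonneg_left hB' hdn
        rcases hsgn with ⟨h5, _⟩ | ⟨h5, _⟩
        · refine ⟨u1, hu1, ?_⟩
          rw [h5] at h6 ⊢
          linarith
        · refine ⟨u2, hu2, ?_⟩
          rw [h5] at h6 ⊢
          linarith
    exact card_mono (prm P) himp
  calc c2 * (δ1 / (2 * M)) * (prm P : ℝ) = (c2 * prm PS) * (δ1 / (2 * M) * prm PL) := by
        rw [hprm]
        push_cast
        ring
    _ ≤ (Nat.card {γ : ℕ // γ < prm PS ∧ c1 ≤ bh g PS (γ : ℤ)} : ℝ) *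
        (Nat.card {n // n < prm PL ∧ B n} : ℝ) := mul_le_mul hcA hcB (by positivity) (by positivity)
    _ = (Nat.card {n // n < prm P ∧ c1 ≤ bh g PS (n : ℤ) ∧ B n} : ℝ) := by
        rw [hcAB]
        push_cast
        ring
    _ ≤ _ := by exact_mod_cast hle

end Pool.Agent.N785.MG
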