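import Pool.Agent.N785.MG.Stm

set_option autoImplicit false

/-!
Project MG: Chinese remainder theorem for sums of products (helper407).
-/

open Finset Polynomial

namespace Pool.Agent.N785.MG

namespace CR_

/-- two coprime moduli -/
theorem sum_two {a b : ℕ} (ha : 0 < a) (hb : 0 < b) (hab : a.Coprime b) (F : ℕ → ℕ → ℝ) :
    ∑ n ∈ range (a * b), F (n % a) (n % b) = ∑ s ∈ range a, ∑ t ∈ range b, F s t := by
  rw [← Finset.sum_product']
  refine Finset.sum_nbij' (fun n => (n % a, n % b)) (fun q => (Nat.chineseRemainder hab q.1 q.2 : ℕ)) ?_ ?_ ?_ ?_ ?_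
  · intro n _
    rw [mem_product, mem_range, mem_range]
    exact ⟨Nat.mod_lt _ ha, Nat.mod_lt _ hb⟩
  · intro q _
    rw [mem_range]
    exact Nat.chineseRemainder_lt_mul hab _ _ ha.ne' hb.ne'
  · intro n hn
    rw [mem_range] at hn
    have h1 := Nat.chineseRemainder_modEq_unique hab (a := n % a) (b := n % b) (z := n)
      (Nat.mod_modEq n a).symm (Nat.mod_modEq n b).symm
    exact (Nat.ModEq.eq_of_lt_of_lt h1 hn (Nat.chineseRemainder_lt_mul hab _ _ ha.ne' hb.ne')).symm
  · intro q hq
    rw [mem_product, mem_range, mem_range] at hq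
    have h1 := (Nat.chineseRemainder hab q.1 q.2).2
    have h2 : (Nat.chineseRemainder hab q.1 q.2 : ℕ) % a = q.1 := by
      have := h1.1
      unfold Nat.ModEq at this
      rw [this, Nat.mod_eq_of_lt hq.1]
    have h3 : (Nat.chineseRemainder hab q.1 q.2 : ℕ) % b = q.2 := by
      have := h1.2
      unfold Nat.ModEq at this
      rw [this, Nat.mod_eq_of_lt hq.2]
    exact Prod.ext h2 h3
  · intro n _
    rfl

theorem prm_pos {P : Finset ℕ} (h : ∀ p ∈ P, p.Prime) : 0 < prm P :=
  Finset.prod_pos fun p hp => (h p hp).pos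

theorem dvd_prm {P : Finset ℕ} {p : ℕ} (h : p ∈ P) : p ∣ prm P := Finset.dvd_prod_of_mem _ h

end CR_

theorem t_CR : S_CR := by
  classical
  intro P
  induction P using Finset.induction_on with
  | empty =>
    intro f _
    simp [prm]
  | insert q P hq ih =>
    intro f hP
    have hqp := hP q (mem_insert_self _ _)
    have hP' : ∀ p ∈ P, p.Prime := fun p hp => hP p (mem_insert_of_mem hp)
    have h1 : prm (insert q P) = q * prm P := by
      unfold prm
      rw [Finset.prod_insert hq]
    have hco : q.Coprime (prm P) := by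
      unfold prm
      refine Nat.Coprime.prod_right fun p hp => ?_
      rw [Nat.coprime_primes hqp (hP' p hp)]
      rintro rfl
      exact hq hp
    rw [h1, Finset.prod_insert hq, ← ih f hP']
    have h2 := CR_.sum_two hqp.pos (CR_.prm_pos hP') hco (fun s t => f q s * ∏ p ∈ P, f p (t % p))
    have h3 : ∀ n ∈ range (q * prm P), ∏ p ∈ insert q P, f p (n % p) =
        f q (n % q) * ∏ p ∈ P, f p (n % prm P % p) := by
      intro n _
      rw [Finset.prod_insert hq]
      congr 1
      refine Finset.prod_congr rfl fun p hp => ?_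
      rw [Nat.mod_mod_of_dvd n (CR_.dvd_prm hp)]
    rw [Finset.sum_congr rfl h3, h2, Finset.sum_mul]
    refine Finset.sum_congr rfl fun s _ => ?_
    rw [Finset.mul_sum]

end Pool.Agent.N785.MG
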