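import Mathlib
import Pool.Agent.H378R2.Defs

/-!
Project MG (helper785): irregularities in the distribution of the primes `g(m) + c` in short windows, for a
positive proportion of the constant terms `c` (Maier's theorem for arbitrary polynomials on average).
Definitions.
-/

open Finset Polynomial

namespace Pool.Agent.N785.MG

/-- number of the residues `t` modulo `p` with `p ∣ g(t) + c` -/
noncomputable def nu (g : ℤ[X]) (p : ℕ) (c : ℤ) : ℕ :=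
  ((range p).filter (fun t : ℕ => (p : ℤ) ∣ g.eval (t : ℤ) + c)).card

/-- `∏ (1 - nu(p)/p)` over the primes `p` of `P` -/
noncomputable def dens (g : ℤ[X]) (P : Finset ℕ) (c : ℤ) : ℝ :=
  ∏ p ∈ P, (1 - (nu g p c : ℝ) / p)

/-- `∏ (1 - nu(p)/p) / (1 - 1/p)` over the primes `p` of `P` -/
noncomputable def bh (g : ℤ[X]) (P : Finset ℕ) (c : ℤ) : ℝ :=
  ∏ p ∈ P, ((1 - (nu g p c : ℝ) / p) / (1 - 1 / (p : ℝ)))

/-- number of the `r ∈ [1, h]` such that no `p ∈ P` divides `g(u+r) + c` -/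
noncomputable def surv (g : ℤ[X]) (P : Finset ℕ) (c : ℤ) (u h : ℕ) : ℕ :=
  ((Icc 1 h).filter (fun r : ℕ => ∀ p ∈ P, ¬ (p : ℤ) ∣ g.eval ((u + r : ℕ) : ℤ) + c)).card

/-- number of the `r ∈ [1, h]` such that `g(u+r) + c` is prime -/
noncomputable def cnt (g : ℤ[X]) (c : ℤ) (u h : ℕ) : ℕ :=
  ((Icc 1 h).filter (fun r : ℕ => (g.eval ((u + r : ℕ) : ℤ) + c).toNat.Prime)).card

/-- the product of the elements of `P` -/
def prm (P : Finset ℕ) : ℕ := ∏ p ∈ P, p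

/-- the primes up to `w` -/
def prs (w : ℕ) : Finset ℕ := (Icc 1 w).filter Nat.Prime

/-- the proportion of the roots `t` of `g(t) + γ` modulo `p` with `p ∤ g(t+r) + γ`, divided by `1 - nu/p`
(and `1` if there are no roots) -/
noncomputable def AA (g : ℤ[X]) (p : ℕ) (γ : ℤ) (r : ℕ) : ℝ :=
  (if nu g p γ = 0 then 1 else
    (((range p).filter (fun t : ℕ => (p : ℤ) ∣ g.eval (t : ℤ) + γ ∧ ¬ (p : ℤ) ∣ g.eval ((t + r : ℕ) : ℤ) + γ)).card : ℝ)
      / nu g p γ) / (1 - (nu g p γ : ℝ) / p)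

/-- the mean of `AA` over the classes `γ` modulo `p` -/
noncomputable def ee (g : ℤ[X]) (p r : ℕ) : ℝ := (∑ γ ∈ range p, AA g p (γ : ℤ) r) / p

/-- the normalised weighted number of survivors -/
noncomputable def XL (g : ℤ[X]) (PL : Finset ℕ) (γ : ℤ) (H : ℕ) : ℝ :=
  ∑ r ∈ Icc 1 H, ∏ p ∈ PL, AA g p γ r

/-- `⌊(log X)^ε⌋` -/
noncomputable def zz (X ε : ℝ) : ℕ := ⌊(Real.log X) ^ ε⌋₊

/-- the primes `p ≤ (log X)^ε`, `p ∉ S`, `p ≠ ps` -/
noncomputable def PM (X ε : ℝ) (S : Finset ℕ) (ps : ℕ) : Finset ℕ :=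
  (Icc 1 (zz X ε)).filter (fun p => p.Prime ∧ p ∉ S ∧ p ≠ ps)

/-- `∑ Phi(n/X)` -/
noncomputable def MX (X : ℝ) : ℝ := ∑ n ∈ Icc 1 ⌊3 * X⌋₊, Pool.Agent.H378R2.Phi (n / X)

end Pool.Agent.N785.MG
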