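import Pool.Agent.N785.MG.Stm

/-!
Project MG (helper785), second part: systems of `k` polynomials `g_1 + c_1, ..., g_k + c_k`, vectors `c` of
constant terms. Definitions.
-/

open Finset Polynomial

namespace Pool.Agent.N785.MG

/-- `p` divides one of the values `g_i(t) + c_i` -/
def Bad {k : ℕ} (g : Fin k → ℤ[X]) (c : Fin k → ℤ) (p : ℕ) (t : ℕ) : Prop :=
  ∃ i, (p : ℤ) ∣ (g i).eval (t : ℤ) + c i

open Classical in
/-- number of the residues `t` modulo `p` with `p ∣ g_i(t) + c_i` for some `i` -/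
noncomputable def nuk {k : ℕ} (g : Fin k → ℤ[X]) (p : ℕ) (c : Fin k → ℤ) : ℕ :=
  ((range p).filter (fun t => Bad g c p t)).card

/-- `∏ (1 - nuk(p)/p)` over the primes `p` of `P` -/
noncomputable def densk {k : ℕ} (g : Fin k → ℤ[X]) (P : Finset ℕ) (c : Fin k → ℤ) : ℝ :=
  ∏ p ∈ P, (1 - (nuk g p c : ℝ) / p)

/-- `∏ (1 - nuk(p)/p) / (1 - 1/p)^k` over the primes `p` of `P` -/
noncomputable def bhk {k : ℕ} (g : Fin k → ℤ[X]) (P : Finset ℕ) (c : Fin k → ℤ) : ℝ :=
  ∏ p ∈ P, ((1 - (nuk g p c : ℝ) / p) / (1 - 1 / (p : ℝ)) ^ k)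

open Classical in
/-- number of the `r ∈ [1, h]` such that no `p ∈ P` divides one of the `g_i(u+r) + c_i` -/
noncomputable def survk {k : ℕ} (g : Fin k → ℤ[X]) (P : Finset ℕ) (c : Fin k → ℤ) (u h : ℕ) : ℕ :=
  ((Icc 1 h).filter (fun r : ℕ => ∀ p ∈ P, ¬ Bad g c p (u + r))).card

open Classical in
/-- number of the `r ∈ [1, h]` such that all the `g_i(u+r) + c_i` are prime -/
noncomputable def cntk {k : ℕ} (g : Fin k → ℤ[X]) (c : Fin k → ℤ) (u h : ℕ) : ℕ :=
  ((Icc 1 h).filter (fun r : ℕ => ∀ i, ((g i).eval ((u + r : ℕ) : ℤ) + c i).toNat.Prime)).card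

/-- the integer vector of a vector of natural numbers -/
def zv {k : ℕ} (c : Fin k → ℕ) : Fin k → ℤ := fun i => (c i : ℤ)

/-- the vectors with coordinates `< q` -/
def box (k q : ℕ) : Finset (Fin k → ℕ) := Fintype.piFinset (fun _ => range q)

open Classical in
/-- the proportion of the bad `t` modulo `p` for which `t+r` is not bad, divided by `1 - nuk/p`
(and `1` if there are no bad `t`) -/
noncomputable def AAk {k : ℕ} (g : Fin k → ℤ[X]) (p : ℕ) (γ : Fin k → ℤ) (r : ℕ) : ℝ :=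
  (if nuk g p γ = 0 then 1 else
    (((range p).filter (fun t => Bad g γ p t ∧ ¬ Bad g γ p (t + r))).card : ℝ) / nuk g p γ) /
      (1 - (nuk g p γ : ℝ) / p)

/-- the mean of `AAk` over the vectors `γ` modulo `p` -/
noncomputable def eek {k : ℕ} (g : Fin k → ℤ[X]) (p r : ℕ) : ℝ :=
  (∑ γ ∈ box k p, AAk g p (zv γ) r) / (p : ℝ) ^ k

/-- the normalised weighted number of survivors -/
noncomputable def XLk {k : ℕ} (g : Fin k → ℤ[X]) (PL : Finset ℕ) (γ : Fin k → ℤ) (H : ℕ) : ℝ :=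
  ∑ r ∈ Icc 1 H, ∏ p ∈ PL, AAk g p γ r

/-- congruence of vectors -/
def Cong {k : ℕ} (W : ℕ) (c γ : Fin k → ℕ) : Prop := ∀ i, c i ≡ γ i [MOD W]

/-- the conditions on the system: nonconstant polynomials with positive leading coefficients -/
def Sys {k : ℕ} (g : Fin k → ℤ[X]) : Prop := 0 < k ∧ ∀ i, 0 < (g i).natDegree ∧ 0 < (g i).leadingCoeff

end Pool.Agent.N785.MG
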