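import Pool.Agent.N785.MG.Stm
import Pool.Agent.H510R2.Maier.MB5

/-!
Project MG, task FM (helper478): the first moment of the number of primes in a window, over the constant
terms of one class.
-/

open Finset Polynomial Filter Topology
open Pool.Agent.H378R2 (Phi GoodP GoodS EPhi LPhi MPhi th shift_bound EPhi_eq Phi_nonneg)

namespace Pool.Agent.N785.MG.FM_

/-- `1 / log m` -/
noncomputable def Pf (m : ℕ) : ℝ := if m ≤ 1 then 0 else 1 / Real.log m

theorem log_two_ge : (1 : ℝ) / 2 ≤ Real.log 2 := by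
  have := Real.log_two_gt_d9
  linarith

theorem Pf_abs (m : ℕ) : |Pf m| ≤ 2 := by
  unfold Pf
  split_ifs with h
  · simp
  · have h1 : (2 : ℝ) ≤ m := by exact_mod_cast (by omega : 2 ≤ m)
    have h2 : Real.log 2 ≤ Real.log m := Real.log_le_log (by norm_num) h1
    have h3 := log_two_ge
    rw [abs_of_nonneg (by positivity), div_le_iff₀ (by linarith)]
    linarith

theorem th_Pf (m : ℕ) : th m * Pf m = if m.Prime then 1 else 0 := by
  unfold Pool.Agent.H378R2.th Pf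
  by_cases h : m.Prime
  · rw [if_pos h, if_pos h, if_neg (by have := h.one_lt; omega)]
    have h1 : (2 : ℝ) ≤ m := by exact_mod_cast h.two_le
    have h2 : 0 < Real.log m := Real.log_pos (by linarith)
    field_simp
  · rw [if_neg h, if_neg h, zero_mul]

/-- the inner sum of a survivor -/
theorem inner_cop (X : ℝ) (hX : 40 ≤ X) (W γ G : ℕ) (hG : (G : ℝ) ≤ X / 2) (E : ℝ)
    (hE : |EPhi X W (γ + G)| ≤ E) :
    |∑ n ∈ Icc 1 ⌊3 * X⌋₊, Pool.Agent.H378R2.nu X W γ n * (if (n + G).Prime then 1 else 0) -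
      LPhi X * (1 / (W.totient : ℝ)) / Real.log X| ≤
      2 * ((4 * G) * Real.log (4 * X) + 4 * Real.sqrt X * Real.log (4 * X)) + E / Real.log X +
        2 / Real.log X ^ 2 * (E + LPhi X * (1 / (W.totient : ℝ))) := by
  have hX0 : 0 < X := by linarith
  have hL : 1 ≤ Real.log X := by
    rw [Real.le_log_iff_exp_le hX0]
    linarith [Real.exp_one_lt_d9]
  have hL0 : 0 < Real.log X := by linarith
  have h1 := shift_bound X (by linarith) W γ G hG Pf 2 Pf_abs
  have h2 : ∑ n ∈ Icc 1 ⌊3 * X⌋₊, Pool.Agent.H378R2.nu X W γ n * th (n + G) * Pf (n + G) =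
      ∑ n ∈ Icc 1 ⌊3 * X⌋₊, Pool.Agent.H378R2.nu X W γ n * (if (n + G).Prime then 1 else 0) := by
    refine Finset.sum_congr rfl fun n _ => ?_
    rw [mul_assoc, th_Pf]
  rw [h2] at h1
  set f : ℕ → ℝ := fun n => if n ≡ γ + G [MOD W] then
    Phi (n / X) * ArithmeticFunction.vonMangoldt n else 0 with hf
  have hf0 : ∀ n, 0 ≤ f n := by
    intro n
    rw [hf]
    simp only
    split_ifs
    · exact mul_nonneg (Phi_nonneg _) ArithmeticFunction.vonMangoldt_nonneg
    · exact le_rfl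
  have h3 : ∑ n ∈ Icc 1 ⌊3 * X⌋₊, f n = EPhi X W (γ + G) + LPhi X * (1 / (W.totient : ℝ)) := by
    rw [EPhi_eq, Finset.sum_filter]
    ring
  have h4 : |∑ n ∈ Icc 1 ⌊3 * X⌋₊, f n * Pf n - (∑ n ∈ Icc 1 ⌊3 * X⌋₊, f n) / Real.log X| ≤
      2 / Real.log X ^ 2 * ∑ n ∈ Icc 1 ⌊3 * X⌋₊, f n := by
    rw [Finset.sum_div, ← Finset.sum_sub_distrib, Finset.mul_sum]
    refine (Finset.abs_sum_le_sum_abs _ _).trans (Finset.sum_le_sum fun n hn => ?_)
    rw [Finset.mem_Icc] at hn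
    rcases le_or_gt (n : ℝ) X with hnX | hnX
    · have h5 : f n = 0 := by
        rw [hf]
        simp only
        rw [Pool.Agent.H378R2.Phi_eq_zero_of_le (by positivity) (by rw [div_le_one hX0]; exact hnX),
          zero_mul, ite_self]
      rw [h5]
      simp
    · have hn1 : ¬ n ≤ 1 := by
        intro h
        have : (n : ℝ) ≤ 1 := by exact_mod_cast h
        linarith
      have hn3 : (n : ℝ) ≤ 3 * X := (by exact_mod_cast hn.2 : (n : ℝ) ≤ (⌊3 * X⌋₊ : ℝ)).trans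
        (Nat.floor_le (by linarith))
      have h6 : Real.log X ≤ Real.log n := Real.log_le_log hX0 hnX.le
      have h7 : Real.log n ≤ Real.log X + 2 := by
        have e1 := Real.log_le_log (by linarith : (0 : ℝ) < n) hn3
        rw [Real.log_mul (by norm_num) hX0.ne'] at e1
        have e2 : Real.log 3 ≤ 2 := by
          have := Real.log_le_sub_one_of_pos (by norm_num : (0 : ℝ) < 3)
          linarith
        linarith
      have h8 : Pf n = 1 / Real.log n := by unfold Pf; rw [if_neg hn1]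
      have hln : 0 < Real.log n := by linarith
      have h9 : |Pf n - 1 / Real.log X| ≤ 2 / Real.log X ^ 2 := by
        rw [h8, div_sub_div _ _ hln.ne' hL0.ne', one_mul, mul_one, abs_div,
          abs_of_pos (by positivity : 0 < Real.log n * Real.log X),
          div_le_div_iff₀ (by positivity) (by positivity)]
        have e1 : |Real.log X - Real.log n| ≤ 2 := by
          rw [abs_le]; constructor <;> linarith
        have e2 : Real.log X ^ 2 ≤ Real.log n * Real.log X := by nlinarith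
        exact mul_le_mul e1 e2 (by positivity) (by norm_num)
      have h10 : f n * Pf n - f n / Real.log X = f n * (Pf n - 1 / Real.log X) := by ring
      rw [h10, abs_mul, abs_of_nonneg (hf0 n), mul_comm]
      exact mul_le_mul_of_nonneg_right h9 (hf0 n)
  rw [h3] at h4
  have h5 : |EPhi X W (γ + G) / Real.log X| ≤ E / Real.log X := by
    rw [abs_div, abs_of_pos hL0]
    gcongr
  have h6 : 2 / Real.log X ^ 2 * (EPhi X W (γ + G) + LPhi X * (1 / (W.totient : ℝ))) ≤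
      2 / Real.log X ^ 2 * (E + LPhi X * (1 / (W.totient : ℝ))) := by
    have := le_abs_self (EPhi X W (γ + G))
    gcongr
    linarith
  have h7 : (EPhi X W (γ + G) + LPhi X * (1 / (W.totient : ℝ))) / Real.log X =
      EPhi X W (γ + G) / Real.log X + LPhi X * (1 / (W.totient : ℝ)) / Real.log X := by ring
  rw [h7] at h4
  rw [abs_le] at h1 h4 h5 ⊢
  constructor <;> linarith [h1.1, h1.2, h4.1, h4.2, h5.1, h5.2]

/-- the inner sum of the other `r` -/
theorem inner_ncop (X : ℝ) (hX : 40 ≤ X) (W γ G : ℕ)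
    (hW : ∀ p : ℕ, p.Prime → p ∣ W → (p : ℝ) ≤ X) (hc : ¬ (γ + G).Coprime W) :
    ∑ n ∈ Icc 1 ⌊3 * X⌋₊, Pool.Agent.H378R2.nu X W γ n * (if (n + G).Prime then (1 : ℝ) else 0) = 0 := by
  have hX0 : 0 < X := by linarith
  apply Finset.sum_eq_zero
  intro n hn
  unfold Pool.Agent.H378R2.nu
  split_ifs with hmod hp
  · rcases le_or_gt (n : ℝ) X with hnX | hnX
    · rw [Pool.Agent.H378R2.Phi_eq_zero_of_le (by positivity) (by rw [div_le_one hX0]; exact hnX),
        zero_mul]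
    · exfalso
      obtain ⟨p, hpp, hp1, hp2⟩ := Nat.Prime.not_coprime_iff_dvd.1 hc
      have hmod2 : n + G ≡ γ + G [MOD W] := Nat.ModEq.add_right _ hmod
      have hmod3 : n + G ≡ γ + G [MOD p] := hmod2.of_dvd hp2
      have hdvd : p ∣ n + G := (Nat.ModEq.dvd_iff hmod3 dvd_rfl).2 hp1
      have heq : p = n + G := (Nat.prime_dvd_prime_iff_eq hpp hp).1 hdvd
      have := hW p hpp hp2
      rw [heq] at this
      push_cast at this
      have : (0 : ℝ) ≤ G := by positivity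
      linarith
  · rw [mul_zero]
  · rw [zero_mul]
  · rw [zero_mul]

theorem prm_pos {P : Finset ℕ} (hP : ∀ p ∈ P, p.Prime) : 0 < prm P :=
  Finset.prod_pos fun p hp => (hP p hp).pos

theorem coprime_prm {P : Finset ℕ} (hP : ∀ p ∈ P, p.Prime) (n : ℕ) :
    n.Coprime (prm P) ↔ ∀ p ∈ P, ¬ p ∣ n := by
  unfold prm
  rw [Nat.coprime_prod_right_iff]
  refine forall_congr' fun p => forall_congr' fun hp => ?_
  rw [Nat.coprime_comm, (hP p hp).coprime_iff_not_dvd]

theorem PM_prime {X ε : ℝ} {S : Finset ℕ} {ps p : ℕ} (h : p ∈ PM X ε S ps) : p.Prime :=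
  (Finset.mem_filter.1 h).2.1

/-- the sum over the class as a sum over `r` -/
theorem swap_sum (g : ℤ[X]) (X : ℝ) (W γ u h : ℕ) (Gr : ℕ → ℕ)
    (hGr : ∀ r ∈ Icc 1 h, g.eval ((u + r : ℕ) : ℤ) = (Gr r : ℤ)) :
    ∑ c ∈ (Icc 1 ⌊3 * X⌋₊).filter (fun c : ℕ => c ≡ γ [MOD W]), Phi (c / X) * cnt g (c : ℤ) u h =
      ∑ r ∈ Icc 1 h, ∑ n ∈ Icc 1 ⌊3 * X⌋₊,
        Pool.Agent.H378R2.nu X W γ n * (if (n + Gr r).Prime then (1 : ℝ) else 0) := by
  rw [Finset.sum_comm, Finset.sum_filter]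
  refine Finset.sum_congr rfl fun c _ => ?_
  unfold Pool.Agent.H378R2.nu
  have h1 : (cnt g (c : ℤ) u h : ℝ) = ∑ r ∈ Icc 1 h, (if (c + Gr r).Prime then (1 : ℝ) else 0) := by
    unfold cnt
    rw [Finset.sum_boole]
    congr 2
    refine Finset.filter_congr fun r hr => ?_
    rw [hGr r hr]
    have : ((Gr r : ℤ) + (c : ℤ)).toNat = c + Gr r := by omega
    rw [this]
  by_cases hc : c ≡ γ [MOD W]
  · rw [if_pos hc, h1, Finset.mul_sum]
    simp only [if_pos hc]
  · rw [if_neg hc]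
    simp only [if_neg hc, zero_mul, Finset.sum_const_zero]

/-- survivors -/
theorem surv_eq (g : ℤ[X]) (P : Finset ℕ) (hP : ∀ p ∈ P, p.Prime) (γ u h : ℕ) (Gr : ℕ → ℕ)
    (hGr : ∀ r ∈ Icc 1 h, g.eval ((u + r : ℕ) : ℤ) = (Gr r : ℤ)) :
    (surv g P (γ : ℤ) u h : ℝ) =
      ∑ r ∈ Icc 1 h, (if (γ + Gr r).Coprime (prm P) then (1 : ℝ) else 0) := by
  unfold surv
  rw [Finset.sum_boole]
  congr 2
  refine Finset.filter_congr fun r hr => ?_
  rw [hGr r hr, coprime_prm hP]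
  refine forall_congr' fun p => forall_congr' fun _ => ?_
  rw [not_iff_not]
  have : ((Gr r : ℤ) + (γ : ℤ)) = ((γ + Gr r : ℕ) : ℤ) := by push_cast; ring
  rw [this, Int.natCast_dvd_natCast]

/-- upper bound for the values of a polynomial -/
theorem eval_le (g : ℤ[X]) : ∃ A : ℝ, 1 ≤ A ∧ ∀ m : ℕ, 1 ≤ m →
    ((g.eval (m : ℤ) : ℤ) : ℝ) ≤ A * (m : ℝ) ^ g.natDegree := by
  refine ⟨∑ i ∈ range (g.natDegree + 1), |(g.coeff i : ℝ)| + 1, ?_, ?_⟩
  · have : 0 ≤ ∑ i ∈ range (g.natDegree + 1), |(g.coeff i : ℝ)| :=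
      Finset.sum_nonneg fun i _ => abs_nonneg _
    linarith
  · intro m hm
    have hm1 : (1 : ℝ) ≤ m := by exact_mod_cast hm
    rw [Polynomial.eval_eq_sum_range]
    push_cast
    rw [add_mul, Finset.sum_mul]
    have h1 : ∑ i ∈ range (g.natDegree + 1), (g.coeff i : ℝ) * (m : ℝ) ^ i ≤
        ∑ i ∈ range (g.natDegree + 1), |(g.coeff i : ℝ)| * (m : ℝ) ^ g.natDegree := by
      refine Finset.sum_le_sum fun i hi => ?_
      rw [Finset.mem_range] at hi
      exact mul_le_mul (le_abs_self _) (pow_le_pow_right₀ hm1 (by omega)) (by positivity)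
        (abs_nonneg _)
    have h2 : (0 : ℝ) ≤ 1 * (m : ℝ) ^ g.natDegree := by positivity
    linarith

/-- positivity of the values of a polynomial -/
theorem eval_pos (g : ℤ[X]) (hd : 0 < g.natDegree) (hl : 0 < g.leadingCoeff) : ∃ N : ℕ, ∀ m : ℕ,
    N ≤ m → 0 ≤ g.eval (m : ℤ) := by
  have hinj : Function.Injective (Int.castRingHom ℝ) := RingHom.injective_int _
  have h1 : Tendsto (fun x : ℝ => (g.map (Int.castRingHom ℝ)).eval x) atTop atTop := by
    apply Polynomial.tendsto_atTop_of_leadingCoeff_nonneg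
    · rw [Polynomial.degree_map_eq_of_injective hinj]
      exact Polynomial.natDegree_pos_iff_degree_pos.1 hd
    · rw [Polynomial.leadingCoeff_map_of_injective hinj, eq_intCast]
      exact_mod_cast hl.le
  have h2 := (h1.comp tendsto_natCast_atTop_atTop).eventually_ge_atTop 0
  obtain ⟨N, hN⟩ := eventually_atTop.1 h2
  refine ⟨N, fun m hm => ?_⟩
  have h3 := hN m hm
  simp only [Function.comp] at h3
  have h4 : (g.map (Int.castRingHom ℝ)).eval (m : ℝ) = ((g.eval (m : ℤ) : ℤ) : ℝ) := by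
    have := Polynomial.eval_intCast_map (Int.castRingHom ℝ) g (m : ℤ)
    simpa using this
  rw [h4] at h3
  exact_mod_cast h3

theorem ev_rpow (s : ℝ) {b c : ℝ} (hb : 0 < b) (hc : 0 < c) :
    ∀ᶠ L : ℝ in atTop, L ^ s ≤ c * Real.exp (b * L) := by
  filter_upwards [(isLittleO_rpow_exp_pos_mul_atTop s hb).bound hc, eventually_ge_atTop (0 : ℝ)]
    with L h1 h2
  rw [Real.norm_of_nonneg (Real.rpow_nonneg h2 s), Real.norm_of_nonneg (Real.exp_pos _).le] at h1
  exact h1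

theorem rpow_le_sqrt {L ε : ℝ} (hL : 1 ≤ L) (hε1 : ε ≤ 1 / 2) : L ^ ε ≤ Real.sqrt L := by
  rw [Real.sqrt_eq_rpow]
  exact Real.rpow_le_rpow_of_exponent_le hL hε1

theorem sqrt_le_div {L a : ℝ} (ha : 0 < a) (hL : a ^ 2 ≤ L) : Real.sqrt L ≤ L / a := by
  have hL0 : 0 ≤ L := (sq_nonneg a).trans hL
  rw [le_div_iff₀ ha]
  have h1 : a ≤ Real.sqrt L := Real.le_sqrt_of_sq_le hL
  calc Real.sqrt L * a ≤ Real.sqrt L * Real.sqrt L :=
        mul_le_mul_of_nonneg_left h1 (Real.sqrt_nonneg L)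
    _ = L := Real.mul_self_sqrt hL0

theorem ev_val (A : ℝ) (hA : 1 ≤ A) (d : ℕ) (hd : 0 < d) (Λ ε : ℝ) (hε1 : ε ≤ 1 / 2) :
    ∀ᶠ L : ℝ in atTop, A * (3 * Real.exp (2 * L ^ ε) + L ^ Λ) ^ d ≤ Real.exp (L / 2) := by
  have hd0 : (0 : ℝ) < d := by exact_mod_cast hd
  filter_upwards [ev_rpow Λ (b := 1 / (4 * d)) (c := 1 / 2) (by positivity) (by norm_num),
    eventually_ge_atTop ((16 * (d : ℝ)) ^ 2), eventually_ge_atTop (40 * (d : ℝ)),
    eventually_ge_atTop (4 * Real.log A), eventually_ge_atTop (1 : ℝ)] with L h1 h2 h3 h4 h5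
  have hs := rpow_le_sqrt h5 hε1
  have hs2 := sqrt_le_div (by positivity : 0 < 16 * (d : ℝ)) h2
  have e1 : 2 * L ^ ε ≤ L / (8 * d) := by
    have : L / (8 * d) = 2 * (L / (16 * d)) := by field_simp; norm_num
    linarith
  have e2 : 3 * Real.exp (2 * L ^ ε) ≤ 1 / 2 * Real.exp (1 / (4 * d) * L) := by
    have e3 : Real.exp (1 / (4 * d) * L) = Real.exp (L / (8 * d)) * Real.exp (L / (8 * d)) := by
      rw [← Real.exp_add]
      congr 1
      field_simp
      norm_num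
    have e4 : 6 ≤ Real.exp (L / (8 * d)) := by
      have e5 : 5 ≤ L / (8 * d) := by
        rw [le_div_iff₀ (by positivity)]
        linarith
      linarith [Real.add_one_le_exp (L / (8 * d))]
    have e6 := Real.exp_le_exp.2 e1
    rw [e3]
    nlinarith [Real.exp_pos (L / (8 * d))]
  have e7 : 3 * Real.exp (2 * L ^ ε) + L ^ Λ ≤ Real.exp (1 / (4 * d) * L) := by linarith
  have hL0 : 0 ≤ L ^ Λ := Real.rpow_nonneg (by linarith) _
  have e8 : (3 * Real.exp (2 * L ^ ε) + L ^ Λ) ^ d ≤ Real.exp (L / 4) := by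
    calc (3 * Real.exp (2 * L ^ ε) + L ^ Λ) ^ d ≤ Real.exp (1 / (4 * d) * L) ^ d :=
          pow_le_pow_left₀ (by positivity) e7 d
      _ = Real.exp (L / 4) := by
          rw [← Real.exp_nat_mul]
          congr 1
          field_simp
  have e9 : A ≤ Real.exp (L / 4) := by
    rw [← Real.exp_log (by linarith : 0 < A)]
    exact Real.exp_le_exp.2 (by linarith)
  calc A * (3 * Real.exp (2 * L ^ ε) + L ^ Λ) ^ d ≤ Real.exp (L / 4) * Real.exp (L / 4) :=
        mul_le_mul e9 e8 (by positivity) (Real.exp_pos _).le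
    _ = Real.exp (L / 2) := by
        rw [← Real.exp_add]
        congr 1
        ring

/-- the total error for one survivor -/
theorem err_bound (X L M LP φ G η E : ℝ) (hX : 40 ≤ X) (hL : L = Real.log X) (hL2 : 2 ≤ L)
    (hLη : 176 ≤ η * L) (hη0 : 0 < η) (hη1 : η ≤ 1) (hM : X / 20 ≤ M) (hLP : |LP - M| ≤ η / 100 * X)
    (hφ0 : 0 < φ) (hφ : φ ≤ Real.exp (L / 4)) (hG : G ≤ Real.sqrt X)
    (hE : E = X / (φ * L) + 2 * Real.sqrt (3 * X) * Real.log (3 * X))
    (hbig : 3840 * L ^ 2 ≤ η * Real.exp (L / 4)) :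
    2 * ((4 * G) * Real.log (4 * X) + 4 * Real.sqrt X * Real.log (4 * X)) + E / L +
        2 / L ^ 2 * (E + LP * (1 / φ)) + |LP - M| * (1 / φ) / L ≤ η * (M / (φ * L)) := by
  have hX0 : 0 < X := by linarith
  have hL0 : 0 < L := by linarith
  have hexpL : Real.exp L = X := by rw [hL]; exact Real.exp_log hX0
  have hM0 : 0 < M := by linarith
  have hsqrt : Real.sqrt X = Real.exp (L / 2) := by
    rw [← hexpL, Real.sqrt_eq_iff_mul_self_eq (Real.exp_pos _).le (Real.exp_pos _).le,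
      ← Real.exp_add]
    congr 1; ring
  have hl4 : Real.log (4 * X) ≤ 2 * L := by
    rw [Real.log_mul (by norm_num) hX0.ne']
    have : Real.log 4 ≤ 2 := by
      rw [show (4 : ℝ) = 2 ^ 2 by norm_num, Real.log_pow]
      have := Real.log_two_lt_d9
      push_cast; linarith
    linarith
  have hl40 : 0 ≤ Real.log (4 * X) := Real.log_nonneg (by linarith)
  have hs0 := Real.sqrt_nonneg X
  have hD0 : 0 < M / (φ * L) := by positivity
  -- the square root terms
  have h3X : 2 * Real.sqrt (3 * X) * Real.log (3 * X) ≤ 4 * Real.sqrt X * (2 * L) := by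
    have a1 : Real.sqrt (3 * X) ≤ 2 * Real.sqrt X := by
      rw [show 2 * Real.sqrt X = Real.sqrt (4 * X) by
        rw [Real.sqrt_mul (by norm_num), show (4 : ℝ) = 2 ^ 2 by norm_num, Real.sqrt_sq (by norm_num)]]
      exact Real.sqrt_le_sqrt (by linarith)
    have a2 : Real.log (3 * X) ≤ 2 * L :=
      (Real.log_le_log (by linarith) (by linarith)).trans hl4
    have a3 : 0 ≤ Real.log (3 * X) := Real.log_nonneg (by linarith)
    calc 2 * Real.sqrt (3 * X) * Real.log (3 * X) ≤ 2 * (2 * Real.sqrt X) * (2 * L) := by gcongr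
      _ = _ := by ring
  have h3X0 : 0 ≤ 2 * Real.sqrt (3 * X) * Real.log (3 * X) := by
    have a3 : 0 ≤ Real.log (3 * X) := Real.log_nonneg (by linarith)
    positivity
  have hR1 : 2 * ((4 * G) * Real.log (4 * X) + 4 * Real.sqrt X * Real.log (4 * X)) ≤
      32 * (Real.sqrt X * L) := by
    have a1 : G * Real.log (4 * X) ≤ Real.sqrt X * (2 * L) := mul_le_mul hG hl4 hl40 hs0
    have a2 : Real.sqrt X * Real.log (4 * X) ≤ Real.sqrt X * (2 * L) :=
      mul_le_mul_of_nonneg_left hl4 hs0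
    linarith
  -- E
  have hE0 : 0 ≤ E := by rw [hE]; positivity
  have hEL : E / L ≤ X / (φ * L) / L + 8 * Real.sqrt X := by
    rw [hE, add_div]
    have : 2 * Real.sqrt (3 * X) * Real.log (3 * X) / L ≤ 8 * Real.sqrt X := by
      rw [div_le_iff₀ hL0]
      linarith
    linarith
  have hEL2 : 2 / L ^ 2 * E ≤ E / L := by
    have e1 : 2 / L ^ 2 * E = (2 / L) * (E / L) := by field_simp
    rw [e1]
    have e2 : 2 / L ≤ 1 := by rw [div_le_one hL0]; exact hL2
    have e3 : 0 ≤ E / L := by positivity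
    nlinarith
  have hXD : X / (φ * L) / L ≤ 20 / L * (M / (φ * L)) := by
    have e1 : 20 / L * (M / (φ * L)) = 20 * M / (φ * L) / L := by field_simp
    rw [e1]
    gcongr
    linarith
  -- LP
  have hLP' := abs_le.1 hLP
  have hLP1 : |LP - M| ≤ η / 5 * M := by
    refine hLP.trans ?_
    nlinarith
  have hLP2 : LP ≤ 2 * M := by
    have := (abs_le.1 hLP1).2
    nlinarith
  have hLPterm : |LP - M| * (1 / φ) / L ≤ η / 5 * (M / (φ * L)) := by
    calc |LP - M| * (1 / φ) / L ≤ η / 5 * M * (1 / φ) / L := by gcongr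
      _ = _ := by field_simp
  have hLPterm2 : 2 / L ^ 2 * (LP * (1 / φ)) ≤ 4 / L * (M / (φ * L)) := by
    calc 2 / L ^ 2 * (LP * (1 / φ)) ≤ 2 / L ^ 2 * (2 * M * (1 / φ)) := by gcongr
      _ = _ := by field_simp; norm_num
  -- the big inequality
  have hRD : 48 * (Real.sqrt X * L) ≤ η / 4 * (M / (φ * L)) := by
    have e1 : X / 20 / (Real.exp (L / 4) * L) ≤ M / (φ * L) := by gcongr
    have e2 : 48 * (Real.sqrt X * L) ≤ η / 4 * (X / 20 / (Real.exp (L / 4) * L)) := by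
      rw [← mul_div_assoc, le_div_iff₀ (by positivity)]
      have e3 : X = Real.sqrt X * Real.sqrt X := (Real.mul_self_sqrt hX0.le).symm
      have e4 : Real.sqrt X = Real.exp (L / 4) * Real.exp (L / 4) := by
        rw [hsqrt, ← Real.exp_add]
        congr 1
        ring
      calc 48 * (Real.sqrt X * L) * (Real.exp (L / 4) * L)
          = (Real.sqrt X * Real.exp (L / 4)) * (3840 * L ^ 2) / 80 := by ring
        _ ≤ (Real.sqrt X * Real.exp (L / 4)) * (η * Real.exp (L / 4)) / 80 := by gcongr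
        _ = η / 80 * (Real.sqrt X * (Real.exp (L / 4) * Real.exp (L / 4))) := by ring
        _ = η / 80 * (Real.sqrt X * Real.sqrt X) := by rw [← e4]
        _ = η / 4 * (X / 20) := by rw [← e3]; ring
    have e5 : η / 4 * (X / 20 / (Real.exp (L / 4) * L)) ≤ η / 4 * (M / (φ * L)) := by gcongr
    linarith
  have hsL : Real.sqrt X ≤ Real.sqrt X * L := le_mul_of_one_le_right hs0 (by linarith)
  have h44 : 44 / L ≤ η / 4 := by
    rw [div_le_iff₀ hL0]
    linarith
  have h44' : 44 / L * (M / (φ * L)) ≤ η / 4 * (M / (φ * L)) :=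
    mul_le_mul_of_nonneg_right h44 hD0.le
  have hsplit : 44 / L * (M / (φ * L)) = 2 * (20 / L * (M / (φ * L))) + 4 / L * (M / (φ * L)) := by
    ring
  have hfin : 2 * ((4 * G) * Real.log (4 * X) + 4 * Real.sqrt X * Real.log (4 * X)) + E / L +
        2 / L ^ 2 * (E + LP * (1 / φ)) + |LP - M| * (1 / φ) / L ≤
      32 * (Real.sqrt X * L) + 16 * Real.sqrt X + 44 / L * (M / (φ * L)) +
        η / 5 * (M / (φ * L)) := by
    rw [mul_add, hsplit]
    linarith
  have hηD : 0 < η * (M / (φ * L)) := by positivity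
  linarith

/-- the decomposition of the big modulus -/
theorem pm_decomp (X ε : ℝ) (S : Finset ℕ) (ps : ℕ) (hzy : zz X ε ≤ Pool.Agent.H378R2.yy X) :
    ∃ W2 : ℕ, 0 < W2 ∧ (prm (PM X ε S ps)).Coprime W2 ∧
      prm (PM X ε S ps) * W2 = Pool.Agent.H378R2.WW X S ps := by
  classical
  have hsub : PM X ε S ps ⊆ Pool.Agent.H378R2.PW X S ps := by
    intro p hp
    unfold PM at hp
    rw [Finset.mem_filter, Finset.mem_Icc] at hp
    rw [Pool.Agent.H378R2.mem_PW]
    exact ⟨hp.1.2.trans hzy, hp.2⟩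
  have hBp : ∀ p ∈ Pool.Agent.H378R2.PW X S ps \ PM X ε S ps, p.Prime := fun p hp =>
    (Pool.Agent.H378R2.mem_PW.1 (Finset.mem_sdiff.1 hp).1).2.1
  have hprod : prm (PM X ε S ps) * ∏ p ∈ Pool.Agent.H378R2.PW X S ps \ PM X ε S ps, p =
      Pool.Agent.H378R2.WW X S ps := by
    unfold prm Pool.Agent.H378R2.WW
    rw [mul_comm]
    exact Finset.prod_sdiff hsub
  refine ⟨∏ p ∈ Pool.Agent.H378R2.PW X S ps \ PM X ε S ps, p,
    Finset.prod_pos fun p hp => (hBp p hp).pos, ?_, hprod⟩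
  exact Pool.Agent.H510R2.Maier.prod_coprime_of_disjoint (fun p hp => PM_prime hp) hBp
    Finset.disjoint_sdiff

/-- the modulus is large -/
theorem prm_ge (X ε : ℝ) (S : Finset ℕ) (ps p1 p2 N : ℕ) (h1 : p1.Prime) (h2 : p2.Prime)
    (hN1 : N ≤ p1) (h12 : p1 < p2) (hz1 : p2 ≤ Pool.Agent.H378R2.z2 X) (hz2 : p2 ≤ zz X ε)
    (hS : GoodS X S) : N ≤ prm (PM X ε S ps) := by
  have hpos : 0 < prm (PM X ε S ps) := prm_pos fun p hp => PM_prime hp
  have key : ∀ p : ℕ, p.Prime → N ≤ p → p ≤ p2 → p ≠ ps → N ≤ prm (PM X ε S ps) := by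
    intro p hp hNp hpp2 hps
    have hmem : p ∈ PM X ε S ps := by
      unfold PM
      rw [Finset.mem_filter, Finset.mem_Icc]
      refine ⟨⟨hp.one_lt.le, hpp2.trans hz2⟩, hp, ?_, hps⟩
      intro hpS
      have := (hS.1 p hpS).2.1
      omega
    exact hNp.trans (Nat.le_of_dvd hpos (Finset.dvd_prod_of_mem _ hmem))
  by_cases h : p1 = ps
  · exact key p2 h2 (by omega) le_rfl (by omega)
  · exact key p1 h1 hN1 h12.le h

end Pool.Agent.N785.MG.FM_

namespace Pool.Agent.N785.MG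

open FM_

theorem t_FM (hW : S_WM) : S_FM := by
  intro g Λ ε η Z hd hl hε hε1 hη
  obtain ⟨A, hA1, hA⟩ := eval_le g
  obtain ⟨N0, hN0⟩ := eval_pos g hd hl
  obtain ⟨η', hη'⟩ : ∃ η' : ℝ, η' = min η 1 := ⟨_, rfl⟩
  have hη'0 : 0 < η' := by rw [hη']; exact lt_min hη one_pos
  have hη'1 : η' ≤ 1 := by rw [hη']; exact min_le_right _ _
  have hη'η : η' ≤ η := by rw [hη']; exact min_le_left _ _
  obtain ⟨c, XW, hc, hXW⟩ := hW ε hε hε1
  obtain ⟨X1, hX1⟩ := Pool.Agent.H378R2.bvrel_holds 1 Z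
  obtain ⟨p1, hp1, hp1p⟩ := Nat.exists_infinite_primes (N0 + 1)
  obtain ⟨p2, hp2, hp2p⟩ := Nat.exists_infinite_primes (p1 + 1)
  have hlogtop : Tendsto Real.log atTop atTop := Real.tendsto_log_atTop
  have hloglogtop : Tendsto (fun X : ℝ => Real.log (Real.log X)) atTop atTop :=
    hlogtop.comp hlogtop
  have ev1 := Pool.Agent.H510R2.Maier.lphi_mphi (η' / 100) (by positivity)
  have ev2 := hlogtop.eventually (ev_val A hA1 g.natDegree hd Λ ε hε1)
  have ev3 := hlogtop.eventually (ev_rpow 2 (b := 1 / 4) (c := η' / 3840) (by norm_num)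
    (by positivity))
  have ev4 := hlogtop.eventually_ge_atTop (max (176 / η') 1000000)
  have ev5 := hloglogtop.eventually_ge_atTop (p2 : ℝ)
  have ev6 := ((tendsto_rpow_atTop hε).comp hlogtop).eventually_ge_atTop (p2 : ℝ)
  obtain ⟨X0, hX0⟩ := eventually_atTop.1 ((((((ev1.and ev2).and ev3).and ev4).and ev5).and ev6).and
    ((eventually_ge_atTop (40 : ℝ)).and ((eventually_ge_atTop XW).and (eventually_ge_atTop X1))))
  refine ⟨X0, fun X hX => ?_⟩
  obtain ⟨⟨⟨⟨⟨⟨h1, h2⟩, h3⟩, h4⟩, h5⟩, h6⟩, h40, hXW', hX1'⟩ := hX0 X hX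
  obtain ⟨ps, S, hps, hS, hbv⟩ := hX1 X hX1'
  refine ⟨ps, S, hps, hS, ?_⟩
  obtain ⟨hWexp, -, -, -, -, -⟩ := hXW X hXW' ps S
  have hXpos : 0 < X := by linarith
  simp only [Function.comp] at h6
  have hL6 : (1000000 : ℝ) ≤ Real.log X := (le_max_right _ _).trans h4
  have hLη : 176 / η' ≤ Real.log X := (le_max_left _ _).trans h4
  have hzy : zz X ε ≤ Pool.Agent.H378R2.yy X := by
    unfold zz Pool.Agent.H378R2.yy
    apply Nat.floor_le_floor
    refine (rpow_le_sqrt (by linarith) hε1).trans ?_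
    exact sqrt_le_div (by norm_num) (by norm_num; exact hL6)
  have hp2z : p2 ≤ zz X ε := Nat.le_floor h6
  have hp2z2 : p2 ≤ Pool.Agent.H378R2.z2 X := by
    unfold Pool.Agent.H378R2.z2
    have e1 : (1 : ℝ) ≤ p2 := by exact_mod_cast hp2p.one_lt.le
    have e2 : (1 : ℝ) ≤ Real.log (Real.log X) := e1.trans h5
    have e3 : Real.log (Real.log X) ≤ (Real.log (Real.log X)) ^ 3 := by
      calc Real.log (Real.log X) = (Real.log (Real.log X)) ^ 1 := (pow_one _).symm
        _ ≤ _ := pow_le_pow_right₀ e2 (by norm_num)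
    have e4 : (p2 : ℝ) ≤ ((⌈(Real.log (Real.log X)) ^ 3⌉₊ : ℕ) : ℝ) :=
      (h5.trans e3).trans (Nat.le_ceil _)
    exact_mod_cast e4
  have hWN : N0 + 1 ≤ prm (PM X ε S ps) :=
    prm_ge X ε S ps p1 p2 (N0 + 1) hp1p hp2p hp1 (by omega) hp2z2 hp2z hS
  obtain ⟨W2, hW2, hco, hWprod⟩ := pm_decomp X ε S ps hzy
  have hPp : ∀ p ∈ PM X ε S ps, p.Prime := fun p hp => PM_prime hp
  obtain ⟨W, hWd⟩ : ∃ W : ℕ, W = prm (PM X ε S ps) := ⟨_, rfl⟩
  rw [← hWd] at hWexp hWN hco hWprod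
  have hW0 : 0 < W := by rw [hWd]; exact prm_pos hPp
  have hφ0 : (0 : ℝ) < W.totient := by exact_mod_cast Nat.totient_pos.2 hW0
  have hφ2 : (0 : ℝ) < W2.totient := by exact_mod_cast Nat.totient_pos.2 hW2
  have hφle : (W.totient : ℝ) ≤ W := by exact_mod_cast Nat.totient_le W
  obtain ⟨L, hL⟩ : ∃ L : ℝ, L = Real.log X := ⟨_, rfl⟩
  rw [← hL] at h2 h3 hL6 hLη hWexp hbv
  have hL0 : 0 < L := by linarith
  have hexpL : Real.exp L = X := by rw [hL]; exact Real.exp_log hXpos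
  have hsqrt : Real.sqrt X = Real.exp (L / 2) := by
    rw [← hexpL, Real.sqrt_eq_iff_mul_self_eq (Real.exp_pos _).le (Real.exp_pos _).le,
      ← Real.exp_add]
    congr 1; ring
  have hWle : (W : ℝ) ≤ Real.exp (L / 4) := by
    refine hWexp.trans (Real.exp_le_exp.2 ?_)
    have e1 := rpow_le_sqrt (by linarith : 1 ≤ L) hε1
    have e2 := sqrt_le_div (by norm_num : (0 : ℝ) < 8) (by norm_num; linarith : (8 : ℝ) ^ 2 ≤ L)
    linarith
  have hWp0 : ∀ p : ℕ, p.Prime → p ∣ Pool.Agent.H378R2.WW X S ps → (p : ℝ) ≤ X := by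
    intro p hp hpW
    have h8 := (Pool.Agent.H378R2.mem_PW.1 ((Pool.Agent.H378R2.prime_dvd_WW hp).1 hpW)).1
    have h9 : (p : ℝ) ≤ Pool.Agent.H378R2.yy X := by exact_mod_cast h8
    have h10 : (Pool.Agent.H378R2.yy X : ℝ) ≤ L / 1000 := by
      rw [hL]
      exact Nat.floor_le (by rw [← hL]; positivity)
    have h11 : L ≤ X := by
      rw [← hexpL]
      linarith [Real.add_one_le_exp L]
    linarith
  have hWp : ∀ p : ℕ, p.Prime → p ∣ W → (p : ℝ) ≤ X := fun p hp hd =>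
    hWp0 p hp (hd.trans ⟨W2, hWprod.symm⟩)
  have hWp2 : ∀ p : ℕ, p.Prime → p ∣ W2 → (p : ℝ) ≤ X := fun p hp hd =>
    hWp0 p hp (hd.trans ⟨W, by rw [← hWprod]; ring⟩)
  have hEb0 := Pool.Agent.H510R2.Maier.single_bound X (Pool.Agent.H378R2.WW X S ps) ps 1
    (by linarith) (X / (((Pool.Agent.H378R2.WW X S ps).totient : ℝ) * L ^ 1)) hbv
  have hEb : ∀ b : ℕ, b.Coprime W → |EPhi X W b| ≤ X / (W.totient * L) +
      2 * Real.sqrt (3 * X) * Real.log (3 * X) := by
    intro b hb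
    have e1 := Pool.Agent.H510R2.Maier.EPhi_sub X (by linarith) W W2 hW0 hW2 hco hWp2
      (X / (((Pool.Agent.H378R2.WW X S ps).totient : ℝ) * L ^ 1)) (by rw [hWprod]; exact hEb0) b hb
    have e2 : (W2.totient : ℝ) * (X / (((Pool.Agent.H378R2.WW X S ps).totient : ℝ) * L ^ 1)) =
        X / (W.totient * L) := by
      rw [← hWprod, Nat.totient_mul hco]
      push_cast
      field_simp
    rwa [e2] at e1
  -- the windows
  intro γ u h hu1 hu2 hh
  rw [← hWd] at hu1 hu2 ⊢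
  rw [← hL] at hh ⊢
  obtain ⟨Gr, hGrd⟩ : ∃ Gr : ℕ → ℕ, Gr = fun r => (g.eval ((u + r : ℕ) : ℤ)).toNat := ⟨_, rfl⟩
  have hGr : ∀ r ∈ Icc 1 h, g.eval ((u + r : ℕ) : ℤ) = (Gr r : ℤ) := by
    intro r _
    rw [hGrd]
    simp only
    rw [Int.toNat_of_nonneg (hN0 (u + r) (by omega))]
  have hGle : ∀ r ∈ Icc 1 h, (Gr r : ℝ) ≤ Real.sqrt X := by
    intro r hr
    have hr' := Finset.mem_Icc.1 hr
    have e1 : ((g.eval ((u + r : ℕ) : ℤ) : ℤ) : ℝ) = (Gr r : ℝ) := by rw [hGr r hr]; simp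
    rw [← e1, hsqrt]
    refine (hA (u + r) (by omega)).trans (le_trans ?_ h2)
    have e2 : ((u + r : ℕ) : ℝ) ≤ 3 * Real.exp (2 * L ^ ε) + L ^ Λ := by
      have e3 : (u : ℝ) ≤ 3 * W := by exact_mod_cast hu2
      have e4 : (r : ℝ) ≤ h := by exact_mod_cast hr'.2
      push_cast
      linarith
    exact mul_le_mul_of_nonneg_left (pow_le_pow_left₀ (by positivity) e2 _) (by linarith)
  have hXhalf : Real.sqrt X ≤ X / 2 := by
    have e1 : (2 : ℝ) ≤ Real.sqrt X := Real.le_sqrt_of_sq_le (by linarith)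
    have e2 : Real.sqrt X * Real.sqrt X = X := Real.mul_self_sqrt hXpos.le
    nlinarith
  rw [swap_sum g X W γ u h Gr hGr, surv_eq g (PM X ε S ps) hPp γ u h Gr hGr, ← hWd]
  have hMX : MX X = MPhi X := rfl
  rw [hMX]
  have hM1 := Pool.Agent.H378R2.MPhi_ge X h40
  have hbig : 3840 * L ^ 2 ≤ η' * Real.exp (L / 4) := by
    have e1 : L ^ (2 : ℝ) = L ^ 2 := by exact_mod_cast Real.rpow_natCast L 2
    rw [e1, show 1 / 4 * L = L / 4 by ring] at h3
    linarith
  have hD0 : 0 ≤ MPhi X / ((W.totient : ℝ) * L) := by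
    have : 0 < MPhi X := by linarith
    positivity
  have hterm : ∀ r ∈ Icc 1 h, |∑ n ∈ Icc 1 ⌊3 * X⌋₊, Pool.Agent.H378R2.nu X W γ n *
      (if (n + Gr r).Prime then (1 : ℝ) else 0) -
      (if (γ + Gr r).Coprime W then (1 : ℝ) else 0) * (MPhi X / ((W.totient : ℝ) * L))| ≤
      (if (γ + Gr r).Coprime W then (1 : ℝ) else 0) * (η' * (MPhi X / ((W.totient : ℝ) * L))) := by
    intro r hr
    by_cases hcop : (γ + Gr r).Coprime W
    · rw [if_pos hcop, one_mul, one_mul]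
      have e1 := inner_cop X h40 W γ (Gr r) ((hGle r hr).trans hXhalf) _ (hEb _ hcop)
      rw [← hL] at e1
      have e2 := err_bound X L (MPhi X) (LPhi X) (W.totient : ℝ) (Gr r) η'
        (X / (W.totient * L) + 2 * Real.sqrt (3 * X) * Real.log (3 * X)) h40 hL (by linarith)
        (by rw [div_le_iff₀ hη'0] at hLη; linarith) hη'0 hη'1 hM1 h1 hφ0 (hφle.trans hWle)
        (hGle r hr) rfl hbig
      have e3 : |LPhi X * (1 / (W.totient : ℝ)) / L - MPhi X / ((W.totient : ℝ) * L)| =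
          |LPhi X - MPhi X| * (1 / (W.totient : ℝ)) / L := by
        have e4 : LPhi X * (1 / (W.totient : ℝ)) / L - MPhi X / ((W.totient : ℝ) * L) =
            (LPhi X - MPhi X) * (1 / (W.totient : ℝ)) / L := by field_simp
        rw [e4, abs_div, abs_mul, abs_of_pos hL0, abs_of_pos (by positivity : 0 < 1 / (W.totient : ℝ))]
      refine (abs_sub_le _ (LPhi X * (1 / (W.totient : ℝ)) / L) _).trans ?_
      rw [e3]
      linarith
    · rw [if_neg hcop, zero_mul, zero_mul, sub_zero, inner_ncop X h40 W γ (Gr r) hWp hcop, abs_zero]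
  rw [Finset.sum_mul, ← Finset.sum_sub_distrib]
  refine (Finset.abs_sum_le_sum_abs _ _).trans ((Finset.sum_le_sum hterm).trans ?_)
  rw [← Finset.sum_mul]
  have hs0 : 0 ≤ ∑ r ∈ Icc 1 h, (if (γ + Gr r).Coprime W then (1 : ℝ) else 0) :=
    Finset.sum_nonneg fun r _ => by split_ifs <;> norm_num
  have f1 : η' * (MPhi X / ((W.totient : ℝ) * L)) ≤ η * (MPhi X / ((W.totient : ℝ) * L)) :=
    mul_le_mul_of_nonneg_right hη'η hD0
  have f2 : 0 ≤ η * (MPhi X / ((W.totient : ℝ) * L)) := mul_nonneg hη.le hD0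
  nlinarith [mul_le_mul_of_nonneg_left f1 hs0]

end Pool.Agent.N785.MG

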