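import Pool.Agent.N785.MG.Stm2
import Pool.Agent.N785.MG.FM

/-!
Project MG, task F1 (helper424, from the file FM of helper478): one shift, all shifts and classes.
-/

open Finset Polynomial Filter Topology
open Pool.Agent.H378R2 (Phi GoodP GoodS EPhi LPhi MPhi th shift_bound EPhi_eq Phi_nonneg)

namespace Pool.Agent.N785.MG

namespace F1_

/-- the sum over the class -/
theorem sum_eq (X : ℝ) (W γ G : ℕ) :
    ∑ c ∈ (Icc 1 ⌊3 * X⌋₊).filter (fun c : ℕ => c ≡ γ [MOD W] ∧ (G + c).Prime), Phi (c / X) =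
      ∑ n ∈ Icc 1 ⌊3 * X⌋₊, Pool.Agent.H378R2.nu X W γ n * (if (n + G).Prime then (1 : ℝ) else 0) := by
  rw [Finset.sum_filter]
  refine Finset.sum_congr rfl fun c _ => ?_
  unfold Pool.Agent.H378R2.nu
  rw [add_comm G c]
  by_cases h1 : c ≡ γ [MOD W]
  · by_cases h2 : (c + G).Prime
    · rw [if_pos ⟨h1, h2⟩, if_pos h1, if_pos h2, mul_one]
    · rw [if_neg (fun h => h2 h.2), if_pos h1, if_neg h2, mul_zero]
  · rw [if_neg (fun h => h1 h.1), if_neg h1, zero_mul]

end F1_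

open FM_ in
theorem t_F1 (hW : S_WM) : S_F1 := by
  intro ε η Z hε hε1 hη
  obtain ⟨η', hη'⟩ : ∃ η' : ℝ, η' = min η 1 := ⟨_, rfl⟩
  have hη'0 : 0 < η' := by rw [hη']; exact lt_min hη one_pos
  have hη'1 : η' ≤ 1 := by rw [hη']; exact min_le_right _ _
  have hη'η : η' ≤ η := by rw [hη']; exact min_le_left _ _
  obtain ⟨c, XW, hc, hXW⟩ := hW ε hε hε1
  obtain ⟨X1, hX1⟩ := Pool.Agent.H378R2.bvrel_holds 1 Z
  have hlogtop : Tendsto Real.log atTop atTop := Real.tendsto_log_atTop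
  have ev1 := Pool.Agent.H510R2.Maier.lphi_mphi (η' / 100) (by positivity)
  have ev3 := hlogtop.eventually (ev_rpow 2 (b := 1 / 4) (c := η' / 3840) (by norm_num)
    (by positivity))
  have ev4 := hlogtop.eventually_ge_atTop (max (176 / η') 1000000)
  obtain ⟨X0, hX0⟩ := eventually_atTop.1 (((ev1.and ev3).and ev4).and
    ((eventually_ge_atTop (40 : ℝ)).and ((eventually_ge_atTop XW).and (eventually_ge_atTop X1))))
  refine ⟨X0, fun X hX => ?_⟩
  obtain ⟨⟨⟨h1, h3⟩, h4⟩, h40, hXW', hX1'⟩ := hX0 X hX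
  obtain ⟨ps, S, hps, hS, hbv⟩ := hX1 X hX1'
  refine ⟨ps, S, hps, hS, ?_⟩
  obtain ⟨hWexp, -, -, -, -, -⟩ := hXW X hXW' ps S
  have hXpos : 0 < X := by linarith
  have hL6 : (1000000 : ℝ) ≤ Real.log X := (le_max_right _ _).trans h4
  have hLη : 176 / η' ≤ Real.log X := (le_max_left _ _).trans h4
  have hzy : zz X ε ≤ Pool.Agent.H378R2.yy X := by
    unfold zz Pool.Agent.H378R2.yy
    apply Nat.floor_le_floor
    refine (rpow_le_sqrt (by linarith) hε1).trans ?_
    exact sqrt_le_div (by norm_num) (by norm_num; exact hL6)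
  obtain ⟨W2, hW2, hco, hWprod⟩ := pm_decomp X ε S ps hzy
  have hPp : ∀ p ∈ PM X ε S ps, p.Prime := fun p hp => PM_prime hp
  obtain ⟨W, hWd⟩ : ∃ W : ℕ, W = prm (PM X ε S ps) := ⟨_, rfl⟩
  rw [← hWd] at hWexp hco hWprod
  have hW0 : 0 < W := by rw [hWd]; exact prm_pos hPp
  have hφ0 : (0 : ℝ) < W.totient := by exact_mod_cast Nat.totient_pos.2 hW0
  have hφ2 : (0 : ℝ) < W2.totient := by exact_mod_cast Nat.totient_pos.2 hW2
  have hφle : (W.totient : ℝ) ≤ W := by exact_mod_cast Nat.totient_le W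
  obtain ⟨L, hL⟩ : ∃ L : ℝ, L = Real.log X := ⟨_, rfl⟩
  rw [← hL] at h3 hL6 hLη hWexp hbv
  have hL0 : 0 < L := by linarith
  have hexpL : Real.exp L = X := by rw [hL]; exact Real.exp_log hXpos
  have hWle : (W : ℝ) ≤ Real.exp (L / 4) := by
    refine hWexp.trans (Real.exp_le_exp.2 ?_)
    have e1 := rpow_le_sqrt (by linarith : 1 ≤ L) hε1
    have e2 := sqrt_le_div (by norm_num : (0 : ℝ) < 8) (by norm_num; linarith : (8 : ℝ) ^ 2 ≤ L)
    linarith
  have hWp0 : ∀ p : ℕ, p.Prime → p ∣ Pool.Agent.H378R2.WW X S ps → (p : ℝ) ≤ X := by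
    intro p hp hpW
    have h8 := (Pool.Agent.H378R2.mem_PW.1 ((Pool.Agent.H378R2.prime_dvd_WW hp).1 hpW)).1
    have h9 : (p : ℝ) ≤ Pool.Agent.H378R2.yy X := by exact_mod_cast h8
    have h10 : (Pool.Agent.H378R2.yy X : ℝ) ≤ L / 1000 := by
      rw [hL]
      exact Nat.floor_le (by rw [← hL]; positivity)
    have h11 : L ≤ X := by
      rw [← hexpL]
      linarith [Real.add_one_le_exp L]
    linarith
  have hWp2 : ∀ p : ℕ, p.Prime → p ∣ W2 → (p : ℝ) ≤ X := fun p hp hd =>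
    hWp0 p hp (hd.trans ⟨W, by rw [← hWprod]; ring⟩)
  have hEb0 := Pool.Agent.H510R2.Maier.single_bound X (Pool.Agent.H378R2.WW X S ps) ps 1
    (by linarith) (X / (((Pool.Agent.H378R2.WW X S ps).totient : ℝ) * L ^ 1)) hbv
  have hEb : ∀ b : ℕ, b.Coprime W → |EPhi X W b| ≤ X / (W.totient * L) +
      2 * Real.sqrt (3 * X) * Real.log (3 * X) := by
    intro b hb
    have e1 := Pool.Agent.H510R2.Maier.EPhi_sub X (by linarith) W W2 hW0 hW2 hco hWp2
      (X / (((Pool.Agent.H378R2.WW X S ps).totient : ℝ) * L ^ 1)) (by rw [hWprod]; exact hEb0) b hb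
    have e2 : (W2.totient : ℝ) * (X / (((Pool.Agent.H378R2.WW X S ps).totient : ℝ) * L ^ 1)) =
        X / (W.totient * L) := by
      rw [← hWprod, Nat.totient_mul hco]
      push_cast
      field_simp
    rwa [e2] at e1
  -- the shifts
  intro γ G hG hcop'
  have hcop : (γ + G).Coprime W := by
    rw [hWd, coprime_prm hPp]
    intro p hp
    rw [add_comm]
    exact hcop' p hp
  rw [← hWd, ← hL, F1_.sum_eq]
  have hX1r : 1 ≤ X := by linarith
  have hGle : (G : ℝ) ≤ Real.sqrt X := by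
    refine hG.trans ?_
    rw [Real.sqrt_eq_rpow]
    exact Real.rpow_le_rpow_of_exponent_le hX1r (by norm_num)
  have hXhalf : Real.sqrt X ≤ X / 2 := by
    have e1 : (2 : ℝ) ≤ Real.sqrt X := Real.le_sqrt_of_sq_le (by linarith)
    have e2 : Real.sqrt X * Real.sqrt X = X := Real.mul_self_sqrt hXpos.le
    nlinarith
  have hMX : MX X = MPhi X := rfl
  rw [hMX]
  have hM1 := Pool.Agent.H378R2.MPhi_ge X h40
  have hbig : 3840 * L ^ 2 ≤ η' * Real.exp (L / 4) := by
    have e1 : L ^ (2 : ℝ) = L ^ 2 := by exact_mod_cast Real.rpow_natCast L 2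
    rw [e1, show 1 / 4 * L = L / 4 by ring] at h3
    linarith
  have hD0 : 0 ≤ MPhi X / ((W.totient : ℝ) * L) := by
    have : 0 < MPhi X := by linarith
    positivity
  have e1 := inner_cop X h40 W γ G (hGle.trans hXhalf) _ (hEb _ hcop)
  rw [← hL] at e1
  have e2 := err_bound X L (MPhi X) (LPhi X) (W.totient : ℝ) G η'
    (X / (W.totient * L) + 2 * Real.sqrt (3 * X) * Real.log (3 * X)) h40 hL (by linarith)
    (by rw [div_le_iff₀ hη'0] at hLη; linarith) hη'0 hη'1 hM1 h1 hφ0 (hφle.trans hWle)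
    hGle rfl hbig
  have e3 : |LPhi X * (1 / (W.totient : ℝ)) / L - MPhi X / ((W.totient : ℝ) * L)| =
      |LPhi X - MPhi X| * (1 / (W.totient : ℝ)) / L := by
    have e4 : LPhi X * (1 / (W.totient : ℝ)) / L - MPhi X / ((W.totient : ℝ) * L) =
        (LPhi X - MPhi X) * (1 / (W.totient : ℝ)) / L := by field_simp
    rw [e4, abs_div, abs_mul, abs_of_pos hL0, abs_of_pos (by positivity : 0 < 1 / (W.totient : ℝ))]
  refine (abs_sub_le _ (LPhi X * (1 / (W.totient : ℝ)) / L) _).trans ?_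
  rw [e3]
  have f1 : η' * (MPhi X / ((W.totient : ℝ) * L)) ≤ η * (MPhi X / ((W.totient : ℝ) * L)) :=
    mul_le_mul_of_nonneg_right hη'η hD0
  linarith

end Pool.Agent.N785.MG
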