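import Pool.Agent.N785.MG.Stm2
import Pool.Agent.Helper112.PairSieve
import Pool.Agent.H95R2.Leh.ApSieve

/-!
Project MG, task F2 (helper424): upper bounds for one shift and for two shifts.
-/

open Finset Polynomial Filter Topology
open Pool.Agent.H378R2 (Phi GoodP GoodS)

namespace Pool.Agent.N785.MG

namespace F2_

theorem tot_ratio (n : ℕ) (hn : n ≠ 0) :
    (n : ℝ) / n.totient = ∏ p ∈ n.primeFactors, (1 - 1 / (p : ℝ))⁻¹ := by
  have h := Nat.totient_eq_mul_prod_factors n
  have h2 : (n.totient : ℝ) = n * ∏ p ∈ n.primeFactors, (1 - 1 / (p : ℝ)) := by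
    have h3 := congrArg (fun q : ℚ => (q : ℝ)) h
    push_cast at h3
    simpa using h3
  have hn0 : (n : ℝ) ≠ 0 := by exact_mod_cast hn
  rw [h2, Finset.prod_inv_distrib, div_mul_eq_div_div, div_self hn0, one_div]

theorem one_le_fac {p : ℕ} (hp : p.Prime) : 1 ≤ (1 - 1 / (p : ℝ))⁻¹ ∧
    (1 - 1 / (p : ℝ))⁻¹ ≤ Real.exp (2 * (1 / (p : ℝ))) := by
  have hp2 : (2 : ℝ) ≤ p := by exact_mod_cast hp.two_le
  have hx : 1 / (p : ℝ) ≤ 1 / 2 := one_div_le_one_div_of_le (by norm_num) hp2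
  have hx0 : 0 < 1 / (p : ℝ) := by positivity
  obtain ⟨x, hxd⟩ : ∃ x : ℝ, x = 1 / (p : ℝ) := ⟨_, rfl⟩
  rw [← hxd] at hx hx0 ⊢
  have h1 : 0 < 1 - x := by linarith
  constructor
  · rw [one_le_inv₀ h1]
    linarith
  · rw [inv_le_iff_one_le_mul₀ h1]
    have h2 := Real.add_one_le_exp (2 * x)
    nlinarith

theorem ratio_le (W Δ D : ℕ) (hW : W ≠ 0) (hD0 : D ≠ 0)
    (hD : D.primeFactors = W.primeFactors ∪ Δ.primeFactors) (B : ℝ)
    (hB : ∑ p ∈ Δ.primeFactors \ W.primeFactors, (1 : ℝ) / p ≤ B) :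
    (D : ℝ) / D.totient ≤ Real.exp (2 * B) * ((W : ℝ) / W.totient) := by
  rw [tot_ratio D hD0, tot_ratio W hW, hD, ← Finset.union_sdiff_self_eq_union,
    Finset.prod_union Finset.disjoint_sdiff, mul_comm]
  apply mul_le_mul_of_nonneg_right
  · refine (Finset.prod_le_prod (fun p hp => ?_) fun p hp => (one_le_fac
      (Nat.prime_of_mem_primeFactors (Finset.mem_sdiff.1 hp).1)).2).trans ?_
    · exact zero_le_one.trans (one_le_fac (Nat.prime_of_mem_primeFactors (Finset.mem_sdiff.1 hp).1)).1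
    · rw [← Real.exp_sum, ← Finset.mul_sum]
      apply Real.exp_le_exp.2
      linarith
  · exact Finset.prod_nonneg fun p hp =>
      zero_le_one.trans (one_le_fac (Nat.prime_of_mem_primeFactors hp)).1

theorem card_pf (Δ : ℕ) (hΔ : Δ ≠ 0) : (Δ.primeFactors.card : ℝ) ≤ 2 * Real.log Δ := by
  have h1 : 2 ^ Δ.primeFactors.card ≤ Δ := by
    calc 2 ^ Δ.primeFactors.card = ∏ _p ∈ Δ.primeFactors, 2 := by rw [Finset.prod_const]
      _ ≤ ∏ p ∈ Δ.primeFactors, p :=
          Finset.prod_le_prod' fun p hp => (Nat.prime_of_mem_primeFactors hp).two_le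
      _ ≤ Δ := Nat.le_of_dvd (Nat.pos_of_ne_zero hΔ) (Nat.prod_primeFactors_dvd Δ)
  have h2 : ((2 : ℝ)) ^ Δ.primeFactors.card ≤ Δ := by exact_mod_cast h1
  have h3 := Real.log_le_log (by positivity) h2
  rw [Real.log_pow] at h3
  have h4 := Real.log_two_gt_d9
  have h5 : (0 : ℝ) ≤ Δ.primeFactors.card := Nat.cast_nonneg _
  nlinarith

theorem sum_extra (X ε : ℝ) (S : Finset ℕ) (ps Δ : ℕ) (hX : 1 < Real.log X)
    (hΔ : Δ ≠ 0) (A : ℝ) (hΔA : Real.log Δ ≤ A * (Real.log X) ^ ε)
    (hS : ∑ q ∈ S, (1 : ℝ) / q ≤ 1) :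
    ∑ p ∈ Δ.primeFactors \ PM X ε S ps, (1 : ℝ) / p ≤ 1 + 1 / 2 + 2 * A := by
  classical
  obtain ⟨U, hU⟩ : ∃ U : Finset ℕ, U = Δ.primeFactors \ PM X ε S ps := ⟨_, rfl⟩
  rw [← hU]
  have hUp : ∀ p ∈ U, p.Prime := fun p hp => by
    rw [hU] at hp
    exact Nat.prime_of_mem_primeFactors (Finset.mem_sdiff.1 hp).1
  rw [← Finset.sum_filter_add_sum_filter_not U (fun p => p ∈ S),
    ← Finset.sum_filter_add_sum_filter_not (U.filter (fun p => ¬ p ∈ S)) (fun p => p = ps)]
  have h1 : ∑ p ∈ U.filter (fun p => p ∈ S), (1 : ℝ) / p ≤ 1 := by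
    refine le_trans ?_ hS
    apply Finset.sum_le_sum_of_subset_of_nonneg
    · intro p hp
      exact (Finset.mem_filter.1 hp).2
    · intro i _ _
      positivity
  have h2 : ∑ p ∈ (U.filter (fun p => ¬ p ∈ S)).filter (fun p => p = ps), (1 : ℝ) / p ≤ 1 / 2 := by
    have h3 : ∀ p ∈ (U.filter (fun p => ¬ p ∈ S)).filter (fun p => p = ps), (1 : ℝ) / p ≤ 1 / 2 := by
      intro p hp
      have hpp := hUp p (Finset.mem_filter.1 (Finset.mem_filter.1 hp).1).1
      exact one_div_le_one_div_of_le (by norm_num) (by exact_mod_cast hpp.two_le)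
    refine (Finset.sum_le_card_nsmul _ _ _ h3).trans ?_
    have h4 : ((U.filter (fun p => ¬ p ∈ S)).filter (fun p => p = ps)).card ≤ 1 := by
      refine (Finset.card_le_card (t := {ps}) ?_).trans (by simp)
      intro p hp
      rw [Finset.mem_singleton]
      exact (Finset.mem_filter.1 hp).2
    have h5 : (((U.filter (fun p => ¬ p ∈ S)).filter (fun p => p = ps)).card : ℝ) ≤ 1 := by
      exact_mod_cast h4
    rw [nsmul_eq_mul]
    linarith
  have hLe : 0 < (Real.log X) ^ ε := Real.rpow_pos_of_pos (by linarith) _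
  have h3 : ∑ p ∈ (U.filter (fun p => ¬ p ∈ S)).filter (fun p => ¬ p = ps), (1 : ℝ) / p ≤ 2 * A := by
    have h4 : ∀ p ∈ (U.filter (fun p => ¬ p ∈ S)).filter (fun p => ¬ p = ps),
        (1 : ℝ) / p ≤ 1 / (Real.log X) ^ ε := by
      intro p hp
      rw [Finset.mem_filter, Finset.mem_filter] at hp
      obtain ⟨⟨hpU, hpS⟩, hps⟩ := hp
      have hpp := hUp p hpU
      rw [hU, Finset.mem_sdiff] at hpU
      have hz : zz X ε < p := by
        by_contra hcon
        apply hpU.2
        unfold PM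
        rw [Finset.mem_filter, Finset.mem_Icc]
        exact ⟨⟨hpp.one_lt.le, not_lt.1 hcon⟩, hpp, hpS, hps⟩
      have h6 : (Real.log X) ^ ε < p := by
        unfold zz at hz
        exact (Nat.floor_lt hLe.le).1 hz
      exact one_div_le_one_div_of_le hLe h6.le
    refine (Finset.sum_le_card_nsmul _ _ _ h4).trans ?_
    have h5 : ((U.filter (fun p => ¬ p ∈ S)).filter (fun p => ¬ p = ps)).card ≤
        Δ.primeFactors.card := by
      apply Finset.card_le_card
      intro p hp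
      have := (Finset.mem_filter.1 (Finset.mem_filter.1 hp).1).1
      rw [hU] at this
      exact (Finset.mem_sdiff.1 this).1
    have h6 : (((U.filter (fun p => ¬ p ∈ S)).filter (fun p => ¬ p = ps)).card : ℝ) ≤
        2 * (A * (Real.log X) ^ ε) := by
      have h7 : (((U.filter (fun p => ¬ p ∈ S)).filter (fun p => ¬ p = ps)).card : ℝ) ≤
        (Δ.primeFactors.card : ℝ) := by exact_mod_cast h5
      have := card_pf Δ hΔ
      linarith
    rw [nsmul_eq_mul, mul_one_div, div_le_iff₀ hLe]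
    linarith
  linarith

theorem prm_pf {P : Finset ℕ} (hP : ∀ p ∈ P, p.Prime) : (prm P).primeFactors = P := by
  unfold prm
  exact Nat.primeFactors_prod hP

theorem rpow_le_sqrt {L ε : ℝ} (hL : 1 ≤ L) (hε1 : ε ≤ 1 / 2) : L ^ ε ≤ Real.sqrt L := by
  rw [Real.sqrt_eq_rpow]
  exact Real.rpow_le_rpow_of_exponent_le hL hε1

theorem sqrt_le_div {L a : ℝ} (ha : 0 < a) (hL : a ^ 2 ≤ L) : Real.sqrt L ≤ L / a := by
  have hL0 : 0 ≤ L := (sq_nonneg a).trans hL
  rw [le_div_iff₀ ha]
  have h1 : a ≤ Real.sqrt L := Real.le_sqrt_of_sq_le hL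
  calc Real.sqrt L * a ≤ Real.sqrt L * Real.sqrt L :=
        mul_le_mul_of_nonneg_left h1 (Real.sqrt_nonneg L)
    _ = L := Real.mul_self_sqrt hL0

end F2_

open F2_ in
theorem t_F2 (hW : S_WM) : S_F2 := by
  classical
  intro ε A hε hε1 hA
  obtain ⟨c, XW, hc, hXW⟩ := hW ε hε hε1
  obtain ⟨C1, hC1, hap⟩ := Pool.Agent.H95R2.Leh.ap_sieve
  obtain ⟨C2, hC2, htwo⟩ := Pool.Agent.Helper112.E456.sieve_two
  obtain ⟨B, hB⟩ : ∃ B : ℝ, B = 1 + 1 / 2 + 2 * A := ⟨_, rfl⟩
  obtain ⟨C, hC⟩ : ∃ C : ℝ, C = 8 * C1 + 16 * C2 * Real.exp (2 * B) ^ 2 := ⟨_, rfl⟩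
  have hC0 : 0 < C := by rw [hC]; positivity
  have hlogtop : Tendsto Real.log atTop atTop := Real.tendsto_log_atTop
  have hloglogtop : Tendsto (fun X : ℝ => Real.log (Real.log X)) atTop atTop :=
    hlogtop.comp hlogtop
  obtain ⟨X0, hX0⟩ := eventually_atTop.1 (((eventually_ge_atTop (40 : ℝ)).and
    (eventually_ge_atTop XW)).and ((hlogtop.eventually_ge_atTop (64 : ℝ)).and
    (hloglogtop.eventually_ge_atTop (3 : ℝ))))
  refine ⟨C, X0, hC0, fun X hX ps S hps hS γ G G' hG hG' hne => ?_⟩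
  obtain ⟨⟨h40, hXW'⟩, hL64, hLL⟩ := hX0 X hX
  obtain ⟨hWexp, -, -, -, -, -⟩ := hXW X hXW' ps S
  have hXpos : 0 < X := by linarith
  obtain ⟨L, hL⟩ : ∃ L : ℝ, L = Real.log X := ⟨_, rfl⟩
  have hPp : ∀ p ∈ PM X ε S ps, p.Prime := fun p hp => (Finset.mem_filter.1 hp).2.1
  obtain ⟨W, hWd⟩ : ∃ W : ℕ, W = prm (PM X ε S ps) := ⟨_, rfl⟩
  rw [← hWd] at hWexp ⊢
  rw [← hL] at hWexp hL64 ⊢
  have hW0 : 0 < W := by
    rw [hWd]
    exact Finset.prod_pos fun p hp => (hPp p hp).pos
  have hWr : (0 : ℝ) < W := by exact_mod_cast hW0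
  have hφ0 : (0 : ℝ) < W.totient := by exact_mod_cast Nat.totient_pos.2 hW0
  have hL0 : 0 < L := by linarith
  have hexpL : Real.exp L = X := by rw [hL]; exact Real.exp_log hXpos
  have hWle : (W : ℝ) ≤ Real.exp (L / 4) := by
    refine hWexp.trans (Real.exp_le_exp.2 ?_)
    have e1 := rpow_le_sqrt (by linarith : 1 ≤ L) hε1
    have e2 := sqrt_le_div (by norm_num : (0 : ℝ) < 8) (by norm_num; linarith : (8 : ℝ) ^ 2 ≤ L)
    linarith
  have hWX : (W : ℝ) ≤ X := by
    rw [← hexpL]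
    exact hWle.trans (Real.exp_le_exp.2 (by linarith))
  -- the length
  obtain ⟨N, hN⟩ : ∃ N : ℕ, N = ⌊3 * X⌋₊ / W + 1 := ⟨_, rfl⟩
  have hNle : (N : ℝ) ≤ 4 * (X / W) := by
    have e1 : ((⌊3 * X⌋₊ / W : ℕ) : ℝ) ≤ (⌊3 * X⌋₊ : ℝ) / W := Nat.cast_div_le
    have e2 : (⌊3 * X⌋₊ : ℝ) ≤ 3 * X := Nat.floor_le (by linarith)
    have e3 : (⌊3 * X⌋₊ : ℝ) / W ≤ 3 * X / W := by gcongr
    have e4 : 1 ≤ X / W := by rw [le_div_iff₀ hWr]; linarith
    rw [hN]
    push_cast
    have e5 : 3 * X / W = 3 * (X / W) := by ring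
    linarith
  have hNge : X / W ≤ N := by
    have e1 : (⌊3 * X⌋₊ : ℝ) / W < ((⌊3 * X⌋₊ / W + 1 : ℕ) : ℝ) := by
      rw [div_lt_iff₀ hWr]
      have := Nat.lt_div_mul_add hW0 (a := ⌊3 * X⌋₊)
      have e2 : ⌊3 * X⌋₊ < (⌊3 * X⌋₊ / W + 1) * W := by
        rw [add_mul, one_mul]
        exact this
      exact_mod_cast e2
    have e3 : 3 * X < ⌊3 * X⌋₊ + 1 := Nat.lt_floor_add_one _
    rw [hN]
    refine le_trans ?_ e1.le
    gcongr
    linarith
  have hXWge : Real.exp (L / 2) ≤ X / W := by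
    rw [le_div_iff₀ hWr]
    calc Real.exp (L / 2) * W ≤ Real.exp (L / 2) * Real.exp (L / 4) := by gcongr
      _ = Real.exp (L / 2 + L / 4) := (Real.exp_add _ _).symm
      _ ≤ X := by
          rw [← hexpL]
          exact Real.exp_le_exp.2 (by linarith)
  have hlogN : L / 2 ≤ Real.log N := by
    rw [Real.le_log_iff_exp_le (by
      have := Real.exp_pos (L / 2)
      linarith)]
    linarith
  have hN2r : (2 : ℝ) ≤ N := by
    have := Real.add_one_le_exp (L / 2)
    linarith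
  have hN2 : 2 ≤ N := by exact_mod_cast hN2r
  have hNX : (N : ℝ) ≤ 4 * X := by
    refine hNle.trans ?_
    have : X / W ≤ X := div_le_self hXpos.le (by exact_mod_cast hW0)
    linarith
  have hq0 : 0 < (W : ℝ) / (W.totient * L) := by positivity
  have hXW0 : 0 < X / W := by positivity
  -- members
  have hmem : ∀ c ∈ Ioc ⌊X⌋₊ ⌊3 * X⌋₊, c ≡ γ [MOD W] → X < c ∧ c = γ % W + c / W * W ∧ 1 ≤ c / W ∧
      c / W < N := by
    intro c hc hcγ
    rw [Finset.mem_Ioc] at hc
    have hcX : X < c := (Nat.floor_lt hXpos.le).1 hc.1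
    refine ⟨hcX, ?_, ?_, ?_⟩
    · have : c % W = γ % W := hcγ
      rw [← this, mul_comm]
      exact (Nat.mod_add_div c W).symm
    · rw [Nat.one_le_div_iff hW0]
      have : (W : ℝ) ≤ c := by linarith
      exact_mod_cast this
    · rw [hN]
      exact Nat.lt_succ_of_le (Nat.div_le_div_right hc.2)
  -- the empty case
  have hempty : ∀ G : ℕ, ¬ (γ % W + G).Coprime W → ∀ c ∈ Ioc ⌊X⌋₊ ⌊3 * X⌋₊, c ≡ γ [MOD W] →
      ¬ (G + c).Prime := by
    intro G hcop c hc hcγ hpr
    obtain ⟨hcX, hcW, -, -⟩ := hmem c hc hcγ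
    obtain ⟨p, hpp, hp1, hp2⟩ := Nat.Prime.not_coprime_iff_dvd.1 hcop
    have hdvd : p ∣ G + c := by
      rw [hcW, ← add_assoc, add_comm G]
      exact dvd_add hp1 (hp2.mul_left _)
    have heq : p = G + c := (Nat.prime_dvd_prime_iff_eq hpp hpr).1 hdvd
    have hple : p ≤ W := Nat.le_of_dvd hW0 hp2
    have : (p : ℝ) ≤ X := le_trans (by exact_mod_cast hple) hWX
    rw [heq] at this
    push_cast at this
    have : (0 : ℝ) ≤ G := Nat.cast_nonneg _
    linarith
  have hinj : ∀ (P : ℕ → Prop) [DecidablePred P] (T : Finset ℕ),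
      (∀ c ∈ Ioc ⌊X⌋₊ ⌊3 * X⌋₊, c ≡ γ [MOD W] → P c → c / W ∈ T) →
      (((Ioc ⌊X⌋₊ ⌊3 * X⌋₊).filter (fun c : ℕ => c ≡ γ [MOD W] ∧ P c)).card : ℝ) ≤ T.card := by
    intro P _ T hT
    have : ((Ioc ⌊X⌋₊ ⌊3 * X⌋₊).filter (fun c : ℕ => c ≡ γ [MOD W] ∧ P c)).card ≤ T.card := by
      apply Finset.card_le_card_of_injOn (fun c => c / W)
      · intro c hc
        have hc' := Finset.mem_filter.1 (Finset.mem_coe.1 hc)
        exact hT c hc'.1 hc'.2.1 hc'.2.2
      · intro c hc c' hc' heq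
        have h1 := Finset.mem_filter.1 (Finset.mem_coe.1 hc)
        have h2 := Finset.mem_filter.1 (Finset.mem_coe.1 hc')
        have e1 := (hmem c h1.1 h1.2.1).2.1
        have e2 := (hmem c' h2.1 h2.2.1).2.1
        simp only at heq
        rw [e1, e2, heq]
    exact_mod_cast this
  constructor
  · by_cases hcop : (γ % W + G).Coprime W
    · have h1 := hap (γ % W + G) W N hW0 hN2
      have h2 := hinj (fun c => (G + c).Prime) ((Finset.range N).filter
        (fun i => ∀ p : ℕ, p.Prime → (p : ℝ) ^ 8 ≤ N → ¬ p ∣ γ % W + G + i * W)) (by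
          intro c hc hcγ hpr
          obtain ⟨hcX, hcW, hc1, hcN⟩ := hmem c hc hcγ
          rw [Finset.mem_filter, Finset.mem_range]
          refine ⟨hcN, fun p hpp hp8 hdvd => ?_⟩
          have heq0 : γ % W + G + c / W * W = G + c := by
            rw [add_comm (γ % W) G, add_assoc, ← hcW]
          rw [heq0] at hdvd
          have heq : p = G + c := (Nat.prime_dvd_prime_iff_eq hpp hpr).1 hdvd
          have hp1 : (40 : ℝ) ≤ p := by
            rw [heq]
            push_cast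
            have : (0 : ℝ) ≤ G := Nat.cast_nonneg _
            linarith
          have hpX : X ≤ p := by
            rw [heq]
            push_cast
            have : (0 : ℝ) ≤ G := Nat.cast_nonneg _
            linarith
          have h3 : (p : ℝ) ^ 8 = (p : ℝ) ^ 7 * p := by ring
          have h4 : (40 : ℝ) ≤ (p : ℝ) ^ 7 := by
            calc (40 : ℝ) ≤ p := hp1
              _ = (p : ℝ) ^ 1 := (pow_one _).symm
              _ ≤ (p : ℝ) ^ 7 := pow_le_pow_right₀ (by linarith) (by norm_num)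
          rw [h3] at hp8
          nlinarith)
      refine h2.trans (h1.trans ?_)
      have h3 : C1 * ((W : ℝ) / W.totient) * N / Real.log N ≤
          C1 * ((W : ℝ) / W.totient) * (4 * (X / W)) / (L / 2) := by
        have : 0 < Real.log N := by linarith
        gcongr
      refine h3.trans ?_
      have h4 : C1 * ((W : ℝ) / W.totient) * (4 * (X / W)) / (L / 2) =
          8 * C1 * (X / W) * ((W : ℝ) / (W.totient * L)) := by
        field_simp
        ring
      rw [h4]
      gcongr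
      rw [hC]
      have : 0 < 16 * C2 * Real.exp (2 * B) ^ 2 := by positivity
      linarith
    · rw [Finset.filter_false_of_mem, Finset.card_empty, Nat.cast_zero]
      · positivity
      · rintro c hc ⟨h1, h2⟩
        exact hempty G hcop c hc h1 h2
  · by_cases hcop : (γ % W + G).Coprime W ∧ (γ % W + G').Coprime W
    · obtain ⟨Δ, hΔ⟩ : ∃ Δ : ℕ, Δ = ((G' : ℤ) - G).natAbs := ⟨_, rfl⟩
      have hΔ0 : Δ ≠ 0 := by
        rw [hΔ]
        intro h
        rw [Int.natAbs_eq_zero] at h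
        apply hne
        omega
      have hne2 : W * (γ % W + G') ≠ W * (γ % W + G) := by
        intro h
        have := Nat.eq_of_mul_eq_mul_left hW0 h
        omega
      have h1 := htwo W (γ % W + G) W (γ % W + G') N hW0 hW0 hcop.1.symm hcop.2.symm hne2 hN2
      obtain ⟨D, hD⟩ : ∃ D : ℕ, D = W * W * (((W * (γ % W + G') : ℕ) : ℤ) -
        ((W * (γ % W + G) : ℕ) : ℤ)).natAbs := ⟨_, rfl⟩
      rw [← hD] at h1
      have hDe : D = W * W * (W * Δ) := by
        rw [hD, hΔ]
        have : (((W * (γ % W + G') : ℕ) : ℤ) - ((W * (γ % W + G) : ℕ) : ℤ)) =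
          (W : ℤ) * ((G' : ℤ) - G) := by
          push_cast
          ring
        rw [this, Int.natAbs_mul, Int.natAbs_natCast]
      have hDne : D ≠ 0 := by
        rw [hDe]
        have := hW0.ne'
        positivity
      have hDpf : D.primeFactors = W.primeFactors ∪ Δ.primeFactors := by
        have hW' := hW0.ne'
        rw [hDe, Nat.primeFactors_mul (by positivity) (by positivity), Nat.primeFactors_mul hW' hW',
          Nat.primeFactors_mul hW' hΔ0, Finset.union_self, ← Finset.union_assoc, Finset.union_self]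
      have hWpf : W.primeFactors = PM X ε S ps := by rw [hWd]; exact prm_pf hPp
      have hΔA : Real.log Δ ≤ A * (Real.log X) ^ ε := by
        have e1 : (Δ : ℝ) ≤ Real.exp (A * (Real.log X) ^ ε) := by
          have e2 : (Δ : ℝ) = |(G' : ℝ) - G| := by
            rw [hΔ, Nat.cast_natAbs]
            push_cast
            rfl
          rw [e2, abs_le]
          have e3 : (0 : ℝ) ≤ G := Nat.cast_nonneg _
          have e4 : (0 : ℝ) ≤ G' := Nat.cast_nonneg _
          constructor <;> linarith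
        rw [Real.log_le_iff_le_exp (by exact_mod_cast Nat.pos_of_ne_zero hΔ0)]
        exact e1
      have hSsum : ∑ q ∈ S, (1 : ℝ) / q ≤ 1 := by
        refine hS.2.trans ?_
        rw [div_le_one (by positivity)]
        nlinarith
      have hextra := sum_extra X ε S ps Δ (by rw [← hL]; linarith) hΔ0 A hΔA hSsum
      rw [← hWpf, ← hB] at hextra
      have hrat := ratio_le W Δ D hW0.ne' hDne hDpf B hextra
      have h2 := hinj (fun c => (G + c).Prime ∧ (G' + c).Prime) ((Finset.Icc 1 N).filter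
        (fun n => (W * n + (γ % W + G)).Prime ∧ (W * n + (γ % W + G')).Prime)) (by
          intro c hc hcγ hpr
          obtain ⟨hcX, hcW, hc1, hcN⟩ := hmem c hc hcγ
          rw [Finset.mem_filter, Finset.mem_Icc]
          refine ⟨⟨hc1, hcN.le⟩, ?_⟩
          have e1 : ∀ G : ℕ, W * (c / W) + (γ % W + G) = G + c := by
            intro G
            have : G + c = G + (γ % W + c / W * W) := by rw [← hcW]
            rw [this]
            ring
          rw [e1, e1]
          exact hpr)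
      refine h2.trans (h1.trans ?_)
      have hr0 : 0 ≤ (D : ℝ) / D.totient := by positivity
      have h3 : C2 * ((D : ℝ) / D.totient) ^ 2 * N / (Real.log N) ^ 2 ≤
          C2 * (Real.exp (2 * B) * ((W : ℝ) / W.totient)) ^ 2 * (4 * (X / W)) / (L / 2) ^ 2 := by
        have : 0 < Real.log N := by linarith
        gcongr
      refine h3.trans ?_
      have h4 : C2 * (Real.exp (2 * B) * ((W : ℝ) / W.totient)) ^ 2 * (4 * (X / W)) / (L / 2) ^ 2 =
          (16 * C2 * Real.exp (2 * B) ^ 2) * (X / W) * ((W : ℝ) / (W.totient * L)) ^ 2 := by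
        field_simp
        ring
      rw [h4]
      gcongr
      rw [hC]
      linarith
    · rw [Finset.filter_false_of_mem, Finset.card_empty, Nat.cast_zero]
      · positivity
      · rintro c hc ⟨h1, h2, h3⟩
        rcases not_and_or.1 hcop with h | h
        · exact hempty G h c hc h1 h2
        · exact hempty G' h c hc h1 h3

end Pool.Agent.N785.MG
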