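import Pool.Agent.N785.MG.Stm

/-!
Project MG: the final statement from `S_ASM`.
-/

open Finset Polynomial Filter

namespace Pool.Agent.N785.MG

lemma ev_h (Λ : ℝ) (hΛ : 1 ≤ Λ) : ∀ᶠ X : ℝ in atTop, (Real.log X) ^ Λ ≤ 2 * (Real.log (X / 3)) ^ Λ := by
  have h2 : ∀ᶠ X : ℝ in atTop, Real.log 3 / (1 - (1 / 2 : ℝ) ^ (1 / Λ)) ≤ Real.log X :=
    Real.tendsto_log_atTop.eventually_ge_atTop _
  filter_upwards [h2, eventually_gt_atTop (3 : ℝ)] with X h2 h3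
  have hΛ0 : 0 < Λ := by linarith
  have hlt : (1 / 2 : ℝ) ^ (1 / Λ) < 1 := Real.rpow_lt_one (by norm_num) (by norm_num) (by positivity)
  have h4 : 0 < 1 - (1 / 2 : ℝ) ^ (1 / Λ) := by linarith
  rw [div_le_iff₀ h4] at h2
  have hlog : Real.log (X / 3) = Real.log X - Real.log 3 := Real.log_div (by linarith) (by norm_num)
  have hL : 0 < Real.log X := Real.log_pos (by linarith)
  have h5 : (1 / 2 : ℝ) ^ (1 / Λ) * Real.log X ≤ Real.log (X / 3) := by rw [hlog]; nlinarith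
  have h6 : ((1 / 2 : ℝ) ^ (1 / Λ) * Real.log X) ^ Λ ≤ (Real.log (X / 3)) ^ Λ :=
    Real.rpow_le_rpow (by positivity) h5 hΛ0.le
  rw [Real.mul_rpow (by positivity) hL.le, ← Real.rpow_mul (by norm_num), one_div_mul_cancel hΛ0.ne',
    Real.rpow_one] at h6
  linarith

lemma ev_w : ∀ᶠ X : ℝ in atTop, X ^ (1 / 5 : ℝ) ≤ (X / 3) ^ (1 / 4 : ℝ) := by
  have h1 : ∀ᶠ X : ℝ in atTop, (3 : ℝ) ^ (1 / 4 : ℝ) ≤ X ^ (1 / 20 : ℝ) :=
    (tendsto_rpow_atTop (by norm_num)).eventually_ge_atTop _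
  filter_upwards [h1, eventually_gt_atTop (0 : ℝ)] with X h1 h2
  rw [Real.div_rpow h2.le (by norm_num), le_div_iff₀ (by positivity)]
  calc X ^ (1 / 5 : ℝ) * 3 ^ (1 / 4 : ℝ) ≤ X ^ (1 / 5 : ℝ) * X ^ (1 / 20 : ℝ) := by gcongr
    _ = X ^ (1 / 4 : ℝ) := by rw [← Real.rpow_add h2]; norm_num

lemma ev_u (ε e : ℝ) (he : 0 < e) (hee : 2 * e ≤ ε) : ∀ᶠ X : ℝ in atTop,
    5 * (Real.log (X / 3)) ^ e ≤ (Real.log X) ^ ε := by
  have h1 : ∀ᶠ X : ℝ in atTop, 5 ≤ (Real.log X) ^ e :=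
    ((tendsto_rpow_atTop he).comp Real.tendsto_log_atTop).eventually_ge_atTop _
  have h2 : ∀ᶠ X : ℝ in atTop, 1 ≤ Real.log X := Real.tendsto_log_atTop.eventually_ge_atTop _
  filter_upwards [h1, h2, eventually_ge_atTop (3 : ℝ)] with X h1 h2 h3
  have h4 : Real.log (X / 3) ≤ Real.log X :=
    Real.log_le_log (by positivity) (by linarith)
  have h5 : 0 ≤ Real.log (X / 3) := Real.log_nonneg (by linarith)
  have h6 : (Real.log (X / 3)) ^ e ≤ (Real.log X) ^ e := Real.rpow_le_rpow h5 h4 he.le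
  calc 5 * (Real.log (X / 3)) ^ e ≤ (Real.log X) ^ e * (Real.log X) ^ e := by
        have : 0 ≤ (Real.log (X / 3)) ^ e := Real.rpow_nonneg h5 _
        nlinarith
    _ = (Real.log X) ^ (2 * e) := by rw [← Real.rpow_add (by linarith)]; ring_nf
    _ ≤ (Real.log X) ^ ε := Real.rpow_le_rpow_of_exponent_le h2 hee

lemma ev_d (δ : ℝ) (hδ : 0 < δ) (hδ1 : δ < 1) : ∀ᶠ X : ℝ in atTop,
    (1 - δ) * Real.log X ≤ (1 - δ / 2) * Real.log (X / 3) := by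
  have h2 : ∀ᶠ X : ℝ in atTop, 2 * Real.log 3 / δ ≤ Real.log X := Real.tendsto_log_atTop.eventually_ge_atTop _
  filter_upwards [h2, eventually_gt_atTop (3 : ℝ)] with X h2 h3
  rw [div_le_iff₀ hδ] at h2
  rw [Real.log_div (by linarith) (by norm_num)]
  have : 0 < Real.log 3 := Real.log_pos (by norm_num)
  nlinarith

theorem fin (hA : S_ASM) (g : ℤ[X]) (hg : 0 < g.natDegree) (hl : 0 < g.leadingCoeff) (Λ ε : ℝ)
    (hΛ : 1 ≤ Λ) (hε : 0 < ε) :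
    ∃ δ κ K : ℝ, 0 < δ ∧ δ < 1 ∧ 0 < κ ∧ ∃ X₀ : ℕ, ∀ X : ℕ, X₀ ≤ X → ∀ h w : ℕ,
      K * Real.log X ≤ h → (h : ℝ) ≤ (Real.log X) ^ Λ → Real.log X ≤ w → (w : ℝ) ≤ (X : ℝ) ^ (1 / 5 : ℝ) →
      κ * X ≤ Nat.card {c : ℕ // c ∈ Icc 1 X ∧ 0 < bh g (prs w) (c : ℤ) ∧
        ∃ u : ℕ, (u : ℝ) ≤ Real.exp ((Real.log X) ^ ε) ∧
          (1 + δ) * (bh g (prs w) (c : ℤ) * (h / Real.log X)) ≤ cnt g (c : ℤ) u h} ∧
      κ * X ≤ Nat.card {c : ℕ // c ∈ Icc 1 X ∧ 0 < bh g (prs w) (c : ℤ) ∧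
        ∃ u : ℕ, (u : ℝ) ≤ Real.exp ((Real.log X) ^ ε) ∧
          (cnt g (c : ℤ) u h : ℝ) ≤ (1 - δ) * (bh g (prs w) (c : ℤ) * (h / Real.log X))} := by
  set e := min ε 1 / 2 with he
  have he0 : 0 < e := by rw [he]; have := lt_min hε one_pos; linarith
  have he1 : e ≤ 1 / 2 := by rw [he]; have := min_le_right ε 1; linarith
  have he2 : 2 * e ≤ ε := by rw [he]; have := min_le_left ε 1; linarith
  obtain ⟨δ, κ, K, X0, hδ, hδ1, hκ, hmain⟩ := hA g Λ e hg hl hΛ he0 he1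
  refine ⟨δ / 2, κ / 3, |K|, by positivity, by linarith, by positivity, ?_⟩
  have hev : ∀ᶠ X : ℝ in atTop, X0 ≤ X / 3 ∧ 4 ≤ X ∧
      (Real.log X) ^ Λ ≤ 2 * (Real.log (X / 3)) ^ Λ ∧ X ^ (1 / 5 : ℝ) ≤ (X / 3) ^ (1 / 4 : ℝ) ∧
      5 * (Real.log (X / 3)) ^ e ≤ (Real.log X) ^ ε ∧
      (1 - δ) * Real.log X ≤ (1 - δ / 2) * Real.log (X / 3) := by
    filter_upwards [eventually_ge_atTop (3 * X0), eventually_ge_atTop (4 : ℝ), ev_h Λ hΛ, ev_w, ev_u ε e he0 he2,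
      ev_d δ hδ hδ1] with X h1 h2 h3 h4 h5 h6
    exact ⟨by linarith, h2, h3, h4, h5, h6⟩
  obtain ⟨X₀, hX₀⟩ := eventually_atTop.1 (tendsto_natCast_atTop_atTop.eventually hev)
  refine ⟨X₀, ?_⟩
  intro X hX h w hK hh hw1 hw2
  obtain ⟨h1, h2, h3, h4, h5, h6⟩ := hX₀ X hX
  have hX0 : (0 : ℝ) < X := by linarith
  have hlog3 : 0 < Real.log ((X : ℝ) / 3) := Real.log_pos (by linarith)
  have hlogle : Real.log ((X : ℝ) / 3) ≤ Real.log X := Real.log_le_log (by positivity) (by linarith)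
  have hlog : 0 < Real.log (X : ℝ) := lt_of_lt_of_le hlog3 hlogle
  have hKK : K * Real.log ((X : ℝ) / 3) ≤ h := by
    refine le_trans ?_ hK
    calc K * Real.log ((X : ℝ) / 3) ≤ |K| * Real.log ((X : ℝ) / 3) :=
          mul_le_mul_of_nonneg_right (le_abs_self K) hlog3.le
      _ ≤ |K| * Real.log X := mul_le_mul_of_nonneg_left hlogle (abs_nonneg K)
  obtain ⟨ha, hb⟩ := hmain ((X : ℝ) / 3) h1 h w hKK (le_trans hh h3) (le_trans hlogle hw1) (le_trans hw2 h4)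
  have hfl : ⌊3 * ((X : ℝ) / 3)⌋₊ = X := by
    rw [mul_div_cancel₀ _ (by norm_num : (3 : ℝ) ≠ 0)]; exact Nat.floor_natCast X
  have hexp : ∀ u : ℕ, (u : ℝ) ≤ Real.exp (5 * (Real.log ((X : ℝ) / 3)) ^ e) →
      (u : ℝ) ≤ Real.exp ((Real.log X) ^ ε) := fun u hu => le_trans hu (Real.exp_le_exp.2 h5)
  have hh0 : (0 : ℝ) ≤ h := Nat.cast_nonneg h
  have hmem : ∀ c : ℕ, c ∈ Ioc ⌊(X : ℝ) / 3⌋₊ ⌊3 * ((X : ℝ) / 3)⌋₊ → c ∈ Icc 1 X := by
    intro c hc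
    rw [hfl, mem_Ioc] at hc
    rw [mem_Icc]
    omega
  have hfin : ∀ Q : ℕ → Prop, Finite {c : ℕ // c ∈ Icc 1 X ∧ Q c} := fun Q =>
    Finite.of_injective (fun c => (⟨c.1, c.2.1⟩ : {c : ℕ // c ∈ Icc 1 X}))
      (fun a b hab => Subtype.ext (congrArg (fun z : {c : ℕ // c ∈ Icc 1 X} => z.1) hab))
  constructor
  · calc κ / 3 * X = κ * ((X : ℝ) / 3) := by ring
      _ ≤ _ := ha
      _ ≤ _ := by
        have := hfin (fun c => 0 < bh g (prs w) (c : ℤ) ∧ ∃ u : ℕ, (u : ℝ) ≤ Real.exp ((Real.log X) ^ ε) ∧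
          (1 + δ / 2) * (bh g (prs w) (c : ℤ) * (h / Real.log X)) ≤ cnt g (c : ℤ) u h)
        apply Nat.cast_le.2
        refine Nat.card_le_card_of_injective (fun c => ⟨c.1, hmem c.1 c.2.1, c.2.2.1, ?_⟩) ?_
        · obtain ⟨u, hu1, hu2⟩ := c.2.2.2
          refine ⟨u, hexp u hu1, le_trans ?_ hu2⟩
          have hpos := c.2.2.1
          have h7 : (h : ℝ) / Real.log X ≤ h / Real.log ((X : ℝ) / 3) :=
            div_le_div_of_nonneg_left hh0 hlog3 hlogle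
          have h8 : 0 ≤ (h : ℝ) / Real.log X := div_nonneg hh0 hlog.le
          have h9 : bh g (prs w) (c.1 : ℤ) * (h / Real.log X) ≤
              bh g (prs w) (c.1 : ℤ) * (h / Real.log ((X : ℝ) / 3)) := mul_le_mul_of_nonneg_left h7 hpos.le
          have h10 : 0 ≤ bh g (prs w) (c.1 : ℤ) * (h / Real.log X) := mul_nonneg hpos.le h8
          nlinarith
        · intro a b hab
          exact Subtype.ext (by simpa using congrArg Subtype.val hab)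
  · calc κ / 3 * X = κ * ((X : ℝ) / 3) := by ring
      _ ≤ _ := hb
      _ ≤ _ := by
        have := hfin (fun c => 0 < bh g (prs w) (c : ℤ) ∧ ∃ u : ℕ, (u : ℝ) ≤ Real.exp ((Real.log X) ^ ε) ∧
          (cnt g (c : ℤ) u h : ℝ) ≤ (1 - δ / 2) * (bh g (prs w) (c : ℤ) * (h / Real.log X)))
        apply Nat.cast_le.2
        refine Nat.card_le_card_of_injective (fun c => ⟨c.1, hmem c.1 c.2.1, c.2.2.1, ?_⟩) ?_
        · obtain ⟨u, hu1, hu2⟩ := c.2.2.2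
          refine ⟨u, hexp u hu1, le_trans hu2 ?_⟩
          have hpos := c.2.2.1
          have h7 : (1 - δ) * (h / Real.log ((X : ℝ) / 3)) ≤ (1 - δ / 2) * (h / Real.log X) := by
            rw [← mul_div_assoc, ← mul_div_assoc, div_le_div_iff₀ hlog3 hlog]
            nlinarith
          calc (1 - δ) * (bh g (prs w) (c.1 : ℤ) * (h / Real.log ((X : ℝ) / 3)))
              = bh g (prs w) (c.1 : ℤ) * ((1 - δ) * (h / Real.log ((X : ℝ) / 3))) := by ring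
            _ ≤ bh g (prs w) (c.1 : ℤ) * ((1 - δ / 2) * (h / Real.log X)) :=
                mul_le_mul_of_nonneg_left h7 hpos.le
            _ = _ := by ring
        · intro a b hab
          exact Subtype.ext (by simpa using congrArg Subtype.val hab)

end Pool.Agent.N785.MG
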