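import Pool.Agent.N785.MG.Stm2
import Pool.Agent.N785.MG.Fin

/-!
Project MG: the final statement for systems, from `S_KA`.
-/

open Finset Polynomial Filter

namespace Pool.Agent.N785.MG

lemma ev_eta (η : ℝ) (hη : 0 < η) : ∀ᶠ X : ℝ in atTop, (1 - η) * Real.log X ≤ Real.log (X / 3) := by
  have h2 : ∀ᶠ X : ℝ in atTop, Real.log 3 / η ≤ Real.log X := Real.tendsto_log_atTop.eventually_ge_atTop _
  filter_upwards [h2, eventually_gt_atTop (3 : ℝ)] with X h2 h3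
  rw [div_le_iff₀ hη] at h2
  rw [Real.log_div (by linarith) (by norm_num)]
  linarith

lemma ev_dk (k : ℕ) (δ : ℝ) (hδ : 0 < δ) (hδ1 : δ < 1) : ∀ᶠ X : ℝ in atTop,
    (1 - δ) * (Real.log X) ^ k ≤ (1 - δ / 2) * (Real.log (X / 3)) ^ k := by
  have hη : 0 < δ / (4 * ((k : ℝ) + 1)) := by positivity
  filter_upwards [ev_eta _ hη, eventually_gt_atTop (3 : ℝ)] with X h1 h3
  set η := δ / (4 * ((k : ℝ) + 1)) with hηd
  have hη1 : η ≤ 1 := by
    rw [hηd, div_le_one (by positivity)]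
    have : (0 : ℝ) ≤ k := Nat.cast_nonneg k
    nlinarith
  have hL : 0 < Real.log X := Real.log_pos (by linarith)
  have hb : 1 - δ / 4 ≤ (1 - η) ^ k := by
    have h4 := one_add_mul_le_pow (show (-2 : ℝ) ≤ -η by linarith) k
    have h5 : (k : ℝ) * η ≤ δ / 4 := by
      rw [hηd, mul_div_assoc', div_le_iff₀ (by positivity)]
      have : (0 : ℝ) ≤ k := Nat.cast_nonneg k
      nlinarith
    have h6 : 1 + (k : ℝ) * (-η) = 1 - k * η := by ring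
    rw [h6] at h4
    calc 1 - δ / 4 ≤ 1 - k * η := by linarith
      _ ≤ (1 + -η) ^ k := h4
      _ = (1 - η) ^ k := by ring_nf
  have hc : ((1 - η) * Real.log X) ^ k ≤ (Real.log (X / 3)) ^ k :=
    pow_le_pow_left₀ (mul_nonneg (by linarith) hL.le) h1 k
  rw [mul_pow] at hc
  have hLk : 0 < (Real.log X) ^ k := by positivity
  calc (1 - δ) * (Real.log X) ^ k ≤ ((1 - δ / 2) * (1 - δ / 4)) * (Real.log X) ^ k := by
        apply mul_le_mul_of_nonneg_right _ hLk.le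
        nlinarith
    _ ≤ (1 - δ / 2) * ((1 - η) ^ k * (Real.log X) ^ k) := by
        rw [mul_assoc]
        apply mul_le_mul_of_nonneg_left _ (by linarith)
        exact mul_le_mul_of_nonneg_right hb hLk.le
    _ ≤ (1 - δ / 2) * (Real.log (X / 3)) ^ k := mul_le_mul_of_nonneg_left hc (by linarith)

theorem fin2 (hA : S_KA) (k : ℕ) (g : Fin k → ℤ[X]) (hg : Sys g) (Λ ε : ℝ)
    (hΛ : 1 ≤ Λ) (hε : 0 < ε) :
    ∃ δ κ K : ℝ, 0 < δ ∧ δ < 1 ∧ 0 < κ ∧ ∃ X₀ : ℕ, ∀ X : ℕ, X₀ ≤ X → ∀ h w : ℕ,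
      K * (Real.log X) ^ k ≤ h → (h : ℝ) ≤ (Real.log X) ^ Λ → Real.log X ≤ w → (w : ℝ) ≤ (X : ℝ) ^ (1 / 5 : ℝ) →
      κ * (X : ℝ) ^ k ≤ Nat.card {c : Fin k → ℕ // (∀ i, c i ∈ Icc 1 X) ∧ 0 < bhk g (prs w) (zv c) ∧
        ∃ u : ℕ, (u : ℝ) ≤ Real.exp ((Real.log X) ^ ε) ∧
          (1 + δ) * (bhk g (prs w) (zv c) * (h / (Real.log X) ^ k)) ≤ cntk g (zv c) u h} ∧
      κ * (X : ℝ) ^ k ≤ Nat.card {c : Fin k → ℕ // (∀ i, c i ∈ Icc 1 X) ∧ 0 < bhk g (prs w) (zv c) ∧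
        ∃ u : ℕ, (u : ℝ) ≤ Real.exp ((Real.log X) ^ ε) ∧
          (cntk g (zv c) u h : ℝ) ≤ (1 - δ) * (bhk g (prs w) (zv c) * (h / (Real.log X) ^ k))} := by
  set e := min ε 1 / 2 with he
  have he0 : 0 < e := by rw [he]; have := lt_min hε one_pos; linarith
  have he1 : e ≤ 1 / 2 := by rw [he]; have := min_le_right ε 1; linarith
  have he2 : 2 * e ≤ ε := by rw [he]; have := min_le_left ε 1; linarith
  obtain ⟨δ, κ, K, X0, hδ, hδ1, hκ, hmain⟩ := hA k g Λ e hg hΛ he0 he1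
  refine ⟨δ / 2, κ / 3 ^ k, |K|, by positivity, by linarith, by positivity, ?_⟩
  have hev : ∀ᶠ X : ℝ in atTop, X0 ≤ X / 3 ∧ 4 ≤ X ∧
      (Real.log X) ^ Λ ≤ 2 * (Real.log (X / 3)) ^ Λ ∧ X ^ (1 / 5 : ℝ) ≤ (X / 3) ^ (1 / 4 : ℝ) ∧
      5 * (Real.log (X / 3)) ^ e ≤ (Real.log X) ^ ε ∧
      (1 - δ) * (Real.log X) ^ k ≤ (1 - δ / 2) * (Real.log (X / 3)) ^ k := by
    filter_upwards [eventually_ge_atTop (3 * X0), eventually_ge_atTop (4 : ℝ), ev_h Λ hΛ, ev_w, ev_u ε e he0 he2,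
      ev_dk k δ hδ hδ1] with X h1 h2 h3 h4 h5 h6
    exact ⟨by linarith, h2, h3, h4, h5, h6⟩
  obtain ⟨X₀, hX₀⟩ := eventually_atTop.1 (tendsto_natCast_atTop_atTop.eventually hev)
  refine ⟨X₀, ?_⟩
  intro X hX h w hK hh hw1 hw2
  obtain ⟨h1, h2, h3, h4, h5, h6⟩ := hX₀ X hX
  have hX0 : (0 : ℝ) < X := by linarith
  have hlog3 : 0 < Real.log ((X : ℝ) / 3) := Real.log_pos (by linarith)
  have hlogle : Real.log ((X : ℝ) / 3) ≤ Real.log X := Real.log_le_log (by positivity) (by linarith)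
  have hlog : 0 < Real.log (X : ℝ) := lt_of_lt_of_le hlog3 hlogle
  have hlog3k : 0 < (Real.log ((X : ℝ) / 3)) ^ k := by positivity
  have hlogk : 0 < (Real.log (X : ℝ)) ^ k := by positivity
  have hlekk : (Real.log ((X : ℝ) / 3)) ^ k ≤ (Real.log (X : ℝ)) ^ k := pow_le_pow_left₀ hlog3.le hlogle k
  have hKK : K * (Real.log ((X : ℝ) / 3)) ^ k ≤ h := by
    refine le_trans ?_ hK
    calc K * (Real.log ((X : ℝ) / 3)) ^ k ≤ |K| * (Real.log ((X : ℝ) / 3)) ^ k :=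
          mul_le_mul_of_nonneg_right (le_abs_self K) hlog3k.le
      _ ≤ |K| * (Real.log X) ^ k := mul_le_mul_of_nonneg_left hlekk (abs_nonneg K)
  obtain ⟨ha, hb⟩ := hmain ((X : ℝ) / 3) h1 h w hKK (le_trans hh h3) (le_trans hlogle hw1) (le_trans hw2 h4)
  have hfl : ⌊3 * ((X : ℝ) / 3)⌋₊ = X := by
    rw [mul_div_cancel₀ _ (by norm_num : (3 : ℝ) ≠ 0)]; exact Nat.floor_natCast X
  have hexp : ∀ u : ℕ, (u : ℝ) ≤ Real.exp (5 * (Real.log ((X : ℝ) / 3)) ^ e) →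
      (u : ℝ) ≤ Real.exp ((Real.log X) ^ ε) := fun u hu => le_trans hu (Real.exp_le_exp.2 h5)
  have hh0 : (0 : ℝ) ≤ h := Nat.cast_nonneg h
  have hmem : ∀ c : ℕ, c ∈ Ioc ⌊(X : ℝ) / 3⌋₊ ⌊3 * ((X : ℝ) / 3)⌋₊ → c ∈ Icc 1 X := by
    intro c hc
    rw [hfl, mem_Ioc] at hc
    rw [mem_Icc]
    omega
  have hfin : ∀ Q : (Fin k → ℕ) → Prop, Finite {c : Fin k → ℕ // (∀ i, c i ∈ Icc 1 X) ∧ Q c} := fun Q =>
    Finite.of_injective (fun c => (⟨c.1, Fintype.mem_piFinset.2 c.2.1⟩ :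
      {c : Fin k → ℕ // c ∈ Fintype.piFinset (fun _ : Fin k => Icc 1 X)}))
      (fun a b hab => Subtype.ext (congrArg (fun z :
        {c : Fin k → ℕ // c ∈ Fintype.piFinset (fun _ : Fin k => Icc 1 X)} => z.1) hab))
  have hk3 : κ / 3 ^ k * (X : ℝ) ^ k = κ * ((X : ℝ) / 3) ^ k := by rw [div_pow]; ring
  constructor
  · rw [hk3]
    refine le_trans ha ?_
    have := hfin (fun c => 0 < bhk g (prs w) (zv c) ∧ ∃ u : ℕ, (u : ℝ) ≤ Real.exp ((Real.log X) ^ ε) ∧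
      (1 + δ / 2) * (bhk g (prs w) (zv c) * (h / (Real.log X) ^ k)) ≤ cntk g (zv c) u h)
    apply Nat.cast_le.2
    refine Nat.card_le_card_of_injective (fun c => ⟨c.1, fun i => hmem _ (c.2.1 i), c.2.2.1, ?_⟩) ?_
    · obtain ⟨u, hu1, hu2⟩ := c.2.2.2
      refine ⟨u, hexp u hu1, le_trans ?_ hu2⟩
      have hpos := c.2.2.1
      have h7 : (h : ℝ) / (Real.log X) ^ k ≤ h / (Real.log ((X : ℝ) / 3)) ^ k :=
        div_le_div_of_nonneg_left hh0 hlog3k hlekk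
      have h8 : 0 ≤ (h : ℝ) / (Real.log X) ^ k := div_nonneg hh0 hlogk.le
      have h9 : bhk g (prs w) (zv c.1) * (h / (Real.log X) ^ k) ≤
          bhk g (prs w) (zv c.1) * (h / (Real.log ((X : ℝ) / 3)) ^ k) := mul_le_mul_of_nonneg_left h7 hpos.le
      have h10 : 0 ≤ bhk g (prs w) (zv c.1) * (h / (Real.log X) ^ k) := mul_nonneg hpos.le h8
      nlinarith
    · intro a b hab
      exact Subtype.ext (by simpa using congrArg Subtype.val hab)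
  · rw [hk3]
    refine le_trans hb ?_
    have := hfin (fun c => 0 < bhk g (prs w) (zv c) ∧ ∃ u : ℕ, (u : ℝ) ≤ Real.exp ((Real.log X) ^ ε) ∧
      (cntk g (zv c) u h : ℝ) ≤ (1 - δ / 2) * (bhk g (prs w) (zv c) * (h / (Real.log X) ^ k)))
    apply Nat.cast_le.2
    refine Nat.card_le_card_of_injective (fun c => ⟨c.1, fun i => hmem _ (c.2.1 i), c.2.2.1, ?_⟩) ?_
    · obtain ⟨u, hu1, hu2⟩ := c.2.2.2
      refine ⟨u, hexp u hu1, le_trans hu2 ?_⟩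
      have hpos := c.2.2.1
      have h7 : (1 - δ) * (h / (Real.log ((X : ℝ) / 3)) ^ k) ≤ (1 - δ / 2) * (h / (Real.log X) ^ k) := by
        rw [← mul_div_assoc, ← mul_div_assoc, div_le_div_iff₀ hlog3k hlogk]
        nlinarith
      calc (1 - δ) * (bhk g (prs w) (zv c.1) * (h / (Real.log ((X : ℝ) / 3)) ^ k))
          = bhk g (prs w) (zv c.1) * ((1 - δ) * (h / (Real.log ((X : ℝ) / 3)) ^ k)) := by ring
        _ ≤ bhk g (prs w) (zv c.1) * ((1 - δ / 2) * (h / (Real.log X) ^ k)) :=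
            mul_le_mul_of_nonneg_left h7 hpos.le
        _ = _ := by ring
    · intro a b hab
      exact Subtype.ext (by simpa using congrArg Subtype.val hab)

end Pool.Agent.N785.MG
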