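import Pool.Agent.N785.MG.Stm2

/-!
Project MG (helper785), part GB (helper401): size and injectivity of the values of the polynomials
in the windows.
-/

set_option autoImplicit false

open Finset Polynomial Filter Topology
open Pool.Agent.H378R2 (Phi GoodP GoodS z2)

namespace Pool.Agent.N785.MG

namespace GB_

/-- a real polynomial with positive leading coefficient is eventually positive -/
theorem ev_pos (P : ℝ[X]) (hP : 0 < P.leadingCoeff) : ∀ᶠ x : ℝ in atTop, 0 < P.eval x := by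
  rcases Nat.eq_zero_or_pos P.natDegree with h0 | h0
  · refine Eventually.of_forall fun x => ?_
    rw [Polynomial.eq_C_of_natDegree_eq_zero h0, eval_C]
    have : P.leadingCoeff = P.coeff 0 := by rw [leadingCoeff, h0]
    rwa [← this]
  · have h1 : 0 < P.degree := Polynomial.natDegree_pos_iff_degree_pos.1 h0
    exact (P.tendsto_atTop_of_leadingCoeff_nonneg h1 hP.le).eventually_gt_atTop 0

theorem mono_pos (f : ℤ[X]) (hd : 0 < f.natDegree) (hl : 0 < f.leadingCoeff) :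
    ∃ m0 : ℕ, (∀ m : ℕ, m0 ≤ m → 0 < f.eval (m : ℤ)) ∧
      ∀ m m' : ℕ, m0 ≤ m → m < m' → f.eval (m : ℤ) < f.eval (m' : ℤ) := by
  set F : ℝ[X] := f.map (Int.castRingHom ℝ) with hF
  have hinj : Function.Injective (Int.castRingHom ℝ) := Int.cast_injective
  have hFd : F.natDegree = f.natDegree := natDegree_map_eq_of_injective hinj f
  have hFl : F.leadingCoeff = (f.leadingCoeff : ℝ) := by
    rw [leadingCoeff, hFd, hF, coeff_map]
    rfl
  have hFl0 : 0 < F.leadingCoeff := by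
    rw [hFl]; exact_mod_cast hl
  have heval : ∀ m : ℕ, F.eval (m : ℝ) = ((f.eval (m : ℤ) : ℤ) : ℝ) := by
    intro m
    have e1 : (m : ℝ) = Int.castRingHom ℝ (m : ℤ) := by simp
    rw [hF, eval_map, e1, Polynomial.eval₂_at_apply]
    rfl
  have hF'l : 0 < (derivative F).leadingCoeff := by
    have h1 : (derivative F).natDegree = F.natDegree - 1 := natDegree_derivative F
    rw [leadingCoeff, h1, coeff_derivative]
    have h2 : F.natDegree - 1 + 1 = F.natDegree := by omega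
    rw [h2]
    have h3 : 0 < F.coeff F.natDegree := hFl0
    positivity
  obtain ⟨a, ha⟩ := eventually_atTop.1 (ev_pos F hFl0)
  obtain ⟨b, hb⟩ := eventually_atTop.1 (ev_pos (derivative F) hF'l)
  refine ⟨⌈max a b⌉₊, fun m hm => ?_, fun m m' hm hmm' => ?_⟩
  · have h1 : max a b ≤ (m : ℝ) := (Nat.le_ceil _).trans (by exact_mod_cast hm)
    have h2 := ha m ((le_max_left _ _).trans h1)
    rw [heval] at h2
    exact_mod_cast h2
  · have h1 : max a b ≤ (m : ℝ) := (Nat.le_ceil _).trans (by exact_mod_cast hm)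
    have h2 : StrictMonoOn (fun x => F.eval x) (Set.Ici (max a b)) := by
      refine strictMonoOn_of_deriv_pos (convex_Ici _) F.continuous.continuousOn ?_
      intro x hx
      rw [interior_Ici] at hx
      rw [Polynomial.deriv]
      exact hb x ((le_max_right _ _).trans (le_of_lt hx))
    have h3 : (m : ℝ) < (m' : ℝ) := by exact_mod_cast hmm'
    have h4 := h2 (Set.mem_Ici.2 h1) (Set.mem_Ici.2 (h1.trans h3.le)) h3
    simp only at h4
    rw [heval, heval] at h4
    exact_mod_cast h4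

theorem poly_bd (f : ℤ[X]) : ∃ C : ℝ, 1 ≤ C ∧ ∀ m : ℕ, 1 ≤ m →
    ((f.eval (m : ℤ) : ℤ) : ℝ) ≤ C * (m : ℝ) ^ f.natDegree := by
  refine ⟨1 + ∑ i ∈ range (f.natDegree + 1), |(f.coeff i : ℝ)|, ?_, fun m hm => ?_⟩
  · have : 0 ≤ ∑ i ∈ range (f.natDegree + 1), |(f.coeff i : ℝ)| :=
      Finset.sum_nonneg fun i _ => abs_nonneg _
    linarith
  · have hm1 : (1 : ℝ) ≤ m := by exact_mod_cast hm
    rw [eval_eq_sum_range]
    push_cast
    have h1 : ∑ i ∈ range (f.natDegree + 1), (f.coeff i : ℝ) * (m : ℝ) ^ i ≤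
        ∑ i ∈ range (f.natDegree + 1), |(f.coeff i : ℝ)| * (m : ℝ) ^ f.natDegree := by
      refine Finset.sum_le_sum fun i hi => ?_
      have h2 : (m : ℝ) ^ i ≤ (m : ℝ) ^ f.natDegree :=
        pow_le_pow_right₀ hm1 (Nat.lt_succ_iff.1 (mem_range.1 hi))
      calc (f.coeff i : ℝ) * (m : ℝ) ^ i ≤ |(f.coeff i : ℝ)| * (m : ℝ) ^ i :=
            mul_le_mul_of_nonneg_right (le_abs_self _) (by positivity)
        _ ≤ _ := mul_le_mul_of_nonneg_left h2 (abs_nonneg _)
    rw [← Finset.sum_mul] at h1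
    have h3 : 0 ≤ (m : ℝ) ^ f.natDegree := by positivity
    linarith

theorem tendsto_zz (ε : ℝ) (hε : 0 < ε) : Tendsto (fun X : ℝ => (Real.log X) ^ ε) atTop atTop :=
  (tendsto_rpow_atTop hε).comp Real.tendsto_log_atTop

theorem ev_prm (ε : ℝ) (hε : 0 < ε) (m0 : ℕ) : ∀ᶠ X : ℝ in atTop, ∀ (ps : ℕ) (S : Finset ℕ),
    GoodS X S → m0 ≤ prm (PM X ε S ps) := by
  obtain ⟨p1, hp1, hp1'⟩ := Nat.exists_infinite_primes m0
  obtain ⟨p2, hp2, hp2'⟩ := Nat.exists_infinite_primes (p1 + 1)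
  have h1 : ∀ᶠ X : ℝ in atTop, (p2 : ℝ) ≤ (Real.log X) ^ ε :=
    (tendsto_zz ε hε).eventually_ge_atTop _
  have h2 : ∀ᶠ X : ℝ in atTop, (p2 : ℝ) ≤ (Real.log (Real.log X)) ^ 3 := by
    have h3 : Tendsto (fun X : ℝ => (Real.log (Real.log X)) ^ 3) atTop atTop :=
      (tendsto_pow_atTop (by norm_num)).comp (Real.tendsto_log_atTop.comp Real.tendsto_log_atTop)
    exact h3.eventually_ge_atTop _
  filter_upwards [h1, h2] with X hX1 hX2 ps S hS
  have hz : p2 ≤ zz X ε := Nat.le_floor hX1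
  have hz2 : p2 ≤ z2 X := by
    unfold z2
    exact_mod_cast hX2.trans (Nat.le_ceil _)
  have hmem : ∀ p : ℕ, p.Prime → p ≤ p2 → p ≠ ps → p ∈ PM X ε S ps := by
    intro p hp hpp hps
    refine mem_filter.2 ⟨mem_Icc.2 ⟨hp.one_lt.le, hpp.trans hz⟩, hp, ?_, hps⟩
    intro hpS
    have := (hS.1 p hpS).2.1
    omega
  have hle : ∀ p ∈ PM X ε S ps, p ≤ prm (PM X ε S ps) := by
    intro p hp
    refine Nat.le_of_dvd ?_ (Finset.dvd_prod_of_mem (fun p => p) hp)
    exact Finset.prod_pos fun q hq => ((mem_filter.1 hq).2.1).pos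
  by_cases h : p1 = ps
  · have h3 : p2 ≠ ps := by omega
    have := hle p2 (hmem p2 hp2' le_rfl h3)
    omega
  · have := hle p1 (hmem p1 hp1' (by omega) h)
    omega

theorem ev_rpow (Λ ε : ℝ) (hε : 0 < ε) : ∀ᶠ X : ℝ in atTop,
    (Real.log X) ^ Λ ≤ Real.exp ((Real.log X) ^ ε) := by
  have h1 : ∀ᶠ L : ℝ in atTop, L ^ Λ ≤ Real.exp (L ^ ε) := by
    have h2 := (isLittleO_log_rpow_atTop hε).def (c := 1 / (|Λ| + 1)) (by positivity)
    filter_upwards [h2, eventually_ge_atTop 1] with L hL hL1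
    have hL0 : 0 < L := by linarith
    rw [Real.norm_eq_abs, Real.norm_eq_abs, abs_of_nonneg (Real.log_nonneg hL1),
      abs_of_nonneg (Real.rpow_nonneg hL0.le _)] at hL
    rw [Real.rpow_def_of_pos hL0]
    refine Real.exp_le_exp.2 ?_
    have h3 : 0 ≤ Real.log L := Real.log_nonneg hL1
    have h4 : 0 < |Λ| + 1 := by positivity
    have h5 : (|Λ| + 1) * Real.log L ≤ L ^ ε := by
      rw [div_mul_eq_mul_div, one_mul, le_div_iff₀ h4] at hL
      linarith
    have h6 : Λ ≤ |Λ| + 1 := by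
      have := le_abs_self Λ
      linarith
    calc Real.log L * Λ ≤ Real.log L * (|Λ| + 1) := mul_le_mul_of_nonneg_left h6 h3
      _ ≤ L ^ ε := by rw [mul_comm]; exact h5
  exact Real.tendsto_log_atTop.eventually h1

theorem single (hW : S_WM) (f : ℤ[X]) (hd : 0 < f.natDegree) (hl : 0 < f.leadingCoeff)
    (Λ ε : ℝ) (hε : 0 < ε) (hε2 : ε ≤ 1 / 2) : ∃ A : ℝ, 0 < A ∧ ∀ᶠ X : ℝ in atTop,
    ∀ (ps : ℕ) (S : Finset ℕ), GoodS X S → ∀ u h : ℕ,
      prm (PM X ε S ps) ≤ u → u ≤ 3 * prm (PM X ε S ps) → (h : ℝ) ≤ (Real.log X) ^ Λ →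
      (∀ r ∈ Icc 1 h, 0 < f.eval ((u + r : ℕ) : ℤ) ∧
        ((f.eval ((u + r : ℕ) : ℤ) : ℤ) : ℝ) ≤ Real.exp (A * (Real.log X) ^ ε)) ∧
      (∀ r ∈ Icc 1 h, ∀ r' ∈ Icc 1 h, r ≠ r' →
        f.eval ((u + r : ℕ) : ℤ) ≠ f.eval ((u + r' : ℕ) : ℤ)) := by
  obtain ⟨m0, hpos, hmono⟩ := mono_pos f hd hl
  obtain ⟨C, hC1, hC⟩ := poly_bd f
  obtain ⟨c, X1, -, hX1⟩ := hW ε hε hε2
  refine ⟨3 * f.natDegree + 1, by positivity, ?_⟩
  filter_upwards [ev_prm ε hε m0, ev_rpow Λ ε hε, eventually_ge_atTop X1,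
    (tendsto_zz ε hε).eventually_ge_atTop (Real.log 4),
    (tendsto_zz ε hε).eventually_ge_atTop (Real.log C)] with X h1 h2 h3 h4 h5
  intro ps S hS u h hu1 hu2 hh
  have hm0 := h1 ps S hS
  have hprm := (hX1 X h3 ps S).1
  have hinc : ∀ r r' : ℕ, 1 ≤ r → r < r' →
      f.eval ((u + r : ℕ) : ℤ) < f.eval ((u + r' : ℕ) : ℤ) := by
    intro r r' _ hrr'
    exact hmono (u + r) (u + r') (by omega) (by omega)
  refine ⟨fun r hr => ⟨hpos (u + r) (by omega), ?_⟩, fun r hr r' hr' hne => ?_⟩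
  · have hr1 := (mem_Icc.1 hr).1
    have hr2 := (mem_Icc.1 hr).2
    refine (hC (u + r) (by omega)).trans ?_
    set E := (Real.log X) ^ ε with hE
    have hur : ((u + r : ℕ) : ℝ) ≤ Real.exp (3 * E) := by
      have e1 : (u : ℝ) ≤ 3 * Real.exp (2 * E) := by
        have : (u : ℝ) ≤ 3 * (prm (PM X ε S ps) : ℝ) := by exact_mod_cast hu2
        linarith
      have e2 : (r : ℝ) ≤ Real.exp E := by
        have : (r : ℝ) ≤ (h : ℝ) := by exact_mod_cast hr2
        linarith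
      have hE0 : 0 ≤ E := by
        have : 0 ≤ Real.log 4 := Real.log_nonneg (by norm_num)
        linarith
      have e3 : Real.exp E ≤ Real.exp (2 * E) := Real.exp_le_exp.2 (by linarith)
      have e4 : (4 : ℝ) ≤ Real.exp E := by
        rw [← Real.exp_log (show (0 : ℝ) < 4 by norm_num)]
        exact Real.exp_le_exp.2 h4
      have e5 : Real.exp (3 * E) = Real.exp E * Real.exp (2 * E) := by
        rw [← Real.exp_add]; congr 1; ring
      have e6 : 0 < Real.exp (2 * E) := Real.exp_pos _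
      push_cast
      rw [e5]
      nlinarith
    have hC0 : 0 < C := by linarith
    calc C * ((u + r : ℕ) : ℝ) ^ f.natDegree
        ≤ Real.exp E * (Real.exp (3 * E)) ^ f.natDegree := by
          refine mul_le_mul ?_ (pow_le_pow_left₀ (Nat.cast_nonneg _) hur _) (by positivity)
            (Real.exp_pos _).le
          rw [← Real.exp_log hC0]
          exact Real.exp_le_exp.2 h5
      _ = Real.exp ((3 * f.natDegree + 1) * E) := by
          rw [← Real.exp_nat_mul, ← Real.exp_add]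
          congr 1
          ring
  · rcases lt_or_gt_of_ne hne with hlt | hlt
    · exact (hinc r r' (mem_Icc.1 hr).1 hlt).ne
    · exact (hinc r' r (mem_Icc.1 hr').1 hlt).ne'

end GB_

open GB_ in
theorem t_GB (hW : S_WM) : S_GB := by
  intro k g Λ ε hg hε hε2
  choose A hA0 hA using fun i => single hW (g i) (hg.2 i).1 (hg.2 i).2 Λ ε hε hε2
  have hB0 : 0 ≤ ∑ i, A i := Finset.sum_nonneg fun i _ => (hA0 i).le
  set B := 1 + ∑ i, A i with hB
  have hBpos : 0 < B := by linarith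
  have hAB : ∀ i, A i ≤ B := by
    intro i
    have := Finset.single_le_sum (f := A) (fun i _ => (hA0 i).le) (Finset.mem_univ i)
    linarith
  have hall := eventually_all.2 hA
  have hlog : ∀ᶠ X : ℝ in atTop, max 1 ((10 * B) ^ 2) ≤ Real.log X :=
    Real.tendsto_log_atTop.eventually_ge_atTop _
  obtain ⟨X0, hX0⟩ := eventually_atTop.1 (hall.and (hlog.and (eventually_gt_atTop 0)))
  refine ⟨B, X0, hBpos, fun X hX ps S hS u h hu1 hu2 hh => ?_⟩
  obtain ⟨h1, h2, h3⟩ := hX0 X hX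
  have hL1 : 1 ≤ Real.log X := (le_max_left _ _).trans h2
  have hLB : (10 * B) ^ 2 ≤ Real.log X := (le_max_right _ _).trans h2
  have hE0 : 0 ≤ (Real.log X) ^ ε := Real.rpow_nonneg (by linarith) _
  have hle : ∀ i, Real.exp (A i * (Real.log X) ^ ε) ≤ Real.exp (B * (Real.log X) ^ ε) := fun i =>
    Real.exp_le_exp.2 (mul_le_mul_of_nonneg_right (hAB i) hE0)
  have hX10 : Real.exp (B * (Real.log X) ^ ε) ≤ X ^ (1 / 10 : ℝ) := by
    rw [Real.rpow_def_of_pos h3]
    refine Real.exp_le_exp.2 ?_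
    have e1 : (Real.log X) ^ ε ≤ Real.sqrt (Real.log X) := by
      rw [Real.sqrt_eq_rpow]
      exact Real.rpow_le_rpow_of_exponent_le hL1 hε2
    have e2 : 10 * B ≤ Real.sqrt (Real.log X) := Real.le_sqrt_of_sq_le hLB
    have e3 : Real.sqrt (Real.log X) * Real.sqrt (Real.log X) = Real.log X :=
      Real.mul_self_sqrt (by linarith)
    have e4 : 0 ≤ Real.sqrt (Real.log X) := Real.sqrt_nonneg _
    calc B * (Real.log X) ^ ε ≤ B * Real.sqrt (Real.log X) :=
          mul_le_mul_of_nonneg_left e1 hBpos.le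
      _ ≤ Real.log X * (1 / 10) := by nlinarith
  refine ⟨fun i r hr => ?_, fun i r hr r' hr' hne => ?_⟩
  · have h4 := (h1 i ps S hS u h hu1 hu2 hh).1 r hr
    exact ⟨h4.1, h4.2.trans (hle i), (h4.2.trans (hle i)).trans hX10⟩
  · exact (h1 i ps S hS u h hu1 hu2 hh).2 r hr r' hr' hne

end Pool.Agent.N785.MG
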