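import Pool.Agent.N785.MG.Stm2

/-!
Project MG (helper785), second part, K2 (helper169): the mean factors `eek g p r` for systems of polynomials
(port of T2 by helper490).
-/

set_option autoImplicit false

open Finset Polynomial

namespace Pool.Agent.N785.MG

namespace K2_

theorem dvd_per (g : ℤ[X]) (p : ℕ) (γ : ℤ) (m : ℕ) :
    (p : ℤ) ∣ g.eval ((m + p : ℕ) : ℤ) + γ ↔ (p : ℤ) ∣ g.eval (m : ℤ) + γ := by
  have h : (p : ℤ) ∣ (g.eval ((m + p : ℕ) : ℤ) + γ) - (g.eval (m : ℤ) + γ) := by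
    have h1 := g.sub_dvd_eval_sub ((m + p : ℕ) : ℤ) (m : ℤ)
    have e1 : ((m + p : ℕ) : ℤ) - m = p := by push_cast; ring
    rw [e1] at h1
    have e2 : (g.eval ((m + p : ℕ) : ℤ) + γ) - (g.eval (m : ℤ) + γ) =
      g.eval ((m + p : ℕ) : ℤ) - g.eval (m : ℤ) := by ring
    rw [e2]
    exact h1
  exact dvd_iff_dvd_of_dvd_sub h

theorem bad_per {k : ℕ} (g : Fin k → ℤ[X]) (c : Fin k → ℤ) (p m : ℕ) :
    Bad g c p (m + p) ↔ Bad g c p m := by
  unfold Bad
  exact exists_congr fun i => dvd_per (g i) p (c i) m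

theorem card_shift {p : ℕ} (P : ℕ → Prop) [DecidablePred P] (hP : ∀ m, P (m + p) ↔ P m) (t : ℕ) :
    ((range p).filter (fun r => P (t + r))).card = ((range p).filter P).card := by
  have h1 := Nat.filter_Ico_card_eq_of_periodic t p P (fun m => propext (hP m))
  rw [Nat.count_eq_card_filter_range] at h1
  rw [← h1]
  refine card_bij (fun r _ => t + r) ?_ ?_ ?_
  · intro r hr
    rw [mem_filter, mem_range] at hr
    rw [mem_filter, mem_Ico]
    exact ⟨⟨by omega, by omega⟩, hr.2⟩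
  · intro a _ b _ hab
    omega
  · intro x hx
    rw [mem_filter, mem_Ico] at hx
    refine ⟨x - t, ?_, by omega⟩
    rw [mem_filter, mem_range]
    have e : t + (x - t) = x := by omega
    rw [e]
    exact ⟨by omega, hx.2⟩

/-! ### Counting vectors -/

theorem card_box (k p : ℕ) : (box k p).card = p ^ k := by
  unfold box
  rw [Fintype.card_piFinset_const, card_range]

theorem card_le_pow {k p : ℕ} (s : Fin k → Finset ℕ) (i : Fin k) (hi : (s i).card ≤ 1)
    (hs : ∀ l, (s l).card ≤ p) : p * (Fintype.piFinset s).card ≤ p ^ k := by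
  rw [Fintype.card_piFinset, ← Finset.mul_prod_erase univ _ (mem_univ i)]
  calc p * ((s i).card * ∏ l ∈ univ.erase i, (s l).card)
      ≤ p * (1 * ∏ l ∈ univ.erase i, p) := by
        refine Nat.mul_le_mul_left _ (Nat.mul_le_mul hi (prod_le_prod' fun l _ => hs l))
    _ = p * ∏ l ∈ univ.erase i, p := by rw [one_mul]
    _ = ∏ l : Fin k, p := Finset.mul_prod_erase univ (fun _ => p) (mem_univ i)
    _ = p ^ k := by rw [prod_const, card_univ, Fintype.card_fin]

theorem card_le_pow2 {k p : ℕ} (s : Fin k → Finset ℕ) (i j : Fin k) (hij : j ≠ i) (hi : (s i).card ≤ 1)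
    (hj : (s j).card ≤ 1) (hs : ∀ l, (s l).card ≤ p) : p * (p * (Fintype.piFinset s).card) ≤ p ^ k := by
  have hj' : j ∈ univ.erase i := mem_erase.2 ⟨hij, mem_univ j⟩
  rw [Fintype.card_piFinset, ← Finset.mul_prod_erase univ _ (mem_univ i),
    ← Finset.mul_prod_erase (univ.erase i) _ hj']
  calc p * (p * ((s i).card * ((s j).card * ∏ l ∈ (univ.erase i).erase j, (s l).card)))
      ≤ p * (p * (1 * (1 * ∏ l ∈ (univ.erase i).erase j, p))) := by
        refine Nat.mul_le_mul_left _ (Nat.mul_le_mul_left _ (Nat.mul_le_mul hi (Nat.mul_le_mul hj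
          (prod_le_prod' fun l _ => hs l))))
    _ = p * (p * ∏ l ∈ (univ.erase i).erase j, p) := by rw [one_mul, one_mul]
    _ = p * ∏ l ∈ univ.erase i, p := by rw [Finset.mul_prod_erase (univ.erase i) (fun _ => p) hj']
    _ = ∏ l : Fin k, p := Finset.mul_prod_erase univ (fun _ => p) (mem_univ i)
    _ = p ^ k := by rw [prod_const, card_univ, Fintype.card_fin]

/-- exactly one class `c` modulo `p` with `p ∣ a + c` -/
theorem card_one {p : ℕ} (hp : 0 < p) (a : ℤ) :
    ((range p).filter (fun c : ℕ => (p : ℤ) ∣ a + c)).card = 1 := by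
  rw [card_eq_one]
  have hp' : (0 : ℤ) < p := by exact_mod_cast hp
  refine ⟨((-a) % p).toNat, ?_⟩
  have h0 : 0 ≤ (-a) % (p : ℤ) := Int.emod_nonneg _ hp'.ne'
  have h1 : (-a) % (p : ℤ) < p := Int.emod_lt_of_pos _ hp'
  have h2 : (((-a) % (p : ℤ)).toNat : ℤ) = (-a) % p := Int.toNat_of_nonneg h0
  have h3 : (p : ℤ) ∣ a + (-a) % p := by
    have : (p : ℤ) ∣ -a - (-a) % p := Int.dvd_self_sub_emod
    have h4 := (dvd_neg).2 this
    have e : -(-a - (-a) % (p : ℤ)) = a + (-a) % p := by ring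
    rwa [e] at h4
  ext c
  rw [mem_filter, mem_range, mem_singleton]
  constructor
  · rintro ⟨hc, hd⟩
    have h5 : (p : ℤ) ∣ (c : ℤ) - (-a) % p := by
      have := dvd_sub hd h3
      have e : a + (c : ℤ) - (a + (-a) % (p : ℤ)) = (c : ℤ) - (-a) % p := by ring
      rwa [e] at this
    have hc' : (c : ℤ) < p := by exact_mod_cast hc
    have h6 := Int.eq_zero_of_abs_lt_dvd h5 (by
      rw [abs_lt]
      constructor <;> omega)
    omega
  · intro hc
    subst hc
    refine ⟨by omega, ?_⟩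
    rw [h2]
    exact h3

theorem card_not {p : ℕ} (hp : 0 < p) (a : ℤ) :
    ((range p).filter (fun c : ℕ => ¬ (p : ℤ) ∣ a + c)).card = p - 1 := by
  have h3 := card_filter_add_card_filter_not (s := range p) (fun c : ℕ => (p : ℤ) ∣ a + c)
  rw [card_range, card_one hp] at h3
  omega

open Classical in
/-- number of the vectors `γ` with `t` bad -/
theorem card_bad {k : ℕ} (g : Fin k → ℤ[X]) {p : ℕ} (hp : 0 < p) (t : ℕ) :
    ((box k p).filter (fun γ => Bad g (zv γ) p t)).card + (p - 1) ^ k = p ^ k := by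
  have h3 := card_filter_add_card_filter_not (s := box k p) (fun γ => Bad g (zv γ) p t)
  rw [card_box] at h3
  rw [← h3]
  congr 1
  have e : (box k p).filter (fun γ => ¬ Bad g (zv γ) p t) =
      Fintype.piFinset (fun i => (range p).filter (fun c : ℕ => ¬ (p : ℤ) ∣ (g i).eval (t : ℤ) + c)) := by
    ext γ
    simp only [box, mem_filter, Fintype.mem_piFinset, Bad, zv, not_exists]
    exact forall_and.symm
  rw [e, Fintype.card_piFinset]
  rw [prod_congr rfl fun i _ => card_not hp ((g i).eval (t : ℤ)), prod_const, card_univ, Fintype.card_fin]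

open Classical in
theorem sum_nuk {k : ℕ} (g : Fin k → ℤ[X]) {p : ℕ} (hp : 0 < p) :
    (∑ γ ∈ box k p, (nuk g p (zv γ) : ℝ)) / (p : ℝ) ^ k = p * (1 - (1 - 1 / (p : ℝ)) ^ k) := by
  have hp0 : (0 : ℝ) < p := by exact_mod_cast hp
  have h1 : ∀ γ ∈ box k p, (nuk g p (zv γ) : ℝ) = ∑ t ∈ range p, if Bad g (zv γ) p t then (1 : ℝ) else 0 := by
    intro γ _
    rw [sum_boole]
    rfl
  rw [sum_congr rfl h1, sum_comm]
  have h2 : ∀ t ∈ range p, ∑ γ ∈ box k p, (if Bad g (zv γ) p t then (1 : ℝ) else 0) =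
      (p : ℝ) ^ k - ((p : ℝ) - 1) ^ k := by
    intro t _
    rw [sum_boole]
    have h3 := card_bad g hp t
    have h4 : ((((box k p).filter (fun γ => Bad g (zv γ) p t)).card + (p - 1) ^ k : ℕ) : ℝ) =
        ((p ^ k : ℕ) : ℝ) := by rw [h3]
    push_cast [Nat.cast_sub (show 1 ≤ p from hp)] at h4
    linarith
  rw [sum_congr rfl h2, sum_const, card_range, nsmul_eq_mul]
  have e : 1 - 1 / (p : ℝ) = (p - 1) / p := by field_simp
  rw [e, div_pow]
  field_simp

theorem pow_upper (x : ℝ) (hx0 : 0 ≤ x) (hx1 : x ≤ 1) (k : ℕ) :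
    (1 - x) ^ k ≤ 1 - k * x + (k : ℝ) ^ 2 * x ^ 2 := by
  induction k with
  | zero => simp
  | succ k ih =>
    rw [pow_succ]
    calc (1 - x) ^ k * (1 - x) ≤ (1 - k * x + (k : ℝ) ^ 2 * x ^ 2) * (1 - x) :=
          mul_le_mul_of_nonneg_right ih (by linarith)
      _ ≤ 1 - ((k + 1 : ℕ) : ℝ) * x + ((k + 1 : ℕ) : ℝ) ^ 2 * x ^ 2 := by
          push_cast
          have hk : (0 : ℝ) ≤ k := Nat.cast_nonneg k
          have h1 : 0 ≤ (k : ℝ) ^ 2 * x ^ 3 := by positivity
          have h2 : 0 ≤ (k : ℝ) * x ^ 2 := by positivity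
          have h3 : 0 ≤ x ^ 2 := by positivity
          nlinarith

theorem pow_lower (x : ℝ) (hx1 : x ≤ 1) (k : ℕ) : 1 - k * x ≤ (1 - x) ^ k := by
  have h := one_add_mul_le_pow (a := -x) (by linarith) k
  have e : 1 + (k : ℝ) * -x = 1 - k * x := by ring
  have e2 : (1 : ℝ) + -x = 1 - x := by ring
  rw [e, e2] at h
  exact h

theorem mean_nuk {k : ℕ} (g : Fin k → ℤ[X]) {p : ℕ} (hp : 0 < p) :
    |(∑ γ ∈ box k p, (nuk g p (zv γ) : ℝ)) / (p : ℝ) ^ k - k| ≤ (k : ℝ) ^ 2 / p := by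
  rw [sum_nuk g hp]
  have hp0 : (0 : ℝ) < p := by exact_mod_cast hp
  have hp1 : (1 : ℝ) ≤ p := by exact_mod_cast hp
  have hx0 : 0 ≤ 1 / (p : ℝ) := by positivity
  have hx1 : 1 / (p : ℝ) ≤ 1 := by
    rw [div_le_one hp0]
    exact hp1
  have h1 := pow_upper _ hx0 hx1 k
  have h2 := pow_lower _ hx1 k
  have h3 : (p : ℝ) * (k * (1 / (p : ℝ))) = k := by field_simp
  have h4 : (p : ℝ) * ((k : ℝ) ^ 2 * (1 / (p : ℝ)) ^ 2) = (k : ℝ) ^ 2 / p := by field_simp
  have h5 : (0 : ℝ) ≤ (k : ℝ) ^ 2 / p := by positivity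
  rw [abs_le]
  constructor
  · have := mul_le_mul_of_nonneg_left h1 hp0.le
    nlinarith
  · have := mul_le_mul_of_nonneg_left h2 hp0.le
    nlinarith

/-! ### The factors -/

open Classical in
/-- the number of the bad `t` such that `t + r` is not bad -/
noncomputable def NN {k : ℕ} (g : Fin k → ℤ[X]) (p : ℕ) (γ : Fin k → ℤ) (r : ℕ) : ℕ :=
  ((range p).filter (fun t => Bad g γ p t ∧ ¬ Bad g γ p (t + r))).card

open Classical in
/-- the number of the bad `t` such that `t + r` is bad -/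
noncomputable def BB {k : ℕ} (g : Fin k → ℤ[X]) (p : ℕ) (γ : Fin k → ℤ) (r : ℕ) : ℕ :=
  ((range p).filter (fun t => Bad g γ p t ∧ Bad g γ p (t + r))).card

theorem NN_add_BB {k : ℕ} (g : Fin k → ℤ[X]) (p : ℕ) (γ : Fin k → ℤ) (r : ℕ) :
    BB g p γ r + NN g p γ r = nuk g p γ := by
  classical
  unfold NN BB nuk
  rw [← card_filter_add_card_filter_not (s := (range p).filter (fun t => Bad g γ p t))
    (fun t => Bad g γ p (t + r)), filter_filter, filter_filter]

theorem AA_zero {k : ℕ} {g : Fin k → ℤ[X]} {p : ℕ} {γ : Fin k → ℤ} (h : nuk g p γ = 0) (r : ℕ) :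
    AAk g p γ r = 1 := by
  unfold AAk
  rw [if_pos h, h]
  simp

theorem AA_pos {k : ℕ} {g : Fin k → ℤ[X]} {p : ℕ} {γ : Fin k → ℤ} (h : nuk g p γ ≠ 0) (r : ℕ) :
    AAk g p γ r = (NN g p γ r : ℝ) / nuk g p γ / (1 - (nuk g p γ : ℝ) / p) := by
  unfold AAk
  rw [if_neg h]
  rfl

theorem NN_per {k : ℕ} (g : Fin k → ℤ[X]) (p : ℕ) (γ : Fin k → ℤ) (r : ℕ) :
    NN g p γ (r + p) = NN g p γ r := by
  classical
  unfold NN
  congr 1
  refine filter_congr fun t _ => ?_
  rw [← add_assoc, bad_per]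

theorem sum_NN {k : ℕ} (g : Fin k → ℤ[X]) (p : ℕ) (γ : Fin k → ℤ) :
    ∑ r ∈ range p, (NN g p γ r : ℝ) = nuk g p γ * (p - nuk g p γ) := by
  classical
  have h1 : ∀ r, (NN g p γ r : ℝ) = ∑ t ∈ (range p).filter (fun t => Bad g γ p t),
      if ¬ Bad g γ p (t + r) then (1 : ℝ) else 0 := by
    intro r
    rw [sum_boole, filter_filter]
    unfold NN
    congr
  rw [sum_congr rfl fun r _ => h1 r, sum_comm]
  have h2 : ∀ t ∈ (range p).filter (fun t => Bad g γ p t),
      ∑ r ∈ range p, (if ¬ Bad g γ p (t + r) then (1 : ℝ) else 0) = p - nuk g p γ := by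
    intro t _
    rw [sum_boole, card_shift (p := p) (fun m : ℕ => ¬ Bad g γ p m)
      (fun m => not_congr (bad_per g γ p m)) t]
    have h3 := card_filter_add_card_filter_not (s := range p) (fun m : ℕ => Bad g γ p m)
    rw [card_range] at h3
    have h4 : (((range p).filter (fun m : ℕ => Bad g γ p m)).card : ℝ) +
      ((range p).filter (fun m : ℕ => ¬ Bad g γ p m)).card = p := by exact_mod_cast h3
    have h5 : (nuk g p γ : ℝ) = ((range p).filter (fun m : ℕ => Bad g γ p m)).card := by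
      unfold nuk
      congr
    rw [h5]
    linarith
  rw [sum_congr rfl h2, sum_const, nsmul_eq_mul]
  congr 1

theorem sum_AA {k : ℕ} {g : Fin k → ℤ[X]} {p : ℕ} {γ : Fin k → ℤ} (hp : 0 < p) (h : nuk g p γ < p) :
    ∑ r ∈ range p, AAk g p γ r = p := by
  by_cases h0 : nuk g p γ = 0
  · rw [sum_congr rfl fun r _ => AA_zero h0 r]
    simp
  · rw [sum_congr rfl fun r _ => AA_pos h0 r, ← sum_div, ← sum_div, sum_NN]
    have hp0 : (p : ℝ) ≠ 0 := by exact_mod_cast hp.ne'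
    have hn0 : (nuk g p γ : ℝ) ≠ 0 := by exact_mod_cast h0
    have hpn : (p : ℝ) - nuk g p γ ≠ 0 := by
      have : (nuk g p γ : ℝ) < p := by exact_mod_cast h
      linarith
    have e : 1 - (nuk g p γ : ℝ) / p = (p - nuk g p γ) / p := by
      field_simp
    rw [e]
    field_simp

theorem AA_r0 {k : ℕ} {g : Fin k → ℤ[X]} {p : ℕ} {γ : Fin k → ℤ} (h0 : nuk g p γ ≠ 0) :
    AAk g p γ 0 = 0 := by
  classical
  rw [AA_pos h0]
  have h1 : NN g p γ 0 = 0 := by
    unfold NN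
    rw [card_eq_zero, filter_eq_empty_iff]
    rintro t _ ⟨h1, h2⟩
    rw [add_zero] at h2
    exact h2 h1
  rw [h1]
  simp

theorem AA_sub {k : ℕ} {g : Fin k → ℤ[X]} {p d : ℕ} {γ : Fin k → ℤ} (hp : 0 < p) (h : nuk g p γ ≤ d)
    (hd : 2 * d ≤ p) (r : ℕ) : |AAk g p γ r - 1| ≤ 2 * ((d : ℝ) / p + BB g p γ r) := by
  have hp0 : (0 : ℝ) < p := by exact_mod_cast hp
  by_cases h0 : nuk g p γ = 0
  · rw [AA_zero h0, sub_self, abs_zero]
    positivity
  · rw [AA_pos h0]
    have hn0 : (0 : ℝ) < nuk g p γ := by exact_mod_cast Nat.pos_of_ne_zero h0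
    have hn1 : (1 : ℝ) ≤ nuk g p γ := by exact_mod_cast Nat.pos_of_ne_zero h0
    have hnd : (nuk g p γ : ℝ) ≤ d := by exact_mod_cast h
    have hdp : 2 * (d : ℝ) ≤ p := by exact_mod_cast hd
    have hN : (NN g p γ r : ℝ) = nuk g p γ - BB g p γ r := by
      have : (BB g p γ r : ℝ) + NN g p γ r = nuk g p γ := by exact_mod_cast NN_add_BB g p γ r
      linarith
    obtain ⟨x, hx⟩ : ∃ x : ℝ, x = (nuk g p γ : ℝ) / p := ⟨_, rfl⟩
    obtain ⟨y, hy⟩ : ∃ y : ℝ, y = (BB g p γ r : ℝ) / nuk g p γ := ⟨_, rfl⟩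
    have hx0 : 0 ≤ x := by rw [hx]; positivity
    have hx1 : x ≤ 1 / 2 := by
      rw [hx, div_le_iff₀ hp0]
      linarith
    have hy0 : 0 ≤ y := by rw [hy]; positivity
    have hyB : y ≤ BB g p γ r := by
      rw [hy]
      exact div_le_self (Nat.cast_nonneg _) hn1
    have hxd : x ≤ d / p := by
      rw [hx]
      exact div_le_div_of_nonneg_right hnd hp0.le
    have e1 : (NN g p γ r : ℝ) / nuk g p γ = 1 - y := by
      rw [hN, hy]
      field_simp
    rw [e1, ← hx]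
    have e2 : (1 - y) / (1 - x) - 1 = (x - y) / (1 - x) := by
      have : 1 - x ≠ 0 := by linarith
      field_simp
      ring
    rw [e2, abs_div, abs_of_pos (show 0 < 1 - x by linarith), div_le_iff₀ (by linarith)]
    have h3 : |x - y| ≤ x + y := by
      rw [abs_le]
      constructor <;> linarith
    nlinarith

/-! ### The sum of `BB` over the vectors -/

open Classical in
/-- vectors with `p ∣ g_i(t) + γ_i`, `p ∣ g_j(t+r) + γ_j` -/
noncomputable def VV {k : ℕ} (g : Fin k → ℤ[X]) (p r : ℕ) (i j : Fin k) (t : ℕ) : ℕ :=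
  ((box k p).filter (fun γ => (p : ℤ) ∣ (g i).eval (t : ℤ) + γ i ∧
    (p : ℤ) ∣ (g j).eval ((t + r : ℕ) : ℤ) + γ j)).card

theorem VV_ne {k : ℕ} (g : Fin k → ℤ[X]) {p : ℕ} (hp : 0 < p) (r : ℕ) {i j : Fin k} (hij : j ≠ i) (t : ℕ) :
    p * (p * VV g p r i j t) ≤ p ^ k := by
  classical
  refine le_trans (Nat.mul_le_mul_left _ (Nat.mul_le_mul_left _ (card_le_card (t := Fintype.piFinset (fun l =>
    if l = i then (range p).filter (fun c : ℕ => (p : ℤ) ∣ (g i).eval (t : ℤ) + c)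
    else if l = j then (range p).filter (fun c : ℕ => (p : ℤ) ∣ (g j).eval ((t + r : ℕ) : ℤ) + c)
    else range p)) ?_))) (card_le_pow2 _ i j hij ?_ ?_ ?_)
  · intro γ hγ
    rw [mem_filter] at hγ
    obtain ⟨h1, h2, h3⟩ := hγ
    unfold box at h1
    rw [Fintype.mem_piFinset] at h1 ⊢
    intro l
    split_ifs with h4 h5
    · subst h4
      exact mem_filter.2 ⟨h1 _, h2⟩
    · subst h5
      exact mem_filter.2 ⟨h1 _, h3⟩
    · exact h1 l
  · rw [if_pos rfl]
    exact (card_one hp _).le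
  · rw [if_neg hij, if_pos rfl]
    exact (card_one hp _).le
  · intro l
    split_ifs with h4 h5
    · exact (card_filter_le _ _).trans (card_range p).le
    · exact (card_filter_le _ _).trans (card_range p).le
    · exact (card_range p).le

theorem VV_eq {k : ℕ} (g : Fin k → ℤ[X]) {p : ℕ} (hp : 0 < p) (r : ℕ) (i : Fin k) (t : ℕ) :
    p * VV g p r i i t ≤
      if (p : ℤ) ∣ (g i).eval ((t + r : ℕ) : ℤ) - (g i).eval (t : ℤ) then p ^ k else 0 := by
  classical
  split_ifs with h0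
  · refine le_trans (Nat.mul_le_mul_left _ (card_le_card (t := Fintype.piFinset (fun l =>
      if l = i then (range p).filter (fun c : ℕ => (p : ℤ) ∣ (g i).eval (t : ℤ) + c)
      else range p)) ?_)) (card_le_pow _ i ?_ ?_)
    · intro γ hγ
      rw [mem_filter] at hγ
      obtain ⟨h1, h2, h3⟩ := hγ
      unfold box at h1
      rw [Fintype.mem_piFinset] at h1 ⊢
      intro l
      split_ifs with h4
      · subst h4
        exact mem_filter.2 ⟨h1 _, h2⟩
      · exact h1 l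
    · rw [if_pos rfl]
      exact (card_one hp _).le
    · intro l
      split_ifs with h4
      · exact (card_filter_le _ _).trans (card_range p).le
      · exact (card_range p).le
  · rw [Nat.le_zero, Nat.mul_eq_zero]
    right
    unfold VV
    rw [card_eq_zero, filter_eq_empty_iff]
    rintro γ _ ⟨h3, h4⟩
    refine h0 ?_
    have := dvd_sub h4 h3
    have e : (g i).eval ((t + r : ℕ) : ℤ) + (γ i : ℤ) - ((g i).eval (t : ℤ) + (γ i : ℤ)) =
      (g i).eval ((t + r : ℕ) : ℤ) - (g i).eval (t : ℤ) := by ring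
    rwa [e] at this

theorem sum_VV {k : ℕ} (g : Fin k → ℤ[X]) {p : ℕ} (hp : 0 < p) (r : ℕ) (d : Fin k → ℕ)
    (hd : ∀ i, ((range p).filter (fun t : ℕ =>
      (p : ℤ) ∣ (g i).eval ((t + r : ℕ) : ℤ) - (g i).eval (t : ℤ))).card ≤ d i) (i j : Fin k) :
    p * ∑ t ∈ range p, VV g p r i j t ≤ (1 + if i = j then d i else 0) * p ^ k := by
  by_cases hij : i = j
  · subst hij
    rw [if_pos rfl, mul_sum]
    calc ∑ t ∈ range p, p * VV g p r i i t
        ≤ ∑ t ∈ range p, if (p : ℤ) ∣ (g i).eval ((t + r : ℕ) : ℤ) - (g i).eval (t : ℤ) then p ^ k else 0 :=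
          sum_le_sum fun t _ => VV_eq g hp r i t
      _ = ((range p).filter (fun t : ℕ =>
            (p : ℤ) ∣ (g i).eval ((t + r : ℕ) : ℤ) - (g i).eval (t : ℤ))).card * p ^ k := by
          rw [← sum_filter, sum_const, smul_eq_mul]
      _ ≤ (1 + d i) * p ^ k := Nat.mul_le_mul_right _ ((hd i).trans (by omega))
  · rw [if_neg hij, add_zero, one_mul, mul_sum]
    have h1 : ∀ t ∈ range p, p * (p * VV g p r i j t) ≤ p ^ k := fun t _ => VV_ne g hp r (Ne.symm hij) t
    have h2 := sum_le_sum h1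
    rw [← mul_sum, sum_const, card_range, smul_eq_mul] at h2
    exact Nat.le_of_mul_le_mul_left h2 hp

theorem sum_BB {k : ℕ} (g : Fin k → ℤ[X]) {p : ℕ} (hp : 0 < p) (r : ℕ) (d : Fin k → ℕ)
    (hd : ∀ i, ((range p).filter (fun t : ℕ =>
      (p : ℤ) ∣ (g i).eval ((t + r : ℕ) : ℤ) - (g i).eval (t : ℤ))).card ≤ d i) :
    p * ∑ γ ∈ box k p, BB g p (zv γ) r ≤ (k ^ 2 + ∑ i, d i) * p ^ k := by
  classical
  have h1 : ∀ γ ∈ box k p, BB g p (zv γ) r ≤ ∑ i : Fin k, ∑ j : Fin k, ∑ t ∈ range p,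
      if (p : ℤ) ∣ (g i).eval (t : ℤ) + γ i ∧ (p : ℤ) ∣ (g j).eval ((t + r : ℕ) : ℤ) + γ j then 1 else 0 := by
    intro γ _
    have e : ∑ i : Fin k, ∑ j : Fin k, ∑ t ∈ range p,
        (if (p : ℤ) ∣ (g i).eval (t : ℤ) + γ i ∧ (p : ℤ) ∣ (g j).eval ((t + r : ℕ) : ℤ) + γ j then 1 else 0) =
        ∑ t ∈ range p, ∑ i : Fin k, ∑ j : Fin k,
        (if (p : ℤ) ∣ (g i).eval (t : ℤ) + γ i ∧ (p : ℤ) ∣ (g j).eval ((t + r : ℕ) : ℤ) + γ j then 1 else 0) := by
      rw [sum_comm (s := range p)]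
      refine sum_congr rfl fun i _ => ?_
      rw [sum_comm (s := range p)]
    rw [e]
    unfold BB
    rw [card_filter]
    refine sum_le_sum fun t _ => ?_
    split_ifs with h2
    · obtain ⟨⟨i, hi⟩, ⟨j, hj⟩⟩ := h2
      refine le_trans ?_ (single_le_sum (f := fun i : Fin k => ∑ j : Fin k,
        (if (p : ℤ) ∣ (g i).eval (t : ℤ) + γ i ∧ (p : ℤ) ∣ (g j).eval ((t + r : ℕ) : ℤ) + γ j then 1 else 0))
        (fun _ _ => Nat.zero_le _) (mem_univ i))
      refine le_trans ?_ (single_le_sum (f := fun j : Fin k =>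
        (if (p : ℤ) ∣ (g i).eval (t : ℤ) + γ i ∧ (p : ℤ) ∣ (g j).eval ((t + r : ℕ) : ℤ) + γ j then 1 else 0))
        (fun _ _ => Nat.zero_le _) (mem_univ j))
      exact (if_pos ⟨hi, hj⟩).ge
    · exact Nat.zero_le _
  have h2 : ∑ γ ∈ box k p, ∑ i : Fin k, ∑ j : Fin k, ∑ t ∈ range p,
      (if (p : ℤ) ∣ (g i).eval (t : ℤ) + γ i ∧ (p : ℤ) ∣ (g j).eval ((t + r : ℕ) : ℤ) + γ j then 1 else 0) =
      ∑ i : Fin k, ∑ j : Fin k, ∑ t ∈ range p, VV g p r i j t := by
    rw [sum_comm]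
    refine sum_congr rfl fun i _ => ?_
    rw [sum_comm]
    refine sum_congr rfl fun j _ => ?_
    rw [sum_comm]
    refine sum_congr rfl fun t _ => ?_
    unfold VV
    rw [card_filter]
  calc p * ∑ γ ∈ box k p, BB g p (zv γ) r ≤ p * ∑ i : Fin k, ∑ j : Fin k, ∑ t ∈ range p, VV g p r i j t := by
        refine Nat.mul_le_mul_left _ ?_
        rw [← h2]
        exact sum_le_sum h1
    _ = ∑ i : Fin k, ∑ j : Fin k, p * ∑ t ∈ range p, VV g p r i j t := by
        rw [mul_sum]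
        exact sum_congr rfl fun i _ => by rw [mul_sum]
    _ ≤ ∑ i : Fin k, ∑ j : Fin k, (1 + if i = j then d i else 0) * p ^ k :=
        sum_le_sum fun i _ => sum_le_sum fun j _ => sum_VV g hp r d hd i j
    _ = (k ^ 2 + ∑ i, d i) * p ^ k := by
        rw [sum_congr rfl fun i _ => (sum_mul _ _ _).symm, ← sum_mul]
        congr 1
        simp only [sum_add_distrib, sum_const, card_univ, Fintype.card_fin, smul_eq_mul, mul_one,
          sum_ite_eq, mem_univ, if_true]
        ring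

theorem nuk_le {k : ℕ} (g : Fin k → ℤ[X]) (p : ℕ) (γ : Fin k → ℤ) :
    nuk g p γ ≤ ∑ i, nu (g i) p (γ i) := by
  classical
  unfold nuk nu
  refine le_trans (card_le_card (t := univ.biUnion (fun i : Fin k =>
    (range p).filter (fun t : ℕ => (p : ℤ) ∣ (g i).eval (t : ℤ) + γ i))) ?_) card_biUnion_le
  intro t ht
  rw [mem_filter] at ht
  obtain ⟨h1, i, hi⟩ := ht
  exact mem_biUnion.2 ⟨i, mem_univ i, mem_filter.2 ⟨h1, hi⟩⟩

end K2_

open K2_ in
theorem t_K2 (h : S_T2a) : S_K2 := by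
  classical
  intro k g hg
  obtain ⟨hk, hg⟩ := hg
  choose q hq using fun i => h (g i) (hg i).1
  set D : ℕ := ∑ i, (g i).natDegree with hD
  have hD1 : 1 ≤ D := by
    have h1 : (g ⟨0, hk⟩).natDegree ≤ ∑ i, (g i).natDegree :=
      single_le_sum (f := fun i => (g i).natDegree) (fun _ _ => Nat.zero_le _) (mem_univ _)
    have h2 := (hg ⟨0, hk⟩).1
    omega
  refine ⟨(∑ i, q i) + 2 * D, D, 4 * ((k : ℝ) ^ 2 + 2 * D) + (k : ℝ) ^ 2, by positivity, hD1,
    fun p hp hpp => ?_⟩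
  have hpi : ∀ i, q i ≤ p := fun i => by
    have : q i ≤ ∑ i, q i := single_le_sum (f := fun i => q i) (fun _ _ => Nat.zero_le _) (mem_univ i)
    omega
  have hpp0 : 0 < p := hp.pos
  have hpR : (0 : ℝ) < p := by exact_mod_cast hpp0
  have hpkR : (0 : ℝ) < (p : ℝ) ^ k := by positivity
  have h2 : 2 * D ≤ p := by omega
  have h1 : ∀ γ : Fin k → ℤ, nuk g p γ ≤ D := fun γ =>
    (nuk_le g p γ).trans (sum_le_sum fun i _ => (hq i p hp (hpi i)).1 (γ i))
  have hlt : ∀ γ : Fin k → ℤ, nuk g p γ < p := fun γ => by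
    have := h1 γ
    omega
  have hD0 : (0 : ℝ) < D := by exact_mod_cast hD1
  -- the value at `0`
  have hz : ∑ γ ∈ box k p, AAk g p (zv γ) 0 =
      (((box k p).filter (fun γ => nuk g p (zv γ) = 0)).card : ℝ) := by
    rw [← sum_boole]
    refine sum_congr rfl fun γ _ => ?_
    split_ifs with h0
    · exact AA_zero h0 0
    · exact AA_r0 h0
  refine ⟨h1, h2, ?_, fun r => ?_, ?_, ?_, ?_, fun r hr => ?_⟩
  · refine (mean_nuk g hpp0).trans (div_le_div_of_nonneg_right ?_ hpR.le)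
    nlinarith [sq_nonneg (k : ℝ)]
  · unfold eek
    congr 1
    refine sum_congr rfl fun γ _ => ?_
    by_cases h0 : nuk g p (zv γ) = 0
    · rw [AA_zero h0, AA_zero h0]
    · rw [AA_pos h0, AA_pos h0, NN_per]
  · unfold eek
    rw [← sum_div, sum_comm]
    have h5 : ∀ γ ∈ box k p, ∑ r ∈ range p, AAk g p (zv γ) r = p := fun γ _ => sum_AA hpp0 (hlt (zv γ))
    rw [sum_congr rfl h5, sum_const, card_box, nsmul_eq_mul]
    push_cast
    field_simp
  · unfold eek
    rw [hz]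
    positivity
  · unfold eek
    rw [hz]
    have h5 := card_filter_add_card_filter_not (s := box k p) (fun γ => nuk g p (zv γ) = 0)
    rw [card_box] at h5
    have h6 : (((box k p).filter (fun γ => nuk g p (zv γ) = 0)).card : ℝ) +
      ((box k p).filter (fun γ => ¬ nuk g p (zv γ) = 0)).card = (p : ℝ) ^ k := by exact_mod_cast h5
    have h7 : (p : ℝ) ^ k ≤ D * ((box k p).filter (fun γ => ¬ nuk g p (zv γ) = 0)).card := by
      calc (p : ℝ) ^ k ≤ ∑ γ ∈ box k p, (nuk g p (zv γ) : ℝ) := by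
            have h8 := sum_nuk g hpp0 (k := k)
            rw [div_eq_iff hpkR.ne'] at h8
            rw [h8]
            have h9 : (1 - 1 / (p : ℝ)) ^ k ≤ 1 - 1 / (p : ℝ) := by
              refine pow_le_of_le_one ?_ ?_ hk.ne'
              · have : 1 / (p : ℝ) ≤ 1 := by
                  rw [div_le_one hpR]
                  exact_mod_cast hpp0
                linarith
              · have : 0 ≤ 1 / (p : ℝ) := by positivity
                linarith
            have h10 : 1 ≤ (p : ℝ) * (1 - (1 - 1 / (p : ℝ)) ^ k) := by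
              have e : (p : ℝ) * (1 / (p : ℝ)) = 1 := by field_simp
              nlinarith
            nlinarith
        _ = ∑ γ ∈ (box k p).filter (fun γ => ¬ nuk g p (zv γ) = 0), (nuk g p (zv γ) : ℝ) := by
            rw [sum_filter]
            refine sum_congr rfl fun c _ => ?_
            split_ifs with h9
            · rw [h9]
              simp
            · rfl
        _ ≤ ∑ γ ∈ (box k p).filter (fun γ => ¬ nuk g p (zv γ) = 0), (D : ℝ) :=
            sum_le_sum fun c _ => by exact_mod_cast h1 (zv c)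
        _ = D * ((box k p).filter (fun γ => ¬ nuk g p (zv γ) = 0)).card := by
            rw [sum_const, nsmul_eq_mul, mul_comm]
    have e : 1 - (((box k p).filter (fun γ => nuk g p (zv γ) = 0)).card : ℝ) / (p : ℝ) ^ k =
        (((box k p).filter (fun γ => ¬ nuk g p (zv γ) = 0)).card : ℝ) / (p : ℝ) ^ k := by
      rw [eq_div_iff hpkR.ne', sub_mul, div_mul_cancel₀ _ hpkR.ne', one_mul]
      linarith
    rw [e, div_le_div_iff₀ hD0 hpkR, one_mul]
    linarith
  · unfold eek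
    have e : (∑ γ ∈ box k p, AAk g p (zv γ) r) / (p : ℝ) ^ k - 1 =
        (∑ γ ∈ box k p, (AAk g p (zv γ) r - 1)) / (p : ℝ) ^ k := by
      rw [sum_sub_distrib, sum_const, card_box, nsmul_eq_mul, mul_one, sub_div]
      push_cast
      rw [div_self hpkR.ne']
    rw [e, abs_div, abs_of_pos hpkR, div_le_div_iff₀ hpkR hpR]
    have h5 := sum_BB g hpp0 r (fun i => (g i).natDegree) (fun i => (hq i p hp (hpi i)).2.2.2 r hr)
    have h6 : (p : ℝ) * ((∑ γ ∈ box k p, BB g p (zv γ) r : ℕ) : ℝ) ≤ ((k : ℝ) ^ 2 + D) * (p : ℝ) ^ k := by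
      rw [hD]
      exact_mod_cast h5
    calc |∑ γ ∈ box k p, (AAk g p (zv γ) r - 1)| * p
        ≤ (∑ γ ∈ box k p, |AAk g p (zv γ) r - 1|) * p :=
          mul_le_mul_of_nonneg_right (abs_sum_le_sum_abs _ _) hpR.le
      _ ≤ (∑ γ ∈ box k p, 2 * ((D : ℝ) / p + BB g p (zv γ) r)) * p :=
          mul_le_mul_of_nonneg_right (sum_le_sum fun γ _ => AA_sub hpp0 (h1 (zv γ)) h2 r) hpR.le
      _ = 2 * (D * (p : ℝ) ^ k + p * ((∑ γ ∈ box k p, BB g p (zv γ) r : ℕ) : ℝ)) := by
          rw [← mul_sum, sum_add_distrib, sum_const, card_box, nsmul_eq_mul]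
          push_cast
          field_simp
      _ ≤ 2 * (D * (p : ℝ) ^ k + ((k : ℝ) ^ 2 + D) * (p : ℝ) ^ k) := by linarith
      _ ≤ (4 * ((k : ℝ) ^ 2 + 2 * D) + (k : ℝ) ^ 2) * (p : ℝ) ^ k := by
          have : 0 ≤ (k : ℝ) ^ 2 * (p : ℝ) ^ k := by positivity
          have : 0 ≤ (D : ℝ) * (p : ℝ) ^ k := by positivity
          nlinarith

end Pool.Agent.N785.MG
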