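import Pool.Agent.N785.MG.Stm

/-!
Project MG (helper785), piece T1a (helper954): the product of the factors `1 + θ_p(r)` is on average `e^M`.
-/

open Finset Polynomial

namespace Pool.Agent.N785.MG

namespace T1a_

/-- sums over a multiple of the period -/
theorem sum_range_mul (F : ℕ → ℝ) (p q : ℕ) :
    ∑ r ∈ range (p * q), F r = ∑ b ∈ range q, ∑ a ∈ range p, F (p * b + a) := by
  induction q with
  | zero => simp
  | succ q ih => rw [Nat.mul_succ, Finset.sum_range_add, ih, Finset.sum_range_succ]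

theorem per_mul {f : ℕ → ℝ} {p : ℕ} (h : ∀ r, f (r + p) = f r) (b a : ℕ) :
    f (p * b + a) = f a := by
  induction b with
  | zero => simp
  | succ b ih =>
    have : p * (b + 1) + a = (p * b + a) + p := by ring
    rw [this, h, ih]

theorem per_mod {f : ℕ → ℝ} {p : ℕ} (h : ∀ r, f (r + p) = f r) (n : ℕ) :
    f n = f (n % p) := by
  conv_lhs => rw [← Nat.div_add_mod n p]
  exact per_mul h _ _

/-- incomplete periods -/
theorem abs_sum_le {F : ℕ → ℝ} {N : ℕ} (hN : 0 < N) (hper : ∀ r, F (r + N) = F r)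
    (h0 : ∑ r ∈ range N, F r = 0) {B : ℝ} (hB : ∀ r, |F r| ≤ B) (H : ℕ) :
    |∑ r ∈ Icc 1 H, F r| ≤ N * B := by
  have hB0 : 0 ≤ B := (abs_nonneg _).trans (hB 0)
  have e1 : ∑ r ∈ range (H + 1), F r = ∑ r ∈ range ((H + 1) % N), F r := by
    conv_lhs => rw [← Nat.div_add_mod (H + 1) N]
    rw [Finset.sum_range_add, sum_range_mul]
    have : ∀ b ∈ range ((H + 1) / N), ∑ a ∈ range N, F (N * b + a) = 0 := by
      intro b _
      rw [← h0]
      exact Finset.sum_congr rfl fun a _ => per_mul hper b a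
    rw [Finset.sum_congr rfl this, Finset.sum_const_zero, zero_add]
    exact Finset.sum_congr rfl fun a _ => per_mul hper _ a
  have e2 : ∑ r ∈ range (H + 1), F r = F 0 + ∑ r ∈ Icc 1 H, F r := by
    rw [Finset.range_eq_Ico, Finset.sum_eq_sum_Ico_succ_bot (by omega : 0 < H + 1)]
    rfl
  have e3 : ∑ r ∈ Icc 1 H, F r = ∑ r ∈ range ((H + 1) % N), F r - F 0 := by linarith
  rw [e3]
  have h1 : |∑ r ∈ range ((H + 1) % N), F r| ≤ ((H + 1) % N : ℕ) * B := by
    refine (Finset.abs_sum_le_sum_abs _ _).trans ?_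
    refine (Finset.sum_le_sum fun r _ => hB r).trans ?_
    rw [Finset.sum_const, Finset.card_range, nsmul_eq_mul]
  have h2 : (((H + 1) % N : ℕ) : ℝ) + 1 ≤ N := by
    have := Nat.mod_lt (H + 1) hN
    exact_mod_cast this
  calc |∑ r ∈ range ((H + 1) % N), F r - F 0| ≤ |∑ r ∈ range ((H + 1) % N), F r| + |F 0| :=
        abs_sub _ _
    _ ≤ ((H + 1) % N : ℕ) * B + B := add_le_add h1 (hB 0)
    _ = ((((H + 1) % N : ℕ) : ℝ) + 1) * B := by ring
    _ ≤ N * B := mul_le_mul_of_nonneg_right h2 hB0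

/-- the sum over a complete residue system -/
theorem sum_shift {f : ℕ → ℝ} {p q : ℕ} (hq : 0 < q) (hper : ∀ r, f (r + q) = f r)
    (hc : Nat.Coprime p q) (a : ℕ) :
    ∑ b ∈ range q, f (p * b + a) = ∑ b ∈ range q, f b := by
  have h1 : ∀ b, f (p * b + a) = f ((p * b + a) % q) := fun b => per_mod hper _
  rw [Finset.sum_congr rfl fun b _ => h1 b]
  refine Finset.sum_nbij (fun b => (p * b + a) % q) (fun b _ => ?_) ?_ ?_ (fun b _ => rfl)
  · exact Finset.mem_range.2 (Nat.mod_lt _ hq)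
  · intro b hb c hc' h
    have hb := Finset.mem_range.1 (Finset.mem_coe.1 hb)
    have hc' := Finset.mem_range.1 (Finset.mem_coe.1 hc')
    have h2 : p * b + a ≡ p * c + a [MOD q] := h
    have h3 := Nat.ModEq.add_right_cancel' a h2
    have h4 := Nat.ModEq.cancel_left_of_coprime (by rw [Nat.gcd_comm]; exact hc) h3
    have h5 : b % q = c % q := h4
    rwa [Nat.mod_eq_of_lt hb, Nat.mod_eq_of_lt hc'] at h5
  · have hinj : Set.InjOn (fun b => (p * b + a) % q) (range q : Set ℕ) := by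
      intro b hb c hc' h
      have hb := Finset.mem_range.1 (Finset.mem_coe.1 hb)
      have hc' := Finset.mem_range.1 (Finset.mem_coe.1 hc')
      have h2 : p * b + a ≡ p * c + a [MOD q] := h
      have h3 := Nat.ModEq.add_right_cancel' a h2
      have h4 := Nat.ModEq.cancel_left_of_coprime (by rw [Nat.gcd_comm]; exact hc) h3
      have h5 : b % q = c % q := h4
      rwa [Nat.mod_eq_of_lt hb, Nat.mod_eq_of_lt hc'] at h5
    exact Finset.surjOn_of_injOn_of_card_le _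
      (fun b _ => Finset.mem_coe.2 (Finset.mem_range.2 (Nat.mod_lt _ hq))) hinj le_rfl

/-- products of two periodic functions with coprime periods and mean zero -/
theorem sum_two {f k : ℕ → ℝ} {p q : ℕ} (hq : 0 < q) (hf : ∀ r, f (r + p) = f r)
    (hk : ∀ r, k (r + q) = k r) (hc : Nat.Coprime p q) (h0 : ∑ r ∈ range q, k r = 0) :
    ∑ r ∈ range (p * q), f r * k r = 0 := by
  rw [sum_range_mul, Finset.sum_comm]
  refine Finset.sum_eq_zero fun a _ => ?_
  have : ∀ b ∈ range q, f (p * b + a) * k (p * b + a) = f a * k (p * b + a) := by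
    intro b _
    rw [per_mul hf]
  rw [Finset.sum_congr rfl this, ← Finset.mul_sum, sum_shift hq hk hc, h0, mul_zero]

theorem one_add_bounds {t : ℝ} (h : |t| ≤ 1 / 2) :
    Real.exp (t - t ^ 2) ≤ 1 + t ∧ 1 + t ≤ Real.exp t := by
  obtain ⟨h1, h2⟩ := abs_le.1 h
  refine ⟨?_, by linarith [Real.add_one_le_exp t]⟩
  have h3 : 0 < 1 + t := by linarith
  rcases le_or_gt 0 t with ht | ht
  · rw [← Real.le_log_iff_exp_le h3]
    have h4 := Real.one_sub_inv_le_log_of_pos (show 0 < 1 + t by linarith)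
    have h5 : t - t ^ 2 ≤ 1 - (1 + t)⁻¹ := by
      rw [le_sub_iff_add_le, ← le_sub_iff_add_le', inv_le_comm₀ h3 (by nlinarith)]
      rw [inv_eq_one_div, div_le_iff₀ (by nlinarith)]
      nlinarith [mul_nonneg ht (mul_nonneg ht ht)]
    linarith
  · obtain ⟨s, hs⟩ : ∃ s, s = -t := ⟨_, rfl⟩
    have hs0 : 0 < s := by linarith
    have hs1 : s ≤ 1 / 2 := by linarith
    have e : t - t ^ 2 = -(s + s ^ 2) := by rw [hs]; ring
    have e' : 1 + t = 1 - s := by rw [hs]; ring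
    rw [e, e', Real.exp_neg, inv_le_comm₀ (Real.exp_pos _) (by linarith)]
    have h4 := Real.quadratic_le_exp_of_nonneg (x := s + s ^ 2) (by positivity)
    refine le_trans ?_ h4
    rw [inv_eq_one_div, div_le_iff₀ (by linarith)]
    have h5 : 0 ≤ s ^ 2 * (1 - s - s ^ 2 - s ^ 3) := by
      apply mul_nonneg (by positivity)
      have : s ^ 2 ≤ 1 / 4 := by nlinarith
      have : s ^ 3 ≤ 1 / 8 := by nlinarith
      linarith
    nlinarith

theorem prod_bounds {ι : Type*} (S : Finset ι) (t : ι → ℝ) (h : ∀ i ∈ S, |t i| ≤ 1 / 2) :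
    |∏ i ∈ S, (1 + t i) - Real.exp (∑ i ∈ S, t i)| ≤
      Real.exp (∑ i ∈ S, t i) * ∑ i ∈ S, t i ^ 2 := by
  have h1 : ∏ i ∈ S, (1 + t i) ≤ Real.exp (∑ i ∈ S, t i) := by
    rw [Real.exp_sum]
    refine Finset.prod_le_prod (fun i hi => ?_) fun i hi => (one_add_bounds (h i hi)).2
    have := (abs_le.1 (h i hi)).1
    linarith
  have h2 : Real.exp (∑ i ∈ S, t i - ∑ i ∈ S, t i ^ 2) ≤ ∏ i ∈ S, (1 + t i) := by
    rw [← Finset.sum_sub_distrib, Real.exp_sum]
    exact Finset.prod_le_prod (fun i hi => (Real.exp_pos _).le)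
      fun i hi => (one_add_bounds (h i hi)).1
  rw [Real.exp_sub, div_eq_mul_inv, ← Real.exp_neg] at h2
  have h3 := Real.add_one_le_exp (-∑ i ∈ S, t i ^ 2)
  have h4 := mul_le_mul_of_nonneg_left h3 (Real.exp_pos (∑ i ∈ S, t i)).le
  rw [abs_sub_comm, abs_of_nonneg (by linarith)]
  linarith

theorem exp_diff {a b c : ℝ} (ha : a ≤ c) (hb : b ≤ c) :
    |Real.exp a - Real.exp b| ≤ Real.exp c * |a - b| := by
  have key : ∀ a b : ℝ, a ≤ c → b ≤ a → |Real.exp a - Real.exp b| ≤ Real.exp c * |a - b| := by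
    intro a b ha hab
    have h1 : Real.exp b ≤ Real.exp a := Real.exp_le_exp.2 hab
    rw [abs_of_nonneg (by linarith), abs_of_nonneg (by linarith)]
    have h2 := Real.add_one_le_exp (b - a)
    have h3 := mul_le_mul_of_nonneg_left h2 (Real.exp_pos a).le
    rw [← Real.exp_add] at h3
    have e : a + (b - a) = b := by ring
    rw [e] at h3
    have h4 : Real.exp a ≤ Real.exp c := Real.exp_le_exp.2 ha
    have h5 := mul_le_mul_of_nonneg_right h4 (sub_nonneg.2 hab)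
    linarith
  rcases le_total b a with h | h
  · exact key a b ha h
  · rw [abs_sub_comm, abs_sub_comm a b]
    exact key b a hb h

/-- the second moment of `T - M` -/
theorem second_moment {C : ℝ} (hC : 0 ≤ C) {y z R H : ℕ} {PL : Finset ℕ} {th : ℕ → ℕ → ℝ}
    {x : ℕ → ℝ} (hy : 1 ≤ y) (hR : 1 ≤ R) (hPL : ∀ p ∈ PL, p.Prime ∧ y < p ∧ p ≤ z)
    (hH : z ^ 2 * R ≤ H) (h1 : ∑ p ∈ PL, (1 : ℝ) / p ≤ 1)
    (hper : ∀ p ∈ PL, ∀ r, th p (r + p) = th p r) (hth : ∀ p ∈ PL, ∀ r, |th p r| ≤ C / p)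
    (hx : ∀ p ∈ PL, 0 ≤ x p ∧ x p ≤ 1 / p) (hsum : ∀ p ∈ PL, ∑ r ∈ range p, th p r = p * x p) :
    ∑ r ∈ Icc 1 H, (∑ p ∈ PL, th p r - ∑ p ∈ PL, x p) ^ 2 ≤
      (C + 1) ^ 2 * H * (1 / y + 1 / R) := by
  have hyr : (0:ℝ) < y := by exact_mod_cast hy
  have hRr : (0:ℝ) < R := by exact_mod_cast hR
  set f : ℕ → ℕ → ℝ := fun p r => th p r - x p with hf
  have hfper : ∀ p ∈ PL, ∀ r, f p (r + p) = f p r := fun p hp r => by
    simp only [hf, hper p hp r]
  have hfB : ∀ p ∈ PL, ∀ r, |f p r| ≤ (C + 1) / p := fun p hp r => by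
    have h2 := hth p hp r
    have h3 := hx p hp
    calc |f p r| ≤ |th p r| + |x p| := abs_sub _ _
      _ ≤ C / p + 1 / p := by
        rw [abs_of_nonneg h3.1]
        exact add_le_add h2 h3.2
      _ = (C + 1) / p := by ring
  have hf0 : ∀ p ∈ PL, ∑ r ∈ range p, f p r = 0 := fun p hp => by
    simp only [hf]
    rw [Finset.sum_sub_distrib, hsum p hp, Finset.sum_const, Finset.card_range, nsmul_eq_mul,
      sub_self]
  have e1 : ∑ r ∈ Icc 1 H, (∑ p ∈ PL, th p r - ∑ p ∈ PL, x p) ^ 2 =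
      ∑ p ∈ PL, ∑ q ∈ PL, ∑ r ∈ Icc 1 H, f p r * f q r := by
    simp only [← Finset.sum_sub_distrib, sq, Finset.sum_mul_sum]
    rw [Finset.sum_comm]
    refine Finset.sum_congr rfl fun p _ => ?_
    rw [Finset.sum_comm]
  have hpair : ∀ p ∈ PL, ∀ q ∈ PL, ∑ r ∈ Icc 1 H, f p r * f q r ≤
      (if p = q then H * ((C + 1) / p) ^ 2 else 0) + (C + 1) ^ 2 := by
    intro p hp q hq
    have hp0 : (0:ℝ) < p := by exact_mod_cast (hPL p hp).1.pos
    have hq0 : (0:ℝ) < q := by exact_mod_cast (hPL q hq).1.pos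
    by_cases hpq : p = q
    · subst hpq
      rw [if_pos rfl]
      have h2 : ∑ r ∈ Icc 1 H, f p r * f p r ≤ ∑ _r ∈ Icc 1 H, ((C + 1) / p) ^ 2 := by
        refine Finset.sum_le_sum fun r _ => ?_
        rw [← sq, ← sq_abs]
        exact pow_le_pow_left₀ (abs_nonneg _) (hfB p hp r) 2
      rw [Finset.sum_const, Nat.card_Icc, nsmul_eq_mul, Nat.add_sub_cancel] at h2
      have h3 : 0 ≤ (C + 1) ^ 2 := by positivity
      linarith
    · rw [if_neg hpq, zero_add]
      have hcop : Nat.Coprime p q := (Nat.coprime_primes (hPL p hp).1 (hPL q hq).1).2 hpq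
      have hN : 0 < p * q := Nat.mul_pos (hPL p hp).1.pos (hPL q hq).1.pos
      have h2 := abs_sum_le (F := fun r => f p r * f q r) (N := p * q) hN
        (fun r => by
          have e3 : f p (r + p * q) = f p r := by
            rw [add_comm]
            exact per_mul (hfper p hp) q r
          have e4 : f q (r + p * q) = f q r := by
            rw [add_comm, mul_comm]
            exact per_mul (hfper q hq) p r
          show f p (r + p * q) * f q (r + p * q) = f p r * f q r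
          rw [e3, e4])
        (sum_two (hPL q hq).1.pos (hfper p hp) (hfper q hq) hcop (hf0 q hq))
        (B := (C + 1) / p * ((C + 1) / q))
        (fun r => by
          rw [abs_mul]
          exact mul_le_mul (hfB p hp r) (hfB q hq r) (abs_nonneg _) (by positivity)) H
      refine (le_abs_self _).trans (h2.trans (le_of_eq ?_))
      push_cast
      field_simp
  rw [e1]
  have hcard : (PL.card : ℝ) ≤ z := by
    have : PL ⊆ Icc 1 z := fun p hp => Finset.mem_Icc.2 ⟨(hPL p hp).1.one_le, (hPL p hp).2.2⟩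
    have := Finset.card_le_card this
    rw [Nat.card_Icc, Nat.add_sub_cancel] at this
    exact_mod_cast this
  have h2 : ∑ p ∈ PL, ∑ q ∈ PL, ∑ r ∈ Icc 1 H, f p r * f q r ≤
      ∑ p ∈ PL, (H * ((C + 1) / p) ^ 2 + PL.card * (C + 1) ^ 2) := by
    refine Finset.sum_le_sum fun p hp => ?_
    refine (Finset.sum_le_sum fun q hq => hpair p hp q hq).trans (le_of_eq ?_)
    rw [Finset.sum_add_distrib, Finset.sum_ite_eq, if_pos hp, Finset.sum_const, nsmul_eq_mul]
  refine h2.trans ?_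
  rw [Finset.sum_add_distrib, Finset.sum_const, nsmul_eq_mul]
  have h3 : ∑ p ∈ PL, (H : ℝ) * ((C + 1) / p) ^ 2 ≤ (C + 1) ^ 2 * H * (1 / y) := by
    have h4 : ∀ p ∈ PL, (H : ℝ) * ((C + 1) / p) ^ 2 ≤ (C + 1) ^ 2 * H * (1 / y) * (1 / p) := by
      intro p hp
      have hp0 : (0:ℝ) < p := by exact_mod_cast (hPL p hp).1.pos
      have hyp : (y:ℝ) ≤ p := by exact_mod_cast (hPL p hp).2.1.le
      have h5 : (1:ℝ) / p ≤ 1 / y := one_div_le_one_div_of_le hyr hyp
      have h6 : (H : ℝ) * ((C + 1) / p) ^ 2 = (C + 1) ^ 2 * H * (1 / p) * (1 / p) := by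
        field_simp
      rw [h6]
      have h7 : 0 ≤ (C + 1) ^ 2 * (H:ℝ) := by positivity
      have h8 := mul_le_mul_of_nonneg_left h5 h7
      exact mul_le_mul_of_nonneg_right h8 (by positivity)
    refine (Finset.sum_le_sum h4).trans ?_
    rw [← Finset.mul_sum]
    have h7 : 0 ≤ (C + 1) ^ 2 * (H:ℝ) * (1 / y) := by positivity
    have := mul_le_mul_of_nonneg_left h1 h7
    linarith
  have h4 : (PL.card : ℝ) * (PL.card * (C + 1) ^ 2) ≤ (C + 1) ^ 2 * H * (1 / R) := by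
    have h5 : (PL.card : ℝ) * PL.card ≤ z ^ 2 := by
      have : (0:ℝ) ≤ PL.card := Nat.cast_nonneg _
      nlinarith
    have h6 : (z:ℝ) ^ 2 * R ≤ H := by exact_mod_cast hH
    have h7 : (z:ℝ) ^ 2 ≤ H * (1 / R) := by
      rw [mul_one_div, le_div_iff₀ hRr]
      exact h6
    have h8 : (PL.card : ℝ) * PL.card ≤ H * (1 / R) := h5.trans h7
    have h9 := mul_le_mul_of_nonneg_left h8 (sq_nonneg (C + 1))
    linarith
  have e : (C + 1) ^ 2 * (H:ℝ) * (1 / y + 1 / R) =
      (C + 1) ^ 2 * H * (1 / y) + (C + 1) ^ 2 * H * (1 / R) := by ring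
  rw [e]
  exact add_le_add h3 h4

end T1a_

open T1a_ in
/-- **T1a** -/
theorem t_T1a : S_T1a := by
  intro C hC
  refine ⟨Real.exp C * C ^ 2 + Real.exp (C + 1) * (C + 1), ⌈2 * C⌉₊, by positivity, ?_⟩
  intro y z R H PL th x hy0 hy hR hPL hH h1 hper hth hx hsum
  have hyr : (1:ℝ) ≤ y := by exact_mod_cast hy
  have hRr : (0:ℝ) < R := by exact_mod_cast hR
  have hCy : 2 * C ≤ y := (Nat.le_ceil _).trans (by exact_mod_cast hy0)
  have hHr : (0:ℝ) ≤ H := Nat.cast_nonneg _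
  have hM0 : 0 ≤ ∑ p ∈ PL, x p := Finset.sum_nonneg fun p hp => (hx p hp).1
  have hM1 : ∑ p ∈ PL, x p ≤ 1 := (Finset.sum_le_sum fun p hp => (hx p hp).2).trans h1
  have hpp : ∀ p ∈ PL, (0:ℝ) < p ∧ (y:ℝ) ≤ p := fun p hp =>
    ⟨by exact_mod_cast (hPL p hp).1.pos, by exact_mod_cast (hPL p hp).2.1.le⟩
  have hthalf : ∀ r, ∀ p ∈ PL, |th p r| ≤ 1 / 2 := by
    intro r p hp
    refine (hth p hp r).trans ?_
    rw [div_le_iff₀ (hpp p hp).1]
    linarith [(hpp p hp).2]
  have hT : ∀ r, ∑ p ∈ PL, th p r ≤ C := by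
    intro r
    calc ∑ p ∈ PL, th p r ≤ ∑ p ∈ PL, C * (1 / p) := by
          refine Finset.sum_le_sum fun p hp => ?_
          have := (le_abs_self _).trans (hth p hp r)
          rwa [mul_one_div]
      _ = C * ∑ p ∈ PL, (1:ℝ) / p := by rw [Finset.mul_sum]
      _ ≤ C := by nlinarith
  have hQ : ∀ r, ∑ p ∈ PL, th p r ^ 2 ≤ C ^ 2 * (1 / y) := by
    intro r
    calc ∑ p ∈ PL, th p r ^ 2 ≤ ∑ p ∈ PL, C ^ 2 * (1 / y) * (1 / p) := by
          refine Finset.sum_le_sum fun p hp => ?_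
          obtain ⟨hp0, hyp⟩ := hpp p hp
          rw [← sq_abs]
          have h2 := pow_le_pow_left₀ (abs_nonneg _) (hth p hp r) 2
          refine h2.trans ?_
          have h3 : (1:ℝ) / p ≤ 1 / y := one_div_le_one_div_of_le (by linarith) hyp
          have h4 : (C / p) ^ 2 = C ^ 2 * (1 / p) * (1 / p) := by field_simp
          rw [h4]
          exact mul_le_mul_of_nonneg_right (mul_le_mul_of_nonneg_left h3 (sq_nonneg C))
            (by positivity)
      _ = C ^ 2 * (1 / y) * ∑ p ∈ PL, (1:ℝ) / p := by rw [Finset.mul_sum]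
      _ ≤ C ^ 2 * (1 / y) * 1 := mul_le_mul_of_nonneg_left h1 (by positivity)
      _ = _ := mul_one _
  -- pointwise
  have hpt : ∀ r ∈ Icc 1 H, |∏ p ∈ PL, (1 + th p r) - Real.exp (∑ p ∈ PL, x p)| ≤
      Real.exp C * (C ^ 2 * (1 / y)) +
        Real.exp (C + 1) * |∑ p ∈ PL, th p r - ∑ p ∈ PL, x p| := by
    intro r _
    have h2 := prod_bounds PL (fun p => th p r) (hthalf r)
    have h3 : Real.exp (∑ p ∈ PL, th p r) * ∑ p ∈ PL, th p r ^ 2 ≤
        Real.exp C * (C ^ 2 * (1 / y)) :=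
      mul_le_mul (Real.exp_le_exp.2 (hT r)) (hQ r) (Finset.sum_nonneg fun p _ => sq_nonneg _)
        (Real.exp_pos _).le
    have h4 := exp_diff (c := C + 1) ((hT r).trans (by linarith)) (hM1.trans (by linarith))
    calc |∏ p ∈ PL, (1 + th p r) - Real.exp (∑ p ∈ PL, x p)|
        ≤ |∏ p ∈ PL, (1 + th p r) - Real.exp (∑ p ∈ PL, th p r)| +
          |Real.exp (∑ p ∈ PL, th p r) - Real.exp (∑ p ∈ PL, x p)| := abs_sub_le _ _ _
      _ ≤ _ := add_le_add (h2.trans h3) h4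
  -- Cauchy-Schwarz
  set W : ℝ := Real.sqrt (1 / y + 1 / R) with hW
  have hW0 : 0 ≤ W := Real.sqrt_nonneg _
  have hW2 : W ^ 2 = 1 / y + 1 / R := Real.sq_sqrt (by positivity)
  have h2m := second_moment hC hy hR hPL hH h1 hper hth hx hsum
  have hcs : (∑ r ∈ Icc 1 H, |∑ p ∈ PL, th p r - ∑ p ∈ PL, x p|) ^ 2 ≤
      ((C + 1) * H * W) ^ 2 := by
    have h3 := sq_sum_le_card_mul_sum_sq (s := Icc 1 H)
      (f := fun r => |∑ p ∈ PL, th p r - ∑ p ∈ PL, x p|)
    rw [Nat.card_Icc, Nat.add_sub_cancel] at h3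
    simp only [sq_abs] at h3
    refine h3.trans ((mul_le_mul_of_nonneg_left h2m hHr).trans (le_of_eq ?_))
    rw [← hW2]
    ring
  have hcs' : ∑ r ∈ Icc 1 H, |∑ p ∈ PL, th p r - ∑ p ∈ PL, x p| ≤ (C + 1) * H * W :=
    (abs_le_of_sq_le_sq' hcs (by positivity)).2
  have hyW : (1:ℝ) / y ≤ W := by
    apply Real.le_sqrt_of_sq_le
    have h3 : (1:ℝ) / y ≤ 1 := by
      rw [div_le_one (by linarith)]
      exact hyr
    have h4 : (0:ℝ) ≤ 1 / y := by positivity
    have h5 : (0:ℝ) ≤ 1 / R := by positivity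
    nlinarith
  calc ∑ r ∈ Icc 1 H, |∏ p ∈ PL, (1 + th p r) - Real.exp (∑ p ∈ PL, x p)|
      ≤ ∑ r ∈ Icc 1 H, (Real.exp C * (C ^ 2 * (1 / y)) +
        Real.exp (C + 1) * |∑ p ∈ PL, th p r - ∑ p ∈ PL, x p|) := Finset.sum_le_sum hpt
    _ = H * (Real.exp C * (C ^ 2 * (1 / y))) +
        Real.exp (C + 1) * ∑ r ∈ Icc 1 H, |∑ p ∈ PL, th p r - ∑ p ∈ PL, x p| := by
      rw [Finset.sum_add_distrib, Finset.sum_const, Nat.card_Icc, Nat.add_sub_cancel,
        nsmul_eq_mul, Finset.mul_sum]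
    _ ≤ H * (Real.exp C * (C ^ 2 * W)) + Real.exp (C + 1) * ((C + 1) * H * W) := by
      refine add_le_add ?_ (mul_le_mul_of_nonneg_left hcs' (Real.exp_pos _).le)
      refine mul_le_mul_of_nonneg_left ?_ hHr
      refine mul_le_mul_of_nonneg_left ?_ (Real.exp_pos _).le
      exact mul_le_mul_of_nonneg_left hyW (sq_nonneg C)
    _ = (Real.exp C * C ^ 2 + Real.exp (C + 1) * (C + 1)) * H * W := by ring

end Pool.Agent.N785.MG
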