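import Pool.Agent.N785.MG.Stm2
import Pool.Agent.N785.MG.T1a
import Pool.Agent.N785.MG.T3a

/-!
Project MG (helper785), piece K3a (helper954): windows with many / few survivors for systems, by weighted averaging.
-/

open Finset Polynomial

namespace Pool.Agent.N785.MG

namespace K3a_

variable {k : ℕ}

theorem bad_congr (g : Fin k → ℤ[X]) (p : ℕ) (γ : Fin k → ℤ) {a b : ℕ}
    (h : (p : ℤ) ∣ (a : ℤ) - b) : Bad g γ p a ↔ Bad g γ p b := by
  unfold Bad
  exact exists_congr fun i => T3a_.dvd_congr (g i) p (γ i) h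

theorem bad_mod (g : Fin k → ℤ[X]) (p : ℕ) (γ : Fin k → ℤ) (u r : ℕ) :
    Bad g γ p (u + r) ↔ Bad g γ p (u % p + r) := by
  apply bad_congr
  refine ⟨(u / p : ℕ), ?_⟩
  have h := Nat.div_add_mod u p
  have : (u : ℤ) = p * (u / p : ℕ) + (u % p : ℕ) := by exact_mod_cast h.symm
  push_cast at this ⊢
  linarith

open Classical in
/-- indicator of `p ∤ g(t+r) + γ` -/
noncomputable def ind (g : Fin k → ℤ[X]) (p : ℕ) (γ : Fin k → ℤ) (r t : ℕ) : ℝ :=
  if Bad g γ p (t + r) then 0 else 1

open Classical in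
/-- the weights -/
noncomputable def om (g : Fin k → ℤ[X]) (PL : Finset ℕ) (γ : Fin k → ℤ) (p t : ℕ) : ℝ :=
  if p ∈ PL ∧ nuk g p γ ≠ 0 then (if Bad g γ p t then (p : ℝ) / nuk g p γ else 0) else 1

theorem om_nonneg (g : Fin k → ℤ[X]) (PL : Finset ℕ) (γ : Fin k → ℤ) (p t : ℕ) : 0 ≤ om g PL γ p t := by
  unfold om
  split_ifs <;> positivity

theorem sum_om (g : Fin k → ℤ[X]) (PL : Finset ℕ) (γ : Fin k → ℤ) (p : ℕ) :
    ∑ t ∈ range p, om g PL γ p t = p := by
  classical
  unfold om
  by_cases h : p ∈ PL ∧ nuk g p γ ≠ 0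
  · simp only [if_pos h]
    rw [← Finset.sum_filter, Finset.sum_const, nsmul_eq_mul]
    have h0 : ((nuk g p γ : ℕ) : ℝ) ≠ 0 := by exact_mod_cast h.2
    have : ((range p).filter (fun t => Bad g γ p t)).card = nuk g p γ := rfl
    rw [this]
    field_simp
  · simp only [if_neg h]
    simp

/-- the number of `t` such that `t + r` is not a root -/
theorem sum_ind (g : Fin k → ℤ[X]) {p : ℕ} (hp : 0 < p) (γ : Fin k → ℤ) (r : ℕ) :
    ∑ t ∈ range p, ind g p γ r t = p - nuk g p γ := by
  classical
  have h1 : ∑ t ∈ range p, (if Bad g γ p t then (1:ℝ) else 0) = nuk g p γ := by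
    rw [← Finset.sum_filter, Finset.sum_const, nsmul_eq_mul, mul_one]
    rfl
  have h2 := T1a_.sum_shift (p := 1) (q := p)
    (f := fun t => if Bad g γ p t then (1:ℝ) else 0) hp
    (fun t => by
      have : Bad g γ p (t + p) ↔ Bad g γ p t := by
        apply bad_congr
        refine ⟨1, ?_⟩
        push_cast
        ring
      simp only [this]) (Nat.coprime_one_left p) r
  simp only [one_mul] at h2
  have h3 : ∀ t ∈ range p, ind g p γ r t =
      1 - (if Bad g γ p (t + r) then (1:ℝ) else 0) := by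
    intro t _
    unfold ind
    split_ifs <;> norm_num
  rw [Finset.sum_congr rfl h3, Finset.sum_sub_distrib, h2, h1]
  simp

theorem factor (g : Fin k → ℤ[X]) (PL : Finset ℕ) (γ : Fin k → ℤ) {p : ℕ} (hp : 0 < p) (r : ℕ)
    (h : p ∈ PL → nuk g p γ < p) :
    ∑ t ∈ range p, om g PL γ p t * ind g p γ r t =
      p * (1 - (nuk g p γ : ℝ) / p) * (if p ∈ PL then AAk g p γ r else 1) := by
  classical
  have hp0 : (p : ℝ) ≠ 0 := by exact_mod_cast hp.ne'
  by_cases hPL : p ∈ PL
  · rw [if_pos hPL]
    have hlt : (nuk g p γ : ℝ) < p := by exact_mod_cast h hPL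
    have hne : 1 - (nuk g p γ : ℝ) / p ≠ 0 := by
      have : (nuk g p γ : ℝ) / p < 1 := by
        rw [div_lt_one (by exact_mod_cast hp)]
        exact hlt
      linarith
    unfold AAk
    by_cases hnu : nuk g p γ = 0
    · rw [if_pos hnu]
      have e : ∀ t ∈ range p, om g PL γ p t * ind g p γ r t = ind g p γ r t := by
        intro t _
        unfold om
        rw [if_neg (by tauto), one_mul]
      rw [Finset.sum_congr rfl e, sum_ind g hp, hnu]
      simp
    · rw [if_neg hnu]
      have hnu' : (nuk g p γ : ℝ) ≠ 0 := by exact_mod_cast hnu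
      have e : ∀ t ∈ range p, om g PL γ p t * ind g p γ r t =
          (p : ℝ) / nuk g p γ * (if (Bad g γ p t ∧
            ¬ Bad g γ p (t + r)) then 1 else 0) := by
        intro t _
        unfold om ind
        rw [if_pos ⟨hPL, hnu⟩]
        by_cases h1 : Bad g γ p t
        · by_cases h2 : Bad g γ p (t + r)
          · rw [if_pos h1, if_pos h2, if_neg (by tauto)]
          · rw [if_pos h1, if_neg h2, if_pos ⟨h1, h2⟩]
        · rw [if_neg h1, zero_mul]
          symm
          rw [if_neg (fun hh => h1 hh.1), mul_zero]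
      rw [Finset.sum_congr rfl e, ← Finset.mul_sum, ← Finset.sum_filter, Finset.sum_const,
        nsmul_eq_mul, mul_one]
      set N := (((range p).filter (fun t => Bad g γ p t ∧
        ¬ Bad g γ p (t + r))).card : ℝ) with hN
      rw [mul_assoc, mul_div_cancel₀ _ hne]
      ring
  · rw [if_neg hPL, mul_one]
    have e : ∀ t ∈ range p, om g PL γ p t * ind g p γ r t = ind g p γ r t := by
      intro t _
      unfold om
      rw [if_neg (by tauto), one_mul]
    rw [Finset.sum_congr rfl e, sum_ind g hp]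
    field_simp

theorem surv_eq (g : Fin k → ℤ[X]) (P : Finset ℕ) (γ : Fin k → ℤ) (u H : ℕ) :
    (survk g P γ u H : ℝ) = ∑ r ∈ Icc 1 H, ∏ p ∈ P, ind g p γ r (u % p) := by
  classical
  unfold survk
  rw [Finset.card_filter]
  push_cast
  refine Finset.sum_congr rfl fun r _ => ?_
  by_cases h : ∀ p ∈ P, ¬ Bad g γ p (u + r)
  · have h' : ∀ p ∈ P, ind g p γ r (u % p) = 1 := by
      intro p hp
      unfold ind
      rw [if_neg]
      rw [← bad_mod]
      exact h p hp
    rw [Finset.prod_congr rfl h', Finset.prod_const_one]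
    rw [if_pos h]
  · rw [if_neg h]
    push Not at h
    obtain ⟨p, hp, hd⟩ := h
    symm
    apply Finset.prod_eq_zero hp
    unfold ind
    rw [if_pos]
    rw [← bad_mod]
    exact hd

end K3a_

open K3a_ in
/-- **K3a** -/
theorem t_K3a (h : S_CR) : S_K3a := by
  classical
  intro k g P PL γ H hP hPL hnu
  set Om : ℕ → ℝ := fun u => ∏ p ∈ P, om g PL γ p (u % p) with hOm
  have hOm0 : ∀ u, 0 ≤ Om u := fun u => Finset.prod_nonneg fun p _ => om_nonneg _ _ _ _ _
  have hprm : (0:ℝ) < prm P := by
    have : 0 < prm P := Finset.prod_pos fun p hp => (hP p hp).pos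
    exact_mod_cast this
  have hsum : ∑ u ∈ range (prm P), Om u = prm P := by
    rw [hOm]
    rw [h P (fun p t => om g PL γ p t) hP, Finset.prod_congr rfl fun p _ => sum_om g PL γ p]
    unfold prm
    push_cast
    rfl
  have hmain : ∑ u ∈ range (prm P), Om u * survk g P γ u H =
      prm P * (densk g P γ * XLk g PL γ H) := by
    have e1 : ∀ u ∈ range (prm P), Om u * survk g P γ u H =
        ∑ r ∈ Icc 1 H, ∏ p ∈ P, (om g PL γ p (u % p) * ind g p γ r (u % p)) := by
      intro u _
      rw [surv_eq, Finset.mul_sum]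
      refine Finset.sum_congr rfl fun r _ => ?_
      rw [Finset.prod_mul_distrib]
    rw [Finset.sum_congr rfl e1, Finset.sum_comm]
    have e2 : ∀ r ∈ Icc 1 H, ∑ u ∈ range (prm P),
        ∏ p ∈ P, (om g PL γ p (u % p) * ind g p γ r (u % p)) =
        prm P * densk g P γ * ∏ p ∈ PL, AAk g p γ r := by
      intro r _
      rw [h P (fun p t => om g PL γ p t * ind g p γ r t) hP]
      have e3 : ∀ p ∈ P, ∑ t ∈ range p, om g PL γ p t * ind g p γ r t =
          p * (1 - (nuk g p γ : ℝ) / p) * (if p ∈ PL then AAk g p γ r else 1) := fun p hp =>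
        factor g PL γ (hP p hp).pos r (hnu p)
      rw [Finset.prod_congr rfl e3, Finset.prod_mul_distrib, Finset.prod_mul_distrib]
      have e4 : ∏ p ∈ P, (if p ∈ PL then AAk g p γ r else 1) = ∏ p ∈ PL, AAk g p γ r := by
        rw [Finset.prod_ite_mem, Finset.inter_eq_right.2 hPL]
      rw [e4]
      unfold densk prm
      push_cast
      rfl
    rw [Finset.sum_congr rfl e2, ← Finset.mul_sum]
    unfold XLk
    ring
  have hz : ∀ D : ℕ → ℝ, (∀ u ∈ range (prm P), 0 < D u) →
      ∑ u ∈ range (prm P), Om u * D u = 0 → False := by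
    intro D hD h0
    have h1 := (Finset.sum_eq_zero_iff_of_nonneg fun u hu =>
      mul_nonneg (hOm0 u) (hD u hu).le).1 h0
    have h2 : ∑ u ∈ range (prm P), Om u = 0 := by
      refine Finset.sum_eq_zero fun u hu => ?_
      rcases mul_eq_zero.1 (h1 u hu) with h3 | h3
      · exact h3
      · exact absurd h3 (hD u hu).ne'
    rw [hsum] at h2
    exact hprm.ne' h2
  constructor
  · by_contra hcon
    push Not at hcon
    refine hz (fun u => densk g P γ * XLk g PL γ H - survk g P γ u H)
      (fun u hu => sub_pos.2 (hcon u (Finset.mem_range.1 hu))) ?_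
    simp only [mul_sub]
    rw [Finset.sum_sub_distrib, hmain, ← Finset.sum_mul, hsum, sub_self]
  · by_contra hcon
    push Not at hcon
    refine hz (fun u => survk g P γ u H - densk g P γ * XLk g PL γ H)
      (fun u hu => sub_pos.2 (hcon u (Finset.mem_range.1 hu))) ?_
    simp only [mul_sub]
    rw [Finset.sum_sub_distrib, hmain, ← Finset.sum_mul, hsum, sub_self]

end Pool.Agent.N785.MG
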