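import Pool.Agent.N785.MG.Stm

set_option autoImplicit false

/-!
Project MG: the mean of `XL` over the classes (helper407).
-/

open Finset Polynomial

namespace Pool.Agent.N785.MG

namespace T3b_

theorem dvd_iff {p : ℕ} {a c c' : ℤ} (h : (p : ℤ) ∣ c - c') : (p : ℤ) ∣ a + c ↔ (p : ℤ) ∣ a + c' := by
  constructor
  · intro h1
    have := dvd_sub h1 h
    rwa [show a + c - (c - c') = a + c' by ring] at this
  · intro h1
    have := dvd_add h1 h
    rwa [show a + c' + (c - c') = a + c by ring] at this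

theorem nu_congr (g : ℤ[X]) {p : ℕ} {c c' : ℤ} (h : (p : ℤ) ∣ c - c') : nu g p c = nu g p c' := by
  unfold nu
  congr 1
  refine Finset.filter_congr fun t _ => ?_
  exact dvd_iff h

theorem AA_congr (g : ℤ[X]) {p : ℕ} {c c' : ℤ} (h : (p : ℤ) ∣ c - c') (r : ℕ) : AA g p c r = AA g p c' r := by
  unfold AA
  rw [nu_congr g h]
  have h1 : (range p).filter (fun t : ℕ => (p : ℤ) ∣ g.eval (t : ℤ) + c ∧ ¬ (p : ℤ) ∣ g.eval ((t + r : ℕ) : ℤ) + c) =
      (range p).filter (fun t : ℕ => (p : ℤ) ∣ g.eval (t : ℤ) + c' ∧ ¬ (p : ℤ) ∣ g.eval ((t + r : ℕ) : ℤ) + c') := by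
    refine Finset.filter_congr fun t _ => ?_
    rw [dvd_iff h, dvd_iff h]
  rw [h1]

theorem AA_mod (g : ℤ[X]) (p γ r : ℕ) : AA g p (γ : ℤ) r = AA g p ((γ % p : ℕ) : ℤ) r := by
  apply AA_congr
  have h1 : (γ : ℤ) - ((γ % p : ℕ) : ℤ) = (p : ℤ) * ((γ / p : ℕ) : ℤ) := by
    have h2 := Nat.div_add_mod γ p
    have h3 : ((p * (γ / p) + γ % p : ℕ) : ℤ) = (γ : ℤ) := by rw [h2]
    push_cast at h3 ⊢
    linarith
  rw [h1]
  exact dvd_mul_right _ _

end T3b_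

theorem t_T3b (h : S_CR) : S_T3b := by
  intro g PL H hP
  unfold XL
  rw [Finset.sum_comm, Finset.mul_sum]
  refine Finset.sum_congr rfl fun r _ => ?_
  have h1 : ∀ γ ∈ range (prm PL), ∏ p ∈ PL, AA g p (γ : ℤ) r = ∏ p ∈ PL, AA g p ((γ % p : ℕ) : ℤ) r :=
    fun γ _ => Finset.prod_congr rfl fun p _ => T3b_.AA_mod g p γ r
  rw [Finset.sum_congr rfl h1, h PL (fun p t => AA g p (t : ℤ) r) hP]
  have h2 : ∀ p ∈ PL, ∑ t ∈ range p, AA g p (t : ℤ) r = (p : ℝ) * ee g p r := by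
    intro p hp
    unfold ee
    have : (p : ℝ) ≠ 0 := by exact_mod_cast (hP p hp).pos.ne'
    field_simp
  rw [Finset.prod_congr rfl h2, Finset.prod_mul_distrib]
  unfold prm
  rw [Nat.cast_prod]

end Pool.Agent.N785.MG
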