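import Pool.Agent.N785.MG.Stm2
import Pool.Agent.N785.MG.T3b

set_option autoImplicit false

/-!
Project MG: the mean of `XLk` over the vectors (helper615, after `T3b.lean` of helper407).
-/

open Finset Polynomial

namespace Pool.Agent.N785.MG

namespace K3b_

theorem Bad_congr {k : ℕ} (g : Fin k → ℤ[X]) {p : ℕ} {c c' : Fin k → ℤ}
    (h : ∀ i, (p : ℤ) ∣ c i - c' i) (t : ℕ) : Bad g c p t ↔ Bad g c' p t := by
  unfold Bad
  exact exists_congr fun i => T3b_.dvd_iff (h i)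

theorem nuk_congr {k : ℕ} (g : Fin k → ℤ[X]) {p : ℕ} {c c' : Fin k → ℤ}
    (h : ∀ i, (p : ℤ) ∣ c i - c' i) : nuk g p c = nuk g p c' := by
  classical
  unfold nuk
  have h1 : (range p).filter (fun t => Bad g c p t) = (range p).filter (fun t => Bad g c' p t) :=
    Finset.filter_congr fun t _ => Bad_congr g h t
  rw [h1]

theorem AAk_congr {k : ℕ} (g : Fin k → ℤ[X]) {p : ℕ} {c c' : Fin k → ℤ}
    (h : ∀ i, (p : ℤ) ∣ c i - c' i) (r : ℕ) : AAk g p c r = AAk g p c' r := by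
  classical
  unfold AAk
  rw [nuk_congr g h]
  have h1 : (range p).filter (fun t => Bad g c p t ∧ ¬ Bad g c p (t + r)) =
      (range p).filter (fun t => Bad g c' p t ∧ ¬ Bad g c' p (t + r)) := by
    refine Finset.filter_congr fun t _ => ?_
    rw [Bad_congr g h, Bad_congr g h]
  rw [h1]

theorem AAk_mod {k : ℕ} (g : Fin k → ℤ[X]) (p : ℕ) (γ : Fin k → ℕ) (r : ℕ) :
    AAk g p (zv γ) r = AAk g p (zv fun i => γ i % p) r := by
  apply AAk_congr
  intro i
  unfold zv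
  have h1 : (γ i : ℤ) - ((γ i % p : ℕ) : ℤ) = (p : ℤ) * ((γ i / p : ℕ) : ℤ) := by
    have h2 := Nat.div_add_mod (γ i) p
    have h3 : ((p * (γ i / p) + γ i % p : ℕ) : ℤ) = (γ i : ℤ) := by rw [h2]
    push_cast at h3 ⊢
    linarith
  rw [h1]
  exact dvd_mul_right _ _

end K3b_

theorem t_K3b (h : S_KR) : S_K3b := by
  intro k g PL H hP
  unfold XLk
  rw [Finset.sum_comm, Finset.mul_sum]
  refine Finset.sum_congr rfl fun r _ => ?_
  have h1 : ∀ γ ∈ box k (prm PL), ∏ p ∈ PL, AAk g p (zv γ) r =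
      ∏ p ∈ PL, AAk g p (zv fun i => γ i % p) r :=
    fun γ _ => Finset.prod_congr rfl fun p _ => K3b_.AAk_mod g p γ r
  rw [Finset.sum_congr rfl h1, h k PL (fun p t => AAk g p (zv t) r) hP]
  have h2 : ∀ p ∈ PL, ∑ t ∈ box k p, AAk g p (zv t) r = (p : ℝ) ^ k * eek g p r := by
    intro p hp
    unfold eek
    have : (p : ℝ) ^ k ≠ 0 := pow_ne_zero _ (by exact_mod_cast (hP p hp).pos.ne')
    field_simp
  rw [Finset.prod_congr rfl h2, Finset.prod_mul_distrib, Finset.prod_pow]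
  unfold prm
  rw [Nat.cast_prod]

end Pool.Agent.N785.MG
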