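import Pool.Agent.N785.MG.KL

/-!
Project MG, systems: a positive proportion of the vectors has `bhk` bounded below (port of T3d, helper539).
-/

set_option autoImplicit false
open Finset Polynomial

namespace Pool.Agent.N785.MG

namespace K3d_

theorem nuk_mod {k : ℕ} (g : Fin k → ℤ[X]) (p : ℕ) (n : Fin k → ℕ) :
    nuk g p (zv n) = nuk g p (zv fun i => n i % p) := by
  refine KL_.nuk_congr fun i => ?_
  refine ⟨(n i / p : ℕ), ?_⟩
  have h := Nat.div_add_mod (n i) p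
  have h1 : (n i : ℤ) = p * (n i / p : ℕ) + (n i % p : ℕ) := by exact_mod_cast h.symm
  unfold zv
  linarith

/-- a vector with prescribed residues -/
theorem exists_class (h : S_KR) (k : ℕ) (P : Finset ℕ) (hP : ∀ p ∈ P, p.Prime) (a : ℕ → Fin k → ℕ)
    (ha : ∀ p ∈ P, ∀ i, a p i < p) :
    ∃ n ∈ box k (prm P), ∀ p ∈ P, (fun i => n i % p) = a p := by
  classical
  have h1 := h k P (fun p t => if t = a p then 1 else 0) hP
  have h2 : ∀ p ∈ P, ∑ t ∈ box k p, (if t = a p then (1 : ℝ) else 0) = 1 := by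
    intro p hp
    rw [Finset.sum_ite_eq', if_pos]
    unfold box
    rw [Fintype.mem_piFinset]
    exact fun i => mem_range.2 (ha p hp i)
  rw [Finset.prod_congr rfl h2, Finset.prod_const_one] at h1
  by_contra hcon
  push Not at hcon
  have h3 : ∑ n ∈ box k (prm P), ∏ p ∈ P, (if (fun i => n i % p) = a p then (1 : ℝ) else 0) = 0 := by
    refine Finset.sum_eq_zero fun n hn => ?_
    obtain ⟨p, hp, hne⟩ := hcon n hn
    exact Finset.prod_eq_zero hp (if_neg hne)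
  rw [h3] at h1
  exact zero_ne_one h1

theorem sum_inv_sq_le (S : Finset ℕ) : ∑ p ∈ S, (1 : ℝ) / (p : ℝ) ^ 2 ≤ 2 := by
  have h1 : ∑ p ∈ S, (1 : ℝ) / (p : ℝ) ^ 2 ≤ ∑' n : ℕ, (1 : ℝ) / (n : ℝ) ^ 2 :=
    hasSum_zeta_two.summable.sum_le_tsum S fun n _ => by positivity
  rw [hasSum_zeta_two.tsum_eq] at h1
  have h2 := Real.pi_lt_d2
  have h3 := Real.pi_pos
  nlinarith

/-- the mean of the inverse factors -/
theorem mean_inv {k : ℕ} {g : Fin k → ℤ[X]} {p d : ℕ} {C : ℝ} (hp : p.Prime)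
    (hd : ∀ c : Fin k → ℤ, nuk g p c ≤ d) (h2 : 2 * d ≤ p)
    (hs : |(∑ γ ∈ box k p, (nuk g p (zv γ) : ℝ)) / (p : ℝ) ^ k - k| ≤ C / p) :
    ∑ t ∈ box k p, ((1 - (nuk g p (zv t) : ℝ) / p) / (1 - 1 / (p : ℝ)) ^ k)⁻¹ ≤
      (p : ℝ) ^ k * Real.exp ((C + 2 * d ^ 2) * (1 / (p : ℝ) ^ 2)) := by
  have hp0 : (0 : ℝ) < p := by exact_mod_cast hp.pos
  have hp1 : (1 : ℝ) < p := by exact_mod_cast hp.one_lt
  have hip : 1 / (p : ℝ) < 1 := by rw [div_lt_one hp0]; exact hp1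
  have hip0 : 0 < 1 / (p : ℝ) := by positivity
  have hb0 : 0 < 1 - 1 / (p : ℝ) := by linarith
  have hbk : 0 < (1 - 1 / (p : ℝ)) ^ k := pow_pos hb0 k
  have hpk : 0 < (p : ℝ) ^ k := pow_pos hp0 k
  have h1 : ∀ t ∈ box k p, ((1 - (nuk g p (zv t) : ℝ) / p) / (1 - 1 / (p : ℝ)) ^ k)⁻¹ ≤
      (1 - 1 / (p : ℝ)) ^ k * (1 + (nuk g p (zv t) : ℝ) / p + 2 * d ^ 2 * (1 / (p : ℝ) ^ 2)) := by
    intro t _
    rw [inv_div, div_eq_mul_inv]
    refine mul_le_mul_of_nonneg_left ?_ hbk.le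
    obtain ⟨s, hs'⟩ : ∃ s : ℝ, s = (nuk g p (zv t) : ℝ) / p := ⟨_, rfl⟩
    rw [← hs']
    have hs0 : 0 ≤ s := by rw [hs']; positivity
    have hnd : (nuk g p (zv t) : ℝ) ≤ d := by exact_mod_cast hd (zv t)
    have h2' : 2 * (d : ℝ) ≤ p := by exact_mod_cast h2
    have hs1 : s ≤ 1 / 2 := by
      rw [hs', div_le_iff₀ hp0]
      linarith
    have hs2 : s ^ 2 ≤ d ^ 2 * (1 / (p : ℝ) ^ 2) := by
      rw [hs', div_pow, mul_one_div]
      exact div_le_div_of_nonneg_right (pow_le_pow_left₀ (Nat.cast_nonneg _) hnd 2) (by positivity)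
    have h3 : (1 - s)⁻¹ ≤ 1 + s + 2 * s ^ 2 := by
      rw [inv_eq_one_div, div_le_iff₀ (by linarith)]
      nlinarith [mul_nonneg (sq_nonneg s) (by linarith : (0 : ℝ) ≤ 1 - 2 * s)]
    linarith
  refine (Finset.sum_le_sum h1).trans ?_
  rw [← Finset.mul_sum, Finset.sum_add_distrib, Finset.sum_add_distrib, ← Finset.sum_div]
  simp only [Finset.sum_const, nsmul_eq_mul, mul_one]
  rw [KL_.card_box]
  push_cast
  obtain ⟨Sg, hSg⟩ : ∃ Sg : ℝ, Sg = ∑ γ ∈ box k p, (nuk g p (zv γ) : ℝ) := ⟨_, rfl⟩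
  rw [← hSg] at hs ⊢
  have h4 : Sg ≤ (p : ℝ) ^ k * (k + C / p) := by
    have h5 := (abs_le.1 hs).2
    have h6 : Sg / (p : ℝ) ^ k ≤ k + C / p := by linarith
    rw [div_le_iff₀ hpk] at h6
    linarith
  have h5 : Sg / p ≤ (p : ℝ) ^ k * (k + C / p) / p := div_le_div_of_nonneg_right h4 hp0.le
  have h6 : (1 - 1 / (p : ℝ)) ^ k ≤ Real.exp (-(k / p)) := by
    have h7 : 1 - 1 / (p : ℝ) ≤ Real.exp (-(1 / p)) := by
      have := Real.add_one_le_exp (-(1 / (p : ℝ)))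
      linarith
    calc (1 - 1 / (p : ℝ)) ^ k ≤ Real.exp (-(1 / p)) ^ k := pow_le_pow_left₀ hb0.le h7 k
      _ = Real.exp (-(k / p)) := by
          rw [← Real.exp_nat_mul]
          congr 1
          ring
  have h7 := Real.add_one_le_exp ((k : ℝ) / p + (C + 2 * d ^ 2) * (1 / (p : ℝ) ^ 2))
  have h8 : (p : ℝ) ^ k + Sg / p + (p : ℝ) ^ k * (2 * d ^ 2 * (1 / (p : ℝ) ^ 2)) ≤
      (p : ℝ) ^ k * Real.exp ((k : ℝ) / p + (C + 2 * d ^ 2) * (1 / (p : ℝ) ^ 2)) := by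
    have h9 := mul_le_mul_of_nonneg_left h7 hpk.le
    have h10 : (p : ℝ) ^ k * (k + C / p) / p = (p : ℝ) ^ k * (k / p + C * (1 / (p : ℝ) ^ 2)) := by
      field_simp
    rw [h10] at h5
    linarith
  have hnn : 0 ≤ (p : ℝ) ^ k * Real.exp ((k : ℝ) / p + (C + 2 * d ^ 2) * (1 / (p : ℝ) ^ 2)) := by
    positivity
  calc (1 - 1 / (p : ℝ)) ^ k * ((p : ℝ) ^ k + Sg / p + (p : ℝ) ^ k * (2 * d ^ 2 * (1 / (p : ℝ) ^ 2)))
      ≤ (1 - 1 / (p : ℝ)) ^ k *
        ((p : ℝ) ^ k * Real.exp ((k : ℝ) / p + (C + 2 * d ^ 2) * (1 / (p : ℝ) ^ 2))) :=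
        mul_le_mul_of_nonneg_left h8 hbk.le
    _ ≤ Real.exp (-(k / p)) *
        ((p : ℝ) ^ k * Real.exp ((k : ℝ) / p + (C + 2 * d ^ 2) * (1 / (p : ℝ) ^ 2))) :=
        mul_le_mul_of_nonneg_right h6 hnn
    _ = (p : ℝ) ^ k * (Real.exp (-(k / p)) *
          Real.exp ((k : ℝ) / p + (C + 2 * d ^ 2) * (1 / (p : ℝ) ^ 2))) := by ring
    _ = (p : ℝ) ^ k * Real.exp ((C + 2 * d ^ 2) * (1 / (p : ℝ) ^ 2)) := by
        rw [← Real.exp_add]
        congr 2
        ring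

end K3d_

open K3d_ in
/-- **K3d** -/
theorem t_K3d (h : S_KR) (h2 : S_K2) (h3 : S_K3c) : S_K3d := by
  classical
  intro k g hg
  obtain ⟨p0, d, C, hC0, hd1, hp0⟩ := h2 k g hg
  obtain ⟨E, hE⟩ : ∃ E : ℝ, E = Real.exp (2 * (C + 2 * d ^ 2)) := ⟨_, rfl⟩
  have hE0 : 0 < E := by rw [hE]; exact Real.exp_pos _
  obtain ⟨W, hW⟩ : ∃ W : ℕ, W = ∏ p ∈ (range p0).filter Nat.Prime, p := ⟨_, rfl⟩
  have hW0 : 0 < W := by rw [hW]; exact Finset.prod_pos fun p hp => (Finset.mem_filter.1 hp).2.pos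
  have hWr : (0 : ℝ) < W := by exact_mod_cast hW0
  refine ⟨1 / (2 * E) * (1 / W), 1 / (2 * W ^ k), by positivity, by positivity, ?_⟩
  intro P hP
  obtain ⟨P1, hP1⟩ : ∃ P1, P1 = P.filter (fun p => p < p0) := ⟨_, rfl⟩
  obtain ⟨P2, hP2⟩ : ∃ P2, P2 = P.filter (fun p => ¬ p < p0) := ⟨_, rfl⟩
  have hunion : P1 ∪ P2 = P := by rw [hP1, hP2]; exact Finset.filter_union_filter_not_eq _ _
  have hdisj : Disjoint P1 P2 := by rw [hP1, hP2]; exact Finset.disjoint_filter_filter_not _ _ _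
  have hP1' : ∀ p ∈ P1, p.Prime := fun p hp => hP p (by rw [hP1] at hp; exact (Finset.mem_filter.1 hp).1)
  have hP2' : ∀ p ∈ P2, p.Prime := fun p hp => hP p (by rw [hP2] at hp; exact (Finset.mem_filter.1 hp).1)
  have hP2'' : ∀ p ∈ P2, p0 ≤ p := fun p hp =>
    not_lt.1 (by rw [hP2] at hp; exact (Finset.mem_filter.1 hp).2)
  have hprm0 : ∀ Q : Finset ℕ, (∀ p ∈ Q, p.Prime) → (0 : ℝ) < prm Q := fun Q hQ => by
    have : 0 < prm Q := Finset.prod_pos fun p hp => (hQ p hp).pos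
    exact_mod_cast this
  -- factors
  obtain ⟨fac, hfac⟩ : ∃ fac : ℕ → (Fin k → ℕ) → ℝ, fac = fun (p : ℕ) (t : Fin k → ℕ) =>
    (1 - (nuk g p (zv t) : ℝ) / p) / (1 - 1 / (p : ℝ)) ^ k := ⟨_, rfl⟩
  have hbh : ∀ (Q : Finset ℕ) (n : Fin k → ℕ), bhk g Q (zv n) = ∏ p ∈ Q, fac p (fun i => n i % p) := by
    intro Q n
    unfold bhk
    refine Finset.prod_congr rfl fun p _ => ?_
    rw [hfac]
    simp only
    rw [nuk_mod g p n]
  -- the vectors
  obtain ⟨a, ha⟩ : ∃ a : ℕ → Fin k → ℕ, a = fun (p : ℕ) (i : Fin k) =>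
    ((1 - (g i).eval 0) % (p : ℤ)).toNat := ⟨_, rfl⟩
  have ha0 : ∀ p : ℕ, 0 < p → ∀ i, ((a p i : ℕ) : ℤ) = (1 - (g i).eval 0) % (p : ℤ) := by
    intro p hp i
    rw [ha]
    simp only
    exact Int.toNat_of_nonneg (Int.emod_nonneg _ (by omega))
  have haP : ∀ p ∈ P1, ∀ i, a p i < p := by
    intro p hp i
    have hpp := (hP1' p hp).pos
    have h1 := ha0 p hpp i
    have h2 := Int.emod_lt_of_pos (1 - (g i).eval 0) (show (0 : ℤ) < p by omega)
    omega
  have hanu : ∀ p ∈ P1, nuk g p (zv (a p)) + 1 ≤ p := by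
    intro p hp
    have hpp := (hP1' p hp).pos
    have h0 : ¬ Bad g (zv (a p)) p 0 := by
      rintro ⟨i, hi⟩
      have h1 := ha0 p hpp i
      unfold zv at hi
      rw [h1] at hi
      have h2 : (p : ℤ) ∣ (1 - (g i).eval 0) - (1 - (g i).eval 0) % (p : ℤ) :=
        Int.dvd_self_sub_emod
      have h4 := dvd_add hi h2
      have h5 : (g i).eval ((0 : ℕ) : ℤ) + (1 - (g i).eval 0) % (p : ℤ) +
          ((1 - (g i).eval 0) - (1 - (g i).eval 0) % (p : ℤ)) = 1 := by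
        push_cast
        ring
      rw [h5] at h4
      have h6 : p ∣ 1 := by exact_mod_cast h4
      exact (hP1' p hp).one_lt.ne' (Nat.dvd_one.1 h6)
    have h1 : nuk g p (zv (a p)) < (range p).card := by
      unfold nuk
      refine Finset.card_lt_card ?_
      rw [Finset.filter_ssubset]
      exact ⟨0, mem_range.2 hpp, h0⟩
    rw [card_range] at h1
    omega
  obtain ⟨n1, hn1, hn1'⟩ := exists_class h k P1 hP1' a haP
  obtain ⟨A, hA⟩ : ∃ A : (Fin k → ℕ) → Prop, A = fun n => ∀ p ∈ P1, (fun i => n i % p) = a p := ⟨_, rfl⟩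
  obtain ⟨B, hB⟩ : ∃ B : (Fin k → ℕ) → Prop, B = fun n => 1 / (2 * E) ≤ bhk g P2 (zv n) := ⟨_, rfl⟩
  have hmodP : ∀ (Q : Finset ℕ) (n m : Fin k → ℕ), Cong (prm Q) n m → ∀ p ∈ Q,
      (fun i => n i % p) = fun i => m i % p := by
    intro Q n m hnm p hp
    have hdvd : p ∣ prm Q := Finset.dvd_prod_of_mem _ hp
    funext i
    exact (hnm i).of_dvd hdvd
  have key := h3 k P1 P2 A B hP1' hP2' hdisj
    (fun n m hnm => by
      have := hmodP P1 n m hnm
      rw [hA]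
      constructor
      · intro hn p hp
        rw [← this p hp]
        exact hn p hp
      · intro hm p hp
        rw [this p hp]
        exact hm p hp)
    (fun n m hnm => by
      have := hmodP P2 n m hnm
      have e : bhk g P2 (zv n) = bhk g P2 (zv m) := by
        rw [hbh, hbh]
        exact Finset.prod_congr rfl fun p hp => by rw [this p hp]
      rw [hB]
      simp only [e])
  rw [hunion] at key
  have hcardf : ∀ (X : Finset (Fin k → ℕ)) (Q : (Fin k → ℕ) → Prop) [DecidablePred Q],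
      Nat.card {n // n ∈ X ∧ Q n} = (X.filter Q).card := fun X Q _ =>
    Nat.subtype_card _ (fun n => by rw [Finset.mem_filter])
  -- A is nonempty
  have cA : 1 ≤ Nat.card {n // n ∈ box k (prm P1) ∧ A n} := by
    rw [hcardf]
    refine Finset.card_pos.2 ⟨n1, Finset.mem_filter.2 ⟨hn1, ?_⟩⟩
    rw [hA]
    exact hn1'
  -- the mean of the inverses
  have hfpos : ∀ p ∈ P2, ∀ t, 0 < fac p t := by
    intro p hp t
    obtain ⟨q1, q2, -, -⟩ := hp0 p (hP2' p hp) (hP2'' p hp)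
    have hpp : (0 : ℝ) < p := by exact_mod_cast (hP2' p hp).pos
    have hp1 : (1 : ℝ) < p := by exact_mod_cast (hP2' p hp).one_lt
    have h4 : (nuk g p (zv t) : ℝ) ≤ d := by exact_mod_cast q1 (zv t)
    have h5 : 2 * (d : ℝ) ≤ p := by exact_mod_cast q2
    have h6 : (nuk g p (zv t) : ℝ) / p ≤ 1 / 2 := by
      rw [div_le_iff₀ hpp]
      linarith
    have h7 : 1 / (p : ℝ) < 1 := by rw [div_lt_one hpp]; exact hp1
    rw [hfac]
    exact div_pos (by linarith) (pow_pos (by linarith) k)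
  have hbpos : ∀ n : Fin k → ℕ, 0 < bhk g P2 (zv n) := by
    intro n
    rw [hbh]
    exact Finset.prod_pos fun p hp => hfpos p hp _
  have hprmk : ∀ Q : Finset ℕ, ((prm Q : ℕ) : ℝ) ^ k = ∏ p ∈ Q, (p : ℝ) ^ k := by
    intro Q
    unfold prm
    push_cast
    rw [Finset.prod_pow]
  have hmean : ∑ n ∈ box k (prm P2), (bhk g P2 (zv n))⁻¹ ≤ (prm P2 : ℝ) ^ k * E := by
    have e1 : ∀ n ∈ box k (prm P2), (bhk g P2 (zv n))⁻¹ = ∏ p ∈ P2, (fac p (fun i => n i % p))⁻¹ := by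
      intro n _
      rw [hbh, Finset.prod_inv_distrib]
    rw [Finset.sum_congr rfl e1, h k P2 (fun p t => (fac p t)⁻¹) hP2']
    have e2 : ∏ p ∈ P2, ∑ t ∈ box k p, (fac p t)⁻¹ ≤
        ∏ p ∈ P2, ((p : ℝ) ^ k * Real.exp ((C + 2 * d ^ 2) * (1 / (p : ℝ) ^ 2))) := by
      refine Finset.prod_le_prod (fun p hp => Finset.sum_nonneg fun t _ =>
        (inv_pos.2 (hfpos p hp t)).le) fun p hp => ?_
      obtain ⟨q1, q2, q3, -⟩ := hp0 p (hP2' p hp) (hP2'' p hp)
      rw [hfac]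
      exact mean_inv (hP2' p hp) q1 q2 q3
    refine e2.trans ?_
    rw [Finset.prod_mul_distrib, ← Real.exp_sum, ← Finset.mul_sum, ← hprmk]
    refine mul_le_mul_of_nonneg_left ?_ (pow_nonneg (hprm0 P2 hP2').le k)
    rw [hE]
    apply Real.exp_le_exp.2
    have := sum_inv_sq_le P2
    have h4 : (0 : ℝ) ≤ C + 2 * d ^ 2 := by positivity
    nlinarith
  -- Markov
  have cB : (prm P2 : ℝ) ^ k / 2 ≤ Nat.card {n // n ∈ box k (prm P2) ∧ B n} := by
    rw [hcardf]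
    have e1 : (((box k (prm P2)).filter fun n => ¬ B n).card : ℝ) * (2 * E) ≤ (prm P2 : ℝ) ^ k * E := by
      refine le_trans ?_ hmean
      rw [← nsmul_eq_mul, ← Finset.sum_const]
      refine le_trans ?_ (Finset.sum_le_sum_of_subset_of_nonneg
        (Finset.filter_subset (fun n => ¬ B n) (box k (prm P2)))
        (fun n _ _ => (inv_pos.2 (hbpos n)).le))
      refine Finset.sum_le_sum fun n hn => ?_
      have hn0 := (Finset.mem_filter.1 hn).2
      rw [hB] at hn0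
      have hn' : bhk g P2 (zv n) < 1 / (2 * E) := not_le.1 hn0
      have h5 := (inv_strictAnti₀ (hbpos n) hn').le
      rw [one_div, inv_inv] at h5
      exact h5
    have e2 : (((box k (prm P2)).filter B).card : ℝ) +
        (((box k (prm P2)).filter fun n => ¬ B n).card : ℝ) = (prm P2 : ℝ) ^ k := by
      have := Finset.card_filter_add_card_filter_not (s := box k (prm P2)) B
      rw [KL_.card_box] at this
      exact_mod_cast this
    have e3 : (((box k (prm P2)).filter fun n => ¬ B n).card : ℝ) ≤ (prm P2 : ℝ) ^ k / 2 := by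
      have : ((((box k (prm P2)).filter fun n => ¬ B n).card : ℝ) * 2) * E ≤ (prm P2 : ℝ) ^ k * E := by
        linarith
      have := le_of_mul_le_mul_right this hE0
      linarith
    linarith
  have hP1W : (prm P1 : ℝ) ≤ W := by
    have h4 : P1 ⊆ (range p0).filter Nat.Prime := fun p hp =>
      Finset.mem_filter.2 ⟨Finset.mem_range.2 (by rw [hP1] at hp; exact (Finset.mem_filter.1 hp).2),
        hP1' p hp⟩
    have h5 : prm P1 ∣ W := by
      rw [hW]
      exact Finset.prod_dvd_prod_of_subset _ _ _ h4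
    exact_mod_cast Nat.le_of_dvd hW0 h5
  -- conclusion
  have hsub : Nat.card {n // n ∈ box k (prm P) ∧ A n ∧ B n} ≤
      Nat.card {γ : Fin k → ℕ // γ ∈ box k (prm P) ∧ 1 / (2 * E) * (1 / W) ≤ bhk g P (zv γ)} := by
    rw [hcardf, hcardf]
    refine Finset.card_le_card fun n hn => ?_
    rw [Finset.mem_filter] at hn ⊢
    obtain ⟨hn0, hnA, hnB⟩ := hn
    refine ⟨hn0, ?_⟩
    rw [hA] at hnA
    rw [hB] at hnB
    have e3 : bhk g P (zv n) = bhk g P1 (zv n) * bhk g P2 (zv n) := by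
      rw [← hunion]
      unfold bhk
      exact Finset.prod_union hdisj
    have e4 : 1 / (W : ℝ) ≤ bhk g P1 (zv n) := by
      have h1W : 1 / (W : ℝ) ≤ 1 / prm P1 := one_div_le_one_div_of_le (hprm0 P1 hP1') hP1W
      refine h1W.trans ?_
      rw [hbh]
      have e5 : 1 / ((prm P1 : ℕ) : ℝ) = ∏ p ∈ P1, 1 / (p : ℝ) := by
        unfold prm
        push_cast
        rw [Finset.prod_div_distrib, Finset.prod_const_one]
      rw [e5]
      refine Finset.prod_le_prod (fun _ _ => by positivity) fun p hp => ?_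
      rw [hnA p hp]
      have hpp : (0 : ℝ) < p := by exact_mod_cast (hP1' p hp).pos
      have hp1 : (1 : ℝ) < p := by exact_mod_cast (hP1' p hp).one_lt
      have h7 : 1 / (p : ℝ) < 1 := by rw [div_lt_one hpp]; exact hp1
      have h7' : 0 < 1 / (p : ℝ) := by positivity
      have h8 : (nuk g p (zv (a p)) : ℝ) + 1 ≤ p := by exact_mod_cast hanu p hp
      rw [hfac]
      simp only
      have h9 : 0 < (1 - 1 / (p : ℝ)) ^ k := pow_pos (by linarith) k
      rw [le_div_iff₀ h9]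
      have h10 : (1 - 1 / (p : ℝ)) ^ k ≤ 1 := pow_le_one₀ (by linarith) (by linarith)
      have h11 : 1 / (p : ℝ) ≤ 1 - (nuk g p (zv (a p)) : ℝ) / p := by
        rw [le_sub_iff_add_le, ← add_div, div_le_one hpp]
        linarith
      calc 1 / (p : ℝ) * (1 - 1 / (p : ℝ)) ^ k ≤ 1 / (p : ℝ) * 1 :=
            mul_le_mul_of_nonneg_left h10 h7'.le
        _ ≤ _ := by linarith
    rw [e3, mul_comm (1 / (2 * E))]
    exact mul_le_mul e4 hnB (by positivity) (le_trans (by positivity) e4)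
  have hprm : (prm P : ℝ) = prm P1 * prm P2 := by
    have : prm P = prm P1 * prm P2 := by
      rw [← hunion]
      unfold prm
      exact Finset.prod_union hdisj
    exact_mod_cast this
  have hfinal : (prm P2 : ℝ) ^ k / 2 ≤ Nat.card {n // n ∈ box k (prm P) ∧ A n ∧ B n} := by
    rw [key]
    push_cast
    have c1 : (1 : ℝ) ≤ Nat.card {n // n ∈ box k (prm P1) ∧ A n} := by exact_mod_cast cA
    have c2 : (0 : ℝ) ≤ Nat.card {n // n ∈ box k (prm P2) ∧ B n} := Nat.cast_nonneg _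
    nlinarith
  have hsub' : (Nat.card {n // n ∈ box k (prm P) ∧ A n ∧ B n} : ℝ) ≤
      Nat.card {γ : Fin k → ℕ // γ ∈ box k (prm P) ∧ 1 / (2 * E) * (1 / W) ≤ bhk g P (zv γ)} := by
    exact_mod_cast hsub
  refine le_trans ?_ (hfinal.trans hsub')
  rw [hprm, mul_pow]
  have h6 : 0 < (prm P2 : ℝ) ^ k := pow_pos (hprm0 P2 hP2') k
  have h7 : (prm P1 : ℝ) ^ k ≤ (W : ℝ) ^ k := pow_le_pow_left₀ (hprm0 P1 hP1').le hP1W k
  have h8 : 0 < (W : ℝ) ^ k := by positivity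
  rw [one_div, ← div_eq_inv_mul, div_le_div_iff₀ (by positivity) (by norm_num)]
  nlinarith

end Pool.Agent.N785.MG
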