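import Pool.Agent.N785.MG.Stm2
import Pool.Agent.N785.MG.ASM

/-!
Project MG (helper785), part KA: assembly for systems (port of ASM.lean; this file is by helper301).
-/

set_option autoImplicit false
set_option linter.all false

open Finset Polynomial
open Pool.Agent.H378R2 (Phi GoodP GoodS)

namespace Pool.Agent.N785.MG.KA_

open Pool.Agent.N785.MG.ASM_ (Phi_nonneg Phi_le Phi_zero sum_EE' prm_pos H_le goodP_mono)

/-- the part of a class of vectors in `(X, 3X]^k` -/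
noncomputable def EE {k : ℕ} (X : ℝ) (W : ℕ) (γ : Fin k → ℕ) : Finset (Fin k → ℕ) :=
  Fintype.piFinset (fun i : Fin k => (Ioc ⌊X⌋₊ ⌊3 * X⌋₊).filter (fun c : ℕ => c ≡ γ i [MOD W]))

/-- the weight -/
noncomputable def FF {k : ℕ} (X : ℝ) (c : Fin k → ℕ) : ℝ := ∏ i, Phi (c i / X)

theorem FF_nonneg {k : ℕ} (X : ℝ) (c : Fin k → ℕ) : 0 ≤ FF X c :=
  Finset.prod_nonneg fun i _ => Phi_nonneg _

theorem FF_le {k : ℕ} (hk : 0 < k) (X : ℝ) (c : Fin k → ℕ) : FF X c ≤ 1 / 2 := by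
  have h1 : FF X c ≤ (1 / 2) ^ k := by
    unfold FF
    calc ∏ i, Phi (c i / X) ≤ ∏ i : Fin k, (1 / 2 : ℝ) :=
          Finset.prod_le_prod (fun i _ => Phi_nonneg _) (fun i _ => Phi_le _)
      _ = (1 / 2) ^ k := by simp
  refine h1.trans ?_
  calc (1 / 2 : ℝ) ^ k ≤ (1 / 2) ^ 1 := pow_le_pow_of_le_one (by norm_num) (by norm_num) hk
    _ = 1 / 2 := pow_one _

theorem sum_EE {k : ℕ} (X : ℝ) (hX : 0 < X) (W : ℕ) (γ : Fin k → ℕ) (v : (Fin k → ℕ) → ℝ) :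
    ∑ c ∈ Fintype.piFinset (fun i : Fin k => (Icc 1 ⌊3 * X⌋₊).filter
      (fun c : ℕ => c ≡ γ i [MOD W])), (∏ i, Phi (c i / X)) * v c = ∑ c ∈ EE X W γ, FF X c * v c := by
  symm
  apply Finset.sum_subset
  · intro c hc
    unfold EE at hc
    rw [Fintype.mem_piFinset] at hc ⊢
    intro i
    have := hc i
    rw [mem_filter, mem_Ioc] at this
    rw [mem_filter, mem_Icc]
    exact ⟨⟨by omega, this.1.2⟩, this.2⟩
  · intro c hc hc2
    unfold EE at hc2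
    rw [Fintype.mem_piFinset] at hc hc2
    push Not at hc2
    obtain ⟨i, hi⟩ := hc2
    have h0 := hc i
    rw [mem_filter, mem_Icc] at h0
    rw [mem_filter, mem_Ioc] at hi
    have h1 : c i ≤ ⌊X⌋₊ := by
      by_contra h3
      exact hi ⟨⟨by omega, h0.1.2⟩, h0.2⟩
    have h2 : (c i : ℝ) ≤ X := by
      rwa [Nat.le_floor_iff hX.le] at h1
    unfold FF
    rw [Finset.prod_eq_zero (mem_univ i), zero_mul]
    exact Phi_zero _ (by positivity) (by rw [div_le_one hX]; exact h2)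

/-- the total weight of a class -/
theorem sum_FF {k : ℕ} (X : ℝ) (W : ℕ) (γ : Fin k → ℕ) :
    ∑ c ∈ EE X W γ, FF X c = ∏ i, ∑ c ∈ ASM_.EE X W (γ i), Phi (c / X) := by
  unfold EE FF ASM_.EE
  rw [Finset.prod_univ_sum]

theorem pow_up (k : ℕ) (x θ : ℝ) (hx0 : 0 ≤ x) (hθ1 : θ ≤ 1) (hx : k * x ≤ θ / 2) :
    (1 + x) ^ k ≤ 1 + θ ∧ 1 - θ ≤ (1 - x) ^ k := by
  rcases Nat.eq_zero_or_pos k with rfl | hk
  · simp only [pow_zero]
    simp only [Nat.cast_zero, zero_mul] at hx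
    constructor <;> linarith
  have hk' : (1 : ℝ) ≤ k := by exact_mod_cast hk
  have hx1 : x ≤ 1 / 2 := by nlinarith
  have hθ0 : 0 ≤ θ := by nlinarith
  have hB : 1 - k * x ≤ (1 - x) ^ k := by
    have := one_add_mul_le_pow (a := -x) (by linarith) k
    calc 1 - k * x = 1 + k * -x := by ring
      _ ≤ (1 + -x) ^ k := this
      _ = (1 - x) ^ k := by ring
  refine ⟨?_, by linarith⟩
  have h1 : (1 + x) ^ k * (1 - x) ^ k ≤ 1 := by
    rw [← mul_pow]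
    apply pow_le_one₀ (mul_nonneg (by linarith) (by linarith))
    nlinarith
  have h2 : 0 < 1 - θ / 2 := by linarith
  have h3 : (1 + x) ^ k * (1 - θ / 2) ≤ 1 := by
    refine le_trans ?_ h1
    apply mul_le_mul_of_nonneg_left _ (by positivity)
    linarith
  have h4 : (1 + x) ^ k * (1 - θ / 2) ≤ (1 + θ) * (1 - θ / 2) := by
    refine h3.trans ?_
    nlinarith
  exact le_of_mul_le_mul_right h4 h2

theorem prod_close {k : ℕ} (a : Fin k → ℝ) (M θ : ℝ) (hθ0 : 0 < θ) (hθ1 : θ ≤ 1)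
    (hM : 10 * k / θ ≤ M) (hM0 : 5 ≤ M) (ha : ∀ i, |a i - M| ≤ 5) : |∏ i, a i - M ^ k| ≤ θ * M ^ k := by
  have hMpos : 0 < M := by linarith
  have hx : (k : ℝ) * (5 / M) ≤ θ / 2 := by
    rw [div_le_iff₀ hθ0] at hM
    rw [mul_div_assoc', div_le_iff₀ hMpos]
    linarith
  obtain ⟨h1, h2⟩ := pow_up k (5 / M) θ (by positivity) hθ1 hx
  have h3 : ∏ i, a i ≤ (M + 5) ^ k := by
    calc ∏ i, a i ≤ ∏ i : Fin k, (M + 5) := by
          apply Finset.prod_le_prod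
          · intro i _
            have := (abs_le.1 (ha i)).1
            linarith
          · intro i _
            have := (abs_le.1 (ha i)).2
            linarith
      _ = (M + 5) ^ k := by simp
  have h4 : (M - 5) ^ k ≤ ∏ i, a i := by
    calc (M - 5) ^ k = ∏ i : Fin k, (M - 5) := by simp
      _ ≤ ∏ i, a i := by
          apply Finset.prod_le_prod
          · intro i _
            linarith
          · intro i _
            have := (abs_le.1 (ha i)).1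
            linarith
  have h5 : (M + 5) ^ k = (1 + 5 / M) ^ k * M ^ k := by
    rw [← mul_pow]
    congr 1
    field_simp
  have h6 : (M - 5) ^ k = (1 - 5 / M) ^ k * M ^ k := by
    rw [← mul_pow]
    congr 1
    field_simp
  have hMk : 0 < M ^ k := by positivity
  rw [h5] at h3
  rw [h6] at h4
  rw [abs_le]
  constructor
  · nlinarith
  · nlinarith

/-! ### Finite averaging arguments -/

theorem fin_excess {α : Type} (E : Finset α) (f v : α → ℝ) (δ η C D Y M0 q s μ : ℝ) (hδ : 0 < δ)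
    (hδ1 : δ < 1) (hC : 0 < C) (hD : 0 < D) (hY : 0 < Y) (hf0 : ∀ c, 0 ≤ f c) (hf1 : ∀ c, f c ≤ 1 / 2)
    (hv : ∀ c, 0 ≤ v c) (hM : Y / D ≤ M0) (hq : 0 < q) (hμ : 1 ≤ μ)
    (hs : (1 + δ) * μ ≤ s * q) (hs1 : 1 ≤ s) (hη : 0 < η) (hη1 : η ≤ δ / 32)
    (h1 : |∑ c ∈ E, f c * v c - s * (M0 * q)| ≤ η * (s + 1) * (M0 * q))
    (h2 : |∑ c ∈ E, f c - M0| ≤ δ / 16 * M0)
    (h3 : ∑ c ∈ E, v c ^ 2 ≤ C * Y * ((s * q) ^ 2 + s * q)) :
    δ ^ 2 / (32 * C * D ^ 2) * Y ≤ ((E.filter (fun c => (1 + δ / 2) * μ ≤ v c)).card : ℝ) := by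
  set B := E.filter (fun c => (1 + δ / 2) * μ ≤ v c) with hB
  set T := s * q with hT
  have hM0 : 0 < M0 := lt_of_lt_of_le (by positivity) hM
  have hT1 : 1 ≤ T := by nlinarith
  have hsplit : ∑ c ∈ B, f c * v c + ∑ c ∈ E.filter (fun c => ¬ (1 + δ / 2) * μ ≤ v c), f c * v c =
      ∑ c ∈ E, f c * v c := Finset.sum_filter_add_sum_filter_not _ _ _
  have hnot : ∑ c ∈ E.filter (fun c => ¬ (1 + δ / 2) * μ ≤ v c), f c * v c ≤
      (1 + δ / 2) * μ * (M0 + δ / 16 * M0) := by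
    calc ∑ c ∈ E.filter (fun c => ¬ (1 + δ / 2) * μ ≤ v c), f c * v c
        ≤ ∑ c ∈ E.filter (fun c => ¬ (1 + δ / 2) * μ ≤ v c), f c * ((1 + δ / 2) * μ) := by
          apply Finset.sum_le_sum
          intro c hc
          rw [mem_filter] at hc
          exact mul_le_mul_of_nonneg_left (le_of_lt (not_le.1 hc.2)) (hf0 c)
      _ ≤ ∑ c ∈ E, f c * ((1 + δ / 2) * μ) := by
          apply Finset.sum_le_sum_of_subset_of_nonneg (Finset.filter_subset _ _)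
          intro c _ _
          exact mul_nonneg (hf0 c) (by positivity)
      _ = (1 + δ / 2) * μ * ∑ c ∈ E, f c := by
          rw [← Finset.sum_mul, mul_comm]
      _ ≤ (1 + δ / 2) * μ * (M0 + δ / 16 * M0) := by
          apply mul_le_mul_of_nonneg_left _ (by positivity)
          have := (abs_le.1 h2).2
          linarith
  have hlow : (1 - 2 * η) * (M0 * T) ≤ ∑ c ∈ E, f c * v c := by
    have h4 := (abs_le.1 h1).1
    have h5 : η * (s + 1) * (M0 * q) ≤ 2 * η * (M0 * T) := by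
      have : η * (s + 1) * (M0 * q) ≤ η * (s + s) * (M0 * q) := by gcongr
      calc η * (s + 1) * (M0 * q) ≤ η * (s + s) * (M0 * q) := this
        _ = 2 * η * (M0 * T) := by rw [hT]; ring
    have h6 : s * (M0 * q) = M0 * T := by rw [hT]; ring
    rw [h6] at h4
    nlinarith
  have hμT : (1 + δ / 2) * μ ≤ (1 - δ / 4) * T := by
    have h7 : (1 + δ / 2) * μ ≤ (1 - δ / 4) * ((1 + δ) * μ) := by
      have : 0 ≤ δ * (1 - δ) * μ := by
        apply mul_nonneg (mul_nonneg hδ.le (by linarith)) (by linarith)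
      nlinarith
    have h8 : (1 - δ / 4) * ((1 + δ) * μ) ≤ (1 - δ / 4) * T :=
      mul_le_mul_of_nonneg_left hs (by linarith)
    linarith
  have hSB : δ / 8 * (M0 * T) ≤ ∑ c ∈ B, f c * v c := by
    have h9 : (1 + δ / 2) * μ * (M0 + δ / 16 * M0) ≤ (1 - δ / 4) * T * (M0 + δ / 16 * M0) :=
      mul_le_mul_of_nonneg_right hμT (by positivity)
    have h10 : (1 - δ / 4) * T * (M0 + δ / 16 * M0) ≤ T * ((1 - δ / 4) * M0 + δ / 16 * M0) := by
      have h11 : (1 - δ / 4) * (δ / 16 * M0) ≤ 1 * (δ / 16 * M0) :=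
        mul_le_mul_of_nonneg_right (by linarith) (by positivity)
      have h12 : (1 - δ / 4) * T * (M0 + δ / 16 * M0) =
          T * ((1 - δ / 4) * M0 + (1 - δ / 4) * (δ / 16 * M0)) := by ring
      rw [h12]
      apply mul_le_mul_of_nonneg_left _ (by linarith)
      linarith
    have h13 : 2 * η * (M0 * T) ≤ δ / 16 * (M0 * T) := by
      apply mul_le_mul_of_nonneg_right (by linarith) (by positivity)
    nlinarith
  have hCS : (∑ c ∈ B, f c * v c) ^ 2 ≤ (∑ c ∈ B, f c ^ 2) * (∑ c ∈ B, v c ^ 2) :=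
    Finset.sum_mul_sq_le_sq_mul_sq _ _ _
  have hf2 : ∑ c ∈ B, f c ^ 2 ≤ (B.card : ℝ) * (1 / 4) := by
    calc ∑ c ∈ B, f c ^ 2 ≤ ∑ c ∈ B, (1 / 4 : ℝ) := by
          apply Finset.sum_le_sum
          intro c _
          have := hf0 c
          have := hf1 c
          nlinarith
      _ = (B.card : ℝ) * (1 / 4) := by rw [Finset.sum_const, nsmul_eq_mul]
  have hv2 : ∑ c ∈ B, v c ^ 2 ≤ 2 * (C * Y) * T ^ 2 := by
    calc ∑ c ∈ B, v c ^ 2 ≤ ∑ c ∈ E, v c ^ 2 := by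
          apply Finset.sum_le_sum_of_subset_of_nonneg (Finset.filter_subset _ _)
          intro c _ _
          positivity
      _ ≤ C * Y * (T ^ 2 + T) := h3
      _ ≤ C * Y * (T ^ 2 + T ^ 2) := by
          apply mul_le_mul_of_nonneg_left _ (by positivity)
          nlinarith
      _ = 2 * (C * Y) * T ^ 2 := by ring
  have hfin : (δ / 8 * (M0 * T)) ^ 2 ≤ (B.card : ℝ) * (1 / 4) * (2 * (C * Y) * T ^ 2) := by
    calc (δ / 8 * (M0 * T)) ^ 2 ≤ (∑ c ∈ B, f c * v c) ^ 2 := by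
          apply pow_le_pow_left₀ (by positivity) hSB
      _ ≤ (∑ c ∈ B, f c ^ 2) * (∑ c ∈ B, v c ^ 2) := hCS
      _ ≤ (B.card : ℝ) * (1 / 4) * (2 * (C * Y) * T ^ 2) := by
          apply mul_le_mul hf2 hv2 (Finset.sum_nonneg fun _ _ => sq_nonneg _) (by positivity)
  have hT2 : 0 < T ^ 2 := by positivity
  have hfin2 : δ ^ 2 / 64 * M0 ^ 2 ≤ (B.card : ℝ) * (C * Y) / 2 := by
    have h14 : (δ ^ 2 / 64 * M0 ^ 2) * T ^ 2 ≤ ((B.card : ℝ) * (C * Y) / 2) * T ^ 2 := by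
      calc (δ ^ 2 / 64 * M0 ^ 2) * T ^ 2 = (δ / 8 * (M0 * T)) ^ 2 := by ring
        _ ≤ _ := hfin
        _ = ((B.card : ℝ) * (C * Y) / 2) * T ^ 2 := by ring
    exact le_of_mul_le_mul_right h14 hT2
  have hY2 : (Y / D) ^ 2 ≤ M0 ^ 2 := pow_le_pow_left₀ (by positivity) hM 2
  have hfin3 : δ ^ 2 / 64 * (Y / D) ^ 2 ≤ (B.card : ℝ) * (C * Y) / 2 :=
    le_trans (mul_le_mul_of_nonneg_left hY2 (by positivity)) hfin2
  have hfin4 : (δ ^ 2 / (32 * C * D ^ 2) * Y) * (C * Y / 2) ≤ (B.card : ℝ) * (C * Y / 2) := by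
    calc (δ ^ 2 / (32 * C * D ^ 2) * Y) * (C * Y / 2) = δ ^ 2 / 64 * (Y / D) ^ 2 := by
          field_simp
          ring
      _ ≤ (B.card : ℝ) * (C * Y) / 2 := hfin3
      _ = (B.card : ℝ) * (C * Y / 2) := by ring
  exact le_of_mul_le_mul_right hfin4 (by positivity)

theorem fin_deficit {α : Type} (E : Finset α) (f v : α → ℝ) (δ η D Y M0 q s μ : ℝ) (hδ : 0 < δ)
    (hδ1 : δ < 1) (hD : 0 < D) (hY : 0 < Y) (hf0 : ∀ c, 0 ≤ f c) (hf1 : ∀ c, f c ≤ 1 / 2)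
    (hv : ∀ c, 0 ≤ v c) (hM : Y / D ≤ M0) (hq : 0 < q) (hμ : 1 ≤ μ)
    (hs : s * q ≤ (1 - δ) * μ) (hqμ : q ≤ μ) (hs0 : 0 ≤ s) (hη : 0 < η) (hη1 : η ≤ δ / 32)
    (h1 : |∑ c ∈ E, f c * v c - s * (M0 * q)| ≤ η * (s + 1) * (M0 * q))
    (h2 : |∑ c ∈ E, f c - M0| ≤ δ / 16 * M0) :
    δ / (4 * D) * Y ≤ ((E.filter (fun c => v c ≤ (1 - δ / 4) * μ)).card : ℝ) := by
  set B := E.filter (fun c => v c ≤ (1 - δ / 4) * μ) with hB
  have hM0 : 0 < M0 := lt_of_lt_of_le (by positivity) hM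
  have hup : ∑ c ∈ E, f c * v c ≤ (1 - δ / 2) * μ * M0 := by
    have h4 := (abs_le.1 h1).2
    have h5 : s * (M0 * q) + η * (s + 1) * (M0 * q) = M0 * ((1 + η) * (s * q) + η * q) := by ring
    have h6 : (1 + η) * (s * q) + η * q ≤ (1 + η) * ((1 - δ) * μ) + η * μ := by gcongr
    have h7 : (1 + η) * ((1 - δ) * μ) + η * μ ≤ (1 - δ / 2) * μ := by
      have : 0 ≤ (δ / 2 - 2 * η + η * δ) * μ := by
        apply mul_nonneg _ (by linarith)
        nlinarith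
      nlinarith
    have h8 : M0 * ((1 + η) * (s * q) + η * q) ≤ M0 * ((1 - δ / 2) * μ) :=
      mul_le_mul_of_nonneg_left (h6.trans h7) hM0.le
    nlinarith
  have hsplit : ∑ c ∈ B, f c * v c + ∑ c ∈ E.filter (fun c => ¬ v c ≤ (1 - δ / 4) * μ), f c * v c =
      ∑ c ∈ E, f c * v c := Finset.sum_filter_add_sum_filter_not _ _ _
  have hsplit2 : ∑ c ∈ B, f c + ∑ c ∈ E.filter (fun c => ¬ v c ≤ (1 - δ / 4) * μ), f c =
      ∑ c ∈ E, f c := Finset.sum_filter_add_sum_filter_not _ _ _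
  have hB0 : 0 ≤ ∑ c ∈ B, f c * v c := Finset.sum_nonneg fun c _ => mul_nonneg (hf0 c) (hv c)
  have hB1 : ∑ c ∈ B, f c ≤ (B.card : ℝ) / 2 := by
    calc ∑ c ∈ B, f c ≤ ∑ c ∈ B, (1 / 2 : ℝ) := Finset.sum_le_sum fun c _ => hf1 c
      _ = (B.card : ℝ) / 2 := by rw [Finset.sum_const, nsmul_eq_mul]; ring
  have hnot : (1 - δ / 4) * μ * ∑ c ∈ E.filter (fun c => ¬ v c ≤ (1 - δ / 4) * μ), f c ≤
      ∑ c ∈ E.filter (fun c => ¬ v c ≤ (1 - δ / 4) * μ), f c * v c := by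
    rw [Finset.mul_sum]
    apply Finset.sum_le_sum
    intro c hc
    rw [mem_filter] at hc
    rw [mul_comm]
    exact mul_le_mul_of_nonneg_left (le_of_lt (not_le.1 hc.2)) (hf0 c)
  by_contra hcon
  rw [not_le] at hcon
  have hB2 : (B.card : ℝ) ≤ δ / 4 * M0 := by
    have : δ / (4 * D) * Y ≤ δ / 4 * M0 := by
      calc δ / (4 * D) * Y = δ / 4 * (Y / D) := by field_simp
        _ ≤ _ := mul_le_mul_of_nonneg_left hM (by positivity)
    linarith
  have h9 : (1 - δ / 4) * M0 ≤ ∑ c ∈ E.filter (fun c => ¬ v c ≤ (1 - δ / 4) * μ), f c := by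
    have h10 := (abs_le.1 h2).1
    nlinarith
  have h11 : (1 - δ / 4) * μ * ((1 - δ / 4) * M0) ≤ (1 - δ / 2) * μ * M0 := by
    calc (1 - δ / 4) * μ * ((1 - δ / 4) * M0) ≤ (1 - δ / 4) * μ *
          ∑ c ∈ E.filter (fun c => ¬ v c ≤ (1 - δ / 4) * μ), f c := by
          apply mul_le_mul_of_nonneg_left h9
          apply mul_nonneg (by linarith) (by linarith)
      _ ≤ ∑ c ∈ E.filter (fun c => ¬ v c ≤ (1 - δ / 4) * μ), f c * v c := hnot
      _ ≤ ∑ c ∈ E, f c * v c := by linarith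
      _ ≤ _ := hup
  have h12 : 0 < δ ^ 2 / 16 * (μ * M0) := by positivity
  nlinarith

open Classical in
/-- counting by residue classes -/
theorem count {k : ℕ} (G : Finset (Fin k → ℕ)) (W : ℕ) (hG : ∀ γ ∈ G, γ ∈ box k W)
    (T : Finset (Fin k → ℕ)) (a : ℝ)
    (h : ∀ γ ∈ G, a ≤ ((T.filter (fun c => Cong W c γ)).card : ℝ)) :
    a * G.card ≤ T.card := by
  have h1 : (G.biUnion fun γ => T.filter (fun c => Cong W c γ)).card =
      ∑ γ ∈ G, (T.filter (fun c => Cong W c γ)).card := by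
    apply Finset.card_biUnion
    intro x hx y hy hxy
    apply Finset.disjoint_left.2
    intro c hc1 hc2
    rw [mem_filter] at hc1 hc2
    apply hxy
    funext i
    have h2 : x i ≡ y i [MOD W] := (hc1.2 i).symm.trans (hc2.2 i)
    have h3 : x i % W = y i % W := h2
    have hxi : x i < W := by
      have := hG x hx
      unfold box at this
      rw [Fintype.mem_piFinset] at this
      exact mem_range.1 (this i)
    have hyi : y i < W := by
      have := hG y hy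
      unfold box at this
      rw [Fintype.mem_piFinset] at this
      exact mem_range.1 (this i)
    rwa [Nat.mod_eq_of_lt hxi, Nat.mod_eq_of_lt hyi] at h3
  have h2 : (G.biUnion fun γ => T.filter (fun c => Cong W c γ)) ⊆ T := by
    intro c hc
    rw [mem_biUnion] at hc
    obtain ⟨γ, _, hc⟩ := hc
    exact (mem_filter.1 hc).1
  have h3 : (((G.biUnion fun γ => T.filter (fun c => Cong W c γ)).card : ℕ) : ℝ) ≤ T.card := by
    exact_mod_cast Finset.card_le_card h2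
  rw [h1] at h3
  push_cast at h3
  calc a * G.card = ∑ γ ∈ G, a := by rw [Finset.sum_const, nsmul_eq_mul, mul_comm]
    _ ≤ ∑ γ ∈ G, ((T.filter (fun c => Cong W c γ)).card : ℝ) := Finset.sum_le_sum h
    _ ≤ _ := h3

open Classical in
/-- everything we need about one class -/
def Cls {k : ℕ} (g : Fin k → ℤ[X]) (ε X : ℝ) (m : ℕ) (δ η C c1 M0 q : ℝ) (W h w : ℕ)
    (γ : Fin k → ℕ) : Prop :=
  ∃ (u s : ℕ) (b : ℝ), c1 ≤ b ∧ (u : ℝ) ≤ Real.exp (5 * (Real.log X) ^ ε) ∧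
    1 ≤ b * (h / (Real.log X) ^ k) ∧ q ≤ b * (h / (Real.log X) ^ k) ∧
    δ * (b * (h / (Real.log X) ^ k)) ≤ (-1 : ℝ) ^ m * (s * q - b * (h / (Real.log X) ^ k)) ∧
    |∑ c ∈ EE X W γ, FF X c * cntk g (zv c) u h - s * (M0 * q)| ≤ η * (s + 1) * (M0 * q) ∧
    |∑ c ∈ EE X W γ, FF X c - M0| ≤ δ / 16 * M0 ∧
    ∑ c ∈ EE X W γ, (cntk g (zv c) u h : ℝ) ^ 2 ≤ C * (X / W) ^ k * ((s * q) ^ 2 + s * q) ∧
    (((EE X W γ).filter (fun c => ¬ |bhk g (prs w) (zv c) - b| ≤ η * b)).card : ℝ) ≤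
      η * (X / W) ^ k

/-- the common part of both halves -/
def Com {k : ℕ} (g : Fin k → ℤ[X]) (Λ ε : ℝ) (m : ℕ) : Prop :=
  ∃ δ κ c1 C : ℝ, 0 < δ ∧ δ < 1 ∧ 0 < κ ∧ 0 < c1 ∧ 0 < C ∧ ∀ η : ℝ, 0 < η → ∃ X0 : ℝ,
    ∀ X : ℝ, X0 ≤ X → 0 < X ∧ 0 < Real.log X ∧ ∀ h w : ℕ, 1 / c1 * (Real.log X) ^ k ≤ h →
    (h : ℝ) ≤ 2 * (Real.log X) ^ Λ → Real.log X ≤ w → (w : ℝ) ≤ X ^ (1 / 4 : ℝ) →
    ∃ (W : ℕ) (G : Finset (Fin k → ℕ)) (M0 q : ℝ), 0 < W ∧ (∀ γ ∈ G, γ ∈ box k W) ∧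
      κ * (W : ℝ) ^ k ≤ G.card ∧
      (X / W) ^ k / 10 ^ k ≤ M0 ∧ 0 < q ∧ ∀ γ ∈ G, Cls g ε X m δ η C c1 M0 q W h w γ

theorem bh_mul {k : ℕ} (g : Fin k → ℤ[X]) (P : Finset ℕ) (hP : ∀ p ∈ P, p.Prime) (c : Fin k → ℤ) :
    densk g P c = bhk g P c * (∏ p ∈ P, (1 - 1 / (p : ℝ))) ^ k := by
  unfold densk bhk
  rw [← Finset.prod_pow, ← Finset.prod_mul_distrib]
  apply Finset.prod_congr rfl
  intro p hp
  have h2 : (2 : ℝ) ≤ p := by exact_mod_cast (hP p hp).two_le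
  have h3 : (1 - 1 / (p : ℝ)) ≠ 0 := by
    have : 1 / (p : ℝ) < 1 := by
      rw [div_lt_one (by linarith)]
      linarith
    linarith
  rw [div_mul_cancel₀ _ (pow_ne_zero _ h3)]

/-- growth of the logarithm -/
theorem log_growth (k : ℕ) (a : ℝ) (ha : 0 < a) : ∃ L1 : ℝ, 1 ≤ L1 ∧ ∀ L : ℝ, L1 ≤ L →
    (Real.log L) ^ k ≤ a * L := by
  have h1 : (fun x : ℝ => Real.log x ^ k) =o[Filter.atTop] (id : ℝ → ℝ) :=
    Real.isLittleO_pow_log_id_atTop
  have h2 := h1.bound ha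
  rw [Filter.eventually_atTop] at h2
  obtain ⟨L1, hL1⟩ := h2
  refine ⟨max L1 1, le_max_right _ _, fun L hL => ?_⟩
  have h3 := hL1 L ((le_max_left _ _).trans hL)
  have hL0 : 1 ≤ L := (le_max_right _ _).trans hL
  rw [Real.norm_eq_abs, Real.norm_eq_abs, id, abs_of_nonneg (by linarith : (0 : ℝ) ≤ L)] at h3
  exact (le_abs_self _).trans h3

theorem com {k : ℕ} (g : Fin k → ℤ[X]) (Λ ε : ℝ) (hg : Sys g) (hΛ : 1 ≤ Λ)
    (hε : 0 < ε) (hε2 : ε ≤ 1 / 2) (hcw : S_KW) (hfm : S_KF) (hsm : S_KS) (htl : S_KT) (hmt : S_MT)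
    (hwm : S_WM) (hgb : S_GB) (m : ℕ) (hm : 2 ≤ m) (hmε : Λ + 2 ≤ m * ε) : Com g Λ ε m := by
  obtain ⟨c0, hc0, hmt'⟩ := hmt m ε hm hε hε2
  obtain ⟨δ, κ, c1, y0, hδ, hδ1, hκ, hc1, hcw'⟩ := hcw k g m c0 hg hm hc0
  obtain ⟨C, X1, hC, hsm'⟩ := hsm k g (Λ + 1) ε hg hε hε2
  obtain ⟨A, X6, hA, hgb'⟩ := hgb k g (Λ + 1) ε hg hε hε2
  refine ⟨δ, κ, c1, C, hδ, hδ1, hκ, hc1, hC, fun η hη => ?_⟩
  obtain ⟨Z, X2, htl'⟩ := htl k g ε η hg hε hε2 hη
  obtain ⟨X3, hfm'⟩ := hfm k (Λ + 1) ε η (max Z 2) hε hε2 hη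
  obtain ⟨X4, hmt''⟩ := hmt' (max y0 (max 1 ⌈((m : ℝ) + 1) / c0⌉₊))
  obtain ⟨c, X5, hc, hwm'⟩ := hwm ε hε hε2
  obtain ⟨L1, hL1, hgrow⟩ := log_growth k (δ * c1 * c ^ k / 2) (by positivity)
  set N : ℝ := 5 + 10 * k / (δ / 16) with hN
  have hN0 : 0 ≤ N := by positivity
  set L0 : ℝ := 16 + L1 + 4 / c ^ 2 + 20 * N with hL0
  refine ⟨max (Real.exp L0) (max X1 (max X2 (max X3 (max X4 (max X5 X6))))), fun X hX => ?_⟩
  have hXe : Real.exp L0 ≤ X := (le_max_left _ _).trans hX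
  have hX1 : X1 ≤ X := le_trans (by simp) hX
  have hX2 : X2 ≤ X := le_trans (by simp) hX
  have hX3 : X3 ≤ X := le_trans (by simp) hX
  have hX4 : X4 ≤ X := le_trans (by simp) hX
  have hX5 : X5 ≤ X := le_trans (by simp) hX
  have hX6 : X6 ≤ X := le_trans (by simp) hX
  have hXpos : 0 < X := (Real.exp_pos _).trans_le hXe
  set L := Real.log X with hL
  have hLL : L0 ≤ L := (Real.le_log_iff_exp_le hXpos).2 hXe
  have hp2 : 0 < 4 / c ^ 2 := by positivity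
  have hL16 : 16 ≤ L := by linarith
  have hLa : L1 ≤ L := by linarith
  have hLb : 4 / c ^ 2 ≤ L := by linarith
  have hLc : 20 * N ≤ L := by linarith
  have hLpos : 0 < L := by linarith
  refine ⟨hXpos, hLpos, ?_⟩
  obtain ⟨ps, S, hps, hS, hfm''⟩ := hfm' X hX3
  obtain ⟨y, R, H, hy0, hR0, hzR, hHy, hcs, hs1, hHlo, hHup⟩ :=
    hmt'' X hX4 ps S (goodP_mono (by simp) hps) hS
  obtain ⟨hW1, hW2, hW3, hW4, hM1, hM2⟩ := hwm' X hX5 ps S
  have htl'' := htl' X hX2 ps S (goodP_mono (le_max_left _ _) hps) hS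
  have hsm'' := hsm' X hX1 ps S (goodP_mono (le_max_right _ _) hps) hS
  have hgb'' := hgb' X hX6 ps S hS
  set P := PM X ε S ps with hPdef
  have hPp : ∀ p ∈ P, p.Prime := by
    intro p hp
    rw [hPdef] at hp
    unfold PM at hp
    rw [mem_filter] at hp
    exact hp.2.1
  have hPz : ∀ p ∈ P, p.Prime ∧ p ≤ zz X ε := by
    intro p hp
    refine ⟨hPp p hp, ?_⟩
    rw [hPdef] at hp
    unfold PM at hp
    rw [mem_filter, mem_Icc] at hp
    exact hp.1.2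
  set W := prm P with hWdef
  have hWpos : 0 < W := prm_pos P hPp
  have hWpos' : (0 : ℝ) < W := by exact_mod_cast hWpos
  set ρ := ∏ p ∈ P, (1 - 1 / (p : ℝ)) with hρ
  have hρpos : 0 < ρ := by
    apply Finset.prod_pos
    intro p hp
    have h2 : (2 : ℝ) ≤ p := by exact_mod_cast (hPp p hp).two_le
    have : 1 / (p : ℝ) < 1 := by
      rw [div_lt_one (by linarith)]
      linarith
    linarith
  have hHW : H ≤ W := by
    apply H_le P hPp y m H c0 hc0 _ _ hHy hcs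
    · exact le_trans (by simp) hy0
    · have h1 : ⌈((m : ℝ) + 1) / c0⌉₊ ≤ y := le_trans (by simp) hy0
      exact le_trans (Nat.le_ceil _) (by exact_mod_cast h1)
  -- logarithms
  have hlogL : 0 < Real.log L := Real.log_pos (by linarith)
  have hLogSq : Real.log L ≤ 2 * Real.sqrt L := by
    have h1 : Real.log (Real.sqrt L) ≤ Real.sqrt L - 1 :=
      Real.log_le_sub_one_of_pos (Real.sqrt_pos.2 hLpos)
    rw [Real.log_sqrt hLpos.le] at h1
    linarith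
  have hsqrt4 : 4 ≤ Real.sqrt L := by
    rw [show (4 : ℝ) = Real.sqrt 16 by
      rw [show (16 : ℝ) = 4 ^ 2 by norm_num]; exact (Real.sqrt_sq (by norm_num)).symm]
    exact Real.sqrt_le_sqrt hL16
  have hsqL : Real.sqrt L * Real.sqrt L = L := Real.mul_self_sqrt hLpos.le
  have hLε1 : 1 ≤ L ^ ε := Real.one_le_rpow (by linarith) hε.le
  have hLε2 : L ^ ε ≤ L / 4 := by
    have h1 : L ^ ε ≤ L ^ (1 / 2 : ℝ) := Real.rpow_le_rpow_of_exponent_le (by linarith) hε2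
    rw [← Real.sqrt_eq_rpow] at h1
    nlinarith
  -- the main quantity is large
  have hXL : Real.exp L = X := Real.exp_log hXpos
  have hMbig : N ≤ MX X / W := by
    have h1 : X / W / 10 ≤ MX X / W := by
      rw [div_right_comm]
      gcongr
    have h2 : X / Real.exp (2 * L ^ ε) / 10 ≤ X / W / 10 := by gcongr
    have h3 : Real.exp (L / 2) ≤ X / Real.exp (2 * L ^ ε) := by
      rw [le_div_iff₀ (Real.exp_pos _), ← Real.exp_add, ← hXL]
      apply Real.exp_le_exp.2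
      linarith
    have h4 : L / 2 + 1 ≤ Real.exp (L / 2) := Real.add_one_le_exp _
    linarith
  have hφ : (0 : ℝ) < Nat.totient W := by exact_mod_cast Nat.totient_pos.2 hWpos
  set q : ℝ := (W : ℝ) / ((Nat.totient W : ℝ) * L) with hq
  have hqpos : 0 < q := by positivity
  have hqρ : q = 1 / (ρ * L) := by
    rw [hq, hW3]
    field_simp
  have hMq : (MX X / ((Nat.totient W : ℝ) * L)) ^ k = (MX X / W) ^ k * q ^ k := by
    rw [← mul_pow, hq]
    congr 1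
    field_simp
  have hρL : 1 ≤ ρ * L := by
    have h2 : c / Real.log L * L ≤ ρ * L := mul_le_mul_of_nonneg_right hW2 hLpos.le
    have h3 : 1 ≤ c / Real.log L * L := by
      rw [div_mul_eq_mul_div, le_div_iff₀ hlogL, one_mul]
      refine hLogSq.trans ?_
      have h4 : 2 ≤ c * Real.sqrt L := by
        have h5 : Real.sqrt (4 / c ^ 2) ≤ Real.sqrt L := Real.sqrt_le_sqrt hLb
        have h6 : Real.sqrt (4 / c ^ 2) = 2 / c := by
          rw [show (4 : ℝ) / c ^ 2 = (2 / c) ^ 2 by ring]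
          exact Real.sqrt_sq (by positivity)
        rw [h6, div_le_iff₀ hc] at h5
        linarith
      calc 2 * Real.sqrt L ≤ (c * Real.sqrt L) * Real.sqrt L :=
            mul_le_mul_of_nonneg_right h4 (Real.sqrt_nonneg _)
        _ = c * L := by rw [mul_assoc, hsqL]
    linarith
  have hqle : q ^ k ≤ 1 := by
    apply pow_le_one₀ hqpos.le
    rw [hqρ, div_le_one (by positivity)]
    exact hρL
  intro h w hh1 hh2 hw1 hw2
  have hLk : 0 < L ^ k := by positivity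
  have hKL : 0 < 1 / c1 * L ^ k := by positivity
  have hhpos : (0 : ℝ) < h := hKL.trans_le hh1
  have hh1' : 1 ≤ h := by
    have : 0 < h := by exact_mod_cast hhpos
    omega
  have hLΛ : 0 < L ^ Λ := Real.rpow_pos_of_pos hLpos _
  have hh3 : (h : ℝ) ≤ L ^ (Λ + 1) := by
    rw [Real.rpow_add hLpos, Real.rpow_one]
    nlinarith
  have hh4 : (h : ℝ) ≤ δ * c1 * H * ρ ^ k := by
    have h1 : L ^ (Λ + 2) ≤ H := by
      refine le_trans ?_ hHlo
      exact Real.rpow_le_rpow_of_exponent_le (by linarith) hmε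
    have h2 : L ^ (Λ + 2) = L ^ Λ * L ^ 2 := by
      rw [Real.rpow_add hLpos]
      norm_num
    rw [h2] at h1
    have h3 : δ * c1 * (L ^ Λ * L ^ 2) * (c / Real.log L) ^ k ≤ δ * c1 * H * ρ ^ k := by
      apply mul_le_mul (mul_le_mul_of_nonneg_left h1 (by positivity))
        (pow_le_pow_left₀ (by positivity) hW2 k) (by positivity) (by positivity)
    have h4 : 2 ≤ δ * c1 * L ^ 2 * (c / Real.log L) ^ k := by
      have h5 := hgrow L hLa
      rw [div_pow, ← mul_div_assoc, le_div_iff₀ (by positivity)]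
      have h6 : (0 : ℝ) < δ * c1 * c ^ k := by positivity
      have h7 : δ * c1 * c ^ k / 2 * L ≤ δ * c1 * c ^ k / 2 * L ^ 2 := by
        apply mul_le_mul_of_nonneg_left _ (by positivity)
        nlinarith
      calc 2 * Real.log L ^ k ≤ 2 * (δ * c1 * c ^ k / 2 * L ^ 2) := by linarith
        _ = δ * c1 * L ^ 2 * c ^ k := by ring
    calc (h : ℝ) ≤ 2 * L ^ Λ := hh2
      _ ≤ (δ * c1 * L ^ 2 * (c / Real.log L) ^ k) * L ^ Λ := mul_le_mul_of_nonneg_right h4 hLΛ.le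
      _ = δ * c1 * (L ^ Λ * L ^ 2) * (c / Real.log L) ^ k := by ring
      _ ≤ _ := h3
  have hcw'' := hcw' P y (zz X ε) R H h (le_trans (by simp) hy0) (le_trans (by simp) hR0) hPz hzR hHy
    hcs hs1 hh1' hh4
  classical
  set G : Finset (Fin k → ℕ) := (box k W).filter (fun γ : Fin k → ℕ => c1 ≤ bhk g P (zv γ) ∧
      ∃ u, prm P ≤ u ∧ u ≤ 2 * prm P + H ∧ δ * (densk g P (zv γ) * h) ≤
        (-1 : ℝ) ^ m * (survk g P (zv γ) u h - densk g P (zv γ) * h)) with hGdef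
  have hGcard : Nat.card {γ : Fin k → ℕ // γ ∈ box k (prm P) ∧ c1 ≤ bhk g P (zv γ) ∧
      ∃ u, prm P ≤ u ∧ u ≤ 2 * prm P + H ∧ δ * (densk g P (zv γ) * h) ≤
        (-1 : ℝ) ^ m * (survk g P (zv γ) u h - densk g P (zv γ) * h)} = G.card := by
    apply Nat.subtype_card
    intro γ
    rw [hGdef, mem_filter]
  rw [hGcard] at hcw''
  refine ⟨W, G, (MX X / W) ^ k, q ^ k, hWpos, ?_, hcw'', ?_, by positivity, ?_⟩
  · intro γ hγ
    rw [hGdef, mem_filter] at hγ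
    exact hγ.1
  · rw [← div_pow]
    apply pow_le_pow_left₀ (by positivity)
    rw [div_right_comm]
    gcongr
  · intro γ hγ
    rw [hGdef, mem_filter] at hγ
    obtain ⟨hγW, hb, u, hu1, hu2, hu3⟩ := hγ
    have hu3' : u ≤ 3 * W := by omega
    set b := bhk g P (zv γ) with hbdef
    have hbpos : 0 < b := hc1.trans_le hb
    have hdens : densk g P (zv γ) = b * ρ ^ k := bh_mul g P hPp (zv γ)
    have hμ1 : 1 ≤ b * (h / L ^ k) := by
      have h1 : 1 / c1 ≤ h / L ^ k := by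
        rw [le_div_iff₀ hLk]
        exact hh1
      calc (1 : ℝ) = c1 * (1 / c1) := by field_simp
        _ ≤ b * (h / L ^ k) := mul_le_mul hb h1 (by positivity) hbpos.le
    have hqμ : q ^ k ≤ b * (h / L ^ k) := hqle.trans hμ1
    have hsize := (hgb'' u h hu1 hu3' hh3).1
    have hFM := hfm'' g hg γ u h (fun i r hr => ⟨(hsize i r hr).1.le, (hsize i r hr).2.2⟩)
    rw [sum_EE X hXpos W γ (fun c => (cntk g (zv c) u h : ℝ)), hMq] at hFM
    refine ⟨u, survk g P (zv γ) u h, b, hb, ?_, hμ1, hqμ, ?_, ?_, ?_, ?_, ?_⟩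
    · have h1 : (u : ℝ) ≤ 3 * W := by exact_mod_cast hu3'
      have h2 : (3 : ℝ) ≤ Real.exp (3 * L ^ ε) := by
        have := Real.add_one_le_exp (3 * L ^ ε)
        linarith
      calc (u : ℝ) ≤ 3 * W := h1
        _ ≤ Real.exp (3 * L ^ ε) * Real.exp (2 * L ^ ε) :=
          mul_le_mul h2 hW1 hWpos'.le (Real.exp_pos _).le
        _ = Real.exp (5 * L ^ ε) := by
          rw [← Real.exp_add]
          ring_nf
    · have h1 : densk g P (zv γ) * h * q ^ k = b * (h / L ^ k) := by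
        rw [hdens, hqρ, div_pow, mul_pow, one_pow]
        field_simp
      have h2 := mul_le_mul_of_nonneg_right hu3 (by positivity : 0 ≤ q ^ k)
      have h3 : δ * (densk g P (zv γ) * h) * q ^ k = δ * (b * (h / L ^ k)) := by
        rw [← h1]
        ring
      have h4 : (-1 : ℝ) ^ m * (survk g P (zv γ) u h - densk g P (zv γ) * h) * q ^ k =
          (-1 : ℝ) ^ m * (survk g P (zv γ) u h * q ^ k - b * (h / L ^ k)) := by
        rw [← h1]
        ring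
      rw [h3, h4] at h2
      exact h2
    · refine hFM.trans ?_
      have hMpos : 0 ≤ MX X / W := by linarith
      apply mul_le_mul_of_nonneg_right _ (by positivity)
      apply mul_le_mul_of_nonneg_left _ hη.le
      linarith
    · rw [sum_FF]
      apply prod_close _ _ _ (by positivity) (by linarith)
      · have : 10 * (k : ℝ) / (δ / 16) ≤ N := by
          rw [hN]
          linarith
        linarith
      · have : (0 : ℝ) ≤ 10 * k / (δ / 16) := by positivity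
        linarith
      · intro i
        have := hW4 (γ i)
        rw [sum_EE' X hXpos W (γ i)] at this
        exact this
    · exact hsm'' γ u h hu1 hu3' hh3
    · have h1 := htl'' γ w hw1 hw2
      refine le_trans ?_ h1
      have h2 : Nat.card {c : Fin k → ℕ // (∀ i, c i ∈ Icc 1 ⌊3 * X⌋₊) ∧ Cong W c γ ∧
          ¬ |bhk g (prs w) (zv c) - b| ≤ η * b} =
          ((Fintype.piFinset (fun _ : Fin k => Icc 1 ⌊3 * X⌋₊)).filter (fun c => Cong W c γ ∧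
          ¬ |bhk g (prs w) (zv c) - b| ≤ η * b)).card := by
        apply Nat.subtype_card
        intro c
        rw [mem_filter, Fintype.mem_piFinset]
      rw [h2]
      have h3 : (EE X W γ).filter (fun c => ¬ |bhk g (prs w) (zv c) - b| ≤ η * b) ⊆
          (Fintype.piFinset (fun _ : Fin k => Icc 1 ⌊3 * X⌋₊)).filter (fun c => Cong W c γ ∧
          ¬ |bhk g (prs w) (zv c) - b| ≤ η * b) := by
        intro c hc
        unfold EE at hc
        rw [mem_filter, Fintype.mem_piFinset] at hc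
        rw [mem_filter, Fintype.mem_piFinset]
        refine ⟨fun i => ?_, fun i => ?_, hc.2⟩
        · have := hc.1 i
          rw [mem_filter, mem_Ioc] at this
          rw [mem_Icc]
          exact ⟨by omega, this.1.2⟩
        · exact (mem_filter.1 (hc.1 i)).2
      exact_mod_cast Finset.card_le_card h3

/-- the good set of one half has many elements -/
theorem half {k : ℕ} (g : Fin k → ℤ[X]) (Λ ε : ℝ) (m : ℕ) (Q : ℝ → ℕ → ℝ → ℝ → Prop)
    (δ' : ℝ → ℝ) (κ' : ℝ → ℝ → ℝ) (hδ' : ∀ δ, 0 < δ → δ < 1 → 0 < δ' δ ∧ δ' δ < 1)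
    (hκ' : ∀ δ C, 0 < δ → 0 < C → 0 < κ' δ C)
    (hcls : ∀ (δ η C c1 M0 q X : ℝ) (W h w : ℕ) (γ : Fin k → ℕ), 0 < X → 0 < Real.log X → 0 < W →
      0 < δ → δ < 1 → 0 < C → 0 < c1 → 0 < η → η ≤ δ / 32 → (X / W) ^ k / 10 ^ k ≤ M0 → 0 < q →
      Cls g ε X m δ η C c1 M0 q W h w γ → ∃ (u : ℕ) (b : ℝ), 0 < b ∧
        (u : ℝ) ≤ Real.exp (5 * (Real.log X) ^ ε) ∧
        (∃ A : Finset (Fin k → ℕ), (A.card : ℝ) ≤ η * (X / W) ^ k ∧
          (∀ c ∈ EE X W γ, ¬ |bhk g (prs w) (zv c) - b| ≤ η * b → c ∈ A)) ∧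
        ∃ B ⊆ EE X W γ, κ' δ C * (X / W) ^ k ≤ (B.card : ℝ) ∧
          ∀ c ∈ B, |bhk g (prs w) (zv c) - b| ≤ η * b →
            Q (δ' δ) (cntk g (zv c) u h) (bhk g (prs w) (zv c)) (h / (Real.log X) ^ k))
    (hcom : Com g Λ ε m) :
    ∃ δ κ K X0 : ℝ, 0 < δ ∧ δ < 1 ∧ 0 < κ ∧ 0 < K ∧ ∀ X : ℝ, X0 ≤ X → 0 < X ∧ 0 < Real.log X ∧
    ∀ h w : ℕ, K * (Real.log X) ^ k ≤ h → (h : ℝ) ≤ 2 * (Real.log X) ^ Λ → Real.log X ≤ w →
      (w : ℝ) ≤ X ^ (1 / 4 : ℝ) →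
    κ * X ^ k ≤ Nat.card {c : Fin k → ℕ // (∀ i, c i ∈ Ioc ⌊X⌋₊ ⌊3 * X⌋₊) ∧
      0 < bhk g (prs w) (zv c) ∧ ∃ u : ℕ, (u : ℝ) ≤ Real.exp (5 * (Real.log X) ^ ε) ∧
        Q δ (cntk g (zv c) u h) (bhk g (prs w) (zv c)) (h / (Real.log X) ^ k)} := by
  classical
  obtain ⟨δ, κ, c1, C, hδ, hδ1, hκ, hc1, hC, hcom'⟩ := hcom
  have hk0 := hκ' δ C hδ hC
  set η := min (δ / 32) (κ' δ C / 2) with hη
  have hηpos : 0 < η := lt_min (by positivity) (by positivity)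
  obtain ⟨X0, hX0⟩ := hcom' η hηpos
  refine ⟨δ' δ, κ * (κ' δ C / 2), 1 / c1, X0, (hδ' δ hδ hδ1).1, (hδ' δ hδ hδ1).2, by positivity,
    by positivity, fun X hX => ?_⟩
  obtain ⟨hXpos, hL, hX'⟩ := hX0 X hX
  refine ⟨hXpos, hL, fun h w hh1 hh2 hw1 hw2 => ?_⟩
  obtain ⟨W, G, M0, q, hW, hG1, hG2, hM1, hq, hG3⟩ := hX' h w hh1 hh2 hw1 hw2
  have hW' : (0 : ℝ) < W := by exact_mod_cast hW
  set T : Finset (Fin k → ℕ) := (Fintype.piFinset (fun _ : Fin k => Ioc ⌊X⌋₊ ⌊3 * X⌋₊)).filter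
      (fun c => 0 < bhk g (prs w) (zv c) ∧
      ∃ u : ℕ, (u : ℝ) ≤ Real.exp (5 * (Real.log X) ^ ε) ∧
        Q (δ' δ) (cntk g (zv c) u h) (bhk g (prs w) (zv c)) (h / (Real.log X) ^ k)) with hT
  have hTcard : Nat.card {c : Fin k → ℕ // (∀ i, c i ∈ Ioc ⌊X⌋₊ ⌊3 * X⌋₊) ∧
      0 < bhk g (prs w) (zv c) ∧ ∃ u : ℕ, (u : ℝ) ≤ Real.exp (5 * (Real.log X) ^ ε) ∧
        Q (δ' δ) (cntk g (zv c) u h) (bhk g (prs w) (zv c)) (h / (Real.log X) ^ k)} = T.card := by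
    apply Nat.subtype_card
    intro c
    rw [hT, mem_filter, Fintype.mem_piFinset]
  rw [hTcard]
  have hmain : ∀ γ ∈ G, κ' δ C / 2 * (X / W) ^ k ≤
      ((T.filter (fun c => Cong W c γ)).card : ℝ) := by
    intro γ hγ
    obtain ⟨u, b, hb, hu, ⟨A, hA1, hA2⟩, B, hBE, hB, hBQ⟩ := hcls δ η C c1 M0 q X W h w γ hXpos hL hW
      hδ hδ1 hC hc1 hηpos (min_le_left _ _) hM1 hq (hG3 γ hγ)
    have h3 : B \ A ⊆ T.filter (fun c => Cong W c γ) := by
      intro c hc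
      rw [mem_sdiff] at hc
      have hcE := hBE hc.1
      have hgood : |bhk g (prs w) (zv c) - b| ≤ η * b := by
        by_contra hcon
        exact hc.2 (hA2 c hcE hcon)
      unfold EE at hcE
      rw [Fintype.mem_piFinset] at hcE
      rw [mem_filter, hT, mem_filter, Fintype.mem_piFinset]
      refine ⟨⟨fun i => (mem_filter.1 (hcE i)).1, ?_, u, hu, hBQ c hc.1 hgood⟩,
        fun i => (mem_filter.1 (hcE i)).2⟩
      have h4 := (abs_le.1 hgood).1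
      have h5 : η ≤ δ / 32 := min_le_left _ _
      nlinarith
    have h4 : ((B \ A).card : ℝ) ≤ ((T.filter (fun c => Cong W c γ)).card : ℝ) := by
      exact_mod_cast Finset.card_le_card h3
    have h5 : (B.card : ℝ) ≤ ((B \ A).card : ℝ) + A.card := by
      have := Finset.le_card_sdiff A B
      have h6 : B.card ≤ (B \ A).card + A.card := by omega
      exact_mod_cast h6
    have h7 : η * (X / W) ^ k ≤ κ' δ C / 2 * (X / W) ^ k :=
      mul_le_mul_of_nonneg_right (min_le_right _ _) (by positivity)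
    linarith
  have hcount := count G W hG1 T _ hmain
  refine le_trans ?_ hcount
  calc κ * (κ' δ C / 2) * X ^ k = κ' δ C / 2 * (X / W) ^ k * (κ * (W : ℝ) ^ k) := by
        rw [div_pow]
        field_simp
    _ ≤ κ' δ C / 2 * (X / W) ^ k * G.card := mul_le_mul_of_nonneg_left hG2 (by positivity)

theorem cls_excess {k : ℕ} (hk : 0 < k) (g : Fin k → ℤ[X]) (ε : ℝ) (m : ℕ) (hm : Even m)
    (δ η C c1 M0 q X : ℝ) (W h w : ℕ) (γ : Fin k → ℕ)
    (hX : 0 < X) (hL : 0 < Real.log X) (hW : 0 < W) (hδ : 0 < δ) (hδ1 : δ < 1) (hC : 0 < C)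
    (hc1 : 0 < c1) (hη : 0 < η) (hη1 : η ≤ δ / 32) (hM : (X / W) ^ k / 10 ^ k ≤ M0)
    (hq : 0 < q) (hcls : Cls g ε X m δ η C c1 M0 q W h w γ) : ∃ (u : ℕ) (b : ℝ), 0 < b ∧
        (u : ℝ) ≤ Real.exp (5 * (Real.log X) ^ ε) ∧
        (∃ A : Finset (Fin k → ℕ), (A.card : ℝ) ≤ η * (X / W) ^ k ∧
          (∀ c ∈ EE X W γ, ¬ |bhk g (prs w) (zv c) - b| ≤ η * b → c ∈ A)) ∧
        ∃ B ⊆ EE X W γ, δ ^ 2 / (32 * C * ((10 : ℝ) ^ k) ^ 2) * (X / W) ^ k ≤ (B.card : ℝ) ∧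
          ∀ c ∈ B, |bhk g (prs w) (zv c) - b| ≤ η * b →
            (1 + δ / 4) * (bhk g (prs w) (zv c) * (h / (Real.log X) ^ k)) ≤ cntk g (zv c) u h := by
  classical
  obtain ⟨u, s, b, hb, hu, hμ, hqμ, hs, h1, h2, h3, h4⟩ := hcls
  rw [hm.neg_one_pow, one_mul] at hs
  have hbpos : 0 < b := hc1.trans_le hb
  have hW' : (0 : ℝ) < W := by exact_mod_cast hW
  have hsq : (1 + δ) * (b * (h / (Real.log X) ^ k)) ≤ s * q := by linarith
  have hs1 : (1 : ℝ) ≤ s := by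
    have : 0 < s := by
      rcases Nat.eq_zero_or_pos s with h0 | h0
      · exfalso
        rw [h0] at hsq
        simp only [Nat.cast_zero, zero_mul] at hsq
        nlinarith
      · exact h0
    exact_mod_cast this
  refine ⟨u, b, hbpos, hu, ⟨_, h4, fun c hc hcb => mem_filter.2 ⟨hc, hcb⟩⟩,
    (EE X W γ).filter (fun c => (1 + δ / 2) * (b * (h / (Real.log X) ^ k)) ≤
      (cntk g (zv c) u h : ℝ)), Finset.filter_subset _ _, ?_, ?_⟩
  · exact fin_excess (EE X W γ) (fun c => FF X c) (fun c => (cntk g (zv c) u h : ℝ))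
      δ η C ((10 : ℝ) ^ k) ((X / W) ^ k) M0 q s (b * (h / (Real.log X) ^ k)) hδ hδ1 hC
      (by positivity) (by positivity)
      (fun c => FF_nonneg _ _) (fun c => FF_le hk _ _) (fun c => Nat.cast_nonneg _) hM hq hμ hsq hs1 hη
      hη1 h1 h2 h3
  · intro c hc hbc
    rw [mem_filter] at hc
    refine le_trans ?_ hc.2
    have h5 : bhk g (prs w) (zv c) ≤ (1 + η) * b := by
      have := (abs_le.1 hbc).2
      linarith
    have h6 : 0 ≤ (h : ℝ) / (Real.log X) ^ k := by positivity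
    calc (1 + δ / 4) * (bhk g (prs w) (zv c) * (h / (Real.log X) ^ k))
        ≤ (1 + δ / 4) * ((1 + η) * b * (h / (Real.log X) ^ k)) := by
          apply mul_le_mul_of_nonneg_left _ (by linarith)
          exact mul_le_mul_of_nonneg_right h5 h6
      _ = ((1 + δ / 4) * (1 + η)) * (b * (h / (Real.log X) ^ k)) := by ring
      _ ≤ (1 + δ / 2) * (b * (h / (Real.log X) ^ k)) := by
          apply mul_le_mul_of_nonneg_right _ (by positivity)
          nlinarith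

theorem cls_deficit {k : ℕ} (hk : 0 < k) (g : Fin k → ℤ[X]) (ε : ℝ) (m : ℕ) (hm : Odd m)
    (δ η C c1 M0 q X : ℝ) (W h w : ℕ) (γ : Fin k → ℕ)
    (hX : 0 < X) (hL : 0 < Real.log X) (hW : 0 < W) (hδ : 0 < δ) (hδ1 : δ < 1) (hC : 0 < C)
    (hc1 : 0 < c1) (hη : 0 < η) (hη1 : η ≤ δ / 32) (hM : (X / W) ^ k / 10 ^ k ≤ M0)
    (hq : 0 < q) (hcls : Cls g ε X m δ η C c1 M0 q W h w γ) : ∃ (u : ℕ) (b : ℝ), 0 < b ∧
        (u : ℝ) ≤ Real.exp (5 * (Real.log X) ^ ε) ∧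
        (∃ A : Finset (Fin k → ℕ), (A.card : ℝ) ≤ η * (X / W) ^ k ∧
          (∀ c ∈ EE X W γ, ¬ |bhk g (prs w) (zv c) - b| ≤ η * b → c ∈ A)) ∧
        ∃ B ⊆ EE X W γ, δ / (4 * (10 : ℝ) ^ k) * (X / W) ^ k ≤ (B.card : ℝ) ∧
          ∀ c ∈ B, |bhk g (prs w) (zv c) - b| ≤ η * b →
            (cntk g (zv c) u h : ℝ) ≤ (1 - δ / 8) * (bhk g (prs w) (zv c) *
              (h / (Real.log X) ^ k)) := by
  classical
  obtain ⟨u, s, b, hb, hu, hμ, hqμ, hs, h1, h2, h3, h4⟩ := hcls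
  rw [hm.neg_one_pow, neg_one_mul] at hs
  have hbpos : 0 < b := hc1.trans_le hb
  have hW' : (0 : ℝ) < W := by exact_mod_cast hW
  have hsq : s * q ≤ (1 - δ) * (b * (h / (Real.log X) ^ k)) := by linarith
  refine ⟨u, b, hbpos, hu, ⟨_, h4, fun c hc hcb => mem_filter.2 ⟨hc, hcb⟩⟩,
    (EE X W γ).filter (fun c => (cntk g (zv c) u h : ℝ) ≤
      (1 - δ / 4) * (b * (h / (Real.log X) ^ k))), Finset.filter_subset _ _, ?_, ?_⟩
  · exact fin_deficit (EE X W γ) (fun c => FF X c) (fun c => (cntk g (zv c) u h : ℝ))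
      δ η ((10 : ℝ) ^ k) ((X / W) ^ k) M0 q s (b * (h / (Real.log X) ^ k)) hδ hδ1 (by positivity)
      (by positivity)
      (fun c => FF_nonneg _ _) (fun c => FF_le hk _ _) (fun c => Nat.cast_nonneg _) hM hq hμ hsq hqμ
      (Nat.cast_nonneg _) hη hη1 h1 h2
  · intro c hc hbc
    rw [mem_filter] at hc
    refine le_trans hc.2 ?_
    have h5 : (1 - η) * b ≤ bhk g (prs w) (zv c) := by
      have := (abs_le.1 hbc).1
      linarith
    have h6 : 0 ≤ (h : ℝ) / (Real.log X) ^ k := by positivity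
    calc (1 - δ / 4) * (b * (h / (Real.log X) ^ k)) ≤
          ((1 - δ / 8) * (1 - η)) * (b * (h / (Real.log X) ^ k)) := by
          apply mul_le_mul_of_nonneg_right _ (by positivity)
          nlinarith
      _ = (1 - δ / 8) * ((1 - η) * b * (h / (Real.log X) ^ k)) := by ring
      _ ≤ (1 - δ / 8) * (bhk g (prs w) (zv c) * (h / (Real.log X) ^ k)) := by
          apply mul_le_mul_of_nonneg_left _ (by linarith)
          exact mul_le_mul_of_nonneg_right h5 h6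

end Pool.Agent.N785.MG.KA_

namespace Pool.Agent.N785.MG

open KA_

theorem t_KA (hcw : S_KW) (hfm : S_KF) (hsm : S_KS) (htl : S_KT) (hmt : S_MT) (hwm : S_WM)
    (hgb : S_GB) : S_KA := by
  intro k g Λ ε hg hΛ hε hε2
  obtain ⟨k0, hk0⟩ := exists_nat_ge ((Λ + 2) / ε)
  have hk0' : Λ + 2 ≤ k0 * ε := by rwa [div_le_iff₀ hε] at hk0
  have hkε : ∀ m : ℕ, k0 ≤ m → Λ + 2 ≤ m * ε := by
    intro m hm
    have : (k0 : ℝ) ≤ m := by exact_mod_cast hm
    nlinarith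
  obtain ⟨δ1, κ1, K1, X1, hδ1, hδ1', hκ1, hK1, h1⟩ := half g Λ ε (2 * k0 + 2)
    (fun δ n b t => (1 + δ) * (b * t) ≤ n) (fun δ => δ / 4)
    (fun δ C => δ ^ 2 / (32 * C * ((10 : ℝ) ^ k) ^ 2))
    (fun δ h h' => ⟨by positivity, by linarith⟩) (fun δ C h h' => by positivity)
    (fun δ η C c1 M0 q X W h w γ hX hL hW hδ hδ1 hC hc1 hη hη1 hM hq hcls =>
      cls_excess hg.1 g ε _ ⟨k0 + 1, by ring⟩ δ η C c1 M0 q X W h w γ hX hL hW hδ hδ1 hC hc1 hη hη1
        hM hq hcls)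
    (com g Λ ε hg hΛ hε hε2 hcw hfm hsm htl hmt hwm hgb _ (by omega) (hkε _ (by omega)))
  obtain ⟨δ2, κ2, K2, X2, hδ2, hδ2', hκ2, hK2, h2⟩ := half g Λ ε (2 * k0 + 3)
    (fun δ n b t => (n : ℝ) ≤ (1 - δ) * (b * t)) (fun δ => δ / 8)
    (fun δ C => δ / (4 * (10 : ℝ) ^ k))
    (fun δ h h' => ⟨by positivity, by linarith⟩) (fun δ C h h' => by positivity)
    (fun δ η C c1 M0 q X W h w γ hX hL hW hδ hδ1 hC hc1 hη hη1 hM hq hcls =>
      cls_deficit hg.1 g ε _ ⟨k0 + 1, by ring⟩ δ η C c1 M0 q X W h w γ hX hL hW hδ hδ1 hC hc1 hη hη1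
        hM hq hcls)
    (com g Λ ε hg hΛ hε hε2 hcw hfm hsm htl hmt hwm hgb _ (by omega) (hkε _ (by omega)))
  refine ⟨min δ1 δ2, min κ1 κ2, max K1 K2, max X1 X2, lt_min hδ1 hδ2,
    (min_le_left _ _).trans_lt hδ1', lt_min hκ1 hκ2, fun X hX h w hh1 hh2 hw1 hw2 => ?_⟩
  obtain ⟨hXpos, hL, h1'⟩ := h1 X ((le_max_left _ _).trans hX)
  obtain ⟨_, _, h2'⟩ := h2 X ((le_max_right _ _).trans hX)
  have hLk : 0 < (Real.log X) ^ k := by positivity
  have hXk : 0 < X ^ k := by positivity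
  have hK1' : K1 * (Real.log X) ^ k ≤ h :=
    (mul_le_mul_of_nonneg_right (le_max_left _ _) hLk.le).trans hh1
  have hK2' : K2 * (Real.log X) ^ k ≤ h :=
    (mul_le_mul_of_nonneg_right (le_max_right _ _) hLk.le).trans hh1
  have hmono : ∀ (p p' : (Fin k → ℕ) → Prop), (∀ c, p c → p' c) →
      Nat.card {c : Fin k → ℕ // (∀ i, c i ∈ Ioc ⌊X⌋₊ ⌊3 * X⌋₊) ∧ p c} ≤
        Nat.card {c : Fin k → ℕ // (∀ i, c i ∈ Ioc ⌊X⌋₊ ⌊3 * X⌋₊) ∧ p' c} := by
    intro p p' hpp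
    have hf : Finite {c : Fin k → ℕ // (∀ i, c i ∈ Ioc ⌊X⌋₊ ⌊3 * X⌋₊) ∧ p' c} :=
      Set.Finite.subset
        (Finset.finite_toSet (Fintype.piFinset (fun _ : Fin k => Ioc ⌊X⌋₊ ⌊3 * X⌋₊)))
        (fun c hc => by
          rw [Finset.mem_coe, Fintype.mem_piFinset]
          exact hc.1)
    exact Nat.card_le_card_of_injective (fun c => ⟨c.1, c.2.1, hpp _ c.2.2⟩)
      (fun a b hab => Subtype.ext (congrArg (fun z => z.1) hab))
  have hhL : 0 ≤ (h : ℝ) / (Real.log X) ^ k := by positivity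
  constructor
  · refine le_trans (mul_le_mul_of_nonneg_right (min_le_left _ _) hXk.le)
      (le_trans (h1' h w hK1' hh2 hw1 hw2) ?_)
    refine Nat.cast_le.2 (hmono _ _ ?_)
    rintro c ⟨hc1, u, hu, hc2⟩
    refine ⟨hc1, u, hu, le_trans ?_ hc2⟩
    apply mul_le_mul_of_nonneg_right _ (mul_nonneg hc1.le hhL)
    linarith [min_le_left δ1 δ2]
  · refine le_trans (mul_le_mul_of_nonneg_right (min_le_right _ _) hXk.le)
      (le_trans (h2' h w hK2' hh2 hw1 hw2) ?_)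
    refine Nat.cast_le.2 (hmono _ _ ?_)
    rintro c ⟨hc1, u, hu, hc2⟩
    refine ⟨hc1, u, hu, le_trans hc2 ?_⟩
    apply mul_le_mul_of_nonneg_right _ (mul_nonneg hc1.le hhL)
    linarith [min_le_right δ1 δ2]

end Pool.Agent.N785.MG
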