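import Pool.Agent.N785.MG.Def2

/-!
Project MG (helper785), second part: statements of the pieces for systems.
-/

open Finset Polynomial
open Pool.Agent.H378R2 (Phi GoodP GoodS)

namespace Pool.Agent.N785.MG

/-! ### Polynomials modulo `p` -/

/-- K2: the mean factors `eek g p r` -/
def S_K2 : Prop := ∀ (k : ℕ) (g : Fin k → ℤ[X]), Sys g → ∃ (p0 D : ℕ) (C : ℝ), 0 ≤ C ∧ 1 ≤ D ∧
  ∀ p : ℕ, p.Prime → p0 ≤ p →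
    (∀ γ : Fin k → ℤ, nuk g p γ ≤ D) ∧ 2 * D ≤ p ∧
    |(∑ γ ∈ box k p, (nuk g p (zv γ) : ℝ)) / (p : ℝ) ^ k - k| ≤ C / p ∧
    (∀ r, eek g p (r + p) = eek g p r) ∧ ∑ r ∈ range p, eek g p r = p ∧ 0 ≤ eek g p 0 ∧
    1 / (D : ℝ) ≤ 1 - eek g p 0 ∧ (∀ r, ¬ p ∣ r → |eek g p r - 1| ≤ C / p)

/-! ### Residue classes -/

/-- KR: Chinese remainder theorem for vectors -/
def S_KR : Prop := ∀ (k : ℕ) (P : Finset ℕ) (f : ℕ → (Fin k → ℕ) → ℝ), (∀ p ∈ P, p.Prime) →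
    ∑ n ∈ box k (prm P), ∏ p ∈ P, f p (fun i => n i % p) = ∏ p ∈ P, ∑ t ∈ box k p, f p t

/-- K3a -/
def S_K3a : Prop := ∀ (k : ℕ) (g : Fin k → ℤ[X]) (P PL : Finset ℕ) (γ : Fin k → ℤ) (H : ℕ),
    (∀ p ∈ P, p.Prime) → PL ⊆ P → (∀ p ∈ PL, nuk g p γ < p) →
    (∃ u, u < prm P ∧ densk g P γ * XLk g PL γ H ≤ survk g P γ u H) ∧
    (∃ u, u < prm P ∧ (survk g P γ u H : ℝ) ≤ densk g P γ * XLk g PL γ H)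

/-- K3b -/
def S_K3b : Prop := ∀ (k : ℕ) (g : Fin k → ℤ[X]) (PL : Finset ℕ) (H : ℕ), (∀ p ∈ PL, p.Prime) →
    ∑ γ ∈ box k (prm PL), XLk g PL (zv γ) H = (prm PL : ℝ) ^ k * ∑ r ∈ Icc 1 H, ∏ p ∈ PL, eek g p r

/-- K3c -/
def S_K3c : Prop := ∀ (k : ℕ) (P1 P2 : Finset ℕ) (A B : (Fin k → ℕ) → Prop), (∀ p ∈ P1, p.Prime) →
    (∀ p ∈ P2, p.Prime) → Disjoint P1 P2 → (∀ n m, Cong (prm P1) n m → (A n ↔ A m)) →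
    (∀ n m, Cong (prm P2) n m → (B n ↔ B m)) →
    Nat.card {n // n ∈ box k (prm (P1 ∪ P2)) ∧ A n ∧ B n} =
      Nat.card {n // n ∈ box k (prm P1) ∧ A n} * Nat.card {n // n ∈ box k (prm P2) ∧ B n}

/-- K3d -/
def S_K3d : Prop := ∀ (k : ℕ) (g : Fin k → ℤ[X]), Sys g → ∃ c1 c2 : ℝ, 0 < c1 ∧ 0 < c2 ∧
  ∀ P : Finset ℕ, (∀ p ∈ P, p.Prime) →
    c2 * (prm P : ℝ) ^ k ≤ Nat.card {γ : Fin k → ℕ // γ ∈ box k (prm P) ∧ c1 ≤ bhk g P (zv γ)}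

/-- KL -/
def S_KL : Prop := ∀ (k : ℕ) (g : Fin k → ℤ[X]) (m : ℕ) (c0 : ℝ), Sys g → 2 ≤ m → 0 < c0 →
  ∃ (δ κ c1 : ℝ) (y0 : ℕ), 0 < δ ∧ 0 < κ ∧ 0 < c1 ∧
  ∀ (P : Finset ℕ) (y z R H : ℕ), y0 ≤ y → y0 ≤ R → (∀ p ∈ P, p.Prime ∧ p ≤ z) → z ^ m * R ≤ H →
    H < y ^ (m + 1) → c0 ≤ ∑ p ∈ P.filter (fun p => y < p), (1 : ℝ) / p →
    ∑ p ∈ P.filter (fun p => y < p), (1 : ℝ) / p ≤ 1 →
    κ * (prm P : ℝ) ^ k ≤ Nat.card {γ : Fin k → ℕ // γ ∈ box k (prm P) ∧ c1 ≤ bhk g P (zv γ) ∧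
      ∃ u, u < prm P ∧
        δ * (densk g P (zv γ) * H) ≤ (-1 : ℝ) ^ m * (survk g P (zv γ) u H - densk g P (zv γ) * H)}

/-- KW -/
def S_KW : Prop := ∀ (k : ℕ) (g : Fin k → ℤ[X]) (m : ℕ) (c0 : ℝ), Sys g → 2 ≤ m → 0 < c0 →
  ∃ (δ κ c1 : ℝ) (y0 : ℕ), 0 < δ ∧ δ < 1 ∧ 0 < κ ∧ 0 < c1 ∧
  ∀ (P : Finset ℕ) (y z R H h : ℕ), y0 ≤ y → y0 ≤ R → (∀ p ∈ P, p.Prime ∧ p ≤ z) → z ^ m * R ≤ H →
    H < y ^ (m + 1) → c0 ≤ ∑ p ∈ P.filter (fun p => y < p), (1 : ℝ) / p →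
    ∑ p ∈ P.filter (fun p => y < p), (1 : ℝ) / p ≤ 1 →
    1 ≤ h → (h : ℝ) ≤ δ * c1 * H * (∏ p ∈ P, (1 - 1 / (p : ℝ))) ^ k →
    κ * (prm P : ℝ) ^ k ≤ Nat.card {γ : Fin k → ℕ // γ ∈ box k (prm P) ∧ c1 ≤ bhk g P (zv γ) ∧
      ∃ u, prm P ≤ u ∧ u ≤ 2 * prm P + H ∧
        δ * (densk g P (zv γ) * h) ≤ (-1 : ℝ) ^ m * (survk g P (zv γ) u h - densk g P (zv γ) * h)}

/-! ### Primes, one shift -/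

/-- F1: the weighted number of `c ≡ γ` with `G + c` prime, for all shifts `G ≤ X^(1/10)` and classes `γ`, with the
same `ps`, `S` -/
def S_F1 : Prop := ∀ (ε η : ℝ) (Z : ℕ), 0 < ε → ε ≤ 1 / 2 → 0 < η → ∃ X0 : ℝ, ∀ X : ℝ, X0 ≤ X →
  ∃ (ps : ℕ) (S : Finset ℕ), GoodP Z ps ∧ GoodS X S ∧
    ∀ γ G : ℕ, (G : ℝ) ≤ X ^ (1 / 10 : ℝ) → (∀ p ∈ PM X ε S ps, ¬ p ∣ G + γ) →
      |∑ c ∈ (Icc 1 ⌊3 * X⌋₊).filter (fun c : ℕ => c ≡ γ [MOD prm (PM X ε S ps)] ∧ (G + c).Prime), Phi (c / X) -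
          MX X / ((Nat.totient (prm (PM X ε S ps)) : ℝ) * Real.log X)| ≤
        η * (MX X / ((Nat.totient (prm (PM X ε S ps)) : ℝ) * Real.log X))

/-- F2: upper bounds for one shift and for two shifts -/
def S_F2 : Prop := ∀ (ε A : ℝ), 0 < ε → ε ≤ 1 / 2 → 0 < A → ∃ C X0 : ℝ, 0 < C ∧ ∀ X : ℝ, X0 ≤ X →
  ∀ (ps : ℕ) (S : Finset ℕ), GoodP 2 ps → GoodS X S →
    ∀ γ G G' : ℕ, (G : ℝ) ≤ Real.exp (A * (Real.log X) ^ ε) → (G' : ℝ) ≤ Real.exp (A * (Real.log X) ^ ε) →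
      G ≠ G' →
      (((Ioc ⌊X⌋₊ ⌊3 * X⌋₊).filter (fun c : ℕ => c ≡ γ [MOD prm (PM X ε S ps)] ∧ (G + c).Prime)).card : ℝ) ≤
        C * (X / prm (PM X ε S ps)) *
          (prm (PM X ε S ps) / ((Nat.totient (prm (PM X ε S ps)) : ℝ) * Real.log X)) ∧
      (((Ioc ⌊X⌋₊ ⌊3 * X⌋₊).filter (fun c : ℕ => c ≡ γ [MOD prm (PM X ε S ps)] ∧
          (G + c).Prime ∧ (G' + c).Prime)).card : ℝ) ≤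
        C * (X / prm (PM X ε S ps)) *
          (prm (PM X ε S ps) / ((Nat.totient (prm (PM X ε S ps)) : ℝ) * Real.log X)) ^ 2

/-! ### Primes, systems -/

/-- KF: first moment -/
def S_KF : Prop := ∀ (k : ℕ) (Λ ε η : ℝ) (Z : ℕ), 0 < ε → ε ≤ 1 / 2 → 0 < η →
  ∃ X1 : ℝ, ∀ X : ℝ, X1 ≤ X → ∃ (ps : ℕ) (S : Finset ℕ), GoodP Z ps ∧ GoodS X S ∧
    ∀ g : Fin k → ℤ[X], Sys g → ∀ γ : Fin k → ℕ, ∀ u h : ℕ,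
      (∀ i, ∀ r ∈ Icc 1 h, 0 ≤ (g i).eval ((u + r : ℕ) : ℤ) ∧
        (((g i).eval ((u + r : ℕ) : ℤ) : ℤ) : ℝ) ≤ X ^ (1 / 10 : ℝ)) →
      |∑ c ∈ Fintype.piFinset (fun i : Fin k => (Icc 1 ⌊3 * X⌋₊).filter
            (fun c : ℕ => c ≡ γ i [MOD prm (PM X ε S ps)])), (∏ i, Phi (c i / X)) * cntk g (zv c) u h -
        survk g (PM X ε S ps) (zv γ) u h *
          (MX X / ((Nat.totient (prm (PM X ε S ps)) : ℝ) * Real.log X)) ^ k| ≤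
        η * survk g (PM X ε S ps) (zv γ) u h *
          (MX X / ((Nat.totient (prm (PM X ε S ps)) : ℝ) * Real.log X)) ^ k

/-- KS: second moment -/
def S_KS : Prop := ∀ (k : ℕ) (g : Fin k → ℤ[X]) (Λ ε : ℝ), Sys g → 0 < ε → ε ≤ 1 / 2 →
  ∃ C X0 : ℝ, 0 < C ∧ ∀ X : ℝ, X0 ≤ X →
  ∀ (ps : ℕ) (S : Finset ℕ), GoodP 2 ps → GoodS X S →
    ∀ γ : Fin k → ℕ, ∀ u h : ℕ, prm (PM X ε S ps) ≤ u → u ≤ 3 * prm (PM X ε S ps) →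
      (h : ℝ) ≤ (Real.log X) ^ Λ →
      ∑ c ∈ Fintype.piFinset (fun i : Fin k => (Ioc ⌊X⌋₊ ⌊3 * X⌋₊).filter
            (fun c : ℕ => c ≡ γ i [MOD prm (PM X ε S ps)])), (cntk g (zv c) u h : ℝ) ^ 2 ≤
        C * (X / prm (PM X ε S ps)) ^ k *
          ((survk g (PM X ε S ps) (zv γ) u h *
              (prm (PM X ε S ps) / ((Nat.totient (prm (PM X ε S ps)) : ℝ) * Real.log X)) ^ k) ^ 2 +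
            survk g (PM X ε S ps) (zv γ) u h *
              (prm (PM X ε S ps) / ((Nat.totient (prm (PM X ε S ps)) : ℝ) * Real.log X)) ^ k)

/-- KT: the tail of the product -/
def S_KT : Prop := ∀ (k : ℕ) (g : Fin k → ℤ[X]) (ε η : ℝ), Sys g → 0 < ε → ε ≤ 1 / 2 → 0 < η →
  ∃ (Z : ℕ) (X0 : ℝ), ∀ X : ℝ, X0 ≤ X → ∀ (ps : ℕ) (S : Finset ℕ), GoodP Z ps → GoodS X S →
    ∀ (γ : Fin k → ℕ) (w : ℕ), Real.log X ≤ w → (w : ℝ) ≤ X ^ (1 / 4 : ℝ) →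
      (Nat.card {c : Fin k → ℕ // (∀ i, c i ∈ Icc 1 ⌊3 * X⌋₊) ∧ Cong (prm (PM X ε S ps)) c γ ∧
        ¬ |bhk g (prs w) (zv c) - bhk g (PM X ε S ps) (zv γ)| ≤ η * bhk g (PM X ε S ps) (zv γ)} : ℝ) ≤
        η * (X / prm (PM X ε S ps)) ^ k

/-- GB: size of the values of the polynomials in the windows -/
def S_GB : Prop := ∀ (k : ℕ) (g : Fin k → ℤ[X]) (Λ ε : ℝ), Sys g → 0 < ε → ε ≤ 1 / 2 →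
  ∃ A X0 : ℝ, 0 < A ∧ ∀ X : ℝ, X0 ≤ X → ∀ (ps : ℕ) (S : Finset ℕ), GoodS X S → ∀ u h : ℕ,
    prm (PM X ε S ps) ≤ u → u ≤ 3 * prm (PM X ε S ps) → (h : ℝ) ≤ (Real.log X) ^ Λ →
      (∀ i, ∀ r ∈ Icc 1 h, 0 < (g i).eval ((u + r : ℕ) : ℤ) ∧
        (((g i).eval ((u + r : ℕ) : ℤ) : ℤ) : ℝ) ≤ Real.exp (A * (Real.log X) ^ ε) ∧
        (((g i).eval ((u + r : ℕ) : ℤ) : ℤ) : ℝ) ≤ X ^ (1 / 10 : ℝ)) ∧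
      (∀ i, ∀ r ∈ Icc 1 h, ∀ r' ∈ Icc 1 h, r ≠ r' →
        (g i).eval ((u + r : ℕ) : ℤ) ≠ (g i).eval ((u + r' : ℕ) : ℤ))

/-- KA: the theorem, real `X` -/
def S_KA : Prop := ∀ (k : ℕ) (g : Fin k → ℤ[X]) (Λ ε : ℝ), Sys g → 1 ≤ Λ → 0 < ε → ε ≤ 1 / 2 →
  ∃ δ κ K X0 : ℝ, 0 < δ ∧ δ < 1 ∧ 0 < κ ∧ ∀ X : ℝ, X0 ≤ X → ∀ h w : ℕ,
    K * (Real.log X) ^ k ≤ h → (h : ℝ) ≤ 2 * (Real.log X) ^ Λ → Real.log X ≤ w → (w : ℝ) ≤ X ^ (1 / 4 : ℝ) →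
    κ * X ^ k ≤ Nat.card {c : Fin k → ℕ // (∀ i, c i ∈ Ioc ⌊X⌋₊ ⌊3 * X⌋₊) ∧ 0 < bhk g (prs w) (zv c) ∧
      ∃ u : ℕ, (u : ℝ) ≤ Real.exp (5 * (Real.log X) ^ ε) ∧
        (1 + δ) * (bhk g (prs w) (zv c) * (h / (Real.log X) ^ k)) ≤ cntk g (zv c) u h} ∧
    κ * X ^ k ≤ Nat.card {c : Fin k → ℕ // (∀ i, c i ∈ Ioc ⌊X⌋₊ ⌊3 * X⌋₊) ∧ 0 < bhk g (prs w) (zv c) ∧
      ∃ u : ℕ, (u : ℝ) ≤ Real.exp (5 * (Real.log X) ^ ε) ∧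
        (cntk g (zv c) u h : ℝ) ≤ (1 - δ) * (bhk g (prs w) (zv c) * (h / (Real.log X) ^ k))}

end Pool.Agent.N785.MG
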