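import Mathlib
import Pool.Agent.N785.MG.Stm2

/-!
Project MG part 2, task KF (helper498, for helper785): the first moment for systems, from `S_F1`.
-/

set_option autoImplicit false

open Finset Polynomial
open Pool.Agent.H378R2 (Phi GoodP GoodS)

namespace Pool.Agent.N785.MG.KF_

theorem Phi_nn (x : ℝ) : 0 ≤ Phi x := le_max_left _ _

theorem Phi_zero {x : ℝ} (h0 : 0 ≤ x) (h : x ≤ 1) : Phi x = 0 := by
  unfold Pool.Agent.H378R2.Phi
  apply max_eq_left
  have h1 : Real.log x ≤ 0 := Real.log_nonpos h0 h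
  rw [abs_of_nonpos (by linarith)]
  linarith

theorem prod_close {ι : Type*} (s : Finset ι) (a : ι → ℝ) (M t : ℝ) (hM : 0 ≤ M) (ht : 0 ≤ t)
    (h : ∀ i ∈ s, |a i - M| ≤ t * M) :
    |∏ i ∈ s, a i - M ^ s.card| ≤ ((1 + t) ^ s.card - 1) * M ^ s.card := by
  classical
  induction s using Finset.induction_on with
  | empty => simp
  | insert j s hj ih =>
    have h1 := h j (mem_insert_self _ _)
    have h2 := ih fun i hi => h i (mem_insert_of_mem hi)
    rw [prod_insert hj, card_insert_of_notMem hj]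
    have h3 : a j * ∏ i ∈ s, a i - M ^ (s.card + 1) =
        a j * (∏ i ∈ s, a i - M ^ s.card) + (a j - M) * M ^ s.card := by ring
    rw [h3]
    have h4 : |a j| ≤ (1 + t) * M := by
      have h5 : a j = M + (a j - M) := by ring
      calc |a j| = |M + (a j - M)| := by rw [← h5]
        _ ≤ |M| + |a j - M| := abs_add_le _ _
        _ ≤ M + t * M := by rw [abs_of_nonneg hM]; linarith
        _ = _ := by ring
    have hMs : 0 ≤ M ^ s.card := pow_nonneg hM _
    calc |a j * (∏ i ∈ s, a i - M ^ s.card) + (a j - M) * M ^ s.card|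
        ≤ |a j * (∏ i ∈ s, a i - M ^ s.card)| + |(a j - M) * M ^ s.card| := abs_add_le _ _
      _ = |a j| * |∏ i ∈ s, a i - M ^ s.card| + |a j - M| * M ^ s.card := by
          rw [abs_mul, abs_mul, abs_of_nonneg hMs]
      _ ≤ ((1 + t) * M) * (((1 + t) ^ s.card - 1) * M ^ s.card) + (t * M) * M ^ s.card := by
          apply add_le_add
          · exact mul_le_mul h4 h2 (abs_nonneg _) (by positivity)
          · exact mul_le_mul_of_nonneg_right h1 hMs
      _ = _ := by ring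

end Pool.Agent.N785.MG.KF_

namespace Pool.Agent.N785.MG

open KF_

theorem t_KF (hF1 : S_F1) : S_KF := by
  classical
  intro k Λ ε η Z hε hε1 hη
  obtain ⟨η1, hη1⟩ : ∃ η1 : ℝ, η1 = Real.log (1 + η) / (k + 1) := ⟨_, rfl⟩
  have hlog : 0 < Real.log (1 + η) := Real.log_pos (by linarith)
  have hk1 : (0 : ℝ) < (k : ℝ) + 1 := by positivity
  have hη1p : 0 < η1 := by rw [hη1]; positivity
  have hη1k : (1 + η1) ^ k ≤ 1 + η := by
    calc (1 + η1) ^ k ≤ (Real.exp η1) ^ k :=
          pow_le_pow_left₀ (by positivity) (by linarith [Real.add_one_le_exp η1]) k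
      _ = Real.exp (k * η1) := by rw [← Real.exp_nat_mul]
      _ ≤ Real.exp (Real.log (1 + η)) := by
          apply Real.exp_le_exp.2
          have h1 : ((k : ℝ) + 1) * η1 = Real.log (1 + η) := by
            rw [hη1]
            field_simp
          linarith
      _ = 1 + η := Real.exp_log (by linarith)
  obtain ⟨X0, hX0⟩ := hF1 ε η1 Z hε hε1 hη1p
  refine ⟨max X0 3, fun X hX => ?_⟩
  have hX3 : (3 : ℝ) ≤ X := (le_max_right _ _).trans hX
  have hXpos : 0 < X := by linarith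
  obtain ⟨ps, S, hps, hS, hF⟩ := hX0 X ((le_max_left _ _).trans hX)
  refine ⟨ps, S, hps, hS, ?_⟩
  intro g _ γ u w hw
  obtain ⟨P, hP⟩ : ∃ P : Finset ℕ, P = PM X ε S ps := ⟨_, rfl⟩
  rw [← hP] at hF ⊢
  obtain ⟨W, hW⟩ : ∃ W : ℕ, W = prm P := ⟨_, rfl⟩
  rw [← hW] at hF ⊢
  obtain ⟨M, hM⟩ : ∃ M : ℝ, M = MX X / ((Nat.totient W : ℝ) * Real.log X) := ⟨_, rfl⟩
  rw [← hM] at hF ⊢
  have hlogX : 1 ≤ Real.log X := by
    rw [Real.le_log_iff_exp_le hXpos]
    linarith [Real.exp_one_lt_d9]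
  have hM0 : 0 ≤ M := by
    rw [hM]
    have h1 : 0 ≤ MX X := by
      unfold MX
      exact sum_nonneg fun n _ => Phi_nn _
    positivity
  -- the primes of `P`
  have hPX : ∀ p ∈ P, p.Prime ∧ (p : ℝ) ≤ X := by
    intro p hp
    rw [hP] at hp
    unfold PM at hp
    rw [mem_filter, mem_Icc] at hp
    refine ⟨hp.2.1, ?_⟩
    have h1 : (p : ℝ) ≤ (zz X ε : ℝ) := by exact_mod_cast hp.1.2
    have h2 : (zz X ε : ℝ) ≤ (Real.log X) ^ ε := Nat.floor_le (by positivity)
    have h3 : (Real.log X) ^ ε ≤ (Real.log X) ^ (1 : ℝ) :=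
      Real.rpow_le_rpow_of_exponent_le hlogX (by linarith)
    rw [Real.rpow_one] at h3
    have h4 : Real.log X ≤ X - 1 := Real.log_le_sub_one_of_pos hXpos
    linarith
  have hPW : ∀ p ∈ P, p ∣ W := by
    intro p hp
    rw [hW]
    exact dvd_prod_of_mem (fun q : ℕ => q) hp
  -- the values of the polynomials
  obtain ⟨G, hG⟩ : ∃ G : Fin k → ℕ → ℕ, ∀ i r, G i r = ((g i).eval ((u + r : ℕ) : ℤ)).toNat :=
    ⟨_, fun _ _ => rfl⟩
  have hGe : ∀ i, ∀ r ∈ Icc 1 w, (g i).eval ((u + r : ℕ) : ℤ) = (G i r : ℤ) := by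
    intro i r hr
    rw [hG, Int.toNat_of_nonneg (hw i r hr).1]
  have hGX : ∀ i, ∀ r ∈ Icc 1 w, (G i r : ℝ) ≤ X ^ (1 / 10 : ℝ) := by
    intro i r hr
    have h1 := (hw i r hr).2
    rw [hGe i r hr] at h1
    exact_mod_cast h1
  -- the inner sums
  obtain ⟨T, hT⟩ : ∃ T : Fin k → ℕ → ℝ, ∀ i r, T i r =
      ∑ c ∈ (Icc 1 ⌊3 * X⌋₊).filter (fun c : ℕ => c ≡ γ i [MOD W] ∧ (G i r + c).Prime),
        Phi (c / X) := ⟨_, fun _ _ => rfl⟩
  have hcnt : ∀ c : Fin k → ℕ, (cntk g (zv c) u w : ℝ) =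
      ∑ r ∈ Icc 1 w, ∏ i, (if (G i r + c i).Prime then (1 : ℝ) else 0) := by
    intro c
    unfold cntk
    rw [card_filter]
    push_cast
    refine sum_congr rfl fun r hr => ?_
    have h1 : (∀ i, (((g i).eval ((u + r : ℕ) : ℤ) + zv c i).toNat).Prime) ↔
        ∀ i ∈ (univ : Finset (Fin k)), (G i r + c i).Prime := by
      have h2 : ∀ i, ((g i).eval ((u + r : ℕ) : ℤ) + zv c i).toNat = G i r + c i := by
        intro i
        rw [hGe i r hr]
        unfold zv
        omega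
      simp only [h2, mem_univ, true_implies]
    rw [prod_boole]
    by_cases hp : ∀ i ∈ (univ : Finset (Fin k)), (G i r + c i).Prime
    · rw [if_pos hp, if_pos]
      have := h1.2 hp
      push_cast at this
      exact this
    · rw [if_neg hp, if_neg]
      intro h3
      apply hp
      apply h1.1
      push_cast
      exact h3
  have hsurv : (survk g P (zv γ) u w : ℝ) =
      ∑ r ∈ Icc 1 w, (if ∀ p ∈ P, ¬ Bad g (zv γ) p (u + r) then (1 : ℝ) else 0) := by
    unfold survk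
    rw [card_filter]
    push_cast
    refine sum_congr rfl fun r hr => ?_
    by_cases hp : ∀ p ∈ P, ¬ Bad g (zv γ) p (u + r)
    · simp only [if_pos hp]
    · simp only [if_neg hp]
  have hmain : ∑ c ∈ Fintype.piFinset (fun i : Fin k => (Icc 1 ⌊3 * X⌋₊).filter
        (fun c : ℕ => c ≡ γ i [MOD W])), (∏ i, Phi (c i / X)) * cntk g (zv c) u w =
      ∑ r ∈ Icc 1 w, ∏ i, T i r := by
    have h1 : ∀ c : Fin k → ℕ, (∏ i, Phi (c i / X)) * (cntk g (zv c) u w : ℝ) =
        ∑ r ∈ Icc 1 w, ∏ i, (Phi (c i / X) * (if (G i r + c i).Prime then (1 : ℝ) else 0)) := by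
      intro c
      rw [hcnt, mul_sum]
      refine sum_congr rfl fun r _ => ?_
      rw [prod_mul_distrib]
    simp only [h1]
    rw [sum_comm]
    refine sum_congr rfl fun r _ => ?_
    have h2 := prod_univ_sum (fun i : Fin k => (Icc 1 ⌊3 * X⌋₊).filter (fun c : ℕ => c ≡ γ i [MOD W]))
      (fun (i : Fin k) (c : ℕ) => Phi (c / X) * (if (G i r + c).Prime then (1 : ℝ) else 0))
    rw [← h2]
    refine prod_congr rfl fun i _ => ?_
    have h3 : T i r = ∑ c ∈ (Icc 1 ⌊3 * X⌋₊).filter (fun c : ℕ => c ≡ γ i [MOD W]),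
        (if (G i r + c).Prime then Phi (c / X) else 0) := by
      rw [hT, ← filter_filter, sum_filter]
    rw [h3]
    refine sum_congr rfl fun c _ => ?_
    rw [mul_ite, mul_one, mul_zero]
  have hnot : ∀ r ∈ Icc 1 w, (¬ ∀ p ∈ P, ¬ Bad g (zv γ) p (u + r)) → ∏ i, T i r = 0 := by
    intro r hr hb
    push Not at hb
    obtain ⟨p, hp, i, hi⟩ := hb
    refine prod_eq_zero (mem_univ i) ?_
    rw [hT]
    refine sum_eq_zero fun c hc => ?_
    rw [mem_filter] at hc
    obtain ⟨-, hc1, hc2⟩ := hc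
    rcases le_or_gt (c : ℝ) X with hcX | hcX
    · exact Phi_zero (by positivity) (by rw [div_le_one hXpos]; exact hcX)
    · exfalso
      rw [hGe i r hr] at hi
      have h1 : p ∣ G i r + γ i := by
        unfold zv at hi
        exact_mod_cast hi
      have h2 : G i r + c ≡ G i r + γ i [MOD p] := (Nat.ModEq.add_left _ hc1).of_dvd (hPW p hp)
      have h3 : p ∣ G i r + c := (Nat.ModEq.dvd_iff h2 dvd_rfl).2 h1
      have h4 : p = G i r + c := (Nat.prime_dvd_prime_iff_eq (hPX p hp).1 hc2).1 h3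
      have h5 := (hPX p hp).2
      rw [h4] at h5
      push_cast at h5
      have : (0 : ℝ) ≤ G i r := by positivity
      linarith
  have hyes : ∀ r ∈ Icc 1 w, (∀ p ∈ P, ¬ Bad g (zv γ) p (u + r)) →
      |∏ i, T i r - M ^ k| ≤ η * M ^ k := by
    intro r hr hb
    have h1 : ∀ i ∈ (univ : Finset (Fin k)), |T i r - M| ≤ η1 * M := by
      intro i _
      rw [hT]
      refine hF (γ i) (G i r) (hGX i r hr) fun p hp hd => hb p hp ⟨i, ?_⟩
      rw [hGe i r hr]
      unfold zv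
      exact_mod_cast hd
    have h2 := prod_close univ (fun i => T i r) M η1 hM0 hη1p.le h1
    rw [card_univ, Fintype.card_fin] at h2
    refine h2.trans (mul_le_mul_of_nonneg_right ?_ (pow_nonneg hM0 k))
    linarith
  rw [hmain, hsurv, sum_mul, ← sum_sub_distrib, mul_sum, sum_mul]
  refine (abs_sum_le_sum_abs _ _).trans (sum_le_sum fun r hr => ?_)
  by_cases hb : ∀ p ∈ P, ¬ Bad g (zv γ) p (u + r)
  · rw [if_pos hb, one_mul, mul_one]
    exact hyes r hr hb
  · rw [if_neg hb, hnot r hr hb]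
    simp

end Pool.Agent.N785.MG
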