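import Pool.Agent.N785.MG.CL
import Pool.Agent.N785.MG.Stm2

/-!
Project MG, systems: a positive proportion of the vectors has an irregular window (port of CL, helper539).
-/

set_option autoImplicit false
open Finset Polynomial

namespace Pool.Agent.N785.MG.KL_

/-! ### congruences -/

theorem bad_iff {k : ℕ} {g : Fin k → ℤ[X]} {p : ℕ} {c c' : Fin k → ℤ}
    (h : ∀ i, (p : ℤ) ∣ c i - c' i) (t : ℕ) : Bad g c p t ↔ Bad g c' p t := by
  unfold Bad
  refine exists_congr fun i => ?_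
  have e : (g i).eval (t : ℤ) + c i = ((g i).eval (t : ℤ) + c' i) + (c i - c' i) := by ring
  rw [e]
  exact dvd_add_left (h i)

theorem nuk_congr {k : ℕ} {g : Fin k → ℤ[X]} {p : ℕ} {c c' : Fin k → ℤ}
    (h : ∀ i, (p : ℤ) ∣ c i - c' i) : nuk g p c = nuk g p c' := by
  classical
  unfold nuk
  congr 1
  exact filter_congr fun t _ => bad_iff h t

theorem AAk_congr {k : ℕ} {g : Fin k → ℤ[X]} {p : ℕ} {c c' : Fin k → ℤ}
    (h : ∀ i, (p : ℤ) ∣ c i - c' i) (r : ℕ) : AAk g p c r = AAk g p c' r := by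
  classical
  unfold AAk
  have e : (range p).filter (fun t : ℕ => Bad g c p t ∧ ¬ Bad g c p (t + r)) =
      (range p).filter (fun t : ℕ => Bad g c' p t ∧ ¬ Bad g c' p (t + r)) :=
    filter_congr fun t _ => by rw [bad_iff h, bad_iff h]
  rw [nuk_congr h]
  congr 3
  congr 2

theorem cong_dvd {k : ℕ} {P : Finset ℕ} {n m : Fin k → ℕ} (h : Cong (prm P) n m) {p : ℕ}
    (hp : p ∈ P) (i : Fin k) : (p : ℤ) ∣ zv n i - zv m i := by
  have h1 : n i ≡ m i [MOD p] := (h i).of_dvd (dvd_prod_of_mem (fun p => p) hp)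
  exact (Nat.modEq_iff_dvd.1 h1.symm)

theorem bhk_congr {k : ℕ} {g : Fin k → ℤ[X]} {P : Finset ℕ} {n m : Fin k → ℕ}
    (h : Cong (prm P) n m) : bhk g P (zv n) = bhk g P (zv m) := by
  unfold bhk
  exact prod_congr rfl fun p hp => by rw [nuk_congr (cong_dvd h hp)]

theorem XLk_congr {k : ℕ} {g : Fin k → ℤ[X]} {P : Finset ℕ} {n m : Fin k → ℕ}
    (h : Cong (prm P) n m) (H : ℕ) : XLk g P (zv n) H = XLk g P (zv m) H := by
  unfold XLk
  exact sum_congr rfl fun r _ => prod_congr rfl fun p hp => AAk_congr (cong_dvd h hp) r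

/-! ### bounds -/

theorem nuk_le {k : ℕ} (g : Fin k → ℤ[X]) (p : ℕ) (c : Fin k → ℤ) : nuk g p c ≤ p := by
  classical
  unfold nuk
  exact (card_filter_le _ _).trans (by rw [card_range])

theorem fac_nonneg {k : ℕ} (g : Fin k → ℤ[X]) (p : ℕ) (c : Fin k → ℤ) :
    0 ≤ 1 - (nuk g p c : ℝ) / p := by
  have h : (nuk g p c : ℝ) ≤ p := by exact_mod_cast nuk_le g p c
  rcases Nat.eq_zero_or_pos p with rfl | hp
  · simp
  · have hp' : (0 : ℝ) < p := by exact_mod_cast hp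
    have : (nuk g p c : ℝ) / p ≤ 1 := (div_le_one hp').2 h
    linarith

theorem dens_nonneg {k : ℕ} (g : Fin k → ℤ[X]) (P : Finset ℕ) (c : Fin k → ℤ) : 0 ≤ densk g P c :=
  prod_nonneg fun p _ => fac_nonneg g p c

/-- the factors are at least `exp (-2d/p)` -/
theorem fac_ge {k : ℕ} {g : Fin k → ℤ[X]} {p d : ℕ} {c : Fin k → ℤ} (hn : nuk g p c ≤ d)
    (hd : 2 * d ≤ p) (hp : 0 < p) :
    Real.exp (-(2 * ((d : ℝ) / p))) ≤ 1 - (nuk g p c : ℝ) / p := by
  have hp' : (0 : ℝ) < p := by exact_mod_cast hp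
  have h1 : (nuk g p c : ℝ) / p ≤ (d : ℝ) / p := by
    apply div_le_div_of_nonneg_right _ hp'.le
    exact_mod_cast hn
  have h2 : (d : ℝ) / p ≤ 1 / 2 := by
    rw [div_le_div_iff₀ hp' (by norm_num)]
    have : (2 * d : ℝ) ≤ p := by exact_mod_cast hd
    linarith
  have h3 := CL_.exp_le ((d : ℝ) / p) (by positivity) h2
  linarith

theorem AA_bd {k : ℕ} {g : Fin k → ℤ[X]} {p d : ℕ} {c : Fin k → ℤ} (hn : nuk g p c ≤ d)
    (hd : 2 * d ≤ p) (hp : 0 < p)
    (r : ℕ) : 0 ≤ AAk g p c r ∧ AAk g p c r ≤ Real.exp (2 * ((d : ℝ) / p)) := by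
  classical
  have h1 := fac_ge hn hd hp
  have h2 : (0 : ℝ) < 1 - (nuk g p c : ℝ) / p := (Real.exp_pos _).trans_le h1
  obtain ⟨q, hq⟩ : ∃ q : ℝ, q = if nuk g p c = 0 then 1 else
    (((range p).filter (fun t => Bad g c p t ∧ ¬ Bad g c p (t + r))).card : ℝ) / nuk g p c := ⟨_, rfl⟩
  have h3 : 0 ≤ q := by
    rw [hq]
    split_ifs <;> positivity
  have h4 : q ≤ 1 := by
    rw [hq]
    split_ifs with h
    · exact le_rfl
    · have h5 : (0 : ℝ) < nuk g p c := by exact_mod_cast Nat.pos_of_ne_zero h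
      rw [div_le_one h5]
      have h6 : ((range p).filter (fun t => Bad g c p t ∧ ¬ Bad g c p (t + r))).card ≤ nuk g p c := by
        unfold nuk
        refine card_le_card fun t ht => ?_
        rw [mem_filter] at ht ⊢
        exact ⟨ht.1, ht.2.1⟩
      exact_mod_cast h6
  have e : AAk g p c r = q / (1 - (nuk g p c : ℝ) / p) := by
    rw [hq]
    unfold AAk
    congr 3
  rw [e]
  refine ⟨div_nonneg h3 h2.le, ?_⟩
  rw [div_le_iff₀ h2]
  refine h4.trans ?_
  have h7 := mul_le_mul_of_nonneg_left h1 (Real.exp_pos (2 * ((d : ℝ) / p))).le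
  rwa [← Real.exp_add, add_neg_cancel, Real.exp_zero] at h7

section
variable {k : ℕ} {g : Fin k → ℤ[X]} {PL : Finset ℕ} {d : ℕ}

theorem XL_bd {c : Fin k → ℤ} (hn : ∀ p ∈ PL, nuk g p c ≤ d) (hd : ∀ p ∈ PL, 2 * d ≤ p)
    (hp : ∀ p ∈ PL, 0 < p) (hs : ∑ p ∈ PL, (1 : ℝ) / p ≤ 1) (H : ℕ) :
    0 ≤ XLk g PL c H ∧ XLk g PL c H ≤ Real.exp (2 * d) * H := by
  have h := fun r : ℕ => CL_.prod_bd (PL := PL) (d := d) (f := fun p => AAk g p c r)
    (fun p hp' => AA_bd (hn p hp') (hd p hp') (hp p hp') r) hs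
  unfold XLk
  refine ⟨sum_nonneg fun r _ => (h r).1, ?_⟩
  refine (sum_le_sum fun r _ => (h r).2).trans ?_
  rw [sum_const, Nat.card_Icc, nsmul_eq_mul, Nat.add_sub_cancel, mul_comm]

theorem bh_ge {c : Fin k → ℤ} (hn : ∀ p ∈ PL, nuk g p c ≤ d) (hd : ∀ p ∈ PL, 2 * d ≤ p)
    (hp : ∀ p ∈ PL, p.Prime) (hs : ∑ p ∈ PL, (1 : ℝ) / p ≤ 1) :
    Real.exp (-(2 * d)) ≤ bhk g PL c := by
  have h1 : Real.exp (-(2 * d)) ≤ ∏ p ∈ PL, Real.exp (-(2 * ((d : ℝ) / p))) := by
    rw [← Real.exp_sum]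
    apply Real.exp_le_exp.2
    have e : ∑ p ∈ PL, -(2 * ((d : ℝ) / p)) = -(2 * d * ∑ p ∈ PL, (1 : ℝ) / p) := by
      rw [mul_sum, ← sum_neg_distrib]
      exact sum_congr rfl fun p _ => by ring
    rw [e]
    have : 2 * (d : ℝ) * ∑ p ∈ PL, (1 : ℝ) / p ≤ 2 * d := mul_le_of_le_one_right (by positivity) hs
    linarith
  refine h1.trans ?_
  unfold bhk
  refine prod_le_prod (fun p _ => (Real.exp_pos _).le) fun p hp' => ?_
  have h2 := fac_ge (hn p hp') (hd p hp') (hp p hp').pos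
  have h3 : (1 : ℝ) < p := by exact_mod_cast (hp p hp').one_lt
  have h4 : 0 < 1 - 1 / (p : ℝ) := by
    have : 1 / (p : ℝ) < 1 := (div_lt_one (by linarith)).2 h3
    linarith
  rw [le_div_iff₀ (pow_pos h4 k)]
  have h5 : (1 - 1 / (p : ℝ)) ^ k ≤ 1 := by
    have : 0 ≤ 1 / (p : ℝ) := by positivity
    exact pow_le_one₀ h4.le (by linarith)
  calc Real.exp (-(2 * ((d : ℝ) / p))) * (1 - 1 / (p : ℝ)) ^ k ≤ Real.exp (-(2 * ((d : ℝ) / p))) :=
        mul_le_of_le_one_right (Real.exp_pos _).le h5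
    _ ≤ _ := h2

end

/-- counting from a mean value -/
theorem count {ι : Type} (S : Finset ι) (D : ι → ℝ) (B : ι → Prop) (a M H : ℝ) (hM : 0 < M)
    (hH : 0 < H) (ha : 0 < a) (hD : ∀ n ∈ S, D n ≤ M * H) (hB : ∀ n ∈ S, a / 2 * H ≤ D n → B n)
    (hS : S.card * (a * H) ≤ ∑ n ∈ S, D n) :
    a / (2 * M) * S.card ≤ Nat.card {n // n ∈ S ∧ B n} := by
  classical
  have e : Nat.card {n // n ∈ S ∧ B n} = (S.filter B).card :=
    Nat.subtype_card _ fun n => by rw [mem_filter]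
  rw [e]
  have h1 : ∑ n ∈ S, D n ≤ ∑ n ∈ S, ((if B n then M * H else 0) + a / 2 * H) := by
    refine sum_le_sum fun n hn => ?_
    split_ifs with h
    · have := hD n hn
      have : 0 < a / 2 * H := by positivity
      linarith
    · have : ¬ a / 2 * H ≤ D n := fun h' => h (hB n hn h')
      linarith [not_le.1 this]
  rw [sum_add_distrib, sum_const, nsmul_eq_mul, ← sum_filter, sum_const,
    nsmul_eq_mul] at h1
  have h2 : (S.card : ℝ) * (a * H) ≤ (S.filter B).card * (M * H) + S.card * (a / 2 * H) :=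
    hS.trans h1
  have h3 : (S.card : ℝ) * (a / 2) * H ≤ ((S.filter B).card * M) * H := by linarith
  have h4 := le_of_mul_le_mul_right h3 hH
  rw [div_mul_eq_mul_div, div_le_iff₀ (by positivity)]
  linarith

theorem card_mono {ι : Type} (S : Finset ι) {Q Q' : ι → Prop} (h : ∀ n ∈ S, Q n → Q' n) :
    Nat.card {n // n ∈ S ∧ Q n} ≤ Nat.card {n // n ∈ S ∧ Q' n} := by
  classical
  have e : Nat.card {n // n ∈ S ∧ Q n} = (S.filter Q).card :=
    Nat.subtype_card _ fun n => by rw [mem_filter]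
  have e' : Nat.card {n // n ∈ S ∧ Q' n} = (S.filter Q').card :=
    Nat.subtype_card _ fun n => by rw [mem_filter]
  rw [e, e']
  refine card_le_card fun n hn => ?_
  rw [mem_filter] at hn ⊢
  exact ⟨hn.1, h n hn.1 hn.2⟩

theorem card_box (k q : ℕ) : (box k q).card = q ^ k := by
  unfold box
  rw [Fintype.card_piFinset]
  simp

end Pool.Agent.N785.MG.KL_

namespace Pool.Agent.N785.MG

open KL_

theorem t_KL (h1 : S_T1) (h2 : S_K2) (ha : S_K3a) (hb : S_K3b) (hc : S_K3c) (hd : S_K3d) : S_KL := by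
  classical
  intro k g m c0 hg hk hc0
  obtain ⟨p0, d, C, hC, hd1, hT2⟩ := h2 k g hg
  have hd0 : (0 : ℝ) < d := by exact_mod_cast hd1
  obtain ⟨δ1, y1, hδ1, hT1⟩ := h1 m C (c0 / d) hk hC (by positivity)
  obtain ⟨c1, c2, hc1, hc2, hT3d⟩ := hd k g hg
  obtain ⟨M, hM⟩ : ∃ M : ℝ, M = Real.exp (2 * d) := ⟨_, rfl⟩
  have hM0 : 0 < M := by rw [hM]; exact Real.exp_pos _
  have hM1 : 1 ≤ M := by rw [hM]; exact Real.one_le_exp (by positivity)
  refine ⟨δ1 / 2, c2 * (δ1 / (2 * M)), c1 * Real.exp (-(2 * d)), max (max p0 y1) 1, by positivity,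
    by positivity, by positivity, ?_⟩
  intro P y z R H hy hR hP hH hHy hs0 hs1
  set PL := P.filter (fun p => y < p) with hPL
  set PS := P.filter (fun p => ¬ y < p) with hPS
  have hPLs : PL ⊆ P := filter_subset _ _
  have hPSs : PS ⊆ P := filter_subset _ _
  have hdis : Disjoint PS PL := (disjoint_filter_filter_not P P (fun p => y < p)).symm
  have hun : PS ∪ PL = P := by
    rw [union_comm]
    exact filter_union_filter_not_eq _ _
  have hPLp : ∀ p ∈ PL, p.Prime := fun p hp => (hP p (hPLs hp)).1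
  have hPSp : ∀ p ∈ PS, p.Prime := fun p hp => (hP p (hPSs hp)).1
  have hPLy : ∀ p ∈ PL, y < p := fun p hp => (mem_filter.1 hp).2
  have hyp0 : p0 ≤ y := ((le_max_left p0 y1).trans (le_max_left _ 1)).trans hy
  have hyy1 : y1 ≤ y := ((le_max_right p0 y1).trans (le_max_left _ 1)).trans hy
  have hRy1 : y1 ≤ R := ((le_max_right p0 y1).trans (le_max_left _ 1)).trans hR
  have hR1 : 1 ≤ R := (le_max_right _ 1).trans hR
  have hT := fun p hp => hT2 p (hPLp p hp) (hyp0.trans (hPLy p hp).le)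
  -- `H` is positive
  have hH0 : 0 < H := by
    have hne : PL.Nonempty := by
      by_contra hne
      rw [not_nonempty_iff_eq_empty] at hne
      rw [hne, sum_empty] at hs0
      linarith
    obtain ⟨p, hp⟩ := hne
    have hz : 0 < z := (hPLp p hp).pos.trans_le (hP p (hPLs hp)).2
    have : 0 < z ^ m * R := Nat.mul_pos (pow_pos hz m) hR1
    omega
  have hH0' : (0 : ℝ) < H := by exact_mod_cast hH0
  -- the mean value
  have hmean := hT1 y z R H PL (eek g) hyy1 hRy1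
    (fun p hp => ⟨hPLp p hp, hPLy p hp, (hP p (hPLs hp)).2⟩) hH hHy hs1 (by
      calc c0 / d ≤ (∑ p ∈ PL, (1 : ℝ) / p) / d := div_le_div_of_nonneg_right hs0 hd0.le
        _ = ∑ p ∈ PL, (1 / (d : ℝ)) / p := by
          rw [sum_div]
          exact sum_congr rfl fun p _ => by ring
        _ ≤ ∑ p ∈ PL, (1 - eek g p 0) / p := sum_le_sum fun p hp =>
          div_le_div_of_nonneg_right (hT p hp).2.2.2.2.2.2.1 (Nat.cast_nonneg p))
    (fun p hp => ⟨(hT p hp).2.2.2.2.2.1, by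
      have h3 := (hT p hp).2.2.2.2.2.2.1
      have : (0 : ℝ) < 1 / (d : ℝ) := by positivity
      linarith⟩)
    (fun p hp => (hT p hp).2.2.2.1) (fun p hp => (hT p hp).2.2.2.2.1)
    (fun p hp => (hT p hp).2.2.2.2.2.2.2)
  have hXL : ∀ c : Fin k → ℤ, 0 ≤ XLk g PL c H ∧ XLk g PL c H ≤ M * H := fun c => by
    rw [hM]
    exact XL_bd (fun p hp => (hT p hp).1 c) (fun p hp => (hT p hp).2.1)
      (fun p hp => (hPLp p hp).pos) hs1 H
  have hsgn : ((-1 : ℝ) ^ m = 1 ∧ Even m) ∨ ((-1 : ℝ) ^ m = -1 ∧ Odd m) := by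
    rcases Nat.even_or_odd m with h | h
    · exact Or.inl ⟨h.neg_one_pow, h⟩
    · exact Or.inr ⟨h.neg_one_pow, h⟩
  obtain ⟨B, hBd⟩ : ∃ B : (Fin k → ℕ) → Prop,
    B = fun n => δ1 / 2 * H ≤ (-1 : ℝ) ^ m * (XLk g PL (zv n) H - H) := ⟨_, rfl⟩
  have hcB : δ1 / (2 * M) * (prm PL : ℝ) ^ k ≤ Nat.card {n // n ∈ box k (prm PL) ∧ B n} := by
    have hcc := count (box k (prm PL)) (fun n => (-1 : ℝ) ^ m * (XLk g PL (zv n) H - H)) B δ1 M H
      hM0 hH0' hδ1 (fun n _ => ?_) (fun n _ h => by rw [hBd]; exact h) ?_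
    · rw [card_box] at hcc
      push_cast at hcc
      exact hcc
    · have h3 := hXL (zv n)
      have h4 : (H : ℝ) ≤ M * H := le_mul_of_one_le_left hH0'.le hM1
      rcases hsgn with ⟨h5, _⟩ | ⟨h5, _⟩
      · simp only [h5]
        linarith [h3.2]
      · simp only [h5]
        linarith [h3.1]
    · rw [← mul_sum, sum_sub_distrib, hb k g PL H hPLp, sum_const, card_box, nsmul_eq_mul]
      push_cast
      have h3 := mul_le_mul_of_nonneg_left hmean (by positivity : (0 : ℝ) ≤ (prm PL : ℝ) ^ k)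
      calc _ ≤ _ := h3
        _ = _ := by ring
  have hcA := hT3d PS hPSp
  have hcAB := hc k PS PL (fun n => c1 ≤ bhk g PS (zv n)) B hPSp hPLp hdis
    (fun n m h => by simp only [bhk_congr h]) (fun n m h => by simp only [hBd, XLk_congr h H])
  rw [hun] at hcAB
  have hprm : prm P = prm PS * prm PL := by rw [← hun, CL_.prm_union hdis]
  -- the inclusion
  have hle : Nat.card {n // n ∈ box k (prm P) ∧ c1 ≤ bhk g PS (zv n) ∧ B n} ≤
      Nat.card {γ : Fin k → ℕ // γ ∈ box k (prm P) ∧ c1 * Real.exp (-(2 * d)) ≤ bhk g P (zv γ) ∧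
      ∃ u, u < prm P ∧ δ1 / 2 * (densk g P (zv γ) * H) ≤
        (-1 : ℝ) ^ m * (survk g P (zv γ) u H - densk g P (zv γ) * H)} := by
    refine card_mono (box k (prm P)) fun n hn hAB => ?_
    obtain ⟨hA, hB⟩ := hAB
    refine ⟨?_, ?_⟩
    · have e : bhk g P (zv n) = bhk g PS (zv n) * bhk g PL (zv n) := by
        rw [← hun]
        unfold bhk
        exact prod_union hdis
      rw [e]
      exact mul_le_mul hA (bh_ge (fun p hp => (hT p hp).1 _) (fun p hp => (hT p hp).2.1) hPLp hs1)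
        (Real.exp_pos _).le (hc1.le.trans hA)
    · obtain ⟨⟨u1, hu1, hu1'⟩, ⟨u2, hu2, hu2'⟩⟩ := ha k g P PL (zv n) H (fun p hp => (hP p hp).1)
        hPLs (fun p hp => by
          have h3 := (hT p hp).1 (zv n)
          have h4 := (hT p hp).2.1
          omega)
      have hdn := dens_nonneg g P (zv n)
      have hB' : δ1 / 2 * H ≤ (-1 : ℝ) ^ m * (XLk g PL (zv n) H - H) := by
        rw [hBd] at hB
        exact hB
      have h6 := mul_le_mul_of_nonneg_left hB' hdn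
      rcases hsgn with ⟨h5, _⟩ | ⟨h5, _⟩
      · refine ⟨u1, hu1, ?_⟩
        rw [h5] at h6 ⊢
        linarith
      · refine ⟨u2, hu2, ?_⟩
        rw [h5] at h6 ⊢
        linarith
  calc c2 * (δ1 / (2 * M)) * (prm P : ℝ) ^ k =
        (c2 * (prm PS : ℝ) ^ k) * (δ1 / (2 * M) * (prm PL : ℝ) ^ k) := by
        rw [hprm]
        push_cast
        rw [mul_pow]
        ring
    _ ≤ (Nat.card {γ : Fin k → ℕ // γ ∈ box k (prm PS) ∧ c1 ≤ bhk g PS (zv γ)} : ℝ) *
        (Nat.card {n // n ∈ box k (prm PL) ∧ B n} : ℝ) :=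
        mul_le_mul hcA hcB (by positivity) (by positivity)
    _ = (Nat.card {n // n ∈ box k (prm P) ∧ c1 ≤ bhk g PS (zv n) ∧ B n} : ℝ) := by
        rw [hcAB]
        push_cast
        ring
    _ ≤ _ := by exact_mod_cast hle

end Pool.Agent.N785.MG
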