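import Pool.Agent.N785.MG.Stm2
import Pool.Agent.N785.MG.CR

set_option autoImplicit false

/-!
Project MG: Chinese remainder theorem for vectors (helper615, after `CR.lean` of helper407).
-/

open Finset Polynomial

namespace Pool.Agent.N785.MG

namespace KR_

theorem mem_box {k q : ℕ} {n : Fin k → ℕ} : n ∈ box k q ↔ ∀ i, n i < q := by
  unfold box
  rw [Fintype.mem_piFinset]
  exact forall_congr' fun i => mem_range

/-- two coprime moduli -/
theorem sum_two {k a b : ℕ} (ha : 0 < a) (hb : 0 < b) (hab : a.Coprime b)
    (F : (Fin k → ℕ) → (Fin k → ℕ) → ℝ) :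
    ∑ n ∈ box k (a * b), F (fun i => n i % a) (fun i => n i % b) =
      ∑ s ∈ box k a, ∑ t ∈ box k b, F s t := by
  rw [← Finset.sum_product']
  refine Finset.sum_nbij' (fun n => ((fun i => n i % a), (fun i => n i % b)))
    (fun q => fun i => (Nat.chineseRemainder hab (q.1 i) (q.2 i) : ℕ)) ?_ ?_ ?_ ?_ ?_
  · intro n _
    rw [mem_product, mem_box, mem_box]
    exact ⟨fun i => Nat.mod_lt _ ha, fun i => Nat.mod_lt _ hb⟩
  · intro q _
    rw [mem_box]
    exact fun i => Nat.chineseRemainder_lt_mul hab _ _ ha.ne' hb.ne'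
  · intro n hn
    rw [mem_box] at hn
    funext i
    have h1 := Nat.chineseRemainder_modEq_unique hab (a := n i % a) (b := n i % b) (z := n i)
      (Nat.mod_modEq (n i) a).symm (Nat.mod_modEq (n i) b).symm
    exact (Nat.ModEq.eq_of_lt_of_lt h1 (hn i)
      (Nat.chineseRemainder_lt_mul hab _ _ ha.ne' hb.ne')).symm
  · intro q hq
    rw [mem_product, mem_box, mem_box] at hq
    have h1 := fun i => (Nat.chineseRemainder hab (q.1 i) (q.2 i)).2
    have h2 : ∀ i, (Nat.chineseRemainder hab (q.1 i) (q.2 i) : ℕ) % a = q.1 i := by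
      intro i
      have := (h1 i).1
      unfold Nat.ModEq at this
      rw [this, Nat.mod_eq_of_lt (hq.1 i)]
    have h3 : ∀ i, (Nat.chineseRemainder hab (q.1 i) (q.2 i) : ℕ) % b = q.2 i := by
      intro i
      have := (h1 i).2
      unfold Nat.ModEq at this
      rw [this, Nat.mod_eq_of_lt (hq.2 i)]
    exact Prod.ext (funext h2) (funext h3)
  · intro n _
    rfl

theorem box_one (k : ℕ) : box k 1 = {fun _ => 0} := by
  ext n
  rw [mem_box, mem_singleton]
  constructor
  · intro h; funext i; have := h i; omega
  · intro h; rw [h]; exact fun _ => Nat.zero_lt_one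

end KR_

theorem t_KR : S_KR := by
  classical
  intro k P
  induction P using Finset.induction_on with
  | empty =>
    intro f _
    have : prm (∅ : Finset ℕ) = 1 := by simp [prm]
    rw [this, KR_.box_one]
    simp
  | insert q P hq ih =>
    intro f hP
    have hqp := hP q (mem_insert_self _ _)
    have hP' : ∀ p ∈ P, p.Prime := fun p hp => hP p (mem_insert_of_mem hp)
    have h1 : prm (insert q P) = q * prm P := by
      unfold prm
      rw [Finset.prod_insert hq]
    have hco : q.Coprime (prm P) := by
      unfold prm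
      refine Nat.Coprime.prod_right fun p hp => ?_
      rw [Nat.coprime_primes hqp (hP' p hp)]
      rintro rfl
      exact hq hp
    rw [h1, Finset.prod_insert hq, ← ih f hP']
    have h2 := KR_.sum_two hqp.pos (CR_.prm_pos hP') hco
      (fun s t => f q s * ∏ p ∈ P, f p (fun i : Fin k => t i % p))
    have h3 : ∀ n ∈ box k (q * prm P), ∏ p ∈ insert q P, f p (fun i => n i % p) =
        f q (fun i => n i % q) * ∏ p ∈ P, f p (fun i => n i % prm P % p) := by
      intro n _
      rw [Finset.prod_insert hq]
      congr 1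
      refine Finset.prod_congr rfl fun p hp => ?_
      congr 1
      funext i
      rw [Nat.mod_mod_of_dvd (n i) (CR_.dvd_prm hp)]
    rw [Finset.sum_congr rfl h3, h2, Finset.sum_mul]
    refine Finset.sum_congr rfl fun s _ => ?_
    rw [Finset.mul_sum]

end Pool.Agent.N785.MG
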