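import Pool.Agent.N785.MG.CL
import Pool.Agent.N785.MG.Stm2

/-!
Project MG, systems: second moment (helper539).
-/

set_option autoImplicit false
open Finset Polynomial
open Pool.Agent.H378R2 (Phi GoodP GoodS)

namespace Pool.Agent.N785.MG

theorem t_KS (h : S_F2) (hg : S_GB) : S_KS := by
  classical
  intro k g Λ ε hS hε hε2
  obtain ⟨A, X1, hA, hGB⟩ := hg k g Λ ε hS hε hε2
  obtain ⟨C, X2, hC, hF2⟩ := h ε A hε hε2 hA
  refine ⟨C ^ k, max (max X1 X2) (Real.exp 1), by positivity,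
    fun X hX ps S hps hGS γ u h hu1 hu2 hh => ?_⟩
  have hX1 : X1 ≤ X := ((le_max_left _ _).trans (le_max_left _ _)).trans hX
  have hX2 : X2 ≤ X := ((le_max_right _ _).trans (le_max_left _ _)).trans hX
  have hXe : Real.exp 1 ≤ X := (le_max_right _ _).trans hX
  have hX0 : 0 < X := (Real.exp_pos 1).trans_le hXe
  have hlog : 1 ≤ Real.log X := (Real.le_log_iff_exp_le hX0).2 hXe
  obtain ⟨hG1, hG2⟩ := hGB X hX1 ps S hGS u h hu1 hu2 hh
  have hF := hF2 X hX2 ps S hps hGS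
  obtain ⟨P, hP⟩ : ∃ P, P = PM X ε S ps := ⟨_, rfl⟩
  rw [← hP] at hu1 hu2 hF ⊢
  have hPle : ∀ p ∈ P, p.Prime ∧ (p : ℝ) ≤ X := by
    intro p hp
    rw [hP] at hp
    unfold PM at hp
    obtain ⟨h1, h2, -⟩ := mem_filter.1 hp
    refine ⟨h2, ?_⟩
    have h3 : p ≤ zz X ε := (mem_Icc.1 h1).2
    have h4 : (p : ℝ) ≤ (Real.log X) ^ ε := by
      have h5 : ((zz X ε : ℕ) : ℝ) ≤ (Real.log X) ^ ε := Nat.floor_le (by positivity)
      exact (by exact_mod_cast h3 : (p : ℝ) ≤ zz X ε).trans h5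
    have h5 : (Real.log X) ^ ε ≤ (Real.log X) ^ (1 : ℝ) :=
      Real.rpow_le_rpow_of_exponent_le hlog (by linarith)
    rw [Real.rpow_one] at h5
    have h6 := Real.log_le_sub_one_of_pos hX0
    linarith
  obtain ⟨W, hW⟩ : ∃ W, W = prm P := ⟨_, rfl⟩
  obtain ⟨q, hq⟩ : ∃ q : ℝ, q = (prm P : ℝ) / ((Nat.totient (prm P) : ℝ) * Real.log X) := ⟨_, rfl⟩
  have hq0 : 0 ≤ q := by
    rw [hq]
    have : 0 ≤ Real.log X := by linarith
    positivity
  have hXW : 0 ≤ X / prm P := by positivity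
  rw [← hq] at hF ⊢
  -- the values of the polynomials
  obtain ⟨G, hGd⟩ : ∃ G : Fin k → ℕ → ℕ, G = fun i r => ((g i).eval ((u + r : ℕ) : ℤ)).toNat := ⟨_, rfl⟩
  have hGe : ∀ i, ∀ r ∈ Icc 1 h, ((G i r : ℕ) : ℤ) = (g i).eval ((u + r : ℕ) : ℤ) := by
    intro i r hr
    rw [hGd]
    exact Int.toNat_of_nonneg (hG1 i r hr).1.le
  have hGr : ∀ i, ∀ r ∈ Icc 1 h, ((G i r : ℕ) : ℝ) ≤ Real.exp (A * (Real.log X) ^ ε) := by
    intro i r hr
    have h1 : ((G i r : ℕ) : ℝ) = (((g i).eval ((u + r : ℕ) : ℤ) : ℤ) : ℝ) := by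
      rw [← hGe i r hr]
      push_cast
      rfl
    rw [h1]
    exact (hG1 i r hr).2.1
  have hGpos : ∀ i, ∀ r ∈ Icc 1 h, 0 < G i r := by
    intro i r hr
    have h1 := hGe i r hr
    have h2 := (hG1 i r hr).1
    omega
  have hGne : ∀ i, ∀ r ∈ Icc 1 h, ∀ r' ∈ Icc 1 h, r ≠ r' → G i r ≠ G i r' := by
    intro i r hr r' hr' hne hcon
    apply hG2 i r hr r' hr' hne
    rw [← hGe i r hr, ← hGe i r' hr', hcon]
  -- the sets
  obtain ⟨Av, hAv⟩ : ∃ Av : Fin k → Finset ℕ, Av = fun i => (Ioc ⌊X⌋₊ ⌊3 * X⌋₊).filter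
    (fun c : ℕ => c ≡ γ i [MOD prm P]) := ⟨_, rfl⟩
  obtain ⟨Sv, hSv⟩ : ∃ Sv : Finset ℕ, Sv = (Icc 1 h).filter
    (fun r : ℕ => ∀ p ∈ P, ¬ Bad g (zv γ) p (u + r)) := ⟨_, rfl⟩
  have hSvI : ∀ r ∈ Sv, r ∈ Icc 1 h := fun r hr => by
    rw [hSv] at hr
    exact (mem_filter.1 hr).1
  have hsurv : survk g P (zv γ) u h = Sv.card := by
    rw [hSv]
    unfold survk
    congr
  -- the good indices
  obtain ⟨I, hI⟩ : ∃ I : (Fin k → ℕ) → ℕ → Prop, I = fun c r => ∀ i, (G i r + c i).Prime := ⟨_, rfl⟩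
  have hcnt : ∀ c ∈ Fintype.piFinset Av, cntk g (zv c) u h ≤ (Sv.filter (I c)).card := by
    intro c hc
    rw [Fintype.mem_piFinset] at hc
    unfold cntk
    refine card_le_card fun r hr => ?_
    obtain ⟨hr1, hr2⟩ := mem_filter.1 hr
    have hIr : ∀ i, (G i r + c i).Prime := by
      intro i
      have h1 := hr2 i
      unfold zv at h1
      rw [← hGe i r hr1] at h1
      have h2 : (((G i r : ℕ) : ℤ) + ((c i : ℕ) : ℤ)).toNat = G i r + c i := by omega
      rwa [h2] at h1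
    refine mem_filter.2 ⟨?_, by rw [hI]; exact hIr⟩
    rw [hSv]
    refine mem_filter.2 ⟨hr1, fun p hp hbad => ?_⟩
    obtain ⟨i, hi⟩ := hbad
    unfold zv at hi
    have hci := hc i
    rw [hAv] at hci
    obtain ⟨hci1, hci2⟩ := mem_filter.1 hci
    have h1 := CL_.modEq_dvd hci2 hp
    have h2 : (p : ℤ) ∣ ((G i r + c i : ℕ) : ℤ) := by
      have h3 := dvd_add hi h1
      have h4 : (g i).eval ((u + r : ℕ) : ℤ) + (γ i : ℤ) + ((c i : ℤ) - (γ i : ℤ)) =
          ((G i r + c i : ℕ) : ℤ) := by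
        rw [← hGe i r hr1]
        push_cast
        ring
      rwa [h4] at h3
    have h3 : p ∣ G i r + c i := by exact_mod_cast h2
    obtain ⟨hpp, hpX⟩ := hPle p hp
    have h4 : p = G i r + c i := ((Nat.prime_dvd_prime_iff_eq hpp (hIr i)).1 h3)
    have h5 : ⌊X⌋₊ < c i := (mem_Ioc.1 hci1).1
    have h6 : X < c i := (Nat.floor_lt hX0.le).1 h5
    have h7 : (c i : ℝ) ≤ p := by
      rw [h4]
      push_cast
      have : (0 : ℝ) ≤ G i r := Nat.cast_nonneg _
      linarith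
    linarith
  -- pairs
  have hpair : ∀ r ∈ Sv, ∀ r' ∈ Sv,
      (((Fintype.piFinset Av).filter fun c => I c r ∧ I c r').card : ℝ) ≤
        if r = r' then (C * (X / prm P) * q) ^ k else (C * (X / prm P) * q ^ 2) ^ k := by
    intro r hr r' hr'
    have h1 : ((Fintype.piFinset Av).filter fun c => I c r ∧ I c r') ⊆
        Fintype.piFinset fun i => (Av i).filter fun c => (G i r + c).Prime ∧ (G i r' + c).Prime := by
      intro c hc
      obtain ⟨hc1, hc2⟩ := mem_filter.1 hc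
      rw [Fintype.mem_piFinset] at hc1 ⊢
      intro i
      rw [hI] at hc2
      exact mem_filter.2 ⟨hc1 i, hc2.1 i, hc2.2 i⟩
    have h2 : (((Fintype.piFinset Av).filter fun c => I c r ∧ I c r').card : ℝ) ≤
        ∏ i, (((Av i).filter fun c => (G i r + c).Prime ∧ (G i r' + c).Prime).card : ℝ) := by
      have h3 := card_le_card h1
      rw [Fintype.card_piFinset] at h3
      exact_mod_cast h3
    refine h2.trans ?_
    split_ifs with hrr
    · subst hrr
      have h3 : ∀ i ∈ (univ : Finset (Fin k)),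
          (((Av i).filter fun c => (G i r + c).Prime ∧ (G i r + c).Prime).card : ℝ) ≤
            C * (X / prm P) * q := by
        intro i _
        have h4 := (hF (γ i) (G i r) 0 (hGr i r (hSvI r hr)) (by
          rw [Nat.cast_zero]
          positivity) (hGpos i r (hSvI r hr)).ne').1
        refine le_trans ?_ h4
        refine Nat.cast_le.2 (card_le_card fun c hc => ?_)
        obtain ⟨hc1, hc2⟩ := mem_filter.1 hc
        rw [hAv] at hc1
        obtain ⟨hc3, hc4⟩ := mem_filter.1 hc1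
        exact mem_filter.2 ⟨hc3, hc4, hc2.1⟩
      refine (prod_le_prod (fun i _ => Nat.cast_nonneg _) h3).trans ?_
      rw [prod_const, card_univ, Fintype.card_fin]
    · have h3 : ∀ i ∈ (univ : Finset (Fin k)),
          (((Av i).filter fun c => (G i r + c).Prime ∧ (G i r' + c).Prime).card : ℝ) ≤
            C * (X / prm P) * q ^ 2 := by
        intro i _
        have h4 := (hF (γ i) (G i r) (G i r') (hGr i r (hSvI r hr)) (hGr i r' (hSvI r' hr'))
          (hGne i r (hSvI r hr) r' (hSvI r' hr') hrr)).2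
        refine le_trans ?_ h4
        refine Nat.cast_le.2 (card_le_card fun c hc => ?_)
        obtain ⟨hc1, hc2⟩ := mem_filter.1 hc
        rw [hAv] at hc1
        obtain ⟨hc3, hc4⟩ := mem_filter.1 hc1
        exact mem_filter.2 ⟨hc3, hc4, hc2⟩
      refine (prod_le_prod (fun i _ => Nat.cast_nonneg _) h3).trans ?_
      rw [prod_const, card_univ, Fintype.card_fin]
  -- the sum
  have hsq : ∀ c ∈ Fintype.piFinset Av, (cntk g (zv c) u h : ℝ) ^ 2 ≤
      ∑ r ∈ Sv, ∑ r' ∈ Sv, if I c r ∧ I c r' then (1 : ℝ) else 0 := by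
    intro c hc
    have h1 : (cntk g (zv c) u h : ℝ) ≤ ∑ r ∈ Sv, if I c r then (1 : ℝ) else 0 := by
      have h2 := hcnt c hc
      rw [card_filter] at h2
      exact_mod_cast h2
    have h2 : (cntk g (zv c) u h : ℝ) ^ 2 ≤ (∑ r ∈ Sv, if I c r then (1 : ℝ) else 0) ^ 2 :=
      pow_le_pow_left₀ (Nat.cast_nonneg _) h1 2
    refine h2.trans (le_of_eq ?_)
    rw [sq, sum_mul_sum]
    refine sum_congr rfl fun r _ => sum_congr rfl fun r' _ => ?_
    by_cases h3 : I c r <;> by_cases h4 : I c r' <;> simp [h3, h4]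
  have hAvr : (Fintype.piFinset (fun i : Fin k => (Ioc ⌊X⌋₊ ⌊3 * X⌋₊).filter
      (fun c : ℕ => c ≡ γ i [MOD prm P]))) = Fintype.piFinset Av := by rw [hAv]
  rw [hAvr, hsurv]
  calc ∑ c ∈ Fintype.piFinset Av, (cntk g (zv c) u h : ℝ) ^ 2
      ≤ ∑ c ∈ Fintype.piFinset Av, ∑ r ∈ Sv, ∑ r' ∈ Sv, (if I c r ∧ I c r' then (1 : ℝ) else 0) :=
        sum_le_sum hsq
    _ = ∑ r ∈ Sv, ∑ r' ∈ Sv, (((Fintype.piFinset Av).filter fun c => I c r ∧ I c r').card : ℝ) := by
        rw [sum_comm]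
        refine sum_congr rfl fun r _ => ?_
        rw [sum_comm]
        refine sum_congr rfl fun r' _ => ?_
        rw [card_filter]
        push_cast
        rfl
    _ ≤ ∑ r ∈ Sv, ∑ r' ∈ Sv, ((if r = r' then (C * (X / prm P) * q) ^ k else 0) +
          (C * (X / prm P) * q ^ 2) ^ k) := by
        refine sum_le_sum fun r hr => sum_le_sum fun r' hr' => (hpair r hr r' hr').trans ?_
        have h1 : 0 ≤ (C * (X / prm P) * q ^ 2) ^ k := by positivity
        split_ifs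
        · linarith
        · linarith
    _ = Sv.card * (C * (X / prm P) * q) ^ k + Sv.card * (Sv.card * (C * (X / prm P) * q ^ 2) ^ k) := by
        simp only [sum_add_distrib]
        congr 1
        · have h1 : ∀ r ∈ Sv, ∑ r' ∈ Sv, (if r = r' then (C * (X / prm P) * q) ^ k else 0) =
              (C * (X / prm P) * q) ^ k := by
            intro r hr
            rw [sum_ite_eq, if_pos hr]
          rw [sum_congr rfl h1, sum_const, nsmul_eq_mul]
        · rw [sum_const, sum_const, nsmul_eq_mul, nsmul_eq_mul]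
    _ = C ^ k * (X / prm P) ^ k * ((Sv.card * q ^ k) ^ 2 + Sv.card * q ^ k) := by
        rw [mul_pow, mul_pow, mul_pow, mul_pow]
        ring

end Pool.Agent.N785.MG
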