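import Pool.Agent.N785.MG.Stm2

/-!
# KT: the tail of the singular product for systems, second moment over `c` (helper568)
-/

set_option autoImplicit false

open Finset Polynomial
open Pool.Agent.H378R2 (Phi GoodP GoodS)

namespace Pool.Agent.N785.MG

namespace KT_

theorem nuk_congr {k : ℕ} (g : Fin k → ℤ[X]) (p : ℕ) {c c' : Fin k → ℤ}
    (h : ∀ i, (p : ℤ) ∣ c i - c' i) : nuk g p c = nuk g p c' := by
  classical
  unfold nuk
  refine congrArg Finset.card (Finset.filter_congr fun t _ => ?_)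
  unfold Bad
  refine exists_congr fun i => ?_
  have e : (g i).eval (t : ℤ) + c i = ((g i).eval (t : ℤ) + c' i) + (c i - c' i) := by ring
  rw [e]
  exact dvd_add_left (h i)

/-! ### one prime -/

theorem lemL (x : ℝ) (hx0 : 0 ≤ x) (hx : x ≤ 1 / 2) : |Real.log (1 - x) + x| ≤ 2 * x ^ 2 := by
  have h2 := Real.abs_log_sub_add_sum_range_le (x := x) (by rw [abs_of_nonneg hx0]; linarith) 1
  simp only [Finset.range_one, Finset.sum_singleton] at h2
  norm_num at h2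
  rw [add_comm]
  refine h2.trans ?_
  rw [abs_of_nonneg hx0, div_le_iff₀ (by linarith)]
  nlinarith [sq_nonneg x]

theorem lemA (k : ℕ) (p D n : ℝ) (hD : 1 ≤ D) (hp : 2 * D ≤ p) (hn0 : 0 ≤ n) (hn : n ≤ D) :
    0 < (1 - n / p) / (1 - 1 / p) ^ k ∧
      |Real.log ((1 - n / p) / (1 - 1 / p) ^ k)| ≤ 3 * (D ^ 2 + k) / p ∧
      |Real.log ((1 - n / p) / (1 - 1 / p) ^ k) - (k - n) / p| ≤ 2 * (D ^ 2 + k) / p ^ 2 := by
  have hp2 : 2 ≤ p := by linarith
  have hp0 : 0 < p := by linarith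
  have hx1 : n / p ≤ 1 / 2 := by
    rw [div_le_div_iff₀ hp0 (by norm_num)]
    linarith
  have hx2 : 1 / p ≤ 1 / 2 := by
    rw [div_le_div_iff₀ hp0 (by norm_num)]
    linarith
  have hx10 : 0 ≤ n / p := by positivity
  have hx20 : 0 ≤ 1 / p := by positivity
  have h1 := lemL _ hx10 hx1
  have h2 := lemL _ hx20 hx2
  have hp1 : 0 < 1 - n / p := by linarith
  have hp3 : 0 < 1 - 1 / p := by linarith
  have hk : (0 : ℝ) ≤ k := Nat.cast_nonneg k
  have hlog : Real.log ((1 - n / p) / (1 - 1 / p) ^ k) =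
      Real.log (1 - n / p) - k * Real.log (1 - 1 / p) := by
    rw [Real.log_div hp1.ne' (pow_pos hp3 k).ne', Real.log_pow]
  have h3 : |Real.log ((1 - n / p) / (1 - 1 / p) ^ k) - (k - n) / p| ≤
      2 * (D ^ 2 + k) / p ^ 2 := by
    rw [hlog]
    have e : Real.log (1 - n / p) - k * Real.log (1 - 1 / p) - (k - n) / p =
        (Real.log (1 - n / p) + n / p) - k * (Real.log (1 - 1 / p) + 1 / p) := by ring
    rw [e]
    calc |(Real.log (1 - n / p) + n / p) - k * (Real.log (1 - 1 / p) + 1 / p)| ≤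
        |Real.log (1 - n / p) + n / p| + |k * (Real.log (1 - 1 / p) + 1 / p)| := abs_sub _ _
      _ = |Real.log (1 - n / p) + n / p| + k * |Real.log (1 - 1 / p) + 1 / p| := by
        rw [abs_mul, abs_of_nonneg hk]
      _ ≤ 2 * (n / p) ^ 2 + k * (2 * (1 / p) ^ 2) := by gcongr
      _ ≤ 2 * (D / p) ^ 2 + k * (2 * (1 / p) ^ 2) := by gcongr
      _ = 2 * (D ^ 2 + k) / p ^ 2 := by
        field_simp
  refine ⟨div_pos hp1 (pow_pos hp3 k), ?_, h3⟩
  have h4 : |Real.log ((1 - n / p) / (1 - 1 / p) ^ k)| ≤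
      |Real.log ((1 - n / p) / (1 - 1 / p) ^ k) - (k - n) / p| + |(k - n) / p| := by
    have := abs_add_le (Real.log ((1 - n / p) / (1 - 1 / p) ^ k) - (k - n) / p) ((k - n) / p)
    simpa using this
  have h5 : |(k - n) / p| ≤ (D + k) / p := by
    rw [abs_div, abs_of_pos hp0]
    gcongr
    rw [abs_le]
    constructor <;> linarith
  have h6 : 2 * (D ^ 2 + k) / p ^ 2 ≤ (D ^ 2 + k) / p := by
    rw [div_le_div_iff₀ (by positivity) hp0]
    have : 0 ≤ (D ^ 2 + k) * p := by positivity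
    nlinarith
  calc |Real.log ((1 - n / p) / (1 - 1 / p) ^ k)| ≤ (D ^ 2 + k) / p + (D + k) / p := by linarith
    _ = ((D ^ 2 + k) + (D + k)) / p := by ring
    _ ≤ 3 * (D ^ 2 + k) / p := by
      gcongr
      nlinarith

/-! ### periodic functions on boxes -/

section boxes

variable {k : ℕ}

theorem mem_box {q : ℕ} {n : Fin k → ℕ} : n ∈ box k q ↔ ∀ i, n i < q := by
  unfold box
  rw [Fintype.mem_piFinset]
  simp only [mem_range]

theorem card_box (q : ℕ) : (box k q).card = q ^ k := by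
  unfold box
  rw [Fintype.card_piFinset]
  simp

theorem sum_mul_box (f : (Fin k → ℕ) → ℝ) (p q : ℕ) :
    ∑ t ∈ box k (p * q), f t = ∑ a ∈ box k p, ∑ b ∈ box k q, f (fun i => a i + p * b i) := by
  rw [← sum_product']
  symm
  refine sum_nbij' (fun x => fun i => x.1 i + p * x.2 i)
    (fun n => (fun i => n i % p, fun i => n i / p)) ?_ ?_ ?_ ?_ ?_
  · rintro ⟨a, b⟩ h
    rw [mem_product] at h
    obtain ⟨h1, h2⟩ := h
    rw [mem_box] at h1 h2 ⊢
    intro i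
    simp only
    calc a i + p * b i < p + p * b i := Nat.add_lt_add_right (h1 i) _
      _ = p * (b i + 1) := by ring
      _ ≤ p * q := Nat.mul_le_mul_left _ (h2 i)
  · intro n h
    rw [mem_box] at h
    rw [mem_product, mem_box, mem_box]
    refine ⟨fun i => Nat.mod_lt _ (Nat.pos_of_ne_zero ?_), fun i => Nat.div_lt_of_lt_mul (h i)⟩
    intro h0
    have := h i
    rw [h0, zero_mul] at this
    omega
  · rintro ⟨a, b⟩ h
    rw [mem_product] at h
    obtain ⟨h1, h2⟩ := h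
    rw [mem_box] at h1
    simp only at h1
    have hp : ∀ i, 0 < p := fun i => lt_of_le_of_lt (Nat.zero_le _) (h1 i)
    refine Prod.ext ?_ ?_
    · funext i
      simp only
      rw [Nat.add_mul_mod_self_left, Nat.mod_eq_of_lt (h1 i)]
    · funext i
      simp only
      rw [Nat.add_mul_div_left _ _ (hp i), Nat.div_eq_of_lt (h1 i), zero_add]
  · intro n _
    funext i
    simp only
    exact Nat.mod_add_div _ _
  · intro x _
    rfl

theorem full_sum (F : (Fin k → ℕ) → ℝ) (q M : ℕ) (x : Fin k → ℕ) (hq : 0 < q)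
    (hF : ∀ (n b : Fin k → ℕ), F (fun i => n i + q * b i) = F n) (hM : Nat.Coprime M q) :
    ∑ b ∈ box k q, F (fun i => x i + M * b i) = ∑ s ∈ box k q, F s := by
  have hmod : ∀ n : Fin k → ℕ, F (fun i => n i % q) = F n := by
    intro n
    rw [← hF (fun i => n i % q) (fun i => n i / q)]
    congr 1
    funext i
    exact Nat.mod_add_div _ _
  have hmaps : Set.MapsTo (fun b : Fin k → ℕ => fun i => (x i + M * b i) % q)
      (box k q : Set (Fin k → ℕ)) (box k q) := by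
    intro b _
    rw [mem_coe, mem_box]
    exact fun i => Nat.mod_lt _ hq
  have hinj : Set.InjOn (fun b : Fin k → ℕ => fun i => (x i + M * b i) % q)
      (box k q : Set (Fin k → ℕ)) := by
    intro a ha b hb hab
    rw [mem_coe, mem_box] at ha hb
    funext i
    have h1 : x i + M * a i ≡ x i + M * b i [MOD q] := congrFun hab i
    have h2 : M * a i ≡ M * b i [MOD q] := Nat.ModEq.add_left_cancel' (x i) h1
    have h3 : a i ≡ b i [MOD q] := Nat.ModEq.cancel_left_of_coprime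
      (by rw [Nat.gcd_comm]; exact hM) h2
    have h4 : a i % q = b i % q := h3
    rwa [Nat.mod_eq_of_lt (ha i), Nat.mod_eq_of_lt (hb i)] at h4
  refine sum_nbij (fun b => fun i => (x i + M * b i) % q) ?_ hinj
    (surjOn_of_injOn_of_card_le _ hmaps hinj le_rfl) ?_
  · intro a ha
    exact hmaps ha
  · intro a _
    exact (hmod _).symm

theorem dbl_sum (F1 F2 : (Fin k → ℕ) → ℝ) (p q W : ℕ) (x : Fin k → ℕ) (hq : 0 < q)
    (h1 : ∀ (n b : Fin k → ℕ), F1 (fun i => n i + p * b i) = F1 n)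
    (h2 : ∀ (n b : Fin k → ℕ), F2 (fun i => n i + q * b i) = F2 n)
    (h0 : ∑ s ∈ box k q, F2 s = 0) (hpq : Nat.Coprime p q)
    (hW : Nat.Coprime W q) :
    ∑ t ∈ box k (p * q), F1 (fun i => x i + W * t i) * F2 (fun i => x i + W * t i) = 0 := by
  rw [sum_mul_box]
  refine sum_eq_zero fun a _ => ?_
  have e1 : ∀ b : Fin k → ℕ, F1 (fun i => x i + W * (a i + p * b i)) =
      F1 (fun i => x i + W * a i) := by
    intro b
    rw [← h1 (fun i => x i + W * a i) (fun i => W * b i)]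
    congr 1
    funext i
    ring
  simp_rw [e1, ← mul_sum]
  have e2 : ∑ b ∈ box k q, F2 (fun i => x i + W * (a i + p * b i)) = 0 := by
    rw [← h0, ← full_sum F2 q (W * p) (fun i => x i + W * a i) hq h2 (Nat.Coprime.mul_left hW hpq)]
    refine sum_congr rfl fun b _ => ?_
    congr 1
    funext i
    ring
  rw [e2, mul_zero]

theorem pow_sub_le (a r : ℝ) (ha : 0 ≤ a) (hr : 0 ≤ r) (k : ℕ) :
    (a + r) ^ k - a ^ k ≤ k * r * (a + r) ^ (k - 1) := by
  induction k with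
  | zero => simp
  | succ k ih =>
    rcases Nat.eq_zero_or_pos k with h | h
    · subst h
      simp
    · have e : (a + r) ^ (k + 1) - a ^ (k + 1) =
          (a + r) * ((a + r) ^ k - a ^ k) + r * a ^ k := by ring
      rw [e]
      have h1 : a ^ k ≤ (a + r) ^ k := by gcongr; linarith
      have h2 : (a + r) * (a + r) ^ (k - 1) = (a + r) ^ k := by
        rw [← pow_succ']
        congr 1
        omega
      calc (a + r) * ((a + r) ^ k - a ^ k) + r * a ^ k ≤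
          (a + r) * (k * r * (a + r) ^ (k - 1)) + r * (a + r) ^ k := by gcongr
        _ = k * r * ((a + r) * (a + r) ^ (k - 1)) + r * (a + r) ^ k := by ring
        _ = ((k + 1 : ℕ) : ℝ) * r * (a + r) ^ (k + 1 - 1) := by
          rw [h2, Nat.add_sub_cancel]
          push_cast
          ring

theorem per_sum (F : (Fin k → ℕ) → ℝ) (m : ℕ) (B : ℝ)
    (hF : ∀ (n b : Fin k → ℕ), F (fun i => n i + m * b i) = F n)
    (h0 : ∑ t ∈ box k m, F t = 0) (hB : ∀ t, |F t| ≤ B) (hm : 0 < m) (T : ℕ) :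
    |∑ t ∈ box k T, F t| ≤ B * (k * m * (T : ℝ) ^ (k - 1)) := by
  have hB0 : 0 ≤ B := (abs_nonneg _).trans (hB 0)
  have hsub : box k (m * (T / m)) ⊆ box k T := by
    intro n hn
    rw [mem_box] at hn ⊢
    exact fun i => lt_of_lt_of_le (hn i) (Nat.mul_div_le T m)
  have h1 : ∑ t ∈ box k (m * (T / m)), F t = 0 := by
    rw [sum_mul_box]
    simp_rw [hF]
    rw [sum_comm]
    exact sum_eq_zero fun b _ => h0
  have h2 : ∑ t ∈ box k T, F t = ∑ t ∈ box k T \ box k (m * (T / m)), F t := by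
    rw [← sum_sdiff hsub, h1, add_zero]
  rw [h2]
  have hT : ((m * (T / m) : ℕ) : ℝ) + ((T % m : ℕ) : ℝ) = T := by
    exact_mod_cast Nat.div_add_mod T m
  have hcard : ((box k T \ box k (m * (T / m))).card : ℝ) ≤ k * m * (T : ℝ) ^ (k - 1) := by
    rw [card_sdiff_of_subset hsub, card_box, card_box,
      Nat.cast_sub (Nat.pow_le_pow_left (Nat.mul_div_le T m) k), Nat.cast_pow, Nat.cast_pow]
    have h3 := pow_sub_le ((m * (T / m) : ℕ) : ℝ) ((T % m : ℕ) : ℝ) (Nat.cast_nonneg _)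
      (Nat.cast_nonneg _) k
    rw [hT] at h3
    refine h3.trans ?_
    have h4 : ((T % m : ℕ) : ℝ) ≤ m := by exact_mod_cast (Nat.mod_lt T hm).le
    gcongr
  calc |∑ t ∈ box k T \ box k (m * (T / m)), F t| ≤
      ∑ t ∈ box k T \ box k (m * (T / m)), |F t| := abs_sum_le_sum_abs _ _
    _ ≤ ∑ _t ∈ box k T \ box k (m * (T / m)), B := sum_le_sum fun t _ => hB t
    _ = ((box k T \ box k (m * (T / m))).card : ℝ) * B := by rw [sum_const, nsmul_eq_mul]
    _ ≤ (k * m * (T : ℝ) ^ (k - 1)) * B := by gcongr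
    _ = _ := by ring

/-- the second moment -/
theorem second (P : Finset ℕ) (G : ℕ → (Fin k → ℕ) → ℝ) (B : ℝ) (W : ℕ) (x : Fin k → ℕ) (T : ℕ)
    (hP : ∀ p ∈ P, p.Prime) (hW : ∀ p ∈ P, Nat.Coprime W p)
    (hG : ∀ p ∈ P, ∀ (n b : Fin k → ℕ), G p (fun i => n i + p * b i) = G p n)
    (h0 : ∀ p ∈ P, ∑ s ∈ box k p, G p s = 0) (hB : ∀ p ∈ P, ∀ t, |G p t| ≤ B) (hB0 : 0 ≤ B) :
    ∑ t ∈ box k T, (∑ p ∈ P, G p (fun i => x i + W * t i) / p) ^ 2 ≤
      B ^ 2 * (k * (T : ℝ) ^ (k - 1)) * (P.card : ℝ) ^ 2 +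
        (T : ℝ) ^ k * B ^ 2 * ∑ p ∈ P, ((p : ℝ) ^ 2)⁻¹ := by
  have e1 : ∑ t ∈ box k T, (∑ p ∈ P, G p (fun i => x i + W * t i) / p) ^ 2 =
      ∑ p ∈ P, ∑ q ∈ P, ∑ t ∈ box k T,
        G p (fun i => x i + W * t i) / p * (G q (fun i => x i + W * t i) / q) := by
    have e : ∀ t : Fin k → ℕ, (∑ p ∈ P, G p (fun i => x i + W * t i) / p) ^ 2 =
        ∑ p ∈ P, ∑ q ∈ P, G p (fun i => x i + W * t i) / p * (G q (fun i => x i + W * t i) / q) := by
      intro t
      rw [sq, sum_mul_sum]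
    simp_rw [e]
    rw [sum_comm]
    exact sum_congr rfl fun p _ => sum_comm
  rw [e1]
  have key : ∀ p ∈ P, ∀ q ∈ P, ∑ t ∈ box k T,
      G p (fun i => x i + W * t i) / p * (G q (fun i => x i + W * t i) / q) ≤
      B ^ 2 * (k * (T : ℝ) ^ (k - 1)) +
        if p = q then (T : ℝ) ^ k * B ^ 2 * ((p : ℝ) ^ 2)⁻¹ else 0 := by
    intro p hp q hq
    have hp0 : (0 : ℝ) < p := by exact_mod_cast (hP p hp).pos
    have hq0 : (0 : ℝ) < q := by exact_mod_cast (hP q hq).pos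
    by_cases hpq : p = q
    · subst hpq
      rw [if_pos rfl]
      have h1 : ∀ t ∈ box k T,
          G p (fun i => x i + W * t i) / p * (G p (fun i => x i + W * t i) / p) ≤
          B ^ 2 * ((p : ℝ) ^ 2)⁻¹ := by
        intro t _
        have h2 := hB p hp (fun i => x i + W * t i)
        have h3 : G p (fun i => x i + W * t i) ^ 2 ≤ B ^ 2 := by
          rw [← sq_abs]
          gcongr
        calc G p (fun i => x i + W * t i) / p * (G p (fun i => x i + W * t i) / p) =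
            G p (fun i => x i + W * t i) ^ 2 * ((p : ℝ) ^ 2)⁻¹ := by
              field_simp
          _ ≤ _ := by gcongr
      calc ∑ t ∈ box k T, G p (fun i => x i + W * t i) / p * (G p (fun i => x i + W * t i) / p) ≤
          ∑ _t ∈ box k T, B ^ 2 * ((p : ℝ) ^ 2)⁻¹ := sum_le_sum h1
        _ = (T : ℝ) ^ k * B ^ 2 * ((p : ℝ) ^ 2)⁻¹ := by
          rw [sum_const, card_box, nsmul_eq_mul, Nat.cast_pow, mul_assoc]
        _ ≤ _ := by
          have : 0 ≤ B ^ 2 * (k * (T : ℝ) ^ (k - 1)) := by positivity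
          linarith
    · rw [if_neg hpq, add_zero]
      have hc : Nat.Coprime p q := (Nat.coprime_primes (hP p hp) (hP q hq)).2 hpq
      have h1 := per_sum (fun t => G p (fun i => x i + W * t i) * G q (fun i => x i + W * t i))
        (p * q) (B ^ 2)
        (by
          intro n b
          have e2 : G p (fun i => x i + W * (n i + p * q * b i)) =
              G p (fun i => x i + W * n i) := by
            rw [← hG p hp (fun i => x i + W * n i) (fun i => W * q * b i)]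
            congr 1
            funext i
            ring
          have e3 : G q (fun i => x i + W * (n i + p * q * b i)) =
              G q (fun i => x i + W * n i) := by
            rw [← hG q hq (fun i => x i + W * n i) (fun i => W * p * b i)]
            congr 1
            funext i
            ring
          simp only [e2, e3])
        (dbl_sum (G p) (G q) p q W x (hP q hq).pos (hG p hp) (hG q hq) (h0 q hq) hc (hW q hq))
        (by
          intro t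
          rw [abs_mul, sq]
          exact mul_le_mul (hB p hp _) (hB q hq _) (abs_nonneg _) hB0)
        (Nat.mul_pos (hP p hp).pos (hP q hq).pos) T
      have h2 : ∑ t ∈ box k T, G p (fun i => x i + W * t i) / p * (G q (fun i => x i + W * t i) / q) =
          (∑ t ∈ box k T, G p (fun i => x i + W * t i) * G q (fun i => x i + W * t i)) / (p * q) := by
        rw [sum_div]
        refine sum_congr rfl fun t _ => ?_
        rw [div_mul_div_comm]
      rw [h2, div_le_iff₀ (by positivity)]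
      refine (le_abs_self _).trans (h1.trans (le_of_eq ?_))
      push_cast
      ring
  calc ∑ p ∈ P, ∑ q ∈ P, ∑ t ∈ box k T,
        G p (fun i => x i + W * t i) / p * (G q (fun i => x i + W * t i) / q) ≤
      ∑ p ∈ P, ∑ q ∈ P, (B ^ 2 * (k * (T : ℝ) ^ (k - 1)) +
        if p = q then (T : ℝ) ^ k * B ^ 2 * ((p : ℝ) ^ 2)⁻¹ else 0) :=
        sum_le_sum fun p hp => sum_le_sum fun q hq => key p hp q hq
    _ = _ := by
      simp only [sum_add_distrib, sum_const, nsmul_eq_mul, sum_ite_eq]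
      rw [mul_sum]
      congr 1
      · ring
      · exact sum_congr rfl fun p hp => by rw [if_pos hp]

end boxes

/-- the local factor -/
noncomputable def ff {k : ℕ} (g : Fin k → ℤ[X]) (p : ℕ) (c : Fin k → ℤ) : ℝ :=
  (1 - (nuk g p c : ℝ) / p) / (1 - 1 / (p : ℝ)) ^ k

/-- the mean number of roots -/
noncomputable def mm {k : ℕ} (g : Fin k → ℤ[X]) (p : ℕ) : ℝ :=
  (∑ γ ∈ box k p, (nuk g p (zv γ) : ℝ)) / (p : ℝ) ^ k

section core

variable {k : ℕ}

theorem nuk_le (g : Fin k → ℤ[X]) (p : ℕ) (c : Fin k → ℤ) : nuk g p c ≤ p := by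
  classical
  unfold nuk
  exact (card_filter_le _ _).trans (by rw [card_range])

theorem ff_nonneg (g : Fin k → ℤ[X]) (p : ℕ) (c : Fin k → ℤ) (hp : p.Prime) : 0 ≤ ff g p c := by
  have h1 : (nuk g p c : ℝ) ≤ p := by exact_mod_cast nuk_le g p c
  have h2 : (2 : ℝ) ≤ p := by exact_mod_cast hp.two_le
  unfold ff
  refine div_nonneg ?_ (pow_nonneg ?_ _)
  · rw [sub_nonneg, div_le_one (by linarith)]
    exact h1
  · rw [sub_nonneg, div_le_one (by linarith)]
    linarith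

theorem bhk_nonneg (g : Fin k → ℤ[X]) (P : Finset ℕ) (c : Fin k → ℤ) (hP : ∀ p ∈ P, p.Prime) :
    0 ≤ bhk g P c :=
  prod_nonneg fun p hp => ff_nonneg g p c (hP p hp)

theorem bhk_congr (g : Fin k → ℤ[X]) (P : Finset ℕ) {c γ : Fin k → ℕ} (h : Cong (prm P) c γ) :
    bhk g P (zv c) = bhk g P (zv γ) := by
  unfold bhk
  refine prod_congr rfl fun p hp => ?_
  have h1 : p ∣ prm P := dvd_prod_of_mem (fun p => p) hp
  have h3 : ∀ i, (p : ℤ) ∣ zv c i - zv γ i := fun i =>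
    Nat.modEq_iff_dvd.1 ((h i).of_dvd h1).symm
  rw [nuk_congr g p h3]

theorem core (hk : 0 < k) (g : Fin k → ℤ[X]) (D : ℕ) (C : ℝ) (hC : 0 ≤ C) (hD : 1 ≤ D) (p0 : ℕ)
    (hp0 : ∀ p : ℕ, p.Prime → p0 ≤ p → (∀ γ : Fin k → ℤ, nuk g p γ ≤ D) ∧ 2 * D ≤ p ∧
      |mm g p - k| ≤ C / p) (E : ℝ) (hE : E = 3 * ((D : ℝ) ^ 2 + k) + C)
    (P : Finset ℕ) (hP : ∀ p ∈ P, p.Prime) (w z N : ℕ) (γ : Fin k → ℕ) (hPw : P ⊆ prs w)
    (hPz : ∀ p ∈ P, p ≤ z) (hz0 : z ≠ 0) (hzw : z ≤ w) (hz1 : p0 ≤ z)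
    (η : ℝ) (hη : 0 < η) (hη1 : η ≤ 1)
    (hR : ∀ p ∈ (prs w \ P).filter (fun p => p ≤ z), p0 ≤ p)
    (hR1 : ∑ p ∈ (prs w \ P).filter (fun p => p ≤ z), E / p ≤ η / 4)
    (hz3 : E / z ≤ η / 8) (Y : ℝ)
    (hfin : E ^ 2 * (k * ((N / prm P + 1 : ℕ) : ℝ) ^ (k - 1)) * (w : ℝ) ^ 2 +
      ((N / prm P + 1 : ℕ) : ℝ) ^ k * E ^ 2 * (1 / z) ≤ (η / 8) ^ 2 * Y) :
    (Nat.card {c : Fin k → ℕ // (∀ i, c i ∈ Icc 1 N) ∧ Cong (prm P) c γ ∧
        ¬ |bhk g (prs w) (zv c) - bhk g P (zv γ)| ≤ η * bhk g P (zv γ)} : ℝ) ≤ Y := by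
  have hDr : (1 : ℝ) ≤ D := by exact_mod_cast hD
  have hkr : (0 : ℝ) ≤ k := Nat.cast_nonneg k
  have hDD : (D : ℝ) ≤ (D : ℝ) ^ 2 := by nlinarith
  have hDE : (D : ℝ) ≤ E := by rw [hE]; linarith
  have hE0 : 0 ≤ E := by linarith
  obtain ⟨W, hWdef⟩ : ∃ W, W = prm P := ⟨_, rfl⟩
  have hW0 : 0 < W := by
    rw [hWdef]
    exact prod_pos fun p hp => (hP p hp).pos
  rw [← hWdef] at hfin ⊢
  obtain ⟨R1, hR1d⟩ : ∃ R1, R1 = (prs w \ P).filter (fun p => p ≤ z) := ⟨_, rfl⟩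
  obtain ⟨R2, hR2d⟩ : ∃ R2, R2 = (prs w \ P).filter (fun p => ¬ p ≤ z) := ⟨_, rfl⟩
  rw [← hR1d] at hR hR1
  have hR2m : ∀ p ∈ R2, p.Prime ∧ z < p ∧ p ≤ w := by
    intro p hp
    rw [hR2d, mem_filter, mem_sdiff] at hp
    obtain ⟨⟨h1, -⟩, h2⟩ := hp
    unfold prs at h1
    rw [mem_filter, mem_Icc] at h1
    exact ⟨h1.2, not_le.1 h2, h1.1.2⟩
  have hR1m : ∀ p ∈ R1, p.Prime := by
    intro p hp
    rw [hR1d, mem_filter, mem_sdiff] at hp
    obtain ⟨⟨h1, -⟩, h2⟩ := hp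
    unfold prs at h1
    rw [mem_filter, mem_Icc] at h1
    exact h1.2
  have hR2p0 : ∀ p ∈ R2, p0 ≤ p := fun p hp => hz1.trans (hR2m p hp).2.1.le
  -- one prime
  have loc : ∀ p : ℕ, p.Prime → p0 ≤ p → ∀ c : Fin k → ℕ, 0 < ff g p (zv c) ∧
      |Real.log (ff g p (zv c))| ≤ E / p ∧
      |Real.log (ff g p (zv c)) - (mm g p - nuk g p (zv c)) / p| ≤ E * ((p : ℝ) ^ 2)⁻¹ := by
    intro p hp1 hp2 c
    obtain ⟨h1, h2, h3⟩ := hp0 p hp1 hp2
    have h4 : (nuk g p (zv c) : ℝ) ≤ D := by exact_mod_cast h1 _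
    have h5 : 2 * (D : ℝ) ≤ p := by exact_mod_cast h2
    have hpp : (0 : ℝ) < p := by exact_mod_cast hp1.pos
    obtain ⟨a1, a2, a3⟩ := lemA k p D (nuk g p (zv c)) hDr h5 (Nat.cast_nonneg _) h4
    refine ⟨a1, a2.trans ?_, ?_⟩
    · gcongr
      linarith
    · have e : Real.log (ff g p (zv c)) - (mm g p - nuk g p (zv c)) / p =
          (Real.log (ff g p (zv c)) - (k - nuk g p (zv c)) / p) - (mm g p - k) / p := by ring
      rw [e]
      refine (abs_sub _ _).trans ?_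
      have h6 : |(mm g p - k) / p| ≤ C * ((p : ℝ) ^ 2)⁻¹ := by
        rw [abs_div, abs_of_pos hpp]
        calc |mm g p - k| / p ≤ (C / p) / p := by gcongr
          _ = C * ((p : ℝ) ^ 2)⁻¹ := by
            field_simp
      have h7 : |Real.log (ff g p (zv c)) - (k - nuk g p (zv c)) / p| ≤
          2 * ((D : ℝ) ^ 2 + k) * ((p : ℝ) ^ 2)⁻¹ := by
        rw [← div_eq_mul_inv]
        exact a3
      have h8 : 0 ≤ ((D : ℝ) ^ 2 + k) * ((p : ℝ) ^ 2)⁻¹ := by positivity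
      rw [hE]
      linarith
  have hmm : ∀ p : ℕ, p.Prime → p0 ≤ p → 0 ≤ mm g p ∧ mm g p ≤ D := by
    intro p hp1 hp2
    have hpp : (0 : ℝ) < (p : ℝ) ^ k := by
      have : (0 : ℝ) < p := by exact_mod_cast hp1.pos
      positivity
    unfold mm
    refine ⟨by positivity, ?_⟩
    rw [div_le_iff₀ hpp]
    calc ∑ γ ∈ box k p, (nuk g p (zv γ) : ℝ) ≤ ∑ _γ ∈ box k p, (D : ℝ) :=
          sum_le_sum fun γ _ => by exact_mod_cast (hp0 p hp1 hp2).1 _
      _ = D * (p : ℝ) ^ k := by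
        rw [sum_const, card_box, nsmul_eq_mul, Nat.cast_pow, mul_comm]
  -- the sum of the squares of the inverses
  have hsq : ∑ p ∈ R2, ((p : ℝ) ^ 2)⁻¹ ≤ 1 / z := by
    calc ∑ p ∈ R2, ((p : ℝ) ^ 2)⁻¹ ≤ ∑ i ∈ Ioc z w, ((i : ℝ) ^ 2)⁻¹ := by
          refine sum_le_sum_of_subset_of_nonneg ?_ fun i _ _ => by positivity
          intro p hp
          rw [mem_Ioc]
          exact (hR2m p hp).2
      _ ≤ (z : ℝ)⁻¹ - (w : ℝ)⁻¹ := sum_Ioc_inv_sq_le_sub hz0 hzw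
      _ ≤ 1 / z := by
        rw [one_div]
        have : (0 : ℝ) ≤ (w : ℝ)⁻¹ := by positivity
        linarith
  obtain ⟨YY, hYY⟩ : ∃ YY : (Fin k → ℕ) → ℝ,
      YY = fun c => ∑ p ∈ R2, (mm g p - nuk g p (zv c)) / p := ⟨_, rfl⟩
  -- good constants
  have good : ∀ c : Fin k → ℕ, Cong W c γ → |YY c| ≤ η / 8 →
      |bhk g (prs w) (zv c) - bhk g P (zv γ)| ≤ η * bhk g P (zv γ) := by
    intro c hc hY
    have e1 : bhk g (prs w) (zv c) = (∏ p ∈ prs w \ P, ff g p (zv c)) * bhk g P (zv γ) := by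
      have hc' : Cong (prm P) c γ := by rw [← hWdef]; exact hc
      rw [← bhk_congr g P hc']
      unfold bhk
      rw [← prod_sdiff hPw]
      rfl
    have hpos : ∀ p ∈ prs w \ P, 0 < ff g p (zv c) ∧ |Real.log (ff g p (zv c))| ≤ E / p ∧
        |Real.log (ff g p (zv c)) - (mm g p - nuk g p (zv c)) / p| ≤ E * ((p : ℝ) ^ 2)⁻¹ := by
      intro p hp
      by_cases hpz : p ≤ z
      · have hp1 : p ∈ R1 := by rw [hR1d, mem_filter]; exact ⟨hp, hpz⟩
        exact loc p (hR1m p hp1) (hR p hp1) c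
      · have hp1 : p ∈ R2 := by rw [hR2d, mem_filter]; exact ⟨hp, hpz⟩
        exact loc p (hR2m p hp1).1 (hR2p0 p hp1) c
    have hprodpos : 0 < ∏ p ∈ prs w \ P, ff g p (zv c) := prod_pos fun p hp => (hpos p hp).1
    have hlog : Real.log (∏ p ∈ prs w \ P, ff g p (zv c)) =
        ∑ p ∈ R1, Real.log (ff g p (zv c)) + ∑ p ∈ R2, Real.log (ff g p (zv c)) := by
      rw [Real.log_prod (fun p hp => (hpos p hp).1.ne'), hR1d, hR2d,
        sum_filter_add_sum_filter_not]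
    have hb1 : |∑ p ∈ R1, Real.log (ff g p (zv c))| ≤ η / 4 := by
      refine (abs_sum_le_sum_abs _ _).trans (le_trans (sum_le_sum fun p hp => ?_) hR1)
      refine (hpos p ?_).2.1
      rw [hR1d, mem_filter] at hp
      exact hp.1
    have hb2 : |∑ p ∈ R2, Real.log (ff g p (zv c)) - YY c| ≤ η / 8 := by
      rw [hYY, ← sum_sub_distrib]
      refine (abs_sum_le_sum_abs _ _).trans ?_
      calc ∑ p ∈ R2, |Real.log (ff g p (zv c)) - (mm g p - nuk g p (zv c)) / p| ≤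
          ∑ p ∈ R2, E * ((p : ℝ) ^ 2)⁻¹ := by
            refine sum_le_sum fun p hp => ?_
            have hp' : p ∈ prs w \ P := by
              rw [hR2d, mem_filter] at hp
              exact hp.1
            exact (hpos p hp').2.2
        _ = E * ∑ p ∈ R2, ((p : ℝ) ^ 2)⁻¹ := by rw [mul_sum]
        _ ≤ E * (1 / z) := by gcongr
        _ = E / z := by ring
        _ ≤ η / 8 := hz3
    have hL : |Real.log (∏ p ∈ prs w \ P, ff g p (zv c))| ≤ η / 2 := by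
      rw [hlog]
      have e2 : ∑ p ∈ R1, Real.log (ff g p (zv c)) + ∑ p ∈ R2, Real.log (ff g p (zv c)) =
          ∑ p ∈ R1, Real.log (ff g p (zv c)) +
            (∑ p ∈ R2, Real.log (ff g p (zv c)) - YY c) + YY c := by
        ring
      rw [e2]
      have h3 := abs_add_le (∑ p ∈ R1, Real.log (ff g p (zv c)) +
        (∑ p ∈ R2, Real.log (ff g p (zv c)) - YY c)) (YY c)
      have h4 := abs_add_le (∑ p ∈ R1, Real.log (ff g p (zv c)))
        (∑ p ∈ R2, Real.log (ff g p (zv c)) - YY c)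
      linarith
    have hEE : |(∏ p ∈ prs w \ P, ff g p (zv c)) - 1| ≤ η := by
      have h5 := Real.abs_exp_sub_one_le (x := Real.log (∏ p ∈ prs w \ P, ff g p (zv c)))
        (by linarith)
      rw [Real.exp_log hprodpos] at h5
      linarith
    rw [e1]
    have hb0 := bhk_nonneg g P (zv γ) hP
    have e3 : (∏ p ∈ prs w \ P, ff g p (zv c)) * bhk g P (zv γ) - bhk g P (zv γ) =
        ((∏ p ∈ prs w \ P, ff g p (zv c)) - 1) * bhk g P (zv γ) := by ring
    rw [e3, abs_mul, abs_of_nonneg hb0]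
    gcongr
  -- the second moment
  obtain ⟨T, hT⟩ : ∃ T, T = N / W + 1 := ⟨_, rfl⟩
  rw [← hT] at hfin
  have hsec := second R2 (fun p (c : Fin k → ℕ) => mm g p - (nuk g p (zv c) : ℝ)) E W
    (fun i => γ i % W) T
    (fun p hp => (hR2m p hp).1)
    (by
      intro p hp
      rw [hWdef]
      unfold prm
      refine Nat.Coprime.prod_left fun q hq => ?_
      rw [Nat.coprime_primes (hP q hq) (hR2m p hp).1]
      have h1 := hPz q hq
      have h2 := (hR2m p hp).2.1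
      omega)
    (by
      intro p hp n b
      rw [nuk_congr g p (c := zv (fun i => n i + p * b i)) (c' := zv n)]
      intro i
      unfold zv
      push_cast
      simp)
    (by
      intro p hp
      have hpp : (0 : ℝ) < (p : ℝ) ^ k := by
        have : (0 : ℝ) < p := by exact_mod_cast (hR2m p hp).1.pos
        positivity
      rw [sum_sub_distrib, sum_const, card_box, nsmul_eq_mul, sub_eq_zero, Nat.cast_pow]
      unfold mm
      rw [mul_div_cancel₀ _ hpp.ne'])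
    (by
      intro p hp t
      have h1 : (nuk g p (zv t) : ℝ) ≤ D := by
        exact_mod_cast (hp0 p (hR2m p hp).1 (hR2p0 p hp)).1 _
      have h2 : (0 : ℝ) ≤ nuk g p (zv t) := Nat.cast_nonneg _
      obtain ⟨h3, h4⟩ := hmm p (hR2m p hp).1 (hR2p0 p hp)
      rw [abs_le]
      constructor <;> linarith)
    hE0
  have hcard : (R2.card : ℝ) ≤ w := by
    have h1 : R2 ⊆ Icc 1 w := by
      intro p hp
      rw [mem_Icc]
      exact ⟨(hR2m p hp).1.one_le, (hR2m p hp).2.2⟩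
    have h2 := card_le_card h1
    rw [Nat.card_Icc] at h2
    exact_mod_cast (by omega : R2.card ≤ w)
  have hsum : ∑ t ∈ box k T, (YY (fun i => γ i % W + W * t i)) ^ 2 ≤ (η / 8) ^ 2 * Y := by
    refine le_trans ?_ hfin
    rw [hYY]
    refine hsec.trans ?_
    have h1 : (R2.card : ℝ) ^ 2 ≤ (w : ℝ) ^ 2 := by gcongr
    gcongr
  -- counting
  obtain ⟨Bd, hBd⟩ : ∃ Bd, Bd = (box k T).filter
      (fun t => η / 8 < |YY (fun i => γ i % W + W * t i)|) := ⟨_, rfl⟩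
  have hcount : (Bd.card : ℝ) * (η / 8) ^ 2 ≤ (η / 8) ^ 2 * Y := by
    refine le_trans ?_ hsum
    calc (Bd.card : ℝ) * (η / 8) ^ 2 = ∑ _t ∈ Bd, (η / 8) ^ 2 := by
          rw [sum_const, nsmul_eq_mul]
      _ ≤ ∑ t ∈ Bd, (YY (fun i => γ i % W + W * t i)) ^ 2 := by
        refine sum_le_sum fun t ht => ?_
        rw [hBd, mem_filter] at ht
        rw [← sq_abs (YY (fun i => γ i % W + W * t i))]
        have := ht.2.le
        gcongr
      _ ≤ _ := by
        refine sum_le_sum_of_subset_of_nonneg ?_ fun i _ _ => sq_nonneg _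
        rw [hBd]
        exact filter_subset _ _
  have hcount2 : (Bd.card : ℝ) ≤ Y := by
    have h1 : 0 < (η / 8) ^ 2 := by positivity
    rw [mul_comm] at hcount
    exact le_of_mul_le_mul_left hcount h1
  refine le_trans ?_ hcount2
  norm_cast
  have hsub : {c : Fin k → ℕ | (∀ i, c i ∈ Icc 1 N) ∧ Cong W c γ ∧
      ¬ |bhk g (prs w) (zv c) - bhk g P (zv γ)| ≤ η * bhk g P (zv γ)} ⊆
      ((Bd.image (fun t => fun i => γ i % W + W * t i) : Finset (Fin k → ℕ)) :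
        Set (Fin k → ℕ)) := by
    rintro c ⟨h1, h2, h3⟩
    rw [coe_image]
    have h4 : ∀ i, c i % W = γ i % W := h2
    have h5 : (fun i => γ i % W + W * (c i / W)) = c := by
      funext i
      rw [← h4]
      exact Nat.mod_add_div (c i) W
    refine ⟨fun i => c i / W, ?_, h5⟩
    rw [hBd, coe_filter]
    refine ⟨?_, ?_⟩
    · rw [mem_box, hT]
      intro i
      have h6 := h1 i
      rw [mem_Icc] at h6
      exact Nat.lt_succ_of_le (Nat.div_le_div_right h6.2)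
    · rw [h5]
      by_contra h6
      exact h3 (good c h2 (not_lt.1 h6))
  calc Nat.card {c : Fin k → ℕ // (∀ i, c i ∈ Icc 1 N) ∧ Cong W c γ ∧
      ¬ |bhk g (prs w) (zv c) - bhk g P (zv γ)| ≤ η * bhk g P (zv γ)} =
      Set.ncard {c : Fin k → ℕ | (∀ i, c i ∈ Icc 1 N) ∧ Cong W c γ ∧
      ¬ |bhk g (prs w) (zv c) - bhk g P (zv γ)| ≤ η * bhk g P (zv γ)} := rfl
    _ ≤ Set.ncard ((Bd.image (fun t => fun i => γ i % W + W * t i) : Finset (Fin k → ℕ)) :
        Set (Fin k → ℕ)) :=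
        Set.ncard_le_ncard hsub (finite_toSet _)
    _ = (Bd.image (fun t => fun i => γ i % W + W * t i)).card := Set.ncard_coe_finset _
    _ ≤ Bd.card := card_image_le

end core

/-- the choice of the constants, for real `X` large -/
theorem evt (M K L ε XW : ℝ) (hε : 0 < ε) : ∃ X0 : ℝ, ∀ X : ℝ, X0 ≤ X →
    XW ≤ X ∧ 1 ≤ X ∧ 64 ≤ Real.log X ∧ K ≤ (Real.log X) ^ ε ∧ M ≤ Real.log (Real.log X) ∧
      L ≤ X ^ (1 / 4 : ℝ) := by
  have h1 : ∀ᶠ X : ℝ in Filter.atTop, 64 ≤ Real.log X :=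
    Real.tendsto_log_atTop.eventually_ge_atTop 64
  have h2 : ∀ᶠ X : ℝ in Filter.atTop, K ≤ (Real.log X) ^ ε :=
    ((tendsto_rpow_atTop hε).comp Real.tendsto_log_atTop).eventually_ge_atTop K
  have h3 : ∀ᶠ X : ℝ in Filter.atTop, M ≤ Real.log (Real.log X) :=
    (Real.tendsto_log_atTop.comp Real.tendsto_log_atTop).eventually_ge_atTop M
  have h4 : ∀ᶠ X : ℝ in Filter.atTop, L ≤ X ^ (1 / 4 : ℝ) :=
    (tendsto_rpow_atTop (by norm_num)).eventually_ge_atTop L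
  have h5 : ∀ᶠ X : ℝ in Filter.atTop, XW ≤ X := Filter.eventually_ge_atTop XW
  have h6 : ∀ᶠ X : ℝ in Filter.atTop, 1 ≤ X := Filter.eventually_ge_atTop 1
  obtain ⟨X0, hX0⟩ := Filter.eventually_atTop.1
    (h1.and (h2.and (h3.and (h4.and (h5.and h6)))))
  refine ⟨X0, fun X hX => ?_⟩
  obtain ⟨a, b, c, e, f, k⟩ := hX0 X hX
  exact ⟨f, k, a, b, c, e⟩

theorem pow_le (X ε : ℝ) (hX : 64 ≤ Real.log X) (hε2 : ε ≤ 1 / 2) :
    8 * (Real.log X) ^ ε ≤ Real.log X := by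
  have h1 : (Real.log X) ^ ε ≤ (Real.log X) ^ (1 / 2 : ℝ) :=
    Real.rpow_le_rpow_of_exponent_le (by linarith) hε2
  rw [← Real.sqrt_eq_rpow] at h1
  have h2 : 8 ≤ Real.sqrt (Real.log X) := by
    rw [show (8 : ℝ) = Real.sqrt (8 ^ 2) by rw [Real.sqrt_sq (by norm_num)]]
    exact Real.sqrt_le_sqrt (by norm_num; exact hX)
  have h3 : Real.sqrt (Real.log X) * Real.sqrt (Real.log X) = Real.log X :=
    Real.mul_self_sqrt (by linarith)
  have h4 : 0 ≤ Real.sqrt (Real.log X) := Real.sqrt_nonneg _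
  nlinarith

/-- the final inequality -/
theorem fin_ineq (k : ℕ) (hk : 0 < k) (E η X W z : ℝ) (T : ℝ) (w : ℝ) (hE : 1 ≤ E) (hη : 0 < η)
    (hX : 1 ≤ X) (hW1 : 1 ≤ W) (hWX : W ≤ X ^ (1 / 4 : ℝ)) (hw : w ≤ X ^ (1 / 4 : ℝ))
    (hw0 : 0 ≤ w) (hT0 : 0 ≤ T) (hT : T ≤ 4 * (X / W)) (hz : 128 * 4 ^ k * E ^ 2 / η ^ 3 ≤ z)
    (hL : 128 * k * 4 ^ k * E ^ 2 / η ^ 3 ≤ X ^ (1 / 4 : ℝ)) :
    E ^ 2 * (k * T ^ (k - 1)) * w ^ 2 + T ^ k * E ^ 2 * (1 / z) ≤
      (η / 8) ^ 2 * (η * (X / W) ^ k) := by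
  have hX0 : 0 < X := by linarith
  have hz0 : 0 < z := lt_of_lt_of_le (by positivity) hz
  have hk0 : (0 : ℝ) ≤ k := Nat.cast_nonneg k
  obtain ⟨r, hr⟩ : ∃ r, r = X ^ (1 / 4 : ℝ) := ⟨_, rfl⟩
  have hr4 : r ^ 4 = X := by
    rw [hr, ← Real.rpow_natCast, ← Real.rpow_mul hX0.le]
    norm_num
  rw [← hr] at hWX hw hL
  have hr1 : 1 ≤ r := by rw [hr]; exact Real.one_le_rpow hX (by norm_num)
  obtain ⟨V, hV⟩ : ∃ V, V = X / W := ⟨_, rfl⟩
  have hXW : r ^ 3 ≤ V := by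
    rw [hV, le_div_iff₀ (by linarith), ← hr4]
    calc r ^ 3 * W ≤ r ^ 3 * r := by gcongr
      _ = r ^ 4 := by ring
  rw [← hV] at hT ⊢
  have hV0 : 0 < V := lt_of_lt_of_le (by positivity) hXW
  have hVk : V ^ (k - 1) * V = V ^ k := by
    rw [← pow_succ]
    congr 1
    omega
  have h1 : E ^ 2 * (k * T ^ (k - 1)) * w ^ 2 ≤ η ^ 3 / 128 * V ^ k := by
    rw [div_le_iff₀ (by positivity)] at hL
    have h4k : (4 : ℝ) ^ (k - 1) ≤ 4 ^ k := pow_le_pow_right₀ (by norm_num) (Nat.sub_le _ _)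
    calc E ^ 2 * (k * T ^ (k - 1)) * w ^ 2 ≤ E ^ 2 * (k * (4 * V) ^ (k - 1)) * r ^ 2 := by gcongr
      _ = (E ^ 2 * k * 4 ^ (k - 1)) * (V ^ (k - 1) * r ^ 2) := by
        rw [mul_pow]
        ring
      _ ≤ (E ^ 2 * k * 4 ^ k) * (V ^ (k - 1) * r ^ 2) := by gcongr
      _ ≤ (η ^ 3 / 128 * r) * (V ^ (k - 1) * r ^ 2) := by
        have h5 : E ^ 2 * k * 4 ^ k ≤ η ^ 3 / 128 * r := by linarith
        exact mul_le_mul_of_nonneg_right h5 (by positivity)
      _ = η ^ 3 / 128 * (V ^ (k - 1) * r ^ 3) := by ring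
      _ ≤ η ^ 3 / 128 * (V ^ (k - 1) * V) := by gcongr
      _ = η ^ 3 / 128 * V ^ k := by rw [hVk]
  have h2 : T ^ k * E ^ 2 * (1 / z) ≤ η ^ 3 / 128 * V ^ k := by
    rw [div_le_iff₀ (by positivity)] at hz
    calc T ^ k * E ^ 2 * (1 / z) ≤ (4 * V) ^ k * E ^ 2 * (1 / z) := by gcongr
      _ = V ^ k * (4 ^ k * E ^ 2 / z) := by
        rw [mul_pow]
        ring
      _ ≤ V ^ k * (η ^ 3 / 128) := by
        have h3 : 4 ^ k * E ^ 2 / z ≤ η ^ 3 / 128 := by
          rw [div_le_iff₀ hz0]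
          linarith
        exact mul_le_mul_of_nonneg_left h3 (by positivity)
      _ = _ := by ring
  calc E ^ 2 * (k * T ^ (k - 1)) * w ^ 2 + T ^ k * E ^ 2 * (1 / z) ≤
        η ^ 3 / 128 * V ^ k + η ^ 3 / 128 * V ^ k := add_le_add h1 h2
    _ = (η / 8) ^ 2 * (η * V ^ k) := by ring

/-- the theorem for `η ≤ 1` -/
theorem small (h : S_K2) (hW : S_WM) (k : ℕ) (g : Fin k → ℤ[X]) (ε η : ℝ) (hg : Sys g)
    (hε : 0 < ε) (hε2 : ε ≤ 1 / 2) (hη : 0 < η) (hη1 : η ≤ 1) :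
  ∃ (Z : ℕ) (X0 : ℝ), ∀ X : ℝ, X0 ≤ X → ∀ (ps : ℕ) (S : Finset ℕ), GoodP Z ps → GoodS X S →
    ∀ (γ : Fin k → ℕ) (w : ℕ), Real.log X ≤ w → (w : ℝ) ≤ X ^ (1 / 4 : ℝ) →
      (Nat.card {c : Fin k → ℕ // (∀ i, c i ∈ Icc 1 ⌊3 * X⌋₊) ∧ Cong (prm (PM X ε S ps)) c γ ∧
        ¬ |bhk g (prs w) (zv c) - bhk g (PM X ε S ps) (zv γ)| ≤ η * bhk g (PM X ε S ps) (zv γ)} : ℝ) ≤
        η * (X / prm (PM X ε S ps)) ^ k := by
  have hk : 0 < k := hg.1
  obtain ⟨p0, D, C, hC, hD, hp0⟩ := h k g hg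
  obtain ⟨cW, XW, -, hWM⟩ := hW ε hε hε2
  obtain ⟨E, hE⟩ : ∃ E : ℝ, E = 3 * ((D : ℝ) ^ 2 + k) + C := ⟨_, rfl⟩
  have hDr : (1 : ℝ) ≤ D := by exact_mod_cast hD
  have hkr : (0 : ℝ) ≤ k := Nat.cast_nonneg k
  have hE1 : 1 ≤ E := by
    have : (1 : ℝ) ≤ (D : ℝ) ^ 2 := one_le_pow₀ hDr
    rw [hE]
    linarith
  obtain ⟨Kn, hKn⟩ : ∃ Kn : ℕ, Kn = p0 + ⌈8 * E / η⌉₊ + ⌈128 * 4 ^ k * E ^ 2 / η ^ 3⌉₊ + 1 :=
    ⟨_, rfl⟩
  obtain ⟨M, hM⟩ : ∃ M : ℝ, M = 1 + p0 + 48 * E / η := ⟨_, rfl⟩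
  have hM0 : 0 ≤ 48 * E / η := by positivity
  have hM1 : 1 ≤ M := by
    have : (0 : ℝ) ≤ p0 := Nat.cast_nonneg _
    linarith
  obtain ⟨X0, hX0⟩ := evt M Kn (128 * k * 4 ^ k * E ^ 2 / η ^ 3) ε XW hε
  refine ⟨p0 + ⌈8 * E / η⌉₊, X0, fun X hX ps S hps hS γ w hw1 hw2 => ?_⟩
  obtain ⟨f1, f2, f3, f4, f5, f6⟩ := hX0 X hX
  obtain ⟨hWup, -⟩ := hWM X f1 ps S
  have hX1 : 0 < X := by linarith
  -- the cut-off
  have hzK : Kn ≤ zz X ε := Nat.le_floor f4
  have hzlog : (zz X ε : ℝ) ≤ (Real.log X) ^ ε := Nat.floor_le (Real.rpow_nonneg (by linarith) _)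
  have hz8 := pow_le X ε f3 hε2
  have hzw : (zz X ε : ℝ) ≤ w := by
    have : 0 ≤ (Real.log X) ^ ε := Real.rpow_nonneg (by linarith) _
    linarith
  have hPM : ∀ p ∈ PM X ε S ps, p.Prime ∧ p ≤ zz X ε := by
    intro p hp
    unfold PM at hp
    rw [mem_filter, mem_Icc] at hp
    exact ⟨hp.2.1, hp.1.2⟩
  have hzwn : zz X ε ≤ w := by exact_mod_cast hzw
  have hKr : (Kn : ℝ) ≤ zz X ε := by exact_mod_cast hzK
  have hK2 : 8 * E / η ≤ Kn := by
    rw [hKn]
    push_cast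
    have h1 := Nat.le_ceil (8 * E / η)
    have h2 : (0 : ℝ) ≤ p0 := Nat.cast_nonneg _
    have h4 : (0 : ℝ) ≤ ⌈128 * 4 ^ k * E ^ 2 / η ^ 3⌉₊ := Nat.cast_nonneg _
    linarith
  have hK3 : 128 * 4 ^ k * E ^ 2 / η ^ 3 ≤ Kn := by
    rw [hKn]
    push_cast
    have h1 := Nat.le_ceil (128 * 4 ^ k * E ^ 2 / η ^ 3)
    have h2 : (0 : ℝ) ≤ p0 := Nat.cast_nonneg _
    have h4 : (0 : ℝ) ≤ ⌈8 * E / η⌉₊ := Nat.cast_nonneg _
    linarith
  have hK4 : p0 ≤ Kn := by rw [hKn]; omega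
  have hK5 : 1 ≤ Kn := by rw [hKn]; omega
  have hz0 : (0 : ℝ) < zz X ε := by
    have : 1 ≤ zz X ε := hK5.trans hzK
    exact_mod_cast this
  -- removed primes
  have hSbig : ∀ q ∈ S, p0 ≤ q := by
    intro q hq
    have h1 := (hS.1 q hq).2.1
    have h2 : (Real.log (Real.log X)) ^ 3 < (q : ℝ) := by
      unfold Pool.Agent.H378R2.z2 at h1
      exact lt_of_le_of_lt (Nat.le_ceil _) (by exact_mod_cast h1)
    have h3 : M ≤ (Real.log (Real.log X)) ^ 3 := by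
      calc M = M * 1 := (mul_one M).symm
        _ ≤ M * M ^ 2 := by
          gcongr
          exact one_le_pow₀ hM1
        _ = M ^ 3 := by ring
        _ ≤ (Real.log (Real.log X)) ^ 3 := by gcongr
    have h4 : (p0 : ℝ) ≤ q := by linarith
    exact_mod_cast h4
  have hpsbig : ps.Prime → p0 ≤ ps ∧ E / ps ≤ η / 8 := by
    intro hprime
    rcases hps with h1 | ⟨-, h1⟩
    · rw [h1] at hprime
      exact absurd hprime (by norm_num)
    · have h5 : ((p0 + ⌈8 * E / η⌉₊ : ℕ) : ℝ) ≤ ps := by exact_mod_cast h1.le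
      push_cast at h5
      have h2 : (0 : ℝ) ≤ p0 := Nat.cast_nonneg _
      have h4 := Nat.le_ceil (8 * E / η)
      refine ⟨by omega, ?_⟩
      have h8 : 8 * E / η ≤ ps := by linarith
      have h9 : (0 : ℝ) < ps := by exact_mod_cast hprime.pos
      rw [div_le_iff₀ hη] at h8
      rw [div_le_iff₀ h9]
      linarith
  have hR1mem : ∀ p ∈ (prs w \ PM X ε S ps).filter (fun p => p ≤ zz X ε),
      p.Prime ∧ (p ∈ S ∨ p = ps) := by
    intro p hp
    rw [mem_filter, mem_sdiff] at hp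
    obtain ⟨⟨h1, h2⟩, h3⟩ := hp
    unfold prs at h1
    rw [mem_filter, mem_Icc] at h1
    refine ⟨h1.2, ?_⟩
    by_contra h4
    push Not at h4
    apply h2
    unfold PM
    rw [mem_filter, mem_Icc]
    exact ⟨⟨h1.1.1, h3⟩, h1.2, h4.1, h4.2⟩
  have hW1 : (1 : ℝ) ≤ prm (PM X ε S ps) := by
    have : 0 < prm (PM X ε S ps) := prod_pos fun p hp => (hPM p hp).1.pos
    exact_mod_cast this
  have hWX : (prm (PM X ε S ps) : ℝ) ≤ X ^ (1 / 4 : ℝ) := by
    refine hWup.trans ?_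
    rw [Real.rpow_def_of_pos hX1]
    refine Real.exp_le_exp.2 ?_
    linarith
  have hXle : X ^ (1 / 4 : ℝ) ≤ X := by
    conv_rhs => rw [← Real.rpow_one X]
    exact Real.rpow_le_rpow_of_exponent_le f2 (by norm_num)
  refine core hk g D C hC hD p0 (fun p h1 h2 => ⟨(hp0 p h1 h2).1, (hp0 p h1 h2).2.1,
      (hp0 p h1 h2).2.2.1⟩) E hE _
    (fun p hp => (hPM p hp).1) w (zz X ε) ⌊3 * X⌋₊ γ ?_ (fun p hp => (hPM p hp).2) ?_ hzwn
    (hK4.trans hzK) η hη hη1 ?_ ?_ ?_ _ ?_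
  · intro p hp
    unfold prs
    rw [mem_filter, mem_Icc]
    exact ⟨⟨(hPM p hp).1.one_le, (hPM p hp).2.trans hzwn⟩, (hPM p hp).1⟩
  · have : zz X ε ≠ 0 := by
      intro h0
      rw [h0] at hz0
      simp at hz0
    exact this
  · intro p hp
    obtain ⟨h1, h2 | h2⟩ := hR1mem p hp
    · exact hSbig p h2
    · subst h2
      exact (hpsbig h1).1
  · -- the sum over the removed primes
    have hll : 0 < Real.log (Real.log X) := by linarith
    have hSsum : ∑ q ∈ S, E / (q : ℝ) ≤ η / 8 := by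
      have h1 : ∑ q ∈ S, E / (q : ℝ) = E * ∑ q ∈ S, (1 : ℝ) / q := by
        rw [mul_sum]
        exact sum_congr rfl fun q _ => by ring
      rw [h1]
      have h2 : 48 * E / η ≤ (Real.log (Real.log X)) ^ 2 := by
        calc 48 * E / η ≤ M := by
              have : (0 : ℝ) ≤ p0 := Nat.cast_nonneg _
              linarith
          _ = M * 1 := (mul_one M).symm
          _ ≤ M * M := by gcongr
          _ = M ^ 2 := by ring
          _ ≤ (Real.log (Real.log X)) ^ 2 := by gcongr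
      calc E * ∑ q ∈ S, (1 : ℝ) / q ≤ E * (6 / (Real.log (Real.log X)) ^ 2) := by
            gcongr
            exact hS.2
        _ = 6 * E / (Real.log (Real.log X)) ^ 2 := by ring
        _ ≤ η / 8 := by
          rw [div_le_iff₀ (by positivity)]
          rw [div_le_iff₀ hη] at h2
          linarith
    by_cases hprime : ps.Prime
    · have h1 : (prs w \ PM X ε S ps).filter (fun p => p ≤ zz X ε) ⊆ S ∪ {ps} := by
        intro p hp
        rw [mem_union, mem_singleton]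
        exact (hR1mem p hp).2
      have h3 := (hpsbig hprime).2
      calc ∑ p ∈ (prs w \ PM X ε S ps).filter (fun p => p ≤ zz X ε), E / (p : ℝ) ≤
          ∑ p ∈ S ∪ {ps}, E / (p : ℝ) :=
            sum_le_sum_of_subset_of_nonneg h1 fun i _ _ => by positivity
        _ ≤ ∑ p ∈ S ∪ {ps}, E / (p : ℝ) + ∑ p ∈ S ∩ {ps}, E / (p : ℝ) := by
          have : 0 ≤ ∑ p ∈ S ∩ {ps}, E / (p : ℝ) := sum_nonneg fun i _ => by positivity
          linarith
        _ = ∑ p ∈ S, E / (p : ℝ) + E / ps := by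
          rw [sum_union_inter, sum_singleton]
        _ ≤ η / 4 := by linarith
    · have h1 : (prs w \ PM X ε S ps).filter (fun p => p ≤ zz X ε) ⊆ S := by
        intro p hp
        obtain ⟨h2, h3 | h3⟩ := hR1mem p hp
        · exact h3
        · rw [h3] at h2
          exact absurd h2 hprime
      calc ∑ p ∈ (prs w \ PM X ε S ps).filter (fun p => p ≤ zz X ε), E / (p : ℝ) ≤
          ∑ p ∈ S, E / (p : ℝ) :=
            sum_le_sum_of_subset_of_nonneg h1 fun i _ _ => by positivity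
        _ ≤ η / 4 := by linarith
  · rw [div_le_iff₀ hz0]
    have h1 := hK2.trans hKr
    rw [div_le_iff₀ hη] at h1
    linarith
  · refine fin_ineq k hk E η X _ _ _ _ hE1 hη f2 hW1 hWX hw2 (Nat.cast_nonneg _)
      (Nat.cast_nonneg _) ?_ (hK3.trans hKr) f6
    have h1 : ((⌊3 * X⌋₊ / prm (PM X ε S ps) : ℕ) : ℝ) ≤ (⌊3 * X⌋₊ : ℝ) / prm (PM X ε S ps) :=
      Nat.cast_div_le
    have h2 : (⌊3 * X⌋₊ : ℝ) ≤ 3 * X := Nat.floor_le (by linarith)
    have h3 : (⌊3 * X⌋₊ : ℝ) / prm (PM X ε S ps) ≤ 3 * X / prm (PM X ε S ps) := by gcongr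
    have h4 : 1 ≤ X / prm (PM X ε S ps) := by
      rw [le_div_iff₀ (by linarith)]
      linarith
    push_cast
    have h5 : 3 * X / prm (PM X ε S ps) = 3 * (X / prm (PM X ε S ps)) := by ring
    linarith

end KT_

theorem t_KT (h : S_K2) (hW : S_WM) : S_KT := by
  intro k g ε η hg hε hε2 hη
  obtain ⟨Z, X0, hX0⟩ := KT_.small h hW k g ε (min η 1) hg hε hε2 (lt_min hη one_pos)
    (min_le_right _ _)
  refine ⟨Z, max X0 0, fun X hX ps S hps hS γ w hw1 hw2 => ?_⟩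
  have h1 := hX0 X ((le_max_left _ _).trans hX) ps S hps hS γ w hw1 hw2
  have hX1 : 0 ≤ X := (le_max_right _ _).trans hX
  have hP : ∀ p ∈ PM X ε S ps, p.Prime := by
    intro p hp
    unfold PM at hp
    rw [mem_filter] at hp
    exact hp.2.1
  have hb0 := KT_.bhk_nonneg g (PM X ε S ps) (zv γ) hP
  have hfinite : ({c : Fin k → ℕ | (∀ i, c i ∈ Icc 1 ⌊3 * X⌋₊) ∧ Cong (prm (PM X ε S ps)) c γ ∧
      ¬ |bhk g (prs w) (zv c) - bhk g (PM X ε S ps) (zv γ)| ≤
        min η 1 * bhk g (PM X ε S ps) (zv γ)}).Finite := by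
    refine (finite_toSet (Fintype.piFinset fun _ : Fin k => Icc 1 ⌊3 * X⌋₊)).subset
      fun c hc => ?_
    rw [mem_coe, Fintype.mem_piFinset]
    exact hc.1
  have h2 : Nat.card {c : Fin k → ℕ // (∀ i, c i ∈ Icc 1 ⌊3 * X⌋₊) ∧
      Cong (prm (PM X ε S ps)) c γ ∧
      ¬ |bhk g (prs w) (zv c) - bhk g (PM X ε S ps) (zv γ)| ≤ η * bhk g (PM X ε S ps) (zv γ)} ≤
      Nat.card {c : Fin k → ℕ // (∀ i, c i ∈ Icc 1 ⌊3 * X⌋₊) ∧ Cong (prm (PM X ε S ps)) c γ ∧
      ¬ |bhk g (prs w) (zv c) - bhk g (PM X ε S ps) (zv γ)| ≤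
        min η 1 * bhk g (PM X ε S ps) (zv γ)} := by
    refine Set.ncard_le_ncard ?_ hfinite
    rintro c ⟨h3, h4, h5⟩
    refine ⟨h3, h4, fun h6 => h5 (h6.trans ?_)⟩
    gcongr
    exact min_le_left _ _
  have h3 : min η 1 * (X / prm (PM X ε S ps)) ^ k ≤ η * (X / prm (PM X ε S ps)) ^ k := by
    gcongr
    exact min_le_left _ _
  have h4 : (Nat.card {c : Fin k → ℕ // (∀ i, c i ∈ Icc 1 ⌊3 * X⌋₊) ∧
      Cong (prm (PM X ε S ps)) c γ ∧
      ¬ |bhk g (prs w) (zv c) - bhk g (PM X ε S ps) (zv γ)| ≤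
        η * bhk g (PM X ε S ps) (zv γ)} : ℝ) ≤ _ := Nat.cast_le.2 h2
  exact h4.trans (h1.trans h3)

end Pool.Agent.N785.MG
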