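import Pool.Agent.N785.MG.CR
import Pool.Agent.N785.MG.Stm2

set_option autoImplicit false

/-!
Project MG, systems: from windows of length `H` to all shorter lengths (port of CW, helper539).
-/

open Finset Polynomial

namespace Pool.Agent.N785.MG

namespace KW_

open Classical in
/-- indicator function of the survivors -/
noncomputable def ind {k : ℕ} (g : Fin k → ℤ[X]) (P : Finset ℕ) (c : Fin k → ℤ) (n : ℕ) : ℕ :=
  if ∀ p ∈ P, ¬ Bad g c p n then 1 else 0

variable {k : ℕ} {g : Fin k → ℤ[X]} {P : Finset ℕ} {c : Fin k → ℤ}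

theorem surv_sum (u h : ℕ) : survk g P c u h = ∑ r ∈ range h, ind g P c (u + (1 + r)) := by
  classical
  unfold survk
  have h1 : Icc 1 h = Ico 1 (h + 1) := by
    ext r
    rw [mem_Icc, mem_Ico]
    omega
  rw [Finset.card_filter, h1, Finset.sum_Ico_eq_sum_range, Nat.add_sub_cancel]
  refine Finset.sum_congr rfl fun r _ => ?_
  unfold ind
  by_cases k : ∀ p ∈ P, ¬ Bad g c p (u + (1 + r))
  · rw [if_pos k]
  · rw [if_neg k]

theorem surv_add (u a b : ℕ) : survk g P c u (a + b) = survk g P c u a + survk g P c (u + a) b := by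
  rw [surv_sum, surv_sum, surv_sum, Finset.sum_range_add]
  congr 1
  refine Finset.sum_congr rfl fun r _ => ?_
  congr 1
  omega

theorem surv_le (u h : ℕ) : survk g P c u h ≤ h := by
  classical
  unfold survk
  refine (Finset.card_filter_le _ _).trans ?_
  rw [Nat.card_Icc]
  omega

theorem surv_blocks (u h q : ℕ) : survk g P c u (q * h) = ∑ i ∈ range q, survk g P c (u + i * h) h := by
  induction q with
  | zero =>
    have := surv_le (g := g) (P := P) (c := c) u 0
    simp only [Nat.zero_mul, range_zero, sum_empty]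
    omega
  | succ q ih => rw [Nat.succ_mul, surv_add, ih, Finset.sum_range_succ]

theorem bad_per {p : ℕ} (hp : p ∈ P) (u r : ℕ) : Bad g c p (u + prm P + r) ↔ Bad g c p (u + r) := by
  have key : ∀ i, ((p : ℤ) ∣ (g i).eval ((u + prm P + r : ℕ) : ℤ) + c i ↔
      (p : ℤ) ∣ (g i).eval ((u + r : ℕ) : ℤ) + c i) := by
    intro i
    have h1 : (p : ℤ) ∣ (g i).eval ((u + prm P + r : ℕ) : ℤ) - (g i).eval ((u + r : ℕ) : ℤ) := by
      refine dvd_trans ?_ (Polynomial.sub_dvd_eval_sub _ _ (g i))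
      have h2 : ((u + prm P + r : ℕ) : ℤ) - ((u + r : ℕ) : ℤ) = ((prm P : ℕ) : ℤ) := by
        push_cast
        ring
      rw [h2]
      exact_mod_cast CR_.dvd_prm hp
    constructor
    · intro h2
      have h3 := dvd_sub h2 h1
      rwa [show (g i).eval ((u + prm P + r : ℕ) : ℤ) + c i - ((g i).eval ((u + prm P + r : ℕ) : ℤ) -
        (g i).eval ((u + r : ℕ) : ℤ)) = (g i).eval ((u + r : ℕ) : ℤ) + c i by ring] at h3
    · intro h2
      have h3 := dvd_add h2 h1
      rwa [show (g i).eval ((u + r : ℕ) : ℤ) + c i + ((g i).eval ((u + prm P + r : ℕ) : ℤ) -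
        (g i).eval ((u + r : ℕ) : ℤ)) = (g i).eval ((u + prm P + r : ℕ) : ℤ) + c i by ring] at h3
  unfold Bad
  exact exists_congr key

theorem surv_per (u h : ℕ) : survk g P c (u + prm P) h = survk g P c u h := by
  classical
  unfold survk
  congr 1
  refine Finset.filter_congr fun r _ => ?_
  constructor
  · intro h1 p hp h2
    exact h1 p hp ((bad_per hp u r).2 h2)
  · intro h1 p hp h2
    exact h1 p hp ((bad_per hp u r).1 h2)

theorem nuk_le (g : Fin k → ℤ[X]) (p : ℕ) (c : Fin k → ℤ) : nuk g p c ≤ p := by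
  classical
  unfold nuk
  refine (Finset.card_filter_le _ _).trans ?_
  rw [Finset.card_range]

theorem fac_mem (g : Fin k → ℤ[X]) (c : Fin k → ℤ) {p : ℕ} (hp : p.Prime) :
    0 ≤ 1 - (nuk g p c : ℝ) / p ∧ 1 - (nuk g p c : ℝ) / p ≤ 1 := by
  have h1 : (0 : ℝ) < p := by exact_mod_cast hp.pos
  have h2 : (nuk g p c : ℝ) ≤ p := by exact_mod_cast nuk_le g p c
  have h3 : (nuk g p c : ℝ) / p ≤ 1 := (div_le_one h1).2 h2
  have h4 : 0 ≤ (nuk g p c : ℝ) / p := by positivity
  constructor <;> linarith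

theorem dens_mem (hP : ∀ p ∈ P, p.Prime) : 0 ≤ densk g P c ∧ densk g P c ≤ 1 := by
  unfold densk
  exact ⟨Finset.prod_nonneg fun p hp => (fac_mem g c (hP p hp)).1,
    Finset.prod_le_one (fun p hp => (fac_mem g c (hP p hp)).1) fun p hp => (fac_mem g c (hP p hp)).2⟩

theorem dens_bh (hP : ∀ p ∈ P, p.Prime) :
    densk g P c = bhk g P c * (∏ p ∈ P, (1 - 1 / (p : ℝ))) ^ k := by
  unfold densk bhk
  rw [← Finset.prod_pow, ← Finset.prod_mul_distrib]
  refine Finset.prod_congr rfl fun p hp => ?_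
  have h1 : (1 : ℝ) < p := by exact_mod_cast (hP p hp).one_lt
  have h2 : (1 - 1 / (p : ℝ)) ^ k ≠ 0 := by
    have : 1 / (p : ℝ) < 1 := by
      rw [div_lt_one (by linarith)]
      exact h1
    exact pow_ne_zero _ (by linarith)
  rw [div_mul_cancel₀ _ h2]

theorem card_mono {X : Finset (Fin k → ℕ)} {A B : (Fin k → ℕ) → Prop} (h : ∀ n ∈ X, A n → B n) :
    Nat.card {n // n ∈ X ∧ A n} ≤ Nat.card {n // n ∈ X ∧ B n} := by
  classical
  have e : ∀ A : (Fin k → ℕ) → Prop, Nat.card {n // n ∈ X ∧ A n} = (X.filter A).card := by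
    intro A
    refine Nat.subtype_card _ fun n => ?_
    rw [mem_filter]
  rw [e, e]
  refine Finset.card_le_card fun n hn => ?_
  rw [mem_filter] at hn ⊢
  exact ⟨hn.1, h n hn.1 hn.2⟩

/-- the choice of a block -/
theorem block {m H h u : ℕ} {δ' V : ℝ} (hδ : 0 < δ') (hδ1 : δ' ≤ 1 / 2) (hV0 : 0 < V) (hV1 : V ≤ 1) (hh : 1 ≤ h)
    (hhH : (h : ℝ) ≤ δ' / 8 * (V * H))
    (hu : δ' * (V * H) ≤ (-1 : ℝ) ^ m * (survk g P c u H - V * H)) :
    ∃ i : ℕ, i * h ≤ H ∧ δ' / 8 * (V * h) ≤ (-1 : ℝ) ^ m * (survk g P c (u + i * h) h - V * h) := by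
  have hh0 : (1 : ℝ) ≤ h := by exact_mod_cast hh
  have hVH : 0 < V * H := by
    by_contra hcon
    have : δ' / 8 * (V * H) ≤ 0 := mul_nonpos_of_nonneg_of_nonpos (by linarith) (not_lt.1 hcon)
    linarith
  have hH0 : (0 : ℝ) < H := by
    by_contra hcon
    have h1 : (H : ℝ) = 0 := le_antisymm (not_lt.1 hcon) (Nat.cast_nonneg _)
    rw [h1, mul_zero] at hVH
    exact lt_irrefl _ hVH
  have hVH1 : V * H ≤ H := by nlinarith
  have hhH' : (h : ℝ) ≤ H := by nlinarith
  have hhHn : h ≤ H := by exact_mod_cast hhH'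
  obtain ⟨q, hq⟩ : ∃ q, q = H / h := ⟨_, rfl⟩
  have hq1 : 1 ≤ q := by rw [hq]; exact Nat.div_pos hhHn (by omega)
  obtain ⟨s, hs⟩ : ∃ s, s = H - q * h := ⟨_, rfl⟩
  have hqH : q * h ≤ H := by rw [hq]; exact Nat.div_mul_le_self H h
  have hsh : s < h := by
    rw [hs, hq]
    have h1 := Nat.div_add_mod H h
    have h2 := Nat.mod_lt H (show h > 0 by omega)
    have h3 : H / h * h = h * (H / h) := mul_comm _ _
    omega
  have hHs : H = q * h + s := by omega
  have hsum : (survk g P c u H : ℝ) = ∑ i ∈ range q, (survk g P c (u + i * h) h : ℝ) + survk g P c (u + q * h) s := by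
    conv_lhs => rw [hHs]
    rw [surv_add, surv_blocks]
    push_cast
    ring
  have hlast : (survk g P c (u + q * h) s : ℝ) ≤ h := by
    have := surv_le (g := g) (P := P) (c := c) (u + q * h) s
    exact_mod_cast this.trans hsh.le
  have hlast0 : (0 : ℝ) ≤ survk g P c (u + q * h) s := Nat.cast_nonneg _
  have hqr : (q : ℝ) * h ≤ H := by exact_mod_cast hqH
  have hqr2 : (H : ℝ) ≤ q * h + h := by
    have : H ≤ q * h + h := by omega
    exact_mod_cast this
  have hq0 : (0 : ℝ) < q := by exact_mod_cast hq1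
  by_contra hcon
  push Not at hcon
  have hcon' : ∀ i ∈ range q, (-1 : ℝ) ^ m * (survk g P c (u + i * h) h - V * h) < δ' / 8 * (V * h) := by
    intro i hi
    rw [mem_range] at hi
    exact hcon i ((Nat.mul_le_mul_right h hi.le).trans hqH)
  have hne : (range q).Nonempty := ⟨0, mem_range.2 hq1⟩
  rcases Nat.even_or_odd m with hk | hk
  · rw [hk.neg_one_pow, one_mul] at hu
    have h1 : ∑ i ∈ range q, (survk g P c (u + i * h) h : ℝ) < ∑ i ∈ range q, ((1 + δ' / 8) * (V * h)) := by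
      refine Finset.sum_lt_sum_of_nonempty hne fun i hi => ?_
      have := hcon' i hi
      rw [hk.neg_one_pow, one_mul] at this
      linarith
    rw [Finset.sum_const, card_range, nsmul_eq_mul] at h1
    have h2 : (q : ℝ) * ((1 + δ' / 8) * (V * h)) ≤ (1 + δ' / 8) * (V * H) := by
      have : (q : ℝ) * ((1 + δ' / 8) * (V * h)) = (1 + δ' / 8) * (V * (q * h)) := by ring
      rw [this]
      exact mul_le_mul_of_nonneg_left (mul_le_mul_of_nonneg_left hqr hV0.le) (by linarith)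
    nlinarith
  · rw [hk.neg_one_pow] at hu
    have h1 : ∑ i ∈ range q, ((1 - δ' / 8) * (V * h)) < ∑ i ∈ range q, (survk g P c (u + i * h) h : ℝ) := by
      refine Finset.sum_lt_sum_of_nonempty hne fun i hi => ?_
      have := hcon' i hi
      rw [hk.neg_one_pow] at this
      linarith
    rw [Finset.sum_const, card_range, nsmul_eq_mul] at h1
    have h2 : (1 - δ' / 8) * (V * (H - h)) ≤ (q : ℝ) * ((1 - δ' / 8) * (V * h)) := by
      have : (q : ℝ) * ((1 - δ' / 8) * (V * h)) = (1 - δ' / 8) * (V * (q * h)) := by ring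
      rw [this]
      exact mul_le_mul_of_nonneg_left (mul_le_mul_of_nonneg_left (by linarith) hV0.le) (by linarith)
    have h3 : V * h ≤ δ' / 8 * (V * H) := by
      have : V * h ≤ 1 * h := mul_le_mul_of_nonneg_right hV1 (by linarith)
      linarith
    nlinarith

end KW_

theorem t_KW (h : S_KL) : S_KW := by
  intro k g m c0 hg hm hc0
  obtain ⟨δ₀, κ, c1, y0, hδ₀, hκ, hc1, hCL⟩ := h k g m c0 hg hm hc0
  obtain ⟨δ, hδ⟩ : ∃ δ, δ = min δ₀ (1 / 2) := ⟨_, rfl⟩
  have hδp : 0 < δ := by rw [hδ]; exact lt_min hδ₀ (by norm_num)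
  have hδ1 : δ ≤ 1 / 2 := by rw [hδ]; exact min_le_right _ _
  have hδ2 : δ ≤ δ₀ := by rw [hδ]; exact min_le_left _ _
  refine ⟨δ / 8, κ, c1, y0, by linarith, by linarith, hκ, hc1, ?_⟩
  intro P y z R H h hy hR hP hz hHy hs1 hs2 hh hhH
  have hPp : ∀ p ∈ P, p.Prime := fun p hp => (hP p hp).1
  refine (hCL P y z R H hy hR hP hz hHy hs1 hs2).trans ?_
  refine Nat.cast_le.2 (KW_.card_mono fun γ _ hA => ?_)
  obtain ⟨hb, u, hu, hA2⟩ := hA
  refine ⟨hb, ?_⟩
  have hprod : 0 < (∏ p ∈ P, (1 - 1 / (p : ℝ))) ^ k := by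
    refine pow_pos (Finset.prod_pos fun p hp => ?_) k
    have h1 : (1 : ℝ) < p := by exact_mod_cast (hPp p hp).one_lt
    have : 1 / (p : ℝ) < 1 := by
      rw [div_lt_one (by linarith)]
      exact h1
    linarith
  obtain ⟨V, hV⟩ : ∃ V, V = densk g P (zv γ) := ⟨_, rfl⟩
  have hVb : c1 * (∏ p ∈ P, (1 - 1 / (p : ℝ))) ^ k ≤ V := by
    rw [hV, KW_.dens_bh hPp]
    exact mul_le_mul_of_nonneg_right hb hprod.le
  have hV0 : 0 < V := lt_of_lt_of_le (mul_pos hc1 hprod) hVb
  have hV1 : V ≤ 1 := by rw [hV]; exact (KW_.dens_mem hPp).2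
  rw [← hV] at hA2 ⊢
  have hhH' : (h : ℝ) ≤ δ / 8 * (V * H) := by
    refine hhH.trans ?_
    have e : δ / 8 * c1 * H * (∏ p ∈ P, (1 - 1 / (p : ℝ))) ^ k =
        δ / 8 * ((c1 * (∏ p ∈ P, (1 - 1 / (p : ℝ))) ^ k) * H) := by ring
    rw [e]
    exact mul_le_mul_of_nonneg_left (mul_le_mul_of_nonneg_right hVb (Nat.cast_nonneg _)) (by linarith)
  have hA3 : δ * (V * H) ≤ (-1 : ℝ) ^ m * (survk g P (zv γ) u H - V * H) :=
    (mul_le_mul_of_nonneg_right hδ2 (mul_nonneg hV0.le (Nat.cast_nonneg _))).trans hA2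
  obtain ⟨i, hi, hi2⟩ := KW_.block hδp hδ1 hV0 hV1 hh hhH' hA3
  refine ⟨u + i * h + prm P, by omega, by omega, ?_⟩
  rw [KW_.surv_per]
  exact hi2

end Pool.Agent.N785.MG
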