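import Pool.Agent.N785.MG.Stm
import Pool.Agent.H510R2.Maier.MA4

/-!
Project MG (helper785), piece MT: the parameters (helper297).
-/

open Finset Filter Topology

namespace Pool.Agent.N785.MG.MT_

open Pool.Agent.H510R2.Maier Pool.Agent.H378R2 Pool.Agent.N785.MG

/-- the full sum over the primes between `y` and `z` -/
theorem full_sum {y z : ℕ} (h : y ≤ z) :
    ∑ p ∈ ((Icc 1 z).filter Nat.Prime).filter (fun p => y < p), (1 : ℝ) / p = R1 z - R1 y := by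
  unfold R1
  have h1 : ((Icc 1 z).filter Nat.Prime) = ((Icc 1 z).filter Nat.Prime).filter (fun p => y < p) ∪
      (Icc 1 y).filter Nat.Prime := by
    ext p
    simp only [mem_union, mem_filter, mem_Icc]
    constructor
    · rintro ⟨⟨h2, h3⟩, h4⟩
      by_cases h5 : y < p
      · exact Or.inl ⟨⟨⟨h2, h3⟩, h4⟩, h5⟩
      · exact Or.inr ⟨⟨h2, by omega⟩, h4⟩
    · rintro (⟨h2, _⟩ | ⟨⟨h2, h3⟩, h4⟩)
      · exact h2
      · exact ⟨⟨h2, by omega⟩, h4⟩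
  have h2 : Disjoint (((Icc 1 z).filter Nat.Prime).filter (fun p => y < p))
      ((Icc 1 y).filter Nat.Prime) := by
    rw [Finset.disjoint_left]
    intro p hp hp'
    simp only [mem_filter, mem_Icc] at hp hp'
    omega
  have h3 : ∑ p ∈ (Icc 1 z).filter Nat.Prime, (1 : ℝ) / p =
      ∑ p ∈ ((Icc 1 z).filter Nat.Prime).filter (fun p => y < p), (1 : ℝ) / p +
        ∑ p ∈ (Icc 1 y).filter Nat.Prime, (1 : ℝ) / p := by
    conv_lhs => rw [h1]
    rw [sum_union h2]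
  rw [h3]
  ring

theorem sum_bounds {X ε : ℝ} {S : Finset ℕ} {ps y : ℕ} (hy : y ≤ zz X ε) (hy1 : 1 ≤ y) :
    R1 (zz X ε) - R1 y - ∑ q ∈ S, (1 : ℝ) / q - 1 / y ≤
      ∑ p ∈ (PM X ε S ps).filter (fun p => y < p), (1 : ℝ) / p ∧
    ∑ p ∈ (PM X ε S ps).filter (fun p => y < p), (1 : ℝ) / p ≤ R1 (zz X ε) - R1 y := by
  rw [← full_sum hy]
  constructor
  · have h1 : ((Icc 1 (zz X ε)).filter Nat.Prime).filter (fun p => y < p) ⊆
        (PM X ε S ps).filter (fun p => y < p) ∪ (S ∪ ({ps} : Finset ℕ).filter (fun p => y < p)) := by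
      intro p hp
      simp only [mem_filter, mem_Icc] at hp
      simp only [PM, mem_union, mem_filter, mem_Icc, mem_singleton]
      tauto
    have h2 : ∑ p ∈ ((Icc 1 (zz X ε)).filter Nat.Prime).filter (fun p => y < p), (1 : ℝ) / p ≤
        ∑ p ∈ (PM X ε S ps).filter (fun p => y < p), (1 : ℝ) / p +
          (∑ p ∈ S, (1 : ℝ) / p + ∑ p ∈ ({ps} : Finset ℕ).filter (fun p => y < p), (1 : ℝ) / p) := by
      refine (sum_le_sum_of_subset_of_nonneg h1 fun _ _ _ => by positivity).trans ?_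
      have hu : ∀ A B : Finset ℕ, ∑ p ∈ A ∪ B, (1 : ℝ) / p ≤
          ∑ p ∈ A, (1 : ℝ) / p + ∑ p ∈ B, (1 : ℝ) / p := by
        intro A B
        rw [← sum_union_inter]
        have : 0 ≤ ∑ p ∈ A ∩ B, (1 : ℝ) / p := sum_nonneg fun _ _ => by positivity
        linarith
      exact (hu _ _).trans (by linarith [hu S (({ps} : Finset ℕ).filter (fun p => y < p))])
    have h3 : ∑ p ∈ ({ps} : Finset ℕ).filter (fun p => y < p), (1 : ℝ) / p ≤ 1 / y := by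
      rw [filter_singleton]
      split_ifs with h4
      · rw [sum_singleton]
        have : (0 : ℝ) < y := by exact_mod_cast hy1
        gcongr
      · rw [sum_empty]
        positivity
    linarith
  · refine sum_le_sum_of_subset_of_nonneg ?_ fun _ _ _ => by positivity
    intro p hp
    simp only [PM, mem_filter, mem_Icc] at hp ⊢
    tauto

end Pool.Agent.N785.MG.MT_

namespace Pool.Agent.N785.MG

open Pool.Agent.H510R2.Maier Pool.Agent.H378R2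

/-- MT: the parameters -/
theorem t_MT : S_MT := by
  intro k ε hk hε hε2
  have hk0 : (2 : ℝ) ≤ k := by exact_mod_cast hk
  obtain ⟨θ, hθ⟩ : ∃ θ : ℝ, θ = ((k : ℝ) + 1 / 2) / (k + 1) := ⟨_, rfl⟩
  have hθ0 : 0 < θ := by rw [hθ]; positivity
  have hθ1 : θ < 1 := by rw [hθ, div_lt_one (by positivity)]; linarith
  obtain ⟨c1, hc1⟩ : ∃ c1 : ℝ, c1 = Real.log (ε / (ε * θ)) := ⟨_, rfl⟩
  have hq : ε / (ε * θ) = ((k : ℝ) + 1) / (k + 1 / 2) := by
    rw [hθ]; field_simp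
  have hc1p : 0 < c1 := by
    rw [hc1, hq]
    apply Real.log_pos
    rw [one_lt_div (by positivity)]
    linarith
  have hc1u : c1 ≤ 1 / 5 := by
    rw [hc1, hq]
    have h1 := Real.log_le_sub_one_of_pos (show (0:ℝ) < ((k : ℝ) + 1) / (k + 1 / 2) by positivity)
    have h2 : ((k : ℝ) + 1) / (k + 1 / 2) - 1 ≤ 1 / 5 := by
      rw [sub_le_iff_le_add, div_le_iff₀ (by positivity)]
      linarith
    linarith
  refine ⟨c1 / 2, by positivity, fun y0 => ?_⟩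
  -- the facts which hold for large `L = log X`
  have hεθ : 0 < ε * θ := by positivity
  have E1 : ∀ᶠ L : ℝ in atTop, R1 ⌊(1 : ℝ) * L ^ ε⌋₊ - R1 ⌊(1 : ℝ) * L ^ (ε * θ)⌋₊ ∈
      Set.Ioo (3 / 4 * c1) 1 := by
    have h1 := R1_cell 1 1 ε (ε * θ) one_pos one_pos hε hεθ
    rw [← hc1] at h1
    exact h1 (Ioo_mem_nhds (by linarith) (by linarith))
  have E2 : ∀ᶠ L : ℝ in atTop, 2 ≤ L ^ ε := (tendsto_rpow_atTop hε).eventually_ge_atTop 2
  have E3 : ∀ᶠ L : ℝ in atTop, 2 * ((y0 : ℝ) + 8 / c1 + 2) ≤ L ^ (ε * θ) :=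
    (tendsto_rpow_atTop hεθ).eventually_ge_atTop _
  have E4 : ∀ᶠ L : ℝ in atTop, 2 * ((y0 : ℝ) + 2 ^ (k + 1) + 2) ≤ L ^ (ε / 4) :=
    (tendsto_rpow_atTop (by positivity)).eventually_ge_atTop _
  have E5 : ∀ᶠ L : ℝ in atTop, 6 / (Real.log L) ^ 2 ≤ c1 / 8 := by
    have h1 : Tendsto (fun L : ℝ => 6 / (Real.log L) ^ 2) atTop (𝓝 0) := by
      have h2 : Tendsto (fun L : ℝ => (Real.log L) ^ 2) atTop atTop :=
        (tendsto_pow_atTop two_ne_zero).comp Real.tendsto_log_atTop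
      exact h2.const_div_atTop 6
    have h3 := h1.eventually (gt_mem_nhds (show (0:ℝ) < c1 / 8 by positivity))
    exact h3.mono fun L hL => le_of_lt hL
  have E6 : ∀ᶠ L : ℝ in atTop, (1 : ℝ) ≤ L := eventually_ge_atTop 1
  have E := (E1.and (E2.and (E3.and (E4.and (E5.and E6)))))
  have EX := Real.tendsto_log_atTop.eventually E
  obtain ⟨X0, hX0⟩ := eventually_atTop.1 EX
  refine ⟨X0, fun X hX ps S hps hS => ?_⟩
  obtain ⟨e1, e2, e3, e4, e5, e6⟩ := hX0 X hX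
  obtain ⟨L, hL⟩ : ∃ L : ℝ, L = Real.log X := ⟨_, rfl⟩
  rw [← hL] at e1 e2 e3 e4 e5 e6 ⊢
  obtain ⟨z, hz⟩ : ∃ z : ℕ, z = zz X ε := ⟨_, rfl⟩
  have hzL : z = ⌊L ^ ε⌋₊ := by rw [hz, zz, hL]
  obtain ⟨y, hy⟩ : ∃ y : ℕ, y = ⌊L ^ (ε * θ)⌋₊ := ⟨_, rfl⟩
  obtain ⟨R, hR⟩ : ∃ R : ℕ, R = ⌊L ^ (ε / 4)⌋₊ := ⟨_, rfl⟩
  rw [one_mul, one_mul, ← hzL, ← hy] at e1
  have hL0 : (0 : ℝ) < L := by linarith
  have half : ∀ (a : ℝ) (n : ℕ), 2 ≤ a → n = ⌊a⌋₊ → a ≤ 2 * n ∧ (n : ℝ) ≤ a := by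
    intro a n ha hn
    have h1 : a < n + 1 := by rw [hn]; exact Nat.lt_floor_add_one a
    have h2 : (n : ℝ) ≤ a := by rw [hn]; exact Nat.floor_le (by linarith)
    constructor
    · linarith
    · exact h2
  have h8 : 0 < 8 / c1 := by positivity
  have hy00 : (0 : ℝ) ≤ y0 := by positivity
  have hpk : (0 : ℝ) < 2 ^ (k + 1) := by positivity
  obtain ⟨z1, z2'⟩ := half _ _ e2 hzL
  obtain ⟨y1, y2⟩ := half _ _ (by linarith) hy
  obtain ⟨r1, r2⟩ := half _ _ (by linarith) hR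
  have hyr : (y0 : ℝ) + 8 / c1 + 2 ≤ y := by linarith
  have hRr : (y0 : ℝ) + 2 ^ (k + 1) + 2 ≤ R := by linarith
  have hy1 : 1 ≤ y := by
    have : (1 : ℝ) ≤ y := by linarith
    exact_mod_cast this
  have hyz : y ≤ z := by
    rw [hy, hzL]
    apply Nat.floor_le_floor
    exact Real.rpow_le_rpow_of_exponent_le e6 (by nlinarith)
  obtain ⟨b1, b2⟩ := MT_.sum_bounds (S := S) (ps := ps) (hz ▸ hyz : y ≤ zz X ε) hy1
  rw [← hz] at b1 b2 ⊢
  refine ⟨y, R, z ^ k * R, ?_, ?_, le_rfl, ?_, ?_, ?_, ?_, ?_⟩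
  · have : (y0 : ℝ) ≤ y := by linarith
    exact_mod_cast this
  · have : (y0 : ℝ) ≤ R := by linarith
    exact_mod_cast this
  · -- H < y ^ (k+1)
    have p1 : L ^ (ε * ((k : ℝ) + 1 / 2)) ≤ 2 ^ (k + 1) * (y : ℝ) ^ (k + 1) := by
      have h1 : L ^ (ε * ((k : ℝ) + 1 / 2)) = (L ^ (ε * θ)) ^ (k + 1) := by
        rw [← Real.rpow_natCast, ← Real.rpow_mul hL0.le]
        congr 1
        rw [hθ]
        push_cast
        field_simp
      rw [h1, ← mul_pow]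
      gcongr
    have p2 : ((z : ℝ) ^ k * R) ≤ L ^ (ε * k + ε / 4) := by
      have h1 : L ^ (ε * k + ε / 4) = (L ^ ε) ^ k * L ^ (ε / 4) := by
        rw [Real.rpow_add hL0, ← Real.rpow_natCast (L ^ ε), ← Real.rpow_mul hL0.le]
      rw [h1]
      gcongr
    have p3 : L ^ (ε * k + ε / 4) * 2 ^ (k + 1) < L ^ (ε * ((k : ℝ) + 1 / 2)) := by
      have h1 : L ^ (ε * ((k : ℝ) + 1 / 2)) = L ^ (ε * k + ε / 4) * L ^ (ε / 4) := by
        rw [← Real.rpow_add hL0]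
        congr 1
        ring
      rw [h1]
      have h2 : 0 < L ^ (ε * k + ε / 4) := Real.rpow_pos_of_pos hL0 _
      apply mul_lt_mul_of_pos_left _ h2
      linarith
    have p4 : ((z : ℝ) ^ k * R) * 2 ^ (k + 1) < 2 ^ (k + 1) * (y : ℝ) ^ (k + 1) := by
      calc ((z : ℝ) ^ k * R) * 2 ^ (k + 1) ≤ L ^ (ε * k + ε / 4) * 2 ^ (k + 1) := by gcongr
        _ < L ^ (ε * ((k : ℝ) + 1 / 2)) := p3
        _ ≤ _ := p1
    have p5 : (z : ℝ) ^ k * R < (y : ℝ) ^ (k + 1) := by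
      rw [mul_comm] at p4
      exact lt_of_mul_lt_mul_left p4 hpk.le
    exact_mod_cast p5
  · -- lower bound of the sum
    have h1 : (1 : ℝ) / y ≤ c1 / 8 := by
      have h2 : 8 / c1 ≤ y := by linarith
      rw [div_le_iff₀ hc1p] at h2
      rw [div_le_div_iff₀ (by linarith) (by norm_num)]
      linarith
    have h2 := hS.2
    rw [← hL] at h2
    have h3 := e1.1
    linarith
  · have h3 := e1.2
    linarith
  · -- L ^ (k ε) ≤ H
    have h1 : L ^ ((k : ℝ) * ε) = (L ^ ε) ^ k := by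
      rw [← Real.rpow_natCast (L ^ ε), ← Real.rpow_mul hL0.le, mul_comm]
    rw [h1]
    push_cast
    have h2 : (2 : ℝ) ^ k ≤ R := by
      have h3 : (2 : ℝ) ^ (k + 1) = 2 ^ k * 2 := pow_succ 2 k
      have h4 : (0 : ℝ) < 2 ^ k := by positivity
      linarith
    calc (L ^ ε) ^ k ≤ (2 * (z : ℝ)) ^ k := by gcongr
      _ = (z : ℝ) ^ k * 2 ^ k := by rw [mul_pow, mul_comm]
      _ ≤ (z : ℝ) ^ k * R := by gcongr
  · -- H ≤ L ^ ((k+1) ε)
    push_cast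
    calc (z : ℝ) ^ k * R ≤ (L ^ ε) ^ k * L ^ (ε / 4) := by gcongr
      _ ≤ (L ^ ε) ^ k * L ^ ε := by
          gcongr
          linarith
      _ = L ^ (((k : ℝ) + 1) * ε) := by
          rw [← Real.rpow_natCast (L ^ ε), ← Real.rpow_mul hL0.le, ← Real.rpow_add hL0]
          congr 1
          ring

end Pool.Agent.N785.MG
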