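import Pool.Agent.N785.MG.Fin2
import Pool.Agent.N792.SingT

/-!
Project MG: quadratic polynomials `a m² + b m + c` with the full constant of Hardy and Littlewood, from `S_KA` and
the estimate of the tail of the product for almost all `c` (`Pool.Agent.N792.sing_tail`).
-/

open Finset Polynomial Filter Topology
open Pool.Agent.N792 (Admissible eps gcdProd partialC Vc V1 rho fv sing_tail)

namespace Pool.Agent.N785.MG

/-- the number of `u < m ≤ v` for which `a m² + b m + c` is a (positive) prime -/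
def pc (a b c : ℤ) (u v : ℕ) : ℕ :=
  ((Ioc u v).filter (fun m : ℕ => (a * (m : ℤ) ^ 2 + b * m + c).toNat.Prime)).card

/-- the system of one quadratic polynomial -/
noncomputable def qp (a b : ℤ) : Fin 1 → ℤ[X] := fun _ => C a * X ^ 2 + C b * X

lemma qp_eval (a b t : ℤ) (i : Fin 1) : (qp a b i).eval t = a * t ^ 2 + b * t := by
  simp [qp]

lemma qp_natDegree {a : ℤ} (ha : 0 < a) (b : ℤ) (i : Fin 1) : (qp a b i).natDegree = 2 := by
  have h : qp a b i = C a * X ^ 2 + C b * X + C 0 := by simp [qp]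
  rw [h, natDegree_quadratic ha.ne']

lemma qp_lead {a : ℤ} (ha : 0 < a) (b : ℤ) (i : Fin 1) : (qp a b i).leadingCoeff = a := by
  have h : qp a b i = C a * X ^ 2 + C b * X + C 0 := by simp [qp]
  rw [h, leadingCoeff_quadratic ha.ne']

lemma qp_sys {a : ℤ} (ha : 0 < a) (b : ℤ) : Sys (qp a b) :=
  ⟨one_pos, fun i => ⟨by rw [qp_natDegree ha]; norm_num, by rw [qp_lead ha]; exact ha⟩⟩

lemma nuk_qp (a b c : ℤ) (p : ℕ) : nuk (qp a b) p (fun _ => c) = rho a b c p := by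
  unfold nuk rho
  congr 1
  ext t
  simp only [mem_filter, Bad, fv, qp_eval]
  constructor
  · rintro ⟨h1, _, h2⟩
    exact ⟨h1, h2⟩
  · rintro ⟨h1, h2⟩
    exact ⟨h1, 0, h2⟩

lemma bhk_qp (a b c : ℤ) (w : ℕ) : bhk (qp a b) (prs w) (fun _ => c) = Vc a b c w / V1 w := by
  unfold bhk Vc V1 prs
  rw [← prod_div_distrib]
  apply prod_congr rfl
  intro p _
  rw [nuk_qp, pow_one]

lemma cntk_qp (a b c : ℤ) (u h : ℕ) : cntk (qp a b) (fun _ => c) u h = pc a b c u (u + h) := by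
  unfold cntk pc
  refine card_nbij' (fun r => u + r) (fun m => m - u) ?_ ?_ ?_ ?_
  · intro r hr
    rw [mem_coe, mem_filter, mem_Icc] at hr
    rw [mem_coe, mem_filter, mem_Ioc]
    beta_reduce
    refine ⟨by omega, ?_⟩
    have := hr.2 0
    rwa [qp_eval] at this
  · intro m hm
    rw [mem_coe, mem_filter, mem_Ioc] at hm
    rw [mem_coe, mem_filter, mem_Icc]
    beta_reduce
    refine ⟨by omega, ?_⟩
    intro i
    rw [qp_eval]
    have e : u + (m - u) = m := by omega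
    rw [e]
    exact hm.2
  · intro r _
    simp
  · intro m hm
    rw [mem_coe, mem_filter, mem_Ioc] at hm
    simp only
    omega

lemma zv_one (c : Fin 1 → ℕ) : zv c = fun _ => ((c 0 : ℕ) : ℤ) := by
  funext i
  unfold zv
  rw [Subsingleton.elim i 0]

lemma V1_pos (w : ℕ) : 0 < V1 w := by
  unfold V1
  apply prod_pos
  intro p hp
  rw [mem_filter] at hp
  have h2 : (2 : ℝ) ≤ p := by exact_mod_cast hp.2.two_le
  have : 1 / (p : ℝ) ≤ 1 / 2 := one_div_le_one_div_of_le (by norm_num) h2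
  linarith

/-- a positive product gives the local conditions -/
lemma rho_lt {a b c : ℤ} {w p : ℕ} (hp : p.Prime) (hpw : p ≤ w) (h : Vc a b c w ≠ 0) : rho a b c p ≠ p := by
  intro h1
  apply h
  unfold Vc
  apply prod_eq_zero (i := p)
  · rw [mem_filter, mem_Icc]
    exact ⟨⟨hp.one_lt.le, hpw⟩, hp⟩
  · rw [h1, div_self (by exact_mod_cast hp.ne_zero), sub_self]

lemma adm {a b c : ℤ} (ha : 0 < a) {w : ℕ} (hw : 2 ≤ w) (haw : a ≤ w) (h : Vc a b c w ≠ 0)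
    (hc : b ^ 2 < 4 * a * c) : Admissible a b c := by
  have key : ∀ p : ℕ, p.Prime → p ≤ w → ¬ (∀ t : ℤ, (p : ℤ) ∣ a * t ^ 2 + b * t + c) := by
    intro p hp hpw hall
    apply rho_lt hp hpw h
    unfold rho fv
    rw [filter_true_of_mem, card_range]
    intro r _
    exact hall r
  refine ⟨ha, ?_, ?_, ?_⟩
  · intro d hda hdb hdc
    by_contra hd
    have hd1 : d.natAbs ≠ 1 := fun h1 => hd (Int.isUnit_iff_natAbs_eq.2 h1)
    obtain ⟨p, hp, hpd⟩ := Nat.exists_prime_and_dvd hd1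
    have hpd' : (p : ℤ) ∣ d := Int.natCast_dvd.2 hpd
    have hpa := hpd'.trans hda
    have hpw : p ≤ w := by
      have := Int.le_of_dvd ha hpa
      omega
    refine key p hp hpw (fun t => ?_)
    exact dvd_add (dvd_add (hpa.mul_right _) ((hpd'.trans hdb).mul_right _)) (hpd'.trans hdc)
  · rintro ⟨h1, h2⟩
    refine key 2 Nat.prime_two hw (fun t => ?_)
    have h3 : a * t ^ 2 + b * t + c = (a + b) * t + c + a * (t ^ 2 - t) := by ring
    rw [h3]
    have h4 : (2 : ℤ) ∣ t ^ 2 - t := by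
      have h5 : t ^ 2 - t = (t - 1) * (t - 1 + 1) := by ring
      rw [h5]
      exact (Int.even_mul_succ_self (t - 1)).two_dvd
    exact_mod_cast dvd_add (dvd_add (h1.mul_right _) h2) (h4.mul_left _)
  · rintro ⟨s, hs⟩
    have := mul_self_nonneg s
    rw [← hs] at this
    linarith

lemma card_step (X : ℕ) (Q T : ℕ → Prop) (Ex : Finset ℕ) (N : ℕ) (κ : ℝ)
    (h1 : κ * (X : ℝ) ^ 1 ≤ Nat.card {c : Fin 1 → ℕ // (∀ i, c i ∈ Icc 1 X) ∧ Q (c 0)})
    (hEx : (Ex.card : ℝ) ≤ κ / 4 * X) (hN : (N : ℝ) ≤ κ / 4 * X)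
    (h : ∀ c ∈ Icc 1 X, c ∉ Ex → N < c → Q c → T c) :
    κ / 2 * X ≤ Nat.card {c : ℕ // c ∈ Icc 1 X ∧ T c} := by
  classical
  have e1 : Nat.card {c : ℕ // c ∈ Icc 1 X ∧ T c} = ((Icc 1 X).filter T).card :=
    Nat.subtype_card _ (fun c => by rw [mem_filter])
  have e2 : Nat.card {c : ℕ // c ∈ Icc 1 X ∧ Q c} = ((Icc 1 X).filter Q).card :=
    Nat.subtype_card _ (fun c => by rw [mem_filter])
  have e3 : Nat.card {c : Fin 1 → ℕ // (∀ i, c i ∈ Icc 1 X) ∧ Q (c 0)} ≤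
      Nat.card {c : ℕ // c ∈ Icc 1 X ∧ Q c} := by
    have : Finite {c : ℕ // c ∈ Icc 1 X ∧ Q c} :=
      Finite.of_injective (fun c => (⟨c.1, c.2.1⟩ : {c : ℕ // c ∈ Icc 1 X}))
        (fun x y hxy => Subtype.ext (by simpa using congrArg Subtype.val hxy))
    refine Nat.card_le_card_of_injective (fun c => ⟨c.1 0, c.2.1 0, c.2.2⟩) ?_
    intro x y hxy
    have h2 : x.1 0 = y.1 0 := congrArg (fun z : {c : ℕ // c ∈ Icc 1 X ∧ Q c} => z.1) hxy
    apply Subtype.ext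
    funext i
    rw [Subsingleton.elim i 0]
    exact h2
  have e4 : ((Icc 1 X).filter Q).card ≤ ((Icc 1 X).filter T).card + Ex.card + N := by
    have hsub : (Icc 1 X).filter Q ⊆ ((Icc 1 X).filter T ∪ Ex) ∪ Icc 1 N := by
      intro c hc
      rw [mem_filter] at hc
      rw [mem_union, mem_union, mem_filter]
      by_cases h3 : c ∈ Ex
      · exact Or.inl (Or.inr h3)
      · by_cases h4 : N < c
        · exact Or.inl (Or.inl ⟨hc.1, h c hc.1 h3 h4 hc.2⟩)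
        · right
          rw [mem_Icc] at hc ⊢
          omega
    calc ((Icc 1 X).filter Q).card ≤ (((Icc 1 X).filter T ∪ Ex) ∪ Icc 1 N).card := card_le_card hsub
      _ ≤ ((Icc 1 X).filter T ∪ Ex).card + (Icc 1 N).card := card_union_le _ _
      _ ≤ (((Icc 1 X).filter T).card + Ex.card) + N := by
          have h5 := card_union_le ((Icc 1 X).filter T) Ex
          have h6 : (Icc 1 N).card = N := by rw [Nat.card_Icc]; omega
          omega
  rw [e1]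
  rw [e2] at e3
  have e5 : ((Nat.card {c : Fin 1 → ℕ // (∀ i, c i ∈ Icc 1 X) ∧ Q (c 0)} : ℕ) : ℝ) ≤
      ((Icc 1 X).filter T).card + Ex.card + N := by exact_mod_cast e3.trans e4
  rw [pow_one] at h1
  linarith

lemma ev_exp (Λ : ℝ) : ∀ᶠ L : ℝ in atTop, L ^ Λ ≤ Real.exp (L ^ (1 / 2 : ℝ)) := by
  have h1 := (isLittleO_rpow_exp_atTop (2 * Λ)).bound one_pos
  have h2 := (tendsto_rpow_atTop (show (0 : ℝ) < 1 / 2 by norm_num)).eventually h1
  filter_upwards [h2, eventually_ge_atTop (0 : ℝ)] with L h3 h4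
  rw [Real.norm_eq_abs, Real.norm_eq_abs, Real.abs_exp, one_mul, ← Real.rpow_mul h4] at h3
  have h5 : (1 / 2 : ℝ) * (2 * Λ) = Λ := by ring
  rw [h5] at h3
  exact (le_abs_self _).trans h3

/-- sizes: for large `X`, `κ X < c ≤ X` and `u ≤ exp √(log X)`, the sum of `1 / log f(m)` over a window -/
lemma sum_bounds (a b : ℤ) (ha : 0 < a) (κ Λ η : ℝ) (hκ : 0 < κ) (hη : 0 < η) (hη1 : η < 1) :
    ∀ᶠ X : ℝ in atTop, ∀ c u h : ℕ, κ * X < c → (c : ℝ) ≤ X → (u : ℝ) ≤ Real.exp ((Real.log X) ^ (1 / 2 : ℝ)) →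
      (h : ℝ) ≤ (Real.log X) ^ Λ →
      (1 - η) * (h / Real.log X) ≤ ∑ m ∈ Ioc u (u + h), 1 / Real.log ((a : ℝ) * m ^ 2 + b * m + c) ∧
      ∑ m ∈ Ioc u (u + h), 1 / Real.log ((a : ℝ) * m ^ 2 + b * m + c) ≤ (1 + η) * (h / Real.log X) := by
  have haR : (1 : ℝ) ≤ a := by exact_mod_cast ha
  set A : ℝ := a + |(b : ℝ)| with hA
  have hA1 : 1 ≤ A := by have := abs_nonneg (b : ℝ); linarith
  filter_upwards [eventually_gt_atTop (1 : ℝ), Real.tendsto_log_atTop.eventually (ev_exp Λ),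
    Real.tendsto_log_atTop.eventually_ge_atTop (16 : ℝ),
    Real.tendsto_log_atTop.eventually_ge_atTop (2 * Real.log (8 * A / κ)),
    Real.tendsto_log_atTop.eventually_ge_atTop (2 * |Real.log (κ / 2)| / η),
    Real.tendsto_log_atTop.eventually_ge_atTop (|Real.log (1 + κ)| / η)] with X h1 h2 h3 h4 h5 h6
  intro c u h hc1 hc2 hu hh
  obtain ⟨L, hL⟩ : ∃ L, L = Real.log X := ⟨_, rfl⟩
  rw [← hL] at h2 h3 h4 h5 h6 hu hh ⊢
  have hX0 : 0 < X := by linarith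
  have hL0 : 0 < L := by linarith
  have hexpL : Real.exp L = X := by rw [hL, Real.exp_log hX0]
  obtain ⟨E, hE⟩ : ∃ E, E = Real.exp (L ^ (1 / 2 : ℝ)) := ⟨_, rfl⟩
  rw [← hE] at h2 hu
  have hsq : L ^ (1 / 2 : ℝ) ≤ L / 4 := by
    rw [← Real.sqrt_eq_rpow, Real.sqrt_le_left (by linarith)]
    nlinarith
  have hE2 : 4 * A * E ^ 2 ≤ κ / 2 * X := by
    have h7 : Real.log (8 * A / κ) + 2 * L ^ (1 / 2 : ℝ) ≤ L := by linarith
    have h8 := Real.exp_le_exp.2 h7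
    rw [Real.exp_add, Real.exp_log (by positivity), hexpL] at h8
    have h9 : Real.exp (2 * L ^ (1 / 2 : ℝ)) = E ^ 2 := by
      rw [hE, ← Real.exp_nat_mul]
      norm_num
    rw [h9] at h8
    have h10 : 4 * A * E ^ 2 = κ / 2 * (8 * A / κ * E ^ 2) := by
      field_simp
      ring
    rw [h10]
    exact mul_le_mul_of_nonneg_left h8 (by positivity)
  have hEpos : 0 < E := by rw [hE]; exact Real.exp_pos _
  have key : ∀ m ∈ Ioc u (u + h), (1 - η) / L ≤ 1 / Real.log ((a : ℝ) * m ^ 2 + b * m + c) ∧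
      1 / Real.log ((a : ℝ) * m ^ 2 + b * m + c) ≤ (1 + η) / L := by
    intro m hm
    rw [mem_Ioc] at hm
    have hm1 : (m : ℝ) ≤ 2 * E := by
      have : (m : ℝ) ≤ u + h := by exact_mod_cast hm.2
      linarith
    have hm0 : (1 : ℝ) ≤ m := by exact_mod_cast (by omega : 1 ≤ m)
    have hm2 : (m : ℝ) ^ 2 ≤ 4 * E ^ 2 := by nlinarith
    have hb : |(b : ℝ) * m| ≤ |(b : ℝ)| * m ^ 2 := by
      rw [abs_mul, abs_of_pos (by linarith : (0 : ℝ) < m)]
      have : (m : ℝ) ≤ m ^ 2 := by nlinarith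
      exact mul_le_mul_of_nonneg_left this (abs_nonneg _)
    have hb' := abs_le.1 hb
    have hAm : A * (m : ℝ) ^ 2 ≤ κ / 2 * X := by
      have : A * (m : ℝ) ^ 2 ≤ A * (4 * E ^ 2) := mul_le_mul_of_nonneg_left hm2 (by linarith)
      linarith
    rw [hA] at hAm
    have ham : (0 : ℝ) ≤ a * (m : ℝ) ^ 2 := by positivity
    have hup : (a : ℝ) * m ^ 2 + b * m + c ≤ (1 + κ) * X := by nlinarith
    have hlo : κ / 2 * X ≤ (a : ℝ) * m ^ 2 + b * m + c := by nlinarith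
    have hκX : 0 < κ / 2 * X := by positivity
    have hlog1 : L + Real.log (κ / 2) ≤ Real.log ((a : ℝ) * m ^ 2 + b * m + c) := by
      have := Real.log_le_log hκX hlo
      rw [Real.log_mul (by positivity) (by positivity), ← hL] at this
      linarith
    have hlog2 : Real.log ((a : ℝ) * m ^ 2 + b * m + c) ≤ L + Real.log (1 + κ) := by
      have := Real.log_le_log (by linarith) hup
      rw [Real.log_mul (by positivity) (by positivity), ← hL] at this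
      linarith
    have h5' : 2 * |Real.log (κ / 2)| ≤ L * η := by rwa [div_le_iff₀ hη] at h5
    have h6' : |Real.log (1 + κ)| ≤ L * η := by rwa [div_le_iff₀ hη] at h6
    have h7 := neg_abs_le (Real.log (κ / 2))
    have h8 := le_abs_self (Real.log (1 + κ))
    have h9 : 0 < Real.log ((a : ℝ) * m ^ 2 + b * m + c) := by nlinarith
    constructor
    · rw [div_le_div_iff₀ hL0 h9]
      nlinarith
    · rw [div_le_div_iff₀ h9 hL0]
      nlinarith
  have hcard : ((Ioc u (u + h)).card : ℝ) = h := by rw [Nat.card_Ioc]; simp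
  constructor
  · have := card_nsmul_le_sum (Ioc u (u + h)) (fun m : ℕ => 1 / Real.log ((a : ℝ) * m ^ 2 + b * m + c)) ((1 - η) / L)
      (fun m hm => (key m hm).1)
    rw [nsmul_eq_mul, hcard] at this
    calc (1 - η) * (h / L) = h * ((1 - η) / L) := by ring
      _ ≤ _ := this
  · have := sum_le_card_nsmul (Ioc u (u + h)) (fun m : ℕ => 1 / Real.log ((a : ℝ) * m ^ 2 + b * m + c)) ((1 + η) / L)
      (fun m hm => (key m hm).2)
    rw [nsmul_eq_mul, hcard] at this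
    calc _ ≤ _ := this
      _ = (1 + η) * (h / L) := by ring

lemma ev_pow13 : ∀ᶠ X : ℝ in atTop, (Real.log X) ^ 13 ≤ X ^ (1 / 5 : ℝ) := by
  have h1 := (isLittleO_rpow_exp_pos_mul_atTop (13 : ℝ) (show (0 : ℝ) < 1 / 5 by norm_num)).bound one_pos
  have h2 := Real.tendsto_log_atTop.eventually h1
  filter_upwards [h2, eventually_gt_atTop (1 : ℝ)] with X h3 h4
  have h5 : 0 < Real.log X := Real.log_pos h4
  have h6 : Real.exp (1 / 5 * Real.log X) = X ^ (1 / 5 : ℝ) := by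
    rw [Real.rpow_def_of_pos (by linarith), mul_comm]
  rw [h6, one_mul, Real.norm_eq_abs, Real.norm_eq_abs, abs_of_nonneg (Real.rpow_nonneg h5.le _),
    abs_of_nonneg (Real.rpow_nonneg (by linarith) _)] at h3
  exact_mod_cast h3

theorem quad (hA : S_KA) (a : ℤ) (ha : 0 < a) (b : ℤ) (Λ ε : ℝ) (hΛ : 1 ≤ Λ) (hε : 0 < ε) :
    ∃ δ κ K : ℝ, 0 < δ ∧ δ < 1 ∧ 0 < κ ∧ ∃ X₀ : ℕ, ∀ X : ℕ, X₀ ≤ X → ∀ h : ℕ,
      K * Real.log X ≤ h → (h : ℝ) ≤ (Real.log X) ^ Λ →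
      κ * X ≤ Nat.card {c : ℕ // c ∈ Icc 1 X ∧ Admissible a b c ∧ ∃ S : ℝ, 0 < S ∧
        Tendsto (fun z => partialC a b c z) atTop (𝓝 S) ∧ ∃ u : ℕ, (u : ℝ) ≤ Real.exp ((Real.log X) ^ ε) ∧
          (1 + δ) * (eps a b * S * gcdProd a b *
            ∑ m ∈ Ioc u (u + h), 1 / Real.log ((a : ℝ) * m ^ 2 + b * m + c)) ≤ pc a b c u (u + h)} ∧
      κ * X ≤ Nat.card {c : ℕ // c ∈ Icc 1 X ∧ Admissible a b c ∧ ∃ S : ℝ, 0 < S ∧
        Tendsto (fun z => partialC a b c z) atTop (𝓝 S) ∧ ∃ u : ℕ, (u : ℝ) ≤ Real.exp ((Real.log X) ^ ε) ∧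
          (pc a b c u (u + h) : ℝ) ≤ (1 - δ) * (eps a b * S * gcdProd a b *
            ∑ m ∈ Ioc u (u + h), 1 / Real.log ((a : ℝ) * m ^ 2 + b * m + c))} := by
  set e := min ε (1 / 2) with he
  have he0 : 0 < e := lt_min hε (by norm_num)
  have he1 : e ≤ 1 / 2 := min_le_right _ _
  have he2 : e ≤ ε := min_le_left _ _
  obtain ⟨δ, κ, K, hδ, hδ1, hκ, X1, hmain⟩ := fin2 hA 1 (qp a b) (qp_sys ha b) Λ e hΛ he0
  obtain ⟨X2, hst⟩ := sing_tail a ha b 1 13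
  have hev : ∀ᶠ X : ℝ in atTop, 1 < X ∧ 2 ≤ Real.log X ∧ (a : ℝ) ≤ Real.log X ∧ 8 / δ ≤ Real.log X ∧
      4 / κ ≤ Real.log X ∧ (Real.log X) ^ 13 ≤ X ^ (1 / 5 : ℝ) ∧ (b : ℝ) ^ 2 / (κ / 4) ≤ X ∧
      ∀ c u h : ℕ, κ / 4 * X < c → (c : ℝ) ≤ X → (u : ℝ) ≤ Real.exp ((Real.log X) ^ (1 / 2 : ℝ)) →
      (h : ℝ) ≤ (Real.log X) ^ Λ →
      (1 - δ / 8) * (h / Real.log X) ≤ ∑ m ∈ Ioc u (u + h), 1 / Real.log ((a : ℝ) * m ^ 2 + b * m + c) ∧
      ∑ m ∈ Ioc u (u + h), 1 / Real.log ((a : ℝ) * m ^ 2 + b * m + c) ≤ (1 + δ / 8) * (h / Real.log X) := by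
    filter_upwards [eventually_gt_atTop (1 : ℝ), Real.tendsto_log_atTop.eventually_ge_atTop (2 : ℝ),
      Real.tendsto_log_atTop.eventually_ge_atTop (a : ℝ), Real.tendsto_log_atTop.eventually_ge_atTop (8 / δ),
      Real.tendsto_log_atTop.eventually_ge_atTop (4 / κ), ev_pow13, eventually_ge_atTop ((b : ℝ) ^ 2 / (κ / 4)),
      sum_bounds a b ha (κ / 4) Λ (δ / 8) (by positivity) (by positivity) (by linarith)]
      with X h1 h2 h3 h4 h5 h6 h7 h8
    exact ⟨h1, h2, h3, h4, h5, h6, h7, h8⟩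
  obtain ⟨X3, hX3⟩ := eventually_atTop.1 (tendsto_natCast_atTop_atTop.eventually hev)
  refine ⟨δ / 2, κ / 2, K, by positivity, by linarith, by positivity, X1 + X2 + X3 + 2, ?_⟩
  intro X hX h hK hh
  obtain ⟨g1, g2, g3, g4, g5, g6, g7, g8⟩ := hX3 X (by omega)
  obtain ⟨L, hL⟩ : ∃ L, L = Real.log (X : ℝ) := ⟨_, rfl⟩
  have hX0 : (0 : ℝ) < X := by linarith
  have hL0 : 0 < L := by rw [hL]; linarith
  set w : ℕ := ⌈L ^ 12⌉₊ with hw
  have hL2 : 2 ≤ L := by rw [hL]; exact g2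
  have hL1 : 1 ≤ L := by linarith
  have hL12 : 1 ≤ L ^ 12 := one_le_pow₀ hL1
  have hw1 : L ^ 12 ≤ w := Nat.le_ceil _
  have hw2 : (w : ℝ) ≤ L ^ 13 := by
    have h9 := (Nat.ceil_lt_add_one (show 0 ≤ L ^ 12 by positivity)).le
    have h10 : L ^ 12 + 1 ≤ L ^ 13 := by
      have : L ^ 13 = L ^ 12 * L := by ring
      rw [this]
      nlinarith
    exact h9.trans h10
  have hw3 : L ≤ w := by
    have : L ≤ L ^ 12 := le_self_pow₀ hL1 (by norm_num)
    linarith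
  have hw4 : (w : ℝ) ≤ (X : ℝ) ^ (1 / 5 : ℝ) := by
    rw [← hL] at g6
    exact hw2.trans g6
  have hw5 : 2 ≤ w := by
    have : (2 : ℝ) ≤ w := by linarith
    exact_mod_cast this
  have hw6 : a ≤ (w : ℤ) := by
    rw [← hL] at g3
    have : (a : ℝ) ≤ (w : ℝ) := by linarith
    exact_mod_cast this
  have hXC : (X : ℝ) ^ (9 / 10 : ℝ) ≤ (X : ℕ) := by
    calc (X : ℝ) ^ (9 / 10 : ℝ) ≤ (X : ℝ) ^ (1 : ℝ) :=
          Real.rpow_le_rpow_of_exponent_le (by linarith) (by norm_num)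
      _ = X := Real.rpow_one _
  obtain ⟨Ex, hEx1, hEx2, hEx3⟩ := hst X (by omega) X hXC le_rfl w w (by rw [← hL]; exact hw1)
    (by rw [← hL]; exact hw2) le_rfl hw4
  obtain ⟨hm1, hm2⟩ := hmain X (by omega) h w (by rw [pow_one]; exact hK) hh (by rw [← hL]; exact hw3) hw4
  have hExκ : (Ex.card : ℝ) ≤ κ / 4 * X := by
    refine hEx2.trans ?_
    rw [pow_one, ← hL, div_le_iff₀ hL0]
    rw [← hL, div_le_iff₀ hκ] at g5
    nlinarith
  have hN1 : ((⌊κ / 4 * X⌋₊ : ℕ) : ℝ) ≤ κ / 4 * X := Nat.floor_le (by positivity)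
  have hexp1 : ∀ u : ℕ, (u : ℝ) ≤ Real.exp ((Real.log X) ^ e) → (u : ℝ) ≤ Real.exp ((Real.log X) ^ ε) := by
    intro u hu
    refine hu.trans (Real.exp_le_exp.2 ?_)
    exact Real.rpow_le_rpow_of_exponent_le (by linarith) he2
  have hexp2 : ∀ u : ℕ, (u : ℝ) ≤ Real.exp ((Real.log X) ^ e) →
      (u : ℝ) ≤ Real.exp ((Real.log X) ^ (1 / 2 : ℝ)) := by
    intro u hu
    refine hu.trans (Real.exp_le_exp.2 ?_)
    exact Real.rpow_le_rpow_of_exponent_le (by linarith) he1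
  have hδL : 1 / L ≤ δ / 8 := by
    rw [← hL, div_le_iff₀ hδ] at g4
    rw [div_le_iff₀ hL0]
    linarith
  -- what the exceptional set and the sizes give
  have hcore : ∀ c ∈ Icc 1 X, c ∉ Ex → ⌊κ / 4 * X⌋₊ < c → 0 < Vc a b c w / V1 w →
      Admissible a b c ∧ κ / 4 * X < c ∧ ∃ S : ℝ, 0 < S ∧ Tendsto (fun z => partialC a b c z) atTop (𝓝 S) ∧
        |eps a b * S * gcdProd a b - Vc a b c w / V1 w| ≤ Vc a b c w / V1 w * (δ / 8) := by
    intro c hc hcE hcN hV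
    have hcN' : κ / 4 * X < c := Nat.lt_of_floor_lt hcN
    have hVc : Vc a b c w ≠ 0 := by
      intro h0
      rw [h0, zero_div] at hV
      exact lt_irrefl _ hV
    have hb2 : b ^ 2 < 4 * a * (c : ℤ) := by
      rw [div_le_iff₀ (by positivity)] at g7
      have h9 : (b : ℝ) ^ 2 < c := by linarith
      have h10 : (b ^ 2 : ℤ) < (c : ℤ) := by exact_mod_cast h9
      have h11 : (0 : ℤ) ≤ c := Int.natCast_nonneg c
      nlinarith
    have hadm := adm ha hw5 hw6 hVc hb2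
    obtain ⟨S, hS0, hS1, hS2⟩ := (hEx3 c hc hcE).2 hadm
    refine ⟨hadm, hcN', S, hS0, hS1, hS2.trans ?_⟩
    rw [pow_one, ← hL, div_eq_mul_one_div (Vc a b c w / V1 w) L]
    exact mul_le_mul_of_nonneg_left hδL hV.le
  constructor
  · refine card_step X (fun c => 0 < Vc a b c w / V1 w ∧ ∃ u : ℕ, (u : ℝ) ≤ Real.exp ((Real.log X) ^ e) ∧
        (1 + δ) * (Vc a b c w / V1 w * (h / Real.log X)) ≤ pc a b c u (u + h)) _ Ex ⌊κ / 4 * X⌋₊ κ ?_ hExκ hN1 ?_
    · refine hm1.trans (le_of_eq ?_)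
      norm_cast
      refine Nat.card_congr (Equiv.subtypeEquivRight fun c => ?_)
      simp only [zv_one, bhk_qp, cntk_qp, pow_one]
    · rintro c hc hcE hcN ⟨hV, u, hu, hcnt⟩
      obtain ⟨hadm, hcN', S, hS0, hS1, hS2⟩ := hcore c hc hcE hcN hV
      refine ⟨hadm, S, hS0, hS1, u, hexp1 u hu, le_trans ?_ hcnt⟩
      have hcX : (c : ℝ) ≤ X := by exact_mod_cast (mem_Icc.1 hc).2
      obtain ⟨s1, s2⟩ := g8 c u h hcN' hcX (hexp2 u hu) hh
      rw [← hL] at s1 s2 ⊢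
      have hM := (abs_le.1 hS2).2
      have hM0 : 0 < eps a b * S * gcdProd a b :=
        mul_pos (mul_pos (Pool.Agent.N792.SingTail.eps_pos _ _) hS0) (Pool.Agent.N792.SingTail.gcdProd_pos _ _)
      have hhL : 0 ≤ (h : ℝ) / L := by positivity
      obtain ⟨V, hVd⟩ : ∃ V, V = Vc a b c w / V1 w := ⟨_, rfl⟩
      obtain ⟨M, hMd⟩ : ∃ M, M = eps a b * S * gcdProd a b := ⟨_, rfl⟩
      obtain ⟨s, hsd⟩ : ∃ s, s = ∑ m ∈ Ioc u (u + h), 1 / Real.log ((a : ℝ) * m ^ 2 + b * m + c) := ⟨_, rfl⟩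
      obtain ⟨H, hHd⟩ : ∃ H, H = (h : ℝ) / L := ⟨_, rfl⟩
      rw [← hVd] at hM hV ⊢
      rw [← hMd] at hM hM0 ⊢
      rw [← hsd]
      rw [← hsd] at s1 s2
      rw [← hHd] at s1 s2 hhL ⊢
      have hM' : M ≤ V * (1 + δ / 8) := by linarith
      have hMs : M * s ≤ (V * (1 + δ / 8)) * ((1 + δ / 8) * H) :=
        mul_le_mul hM' s2 (by
          refine le_trans ?_ s1
          exact mul_nonneg (by linarith) hhL) (by positivity)
      calc (1 + δ / 2) * (M * s) ≤ (1 + δ / 2) * ((V * (1 + δ / 8)) * ((1 + δ / 8) * H)) :=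
            mul_le_mul_of_nonneg_left hMs (by positivity)
        _ = ((1 + δ / 2) * (1 + δ / 8) ^ 2) * (V * H) := by ring
        _ ≤ (1 + δ) * (V * H) := by
            apply mul_le_mul_of_nonneg_right _ (by positivity)
            nlinarith [mul_pos hδ hδ, mul_pos (mul_pos hδ hδ) hδ]
  · refine card_step X (fun c => 0 < Vc a b c w / V1 w ∧ ∃ u : ℕ, (u : ℝ) ≤ Real.exp ((Real.log X) ^ e) ∧
        (pc a b c u (u + h) : ℝ) ≤ (1 - δ) * (Vc a b c w / V1 w * (h / Real.log X))) _ Ex ⌊κ / 4 * X⌋₊ κ ?_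
        hExκ hN1 ?_
    · refine hm2.trans (le_of_eq ?_)
      norm_cast
      refine Nat.card_congr (Equiv.subtypeEquivRight fun c => ?_)
      simp only [zv_one, bhk_qp, cntk_qp, pow_one]
    · rintro c hc hcE hcN ⟨hV, u, hu, hcnt⟩
      obtain ⟨hadm, hcN', S, hS0, hS1, hS2⟩ := hcore c hc hcE hcN hV
      refine ⟨hadm, S, hS0, hS1, u, hexp1 u hu, le_trans hcnt ?_⟩
      have hcX : (c : ℝ) ≤ X := by exact_mod_cast (mem_Icc.1 hc).2
      obtain ⟨s1, s2⟩ := g8 c u h hcN' hcX (hexp2 u hu) hh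
      rw [← hL] at s1 s2 ⊢
      have hM := (abs_le.1 hS2).1
      have hM0 : 0 < eps a b * S * gcdProd a b :=
        mul_pos (mul_pos (Pool.Agent.N792.SingTail.eps_pos _ _) hS0) (Pool.Agent.N792.SingTail.gcdProd_pos _ _)
      have hhL : 0 ≤ (h : ℝ) / L := by positivity
      obtain ⟨V, hVd⟩ : ∃ V, V = Vc a b c w / V1 w := ⟨_, rfl⟩
      obtain ⟨M, hMd⟩ : ∃ M, M = eps a b * S * gcdProd a b := ⟨_, rfl⟩
      obtain ⟨s, hsd⟩ : ∃ s, s = ∑ m ∈ Ioc u (u + h), 1 / Real.log ((a : ℝ) * m ^ 2 + b * m + c) := ⟨_, rfl⟩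
      obtain ⟨H, hHd⟩ : ∃ H, H = (h : ℝ) / L := ⟨_, rfl⟩
      rw [← hVd] at hM hV ⊢
      rw [← hMd] at hM hM0 ⊢
      rw [← hsd]
      rw [← hsd] at s1 s2
      rw [← hHd] at s1 s2 hhL ⊢
      have hM' : V * (1 - δ / 8) ≤ M := by linarith
      have hMs : (V * (1 - δ / 8)) * ((1 - δ / 8) * H) ≤ M * s :=
        mul_le_mul hM' s1 (mul_nonneg (by linarith) hhL) hM0.le
      calc (1 - δ) * (V * H) ≤ ((1 - δ / 2) * (1 - δ / 8) ^ 2) * (V * H) := by
            apply mul_le_mul_of_nonneg_right _ (by positivity)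
            nlinarith [mul_pos hδ hδ, mul_pos (mul_pos hδ hδ) hδ]
        _ = (1 - δ / 2) * ((V * (1 - δ / 8)) * ((1 - δ / 8) * H)) := by ring
        _ ≤ (1 - δ / 2) * (M * s) := mul_le_mul_of_nonneg_left hMs (by linarith)

end Pool.Agent.N785.MG
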