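import Pool.Agent.N785.MG.Def

/-!
Project MG (helper785): statements of the pieces.
-/

open Finset Polynomial
open Pool.Agent.H378R2 (Phi GoodP GoodS)

namespace Pool.Agent.N785.MG

/-! ### Combinatorics of the average -/

/-- T1a: the product of the factors `1 + θ_p(r)` is on average close to `e^M`, `M = ∑ x_p`, `x_p` the mean of `θ_p` -/
def S_T1a : Prop := ∀ C : ℝ, 0 ≤ C → ∃ (C2 : ℝ) (y0 : ℕ), 0 ≤ C2 ∧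
  ∀ (y z R H : ℕ) (PL : Finset ℕ) (th : ℕ → ℕ → ℝ) (x : ℕ → ℝ), y0 ≤ y → 1 ≤ y → 1 ≤ R →
    (∀ p ∈ PL, p.Prime ∧ y < p ∧ p ≤ z) → z ^ 2 * R ≤ H → ∑ p ∈ PL, (1 : ℝ) / p ≤ 1 →
    (∀ p ∈ PL, ∀ r, th p (r + p) = th p r) → (∀ p ∈ PL, ∀ r, |th p r| ≤ C / p) →
    (∀ p ∈ PL, 0 ≤ x p ∧ x p ≤ 1 / p) → (∀ p ∈ PL, ∑ r ∈ range p, th p r = p * x p) →
    ∑ r ∈ Icc 1 H, |∏ p ∈ PL, (1 + th p r) - Real.exp (∑ p ∈ PL, x p)| ≤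
      C2 * H * Real.sqrt (1 / y + 1 / R)

/-- T1b: inclusion-exclusion, at most `k` primes of `PL` divide an integer `r ≤ H < y^(k+1)` -/
def S_T1b : Prop := ∀ (k y z H : ℕ) (PL : Finset ℕ) (kap : ℕ → ℝ),
    (∀ p ∈ PL, p.Prime ∧ y < p ∧ p ≤ z) → (∀ p ∈ PL, 0 ≤ kap p ∧ kap p ≤ 1) → H < y ^ (k + 1) →
    |∑ r ∈ Icc 1 H, ∏ p ∈ PL.filter (fun p => p ∣ r), (1 - kap p) -
      H * ∑ j ∈ range (k + 1), (-1 : ℝ) ^ j * ∑ D ∈ PL.powersetCard j, ∏ p ∈ D, (kap p / p)| ≤ (z : ℝ) ^ k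

/-- T1c: the truncated alternating sum of the elementary symmetric functions -/
def S_T1c : Prop := ∀ (k : ℕ) (c0 : ℝ), 0 < c0 → ∃ (δ : ℝ) (y0 : ℕ), 0 < δ ∧
  ∀ (y : ℕ) (PL : Finset ℕ) (x : ℕ → ℝ), y0 ≤ y → (∀ p ∈ PL, y < p) →
    (∀ p ∈ PL, 0 ≤ x p ∧ x p ≤ 1 / p) → c0 ≤ ∑ p ∈ PL, x p → ∑ p ∈ PL, (1 : ℝ) / p ≤ 1 →
    δ ≤ (-1 : ℝ) ^ k * (Real.exp (∑ p ∈ PL, x p) *
      ∑ j ∈ range (k + 1), (-1 : ℝ) ^ j * ∑ D ∈ PL.powersetCard j, ∏ p ∈ D, x p - 1)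

/-- T1: the mean of `∏ e_p(r)` over `r ≤ H`, `z^k R ≤ H < y^(k+1)`, deviates from `1`, above for even `k`, below
for odd `k` -/
def S_T1 : Prop := ∀ (k : ℕ) (C c0 : ℝ), 2 ≤ k → 0 ≤ C → 0 < c0 → ∃ (δ : ℝ) (y0 : ℕ), 0 < δ ∧
  ∀ (y z R H : ℕ) (PL : Finset ℕ) (e : ℕ → ℕ → ℝ), y0 ≤ y → y0 ≤ R →
    (∀ p ∈ PL, p.Prime ∧ y < p ∧ p ≤ z) → z ^ k * R ≤ H → H < y ^ (k + 1) →
    ∑ p ∈ PL, (1 : ℝ) / p ≤ 1 → c0 ≤ ∑ p ∈ PL, (1 - e p 0) / p →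
    (∀ p ∈ PL, 0 ≤ e p 0 ∧ e p 0 ≤ 1) → (∀ p ∈ PL, ∀ r, e p (r + p) = e p r) →
    (∀ p ∈ PL, ∑ r ∈ range p, e p r = p) → (∀ p ∈ PL, ∀ r, ¬ p ∣ r → |e p r - 1| ≤ C / p) →
    δ * H ≤ (-1 : ℝ) ^ k * (∑ r ∈ Icc 1 H, ∏ p ∈ PL, e p r - H)

/-! ### Polynomials modulo `p` -/

/-- T2a: the number of roots of `g + c` modulo `p` -/
def S_T2a : Prop := ∀ g : ℤ[X], 0 < g.natDegree → ∃ p0 : ℕ, ∀ p : ℕ, p.Prime → p0 ≤ p →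
    (∀ c : ℤ, nu g p c ≤ g.natDegree) ∧ 2 * g.natDegree ≤ p ∧
    ∑ c ∈ range p, nu g p (c : ℤ) = p ∧
    (∀ r : ℕ, ¬ p ∣ r → ((range p).filter (fun t : ℕ =>
      (p : ℤ) ∣ g.eval ((t + r : ℕ) : ℤ) - g.eval (t : ℤ))).card ≤ g.natDegree)

/-- T2: the mean factors `ee g p r` -/
def S_T2 : Prop := ∀ g : ℤ[X], 0 < g.natDegree → ∃ (p0 : ℕ) (C : ℝ), 0 ≤ C ∧ ∀ p : ℕ, p.Prime → p0 ≤ p →
    (∀ γ : ℤ, nu g p γ ≤ g.natDegree) ∧ 2 * g.natDegree ≤ p ∧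
    (∀ r, ee g p (r + p) = ee g p r) ∧ ∑ r ∈ range p, ee g p r = p ∧ 0 ≤ ee g p 0 ∧
    1 / (g.natDegree : ℝ) ≤ 1 - ee g p 0 ∧ (∀ r, ¬ p ∣ r → |ee g p r - 1| ≤ C / p)

/-! ### Residue classes -/

/-- CR: Chinese remainder theorem for sums of products -/
def S_CR : Prop := ∀ (P : Finset ℕ) (f : ℕ → ℕ → ℝ), (∀ p ∈ P, p.Prime) →
    ∑ n ∈ range (prm P), ∏ p ∈ P, f p (n % p) = ∏ p ∈ P, ∑ t ∈ range p, f p t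

/-- T3a: there are windows with at least / at most the weighted number of survivors -/
def S_T3a : Prop := ∀ (g : ℤ[X]) (P PL : Finset ℕ) (γ : ℤ) (H : ℕ), (∀ p ∈ P, p.Prime) → PL ⊆ P →
    (∀ p ∈ PL, nu g p γ < p) →
    (∃ u, u < prm P ∧ dens g P γ * XL g PL γ H ≤ surv g P γ u H) ∧
    (∃ u, u < prm P ∧ (surv g P γ u H : ℝ) ≤ dens g P γ * XL g PL γ H)

/-- T3b: the mean of `XL` over the classes -/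
def S_T3b : Prop := ∀ (g : ℤ[X]) (PL : Finset ℕ) (H : ℕ), (∀ p ∈ PL, p.Prime) →
    ∑ γ ∈ range (prm PL), XL g PL (γ : ℤ) H = prm PL * ∑ r ∈ Icc 1 H, ∏ p ∈ PL, ee g p r

/-- T3c: classes modulo a product -/
def S_T3c : Prop := ∀ (P1 P2 : Finset ℕ) (A B : ℕ → Prop), (∀ p ∈ P1, p.Prime) → (∀ p ∈ P2, p.Prime) →
    Disjoint P1 P2 → (∀ n m, n ≡ m [MOD prm P1] → (A n ↔ A m)) → (∀ n m, n ≡ m [MOD prm P2] → (B n ↔ B m)) →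
    Nat.card {n // n < prm (P1 ∪ P2) ∧ A n ∧ B n} =
      Nat.card {n // n < prm P1 ∧ A n} * Nat.card {n // n < prm P2 ∧ B n}

/-- T3d: a positive proportion of all classes has a product `bh` bounded below -/
def S_T3d : Prop := ∀ g : ℤ[X], 0 < g.natDegree → ∃ c1 c2 : ℝ, 0 < c1 ∧ 0 < c2 ∧
  ∀ P : Finset ℕ, (∀ p ∈ P, p.Prime) →
    c2 * prm P ≤ Nat.card {γ : ℕ // γ < prm P ∧ c1 ≤ bh g P (γ : ℤ)}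

/-- CL: a positive proportion of the classes `γ` has a window of length `H` with too many (`k` even) / too few
(`k` odd) survivors -/
def S_CL : Prop := ∀ (g : ℤ[X]) (k : ℕ) (c0 : ℝ), 0 < g.natDegree → 2 ≤ k → 0 < c0 →
  ∃ (δ κ c1 : ℝ) (y0 : ℕ), 0 < δ ∧ 0 < κ ∧ 0 < c1 ∧
  ∀ (P : Finset ℕ) (y z R H : ℕ), y0 ≤ y → y0 ≤ R → (∀ p ∈ P, p.Prime ∧ p ≤ z) → z ^ k * R ≤ H →
    H < y ^ (k + 1) → c0 ≤ ∑ p ∈ P.filter (fun p => y < p), (1 : ℝ) / p →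
    ∑ p ∈ P.filter (fun p => y < p), (1 : ℝ) / p ≤ 1 →
    κ * prm P ≤ Nat.card {γ : ℕ // γ < prm P ∧ c1 ≤ bh g P (γ : ℤ) ∧ ∃ u, u < prm P ∧
      δ * (dens g P (γ : ℤ) * H) ≤ (-1 : ℝ) ^ k * (surv g P (γ : ℤ) u H - dens g P (γ : ℤ) * H)}

/-- CW: shorter windows -/
def S_CW : Prop := ∀ (g : ℤ[X]) (k : ℕ) (c0 : ℝ), 0 < g.natDegree → 2 ≤ k → 0 < c0 →
  ∃ (δ κ c1 : ℝ) (y0 : ℕ), 0 < δ ∧ δ < 1 ∧ 0 < κ ∧ 0 < c1 ∧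
  ∀ (P : Finset ℕ) (y z R H h : ℕ), y0 ≤ y → y0 ≤ R → (∀ p ∈ P, p.Prime ∧ p ≤ z) → z ^ k * R ≤ H →
    H < y ^ (k + 1) → c0 ≤ ∑ p ∈ P.filter (fun p => y < p), (1 : ℝ) / p →
    ∑ p ∈ P.filter (fun p => y < p), (1 : ℝ) / p ≤ 1 →
    1 ≤ h → (h : ℝ) ≤ δ * c1 * H * ∏ p ∈ P, (1 - 1 / (p : ℝ)) →
    κ * prm P ≤ Nat.card {γ : ℕ // γ < prm P ∧ c1 ≤ bh g P (γ : ℤ) ∧ ∃ u, prm P ≤ u ∧ u ≤ 2 * prm P + H ∧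
      δ * (dens g P (γ : ℤ) * h) ≤ (-1 : ℝ) ^ k * (surv g P (γ : ℤ) u h - dens g P (γ : ℤ) * h)}

/-! ### Primes -/

/-- FM: first moment of the number of primes in a window, over the constant terms of one class -/
def S_FM : Prop := ∀ (g : ℤ[X]) (Λ ε η : ℝ) (Z : ℕ), 0 < g.natDegree → 0 < g.leadingCoeff →
  0 < ε → ε ≤ 1 / 2 → 0 < η → ∃ X0 : ℝ, ∀ X : ℝ, X0 ≤ X →
  ∃ (ps : ℕ) (S : Finset ℕ), GoodP Z ps ∧ GoodS X S ∧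
    ∀ γ u h : ℕ, prm (PM X ε S ps) ≤ u → u ≤ 3 * prm (PM X ε S ps) → (h : ℝ) ≤ (Real.log X) ^ Λ →
      |∑ c ∈ (Icc 1 ⌊3 * X⌋₊).filter (fun c : ℕ => c ≡ γ [MOD prm (PM X ε S ps)]), Phi (c / X) * cnt g (c : ℤ) u h -
        surv g (PM X ε S ps) (γ : ℤ) u h *
          (MX X / ((Nat.totient (prm (PM X ε S ps)) : ℝ) * Real.log X))| ≤
        η * (surv g (PM X ε S ps) (γ : ℤ) u h + 1) *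
          (MX X / ((Nat.totient (prm (PM X ε S ps)) : ℝ) * Real.log X))

/-- SM: upper bound for the second moment -/
def S_SM : Prop := ∀ (g : ℤ[X]) (Λ ε : ℝ), 0 < g.natDegree → 0 < g.leadingCoeff →
  0 < ε → ε ≤ 1 / 2 → ∃ C X0 : ℝ, 0 < C ∧ ∀ X : ℝ, X0 ≤ X →
  ∀ (ps : ℕ) (S : Finset ℕ), GoodP 2 ps → GoodS X S →
    ∀ γ u h : ℕ, prm (PM X ε S ps) ≤ u → u ≤ 3 * prm (PM X ε S ps) → (h : ℝ) ≤ (Real.log X) ^ Λ →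
      ∑ c ∈ (Ioc ⌊X⌋₊ ⌊3 * X⌋₊).filter (fun c : ℕ => c ≡ γ [MOD prm (PM X ε S ps)]), (cnt g (c : ℤ) u h : ℝ) ^ 2 ≤
        C * (X / prm (PM X ε S ps)) *
          ((surv g (PM X ε S ps) (γ : ℤ) u h *
              (prm (PM X ε S ps) / ((Nat.totient (prm (PM X ε S ps)) : ℝ) * Real.log X))) ^ 2 +
            surv g (PM X ε S ps) (γ : ℤ) u h *
              (prm (PM X ε S ps) / ((Nat.totient (prm (PM X ε S ps)) : ℝ) * Real.log X)))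

/-- TL: the rest of the product is close to 1 for most constant terms of the class -/
def S_TL : Prop := ∀ (g : ℤ[X]) (ε η : ℝ), 0 < g.natDegree → 0 < ε → ε ≤ 1 / 2 → 0 < η →
  ∃ (Z : ℕ) (X0 : ℝ), ∀ X : ℝ, X0 ≤ X → ∀ (ps : ℕ) (S : Finset ℕ), GoodP Z ps → GoodS X S →
    ∀ γ w : ℕ, Real.log X ≤ w → (w : ℝ) ≤ X ^ (1 / 4 : ℝ) →
      (Nat.card {c : ℕ // c ∈ Icc 1 ⌊3 * X⌋₊ ∧ c ≡ γ [MOD prm (PM X ε S ps)] ∧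
        ¬ |bh g (prs w) (c : ℤ) - bh g (PM X ε S ps) (γ : ℤ)| ≤ η * bh g (PM X ε S ps) (γ : ℤ)} : ℝ) ≤
        η * (X / prm (PM X ε S ps))

/-- MT: the parameters (Mertens) -/
def S_MT : Prop := ∀ (k : ℕ) (ε : ℝ), 2 ≤ k → 0 < ε → ε ≤ 1 / 2 → ∃ c0 : ℝ, 0 < c0 ∧ ∀ y0 : ℕ,
  ∃ X0 : ℝ, ∀ X : ℝ, X0 ≤ X → ∀ (ps : ℕ) (S : Finset ℕ), GoodP 1 ps → GoodS X S →
    ∃ y R H : ℕ, y0 ≤ y ∧ y0 ≤ R ∧ (zz X ε) ^ k * R ≤ H ∧ H < y ^ (k + 1) ∧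
      c0 ≤ ∑ p ∈ (PM X ε S ps).filter (fun p => y < p), (1 : ℝ) / p ∧
      ∑ p ∈ (PM X ε S ps).filter (fun p => y < p), (1 : ℝ) / p ≤ 1 ∧
      (Real.log X) ^ ((k : ℝ) * ε) ≤ H ∧ (H : ℝ) ≤ (Real.log X) ^ (((k : ℝ) + 1) * ε)

/-- WM: size of the modulus and of `φ(W)/W` -/
def S_WM : Prop := ∀ ε : ℝ, 0 < ε → ε ≤ 1 / 2 → ∃ c X0 : ℝ, 0 < c ∧ ∀ X : ℝ, X0 ≤ X →
  ∀ (ps : ℕ) (S : Finset ℕ),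
    (prm (PM X ε S ps) : ℝ) ≤ Real.exp (2 * (Real.log X) ^ ε) ∧
    c / Real.log (Real.log X) ≤ ∏ p ∈ PM X ε S ps, (1 - 1 / (p : ℝ)) ∧
    ((Nat.totient (prm (PM X ε S ps)) : ℝ) = prm (PM X ε S ps) * ∏ p ∈ PM X ε S ps, (1 - 1 / (p : ℝ))) ∧
    (∀ γ : ℕ, |∑ c ∈ (Icc 1 ⌊3 * X⌋₊).filter (fun c : ℕ => c ≡ γ [MOD prm (PM X ε S ps)]), Phi (c / X) -
      MX X / prm (PM X ε S ps)| ≤ 5) ∧
    X / 10 ≤ MX X ∧ MX X ≤ X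

/-! ### Assembly -/

/-- ASM: the theorem for one parity, in terms of real `X` -/
def S_ASM : Prop := ∀ (g : ℤ[X]) (Λ ε : ℝ), 0 < g.natDegree → 0 < g.leadingCoeff → 1 ≤ Λ → 0 < ε → ε ≤ 1 / 2 →
  ∃ δ κ K X0 : ℝ, 0 < δ ∧ δ < 1 ∧ 0 < κ ∧ ∀ X : ℝ, X0 ≤ X → ∀ h w : ℕ,
    K * Real.log X ≤ h → (h : ℝ) ≤ 2 * (Real.log X) ^ Λ → Real.log X ≤ w → (w : ℝ) ≤ X ^ (1 / 4 : ℝ) →
    κ * X ≤ Nat.card {c : ℕ // c ∈ Ioc ⌊X⌋₊ ⌊3 * X⌋₊ ∧ 0 < bh g (prs w) (c : ℤ) ∧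
      ∃ u : ℕ, (u : ℝ) ≤ Real.exp (5 * (Real.log X) ^ ε) ∧
        (1 + δ) * (bh g (prs w) (c : ℤ) * (h / Real.log X)) ≤ cnt g (c : ℤ) u h} ∧
    κ * X ≤ Nat.card {c : ℕ // c ∈ Ioc ⌊X⌋₊ ⌊3 * X⌋₊ ∧ 0 < bh g (prs w) (c : ℤ) ∧
      ∃ u : ℕ, (u : ℝ) ≤ Real.exp (5 * (Real.log X) ^ ε) ∧
        (cnt g (c : ℤ) u h : ℝ) ≤ (1 - δ) * (bh g (prs w) (c : ℤ) * (h / Real.log X))}

end Pool.Agent.N785.MG
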