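import Pool.Agent.N785.MG.Stm

/-!
Project MG (helper785), part T1: the mean of `∏ e_p(r)` (by helper273).
-/

open Finset Polynomial

namespace Pool.Agent.N785.MG

namespace T1_

theorem per {f : ℕ → ℝ} {p : ℕ} (h : ∀ r, f (r + p) = f r) (s : ℕ) : f (p * s) = f 0 := by
  induction s with
  | zero => rw [mul_zero]
  | succ s ih => rw [mul_add, mul_one, h, ih]

theorem sum_th {p : ℕ} (hp : 0 < p) (f : ℕ → ℝ) (hf : ∑ r ∈ range p, f r = p) :
    ∑ r ∈ range p, (if p ∣ r then (0 : ℝ) else f r - 1) = 1 - f 0 := by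
  have h1 : ∀ r ∈ range p, (if p ∣ r then (0 : ℝ) else f r - 1) =
      (f r - 1) - (if r = 0 then f 0 - 1 else 0) := by
    intro r hr
    rw [mem_range] at hr
    by_cases h0 : r = 0
    · subst h0
      simp
    · rw [if_neg h0, if_neg (fun h => h0 (Nat.eq_zero_of_dvd_of_lt h hr)), sub_zero]
  rw [Finset.sum_congr rfl h1, Finset.sum_sub_distrib, Finset.sum_sub_distrib, hf,
    Finset.sum_const, card_range, nsmul_eq_mul, mul_one, Finset.sum_ite_eq' (range p) 0,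
    if_pos (mem_range.2 hp)]
  ring

theorem prod_split (PL : Finset ℕ) (e : ℕ → ℕ → ℝ) (r : ℕ)
    (hper : ∀ p ∈ PL, ∀ r, e p (r + p) = e p r) :
    ∏ p ∈ PL, e p r = (∏ p ∈ PL, (1 + (if p ∣ r then (0 : ℝ) else e p r - 1))) *
      ∏ p ∈ PL.filter (fun p => p ∣ r), (1 - (1 - e p 0)) := by
  rw [Finset.prod_filter, ← Finset.prod_mul_distrib]
  refine Finset.prod_congr rfl fun p hp => ?_
  by_cases h : p ∣ r
  · obtain ⟨s, rfl⟩ := h
    rw [if_pos (dvd_mul_right _ _), if_pos (dvd_mul_right _ _), per (hper p hp)]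
    ring
  · rw [if_neg h, if_neg h]
    ring

end T1_

theorem t_T1 (ha : S_T1a) (hb : S_T1b) (hc : S_T1c) : S_T1 := by
  intro k C c0 hk hC hc0
  obtain ⟨C2, y1, hC2, hA⟩ := ha C hC
  obtain ⟨δ1, y2, hδ1, hB⟩ := hc k c0 hc0
  obtain ⟨y3, hy3⟩ := exists_nat_ge (2 * (4 * (C2 + 1) / δ1) ^ 2 + 12 / δ1 + 1)
  refine ⟨δ1 / 2, max (max y1 y2) y3, by positivity, ?_⟩
  intro y z R H PL e hy hR hPL hzH hH hsum hc0' he0 hper hmean hCe
  have hy1 : y1 ≤ y := (le_max_left _ _).trans ((le_max_left _ _).trans hy)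
  have hy2 : y2 ≤ y := (le_max_right _ _).trans ((le_max_left _ _).trans hy)
  have hy3' : y3 ≤ y := (le_max_right _ _).trans hy
  have hR3 : y3 ≤ R := (le_max_right _ _).trans hR
  have hq : 0 ≤ 2 * (4 * (C2 + 1) / δ1) ^ 2 := by positivity
  have hq2 : 0 ≤ 12 / δ1 := by positivity
  have hy3pos : 1 ≤ y3 := by
    have : (1 : ℝ) ≤ y3 := by linarith
    exact_mod_cast this
  have hyp : 1 ≤ y := hy3pos.trans hy3'
  have hRp : 1 ≤ R := hy3pos.trans hR3
  have hyR : (0 : ℝ) < y := by exact_mod_cast hyp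
  have hRR : (0 : ℝ) < R := by exact_mod_cast hRp
  have hy3R : (y3 : ℝ) ≤ y := by exact_mod_cast hy3'
  have hR3R : (y3 : ℝ) ≤ R := by exact_mod_cast hR3
  have hne : PL.Nonempty := by
    by_contra h
    rw [Finset.not_nonempty_iff_eq_empty] at h
    rw [h, Finset.sum_empty] at hc0'
    linarith
  obtain ⟨p0, hp0⟩ := hne
  have hz1 : 1 ≤ z := by
    obtain ⟨-, h1, h2⟩ := hPL p0 hp0
    omega
  have hz2 : z ^ 2 * R ≤ H := (Nat.mul_le_mul_right _ (Nat.pow_le_pow_right hz1 hk)).trans hzH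
  set x : ℕ → ℝ := fun p => (1 - e p 0) / p with hx
  set th : ℕ → ℕ → ℝ := fun p r => if p ∣ r then (0 : ℝ) else e p r - 1 with hth
  have hpp : ∀ p ∈ PL, (0 : ℝ) < p := fun p hp => by exact_mod_cast (hPL p hp).1.pos
  have hx01 : ∀ p ∈ PL, 0 ≤ x p ∧ x p ≤ 1 / p := by
    intro p hp
    obtain ⟨h0, h1⟩ := he0 p hp
    refine ⟨div_nonneg (by linarith) (hpp p hp).le, ?_⟩
    exact div_le_div_of_nonneg_right (by linarith) (hpp p hp).le
  set E : ℝ := Real.exp (∑ p ∈ PL, x p) with hE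
  have hE0 : 0 < E := Real.exp_pos _
  have hE3 : E ≤ 3 := by
    have h1 : ∑ p ∈ PL, x p ≤ 1 := (Finset.sum_le_sum fun p hp => (hx01 p hp).2).trans hsum
    have h2 : E ≤ Real.exp 1 := Real.exp_le_exp.2 h1
    have h3 := Real.exp_one_lt_d9
    linarith
  -- T1a
  have hAa := hA y z R H PL th x hy1 hyp hRp hPL hz2 hsum
    (by
      intro p hp r
      simp only [hth]
      have h1 : p ∣ r + p ↔ p ∣ r := Nat.dvd_add_self_right
      by_cases h : p ∣ r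
      · rw [if_pos h, if_pos (h1.2 h)]
      · rw [if_neg h, if_neg (fun h' => h (h1.1 h')), hper p hp])
    (by
      intro p hp r
      simp only [hth]
      by_cases h : p ∣ r
      · rw [if_pos h, abs_zero]
        exact div_nonneg hC (hpp p hp).le
      · rw [if_neg h]
        exact hCe p hp r h)
    hx01
    (by
      intro p hp
      simp only [hth, hx]
      rw [T1_.sum_th (hPL p hp).1.pos (e p) (hmean p hp)]
      have := (hpp p hp).ne'
      field_simp)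
  -- T1b
  have hBb := hb k y z H PL (fun p => 1 - e p 0) hPL
    (fun p hp => ⟨by linarith [(he0 p hp).2], by linarith [(he0 p hp).1]⟩) hH
  -- T1c
  have hCc := hB y PL x hy2 (fun p hp => (hPL p hp).2.1) hx01 hc0' hsum
  set A : ℝ := ∑ j ∈ range (k + 1), (-1 : ℝ) ^ j * ∑ D ∈ PL.powersetCard j, ∏ p ∈ D, x p with hAd
  have hBb' : |∑ r ∈ Icc 1 H, ∏ p ∈ PL.filter (fun p => p ∣ r), (1 - (1 - e p 0)) - H * A| ≤
      (z : ℝ) ^ k := hBb
  set G : ℕ → ℝ := fun r => ∏ p ∈ PL, (1 + th p r) with hG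
  set Q : ℕ → ℝ := fun r => ∏ p ∈ PL.filter (fun p => p ∣ r), (1 - (1 - e p 0)) with hQ
  have hQ01 : ∀ r, 0 ≤ Q r ∧ Q r ≤ 1 := by
    intro r
    constructor
    · refine Finset.prod_nonneg fun p hp => ?_
      have := he0 p (Finset.mem_filter.1 hp).1
      linarith
    · refine Finset.prod_le_one (fun p hp => ?_) fun p hp => ?_
      · have := he0 p (Finset.mem_filter.1 hp).1
        linarith
      · have := he0 p (Finset.mem_filter.1 hp).1
        linarith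
  have hS : ∑ r ∈ Icc 1 H, ∏ p ∈ PL, e p r = ∑ r ∈ Icc 1 H, G r * Q r :=
    Finset.sum_congr rfl fun r _ => T1_.prod_split PL e r hper
  have h1 : |∑ r ∈ Icc 1 H, G r * Q r - E * ∑ r ∈ Icc 1 H, Q r| ≤
      C2 * H * Real.sqrt (1 / y + 1 / R) := by
    refine le_trans ?_ hAa
    rw [Finset.mul_sum, ← Finset.sum_sub_distrib]
    refine (Finset.abs_sum_le_sum_abs _ _).trans (Finset.sum_le_sum fun r _ => ?_)
    rw [← sub_mul, abs_mul, abs_of_nonneg (hQ01 r).1]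
    exact mul_le_of_le_one_right (abs_nonneg _) (hQ01 r).2
  have hH0 : (0 : ℝ) ≤ H := Nat.cast_nonneg _
  have hzk : (z : ℝ) ^ k ≤ H / R := by
    rw [le_div_iff₀ hRR]
    exact_mod_cast hzH
  -- the square root
  have hsq : C2 * Real.sqrt (1 / y + 1 / R) ≤ δ1 / 4 := by
    have g1 : 1 / (y : ℝ) + 1 / R ≤ 2 / y3 := by
      have hy3p : (0 : ℝ) < y3 := by exact_mod_cast hy3pos
      have g2 : 1 / (y : ℝ) ≤ 1 / y3 := one_div_le_one_div_of_le hy3p hy3R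
      have g3 : 1 / (R : ℝ) ≤ 1 / y3 := one_div_le_one_div_of_le hy3p hR3R
      have g4 : 2 / (y3 : ℝ) = 1 / y3 + 1 / y3 := by ring
      linarith
    have hy3p : (0 : ℝ) < y3 := by exact_mod_cast hy3pos
    have g5 : 2 / (y3 : ℝ) ≤ (δ1 / (4 * (C2 + 1))) ^ 2 := by
      rw [div_le_iff₀ hy3p]
      have g6 : 2 * (4 * (C2 + 1) / δ1) ^ 2 ≤ y3 := by linarith
      have g7 : (δ1 / (4 * (C2 + 1))) ^ 2 * (2 * (4 * (C2 + 1) / δ1) ^ 2) = 2 := by
        have : C2 + 1 ≠ 0 := by linarith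
        field_simp
      calc (2 : ℝ) = (δ1 / (4 * (C2 + 1))) ^ 2 * (2 * (4 * (C2 + 1) / δ1) ^ 2) := g7.symm
        _ ≤ _ := mul_le_mul_of_nonneg_left g6 (by positivity)
    have g8 : Real.sqrt (1 / y + 1 / R) ≤ δ1 / (4 * (C2 + 1)) := by
      rw [← Real.sqrt_sq (by positivity : 0 ≤ δ1 / (4 * (C2 + 1)))]
      exact Real.sqrt_le_sqrt (g1.trans g5)
    calc C2 * Real.sqrt (1 / y + 1 / R) ≤ (C2 + 1) * (δ1 / (4 * (C2 + 1))) :=
          mul_le_mul (by linarith) g8 (Real.sqrt_nonneg _) (by linarith)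
      _ = δ1 / 4 := by
          have : C2 + 1 ≠ 0 := by linarith
          field_simp
  have hR4 : 3 / (R : ℝ) ≤ δ1 / 4 := by
    rw [div_le_iff₀ hRR]
    have g1 : 12 / δ1 ≤ R := by linarith
    rw [div_le_iff₀ hδ1] at g1
    linarith
  have h2 : |E * (∑ r ∈ Icc 1 H, Q r - H * A)| ≤ H * (3 / R) := by
    rw [abs_mul, abs_of_pos hE0]
    calc E * |∑ r ∈ Icc 1 H, Q r - H * A| ≤ 3 * (H / R) :=
          mul_le_mul hE3 (hBb'.trans hzk) (abs_nonneg _) (by norm_num)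
      _ = _ := by ring
  have h3 : H * (C2 * Real.sqrt (1 / y + 1 / R)) ≤ H * (δ1 / 4) := mul_le_mul_of_nonneg_left hsq hH0
  have h4 : (H : ℝ) * (3 / R) ≤ H * (δ1 / 4) := mul_le_mul_of_nonneg_left hR4 hH0
  have h5 : (H : ℝ) * δ1 ≤ H * ((-1 : ℝ) ^ k * (E * A - 1)) := mul_le_mul_of_nonneg_left hCc hH0
  have hsg : |(-1 : ℝ) ^ k| = 1 := by
    rw [abs_pow, abs_neg, abs_one, one_pow]
  have h6 : |(-1 : ℝ) ^ k * (∑ r ∈ Icc 1 H, G r * Q r - E * ∑ r ∈ Icc 1 H, Q r)| ≤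
      C2 * H * Real.sqrt (1 / y + 1 / R) := by
    rw [abs_mul, hsg, one_mul]
    exact h1
  have h7 : |(-1 : ℝ) ^ k * (E * (∑ r ∈ Icc 1 H, Q r - H * A))| ≤ H * (3 / R) := by
    rw [abs_mul, hsg, one_mul]
    exact h2
  have h8 := (abs_le.1 h6).1
  have h9 := (abs_le.1 h7).1
  have h10 : (-1 : ℝ) ^ k * (∑ r ∈ Icc 1 H, ∏ p ∈ PL, e p r - H) =
      (-1 : ℝ) ^ k * (∑ r ∈ Icc 1 H, G r * Q r - E * ∑ r ∈ Icc 1 H, Q r) +
      (-1 : ℝ) ^ k * (E * (∑ r ∈ Icc 1 H, Q r - H * A)) +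
      H * ((-1 : ℝ) ^ k * (E * A - 1)) := by
    rw [hS]
    ring
  rw [h10]
  have h11 : C2 * H * Real.sqrt (1 / y + 1 / R) = H * (C2 * Real.sqrt (1 / y + 1 / R)) := by ring
  rw [h11] at h8
  linarith

end Pool.Agent.N785.MG
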