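import Pool.Agent.N785.MG.Stm

/-! # Project MG, piece T1b (helper82 for helper785) -/

set_option autoImplicit false

open Finset Polynomial

namespace Pool.Agent.N785.MG

namespace T1b_

lemma sum_choose_le (n k : ℕ) : ∑ j ∈ range (k + 1), n.choose j ≤ (n + 1) ^ k := by
  induction k with
  | zero => simp
  | succ k ih =>
    rw [sum_range_succ]
    have h1 : n.choose (k + 1) ≤ n * (n + 1) ^ k := by
      refine (Nat.choose_le_pow n (k + 1)).trans ?_
      rw [pow_succ, mul_comm]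
      exact Nat.mul_le_mul_left n (Nat.pow_le_pow_left (Nat.le_succ n) k)
    calc _ ≤ (n + 1) ^ k + n * (n + 1) ^ k := Nat.add_le_add ih h1
      _ = (n + 1) ^ (k + 1) := by ring

lemma le_prod_pow {D : Finset ℕ} {y : ℕ} (h : ∀ p ∈ D, y < p) : y ^ D.card ≤ ∏ p ∈ D, p := by
  rw [← Finset.prod_const]
  exact Finset.prod_le_prod' fun p hp => (h p hp).le

lemma subset_filter_iff {PL D : Finset ℕ} (hP : ∀ p ∈ PL, p.Prime) (hD : D ⊆ PL) (r : ℕ) :
    D ⊆ PL.filter (fun p => p ∣ r) ↔ (∏ p ∈ D, p) ∣ r := by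
  constructor
  · intro h
    refine Finset.prod_primes_dvd r (fun p hp => (hP p (hD hp)).prime) fun p hp => ?_
    exact (Finset.mem_filter.1 (h hp)).2
  · intro h p hp
    exact Finset.mem_filter.2 ⟨hD hp, (Finset.dvd_prod_of_mem (fun p => p) hp).trans h⟩

lemma expand (k y z H : ℕ) (PL : Finset ℕ) (kap : ℕ → ℝ)
    (hP : ∀ p ∈ PL, p.Prime ∧ y < p ∧ p ≤ z) (hH : H < y ^ (k + 1)) (r : ℕ)
    (hr : r ∈ Icc 1 H) :
    ∏ p ∈ PL.filter (fun p => p ∣ r), (1 - kap p) =
      ∑ j ∈ range (k + 1), ∑ D ∈ PL.powersetCard j,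
        (if (∏ p ∈ D, p) ∣ r then (-1 : ℝ) ^ j * ∏ p ∈ D, kap p else 0) := by
  have hy : 1 ≤ y := by
    rcases Nat.eq_zero_or_pos y with h | h
    · subst h; simp at hH
    · exact h
  have h1 : ∏ p ∈ PL.filter (fun p => p ∣ r), (1 - kap p) =
      ∑ D ∈ (PL.filter (fun p => p ∣ r)).powerset, ∏ p ∈ D, (-kap p) := by
    rw [← Finset.prod_one_add]
    exact Finset.prod_congr rfl fun p _ => by ring
  have h2 : (PL.filter (fun p => p ∣ r)).powerset =
      PL.powerset.filter (fun D => (∏ p ∈ D, p) ∣ r) := by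
    ext D
    rw [Finset.mem_powerset, Finset.mem_filter, Finset.mem_powerset]
    constructor
    · intro h
      have hD : D ⊆ PL := h.trans (Finset.filter_subset _ _)
      exact ⟨hD, (subset_filter_iff (fun p hp => (hP p hp).1) hD r).1 h⟩
    · rintro ⟨hD, h⟩
      exact (subset_filter_iff (fun p hp => (hP p hp).1) hD r).2 h
  rw [h1, h2, Finset.sum_filter, Finset.sum_powerset]
  set G : ℕ → ℝ := fun j => ∑ D ∈ PL.powersetCard j,
    (if (∏ p ∈ D, p) ∣ r then ∏ p ∈ D, (-kap p) else 0) with hG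
  have h3 : ∀ j, G j = ∑ D ∈ PL.powersetCard j,
        (if (∏ p ∈ D, p) ∣ r then (-1 : ℝ) ^ j * ∏ p ∈ D, kap p else 0) := by
    intro j
    refine Finset.sum_congr rfl fun D hD => ?_
    rw [Finset.mem_powersetCard] at hD
    have : ∏ p ∈ D, (-kap p) = (-1 : ℝ) ^ j * ∏ p ∈ D, kap p := by
      rw [← hD.2, ← Finset.prod_const, ← Finset.prod_mul_distrib]
      exact Finset.prod_congr rfl fun p _ => by ring
    rw [this]
  have h4 : ∀ j, k + 1 ≤ j → G j = 0 := by
    intro j hj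
    refine Finset.sum_eq_zero fun D hD => ?_
    rw [Finset.mem_powersetCard] at hD
    rw [if_neg]
    intro hd
    have h5 := Nat.le_of_dvd (by rw [Finset.mem_Icc] at hr; omega) hd
    have h6 := le_prod_pow (D := D) (y := y) (fun p hp => (hP p (hD.1 hp)).2.1)
    rw [hD.2] at h6
    have h7 : y ^ (k + 1) ≤ y ^ j := Nat.pow_le_pow_right hy hj
    rw [Finset.mem_Icc] at hr
    omega
  have h5 : ∀ j, PL.card + 1 ≤ j → G j = 0 := by
    intro j hj
    rw [hG]
    simp only
    rw [Finset.powersetCard_eq_empty.2 (by omega), Finset.sum_empty]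
  have h6 : ∑ j ∈ range (PL.card + 1), G j = ∑ j ∈ range (k + 1), G j := by
    rcases le_total (PL.card + 1) (k + 1) with h | h
    · refine Finset.sum_subset (Finset.range_mono h) fun j _ hj => h5 j ?_
      rw [Finset.mem_range] at hj
      omega
    · refine (Finset.sum_subset (Finset.range_mono h) fun j _ hj => h4 j ?_).symm
      rw [Finset.mem_range] at hj
      omega
  rw [h6]
  exact Finset.sum_congr rfl fun j _ => h3 j

end T1b_

open T1b_ in
theorem t_T1b : S_T1b := by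
  intro k y z H PL kap hP hk hH
  have hy : 1 ≤ y := by
    rcases Nat.eq_zero_or_pos y with h | h
    · subst h; simp at hH
    · exact h
  have e1 : ∑ r ∈ Icc 1 H, ∏ p ∈ PL.filter (fun p => p ∣ r), (1 - kap p) =
      ∑ j ∈ range (k + 1), ∑ D ∈ PL.powersetCard j,
        ((-1 : ℝ) ^ j * ∏ p ∈ D, kap p) * ((H / ∏ p ∈ D, p : ℕ) : ℝ) := by
    rw [Finset.sum_congr rfl fun r hr => expand k y z H PL kap hP hH r hr, Finset.sum_comm]
    refine Finset.sum_congr rfl fun j _ => ?_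
    rw [Finset.sum_comm]
    refine Finset.sum_congr rfl fun D _ => ?_
    rw [← Finset.sum_filter, Finset.sum_const, nsmul_eq_mul, mul_comm]
    congr 2
    exact Nat.Ioc_filter_dvd_card_eq_div H _
  have e2 : (H : ℝ) * ∑ j ∈ range (k + 1), (-1 : ℝ) ^ j * ∑ D ∈ PL.powersetCard j,
      ∏ p ∈ D, (kap p / p) = ∑ j ∈ range (k + 1), ∑ D ∈ PL.powersetCard j,
        ((-1 : ℝ) ^ j * ∏ p ∈ D, kap p) * ((H : ℝ) / ((∏ p ∈ D, p : ℕ) : ℝ)) := by
    rw [Finset.mul_sum]
    refine Finset.sum_congr rfl fun j _ => ?_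
    rw [Finset.mul_sum, Finset.mul_sum]
    refine Finset.sum_congr rfl fun D _ => ?_
    rw [Finset.prod_div_distrib, Nat.cast_prod]
    ring
  rw [e1, e2, ← Finset.sum_sub_distrib]
  have e3 : ∀ j ∈ range (k + 1), |∑ D ∈ PL.powersetCard j,
        ((-1 : ℝ) ^ j * ∏ p ∈ D, kap p) * ((H / ∏ p ∈ D, p : ℕ) : ℝ) -
        ∑ D ∈ PL.powersetCard j,
        ((-1 : ℝ) ^ j * ∏ p ∈ D, kap p) * ((H : ℝ) / ((∏ p ∈ D, p : ℕ) : ℝ))| ≤
        if j = 0 then 0 else (PL.card.choose j : ℝ) := by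
    intro j _
    rw [← Finset.sum_sub_distrib]
    split_ifs with hj
    · subst hj
      simp
    · refine (Finset.abs_sum_le_sum_abs _ _).trans ?_
      have hcc : (PL.card.choose j : ℝ) = ∑ _D ∈ PL.powersetCard j, (1 : ℝ) := by
        rw [Finset.sum_const, Finset.card_powersetCard, nsmul_eq_mul, mul_one]
      rw [hcc]
      refine Finset.sum_le_sum fun D hD => ?_
      rw [Finset.mem_powersetCard] at hD
      rw [← mul_sub, abs_mul, abs_mul, abs_pow, abs_neg, abs_one, one_pow, one_mul]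
      have h1 : |∏ p ∈ D, kap p| ≤ 1 := by
        rw [Finset.abs_prod]
        refine Finset.prod_le_one (fun p _ => abs_nonneg _) fun p hp => ?_
        rw [abs_of_nonneg (hk p (hD.1 hp)).1]
        exact (hk p (hD.1 hp)).2
      have hN : 0 < ∏ p ∈ D, p := Finset.prod_pos fun p hp => (hP p (hD.1 hp)).1.pos
      have h2 : |((H / ∏ p ∈ D, p : ℕ) : ℝ) - (H : ℝ) / ((∏ p ∈ D, p : ℕ) : ℝ)| ≤ 1 := by
        rw [abs_sub_le_iff]
        constructor
        · have := @Nat.cast_div_le ℝ _ _ _ H (∏ p ∈ D, p)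
          linarith
        · have h3 := Nat.lt_div_mul_add (a := H) hN
          have h4 : (H : ℝ) < ((H / ∏ p ∈ D, p : ℕ) : ℝ) * ((∏ p ∈ D, p : ℕ) : ℝ)
              + ((∏ p ∈ D, p : ℕ) : ℝ) := by exact_mod_cast h3
          have hN' : (0 : ℝ) < ((∏ p ∈ D, p : ℕ) : ℝ) := by exact_mod_cast hN
          rw [sub_le_iff_le_add, div_le_iff₀ hN']
          nlinarith
      calc |∏ p ∈ D, kap p| * |((H / ∏ p ∈ D, p : ℕ) : ℝ) - (H : ℝ) / ((∏ p ∈ D, p : ℕ) : ℝ)|
          ≤ 1 * 1 := mul_le_mul h1 h2 (abs_nonneg _) zero_le_one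
        _ = 1 := one_mul 1
  refine (Finset.abs_sum_le_sum_abs _ _).trans ((Finset.sum_le_sum e3).trans ?_)
  rcases PL.eq_empty_or_nonempty with h0 | h0
  · subst h0
    have : ∑ j ∈ range (k + 1), (if j = 0 then (0 : ℝ) else (((∅ : Finset ℕ).card.choose j : ℕ) : ℝ))
        = 0 := by
      refine Finset.sum_eq_zero fun j _ => ?_
      split_ifs with hj
      · rfl
      · rw [Finset.card_empty, Nat.choose_eq_zero_of_lt (by omega)]
        simp
    rw [this]
    positivity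
  · have hc : PL.card + 1 ≤ z := by
      have h1 : PL ⊆ Ioc y z := fun p hp => Finset.mem_Ioc.2 (hP p hp).2
      have h2 := Finset.card_le_card h1
      rw [Nat.card_Ioc] at h2
      obtain ⟨p, hp⟩ := h0
      have h3 := (hP p hp).2
      omega
    calc ∑ j ∈ range (k + 1), (if j = 0 then (0 : ℝ) else (PL.card.choose j : ℝ))
        ≤ ∑ j ∈ range (k + 1), (PL.card.choose j : ℝ) := by
          refine Finset.sum_le_sum fun j _ => ?_
          split_ifs
          · positivity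
          · exact le_rfl
      _ = ((∑ j ∈ range (k + 1), PL.card.choose j : ℕ) : ℝ) := by rw [Nat.cast_sum]
      _ ≤ (((PL.card + 1) ^ k : ℕ) : ℝ) := by exact_mod_cast sum_choose_le _ _
      _ ≤ ((z ^ k : ℕ) : ℝ) := by exact_mod_cast Nat.pow_le_pow_left hc k
      _ = (z : ℝ) ^ k := by push_cast; rfl

end Pool.Agent.N785.MG
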