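import Pool.Agent.N785.MG.Stm

/-!
Project MG: the truncated alternating sum of the elementary symmetric functions.
-/

set_option autoImplicit false

open Finset

namespace Pool.Agent.N785.MG.T1c_

/-! ### Elementary symmetric functions -/

/-- elementary symmetric functions of the family `x` on `S` -/
noncomputable def es (x : ℕ → ℝ) (S : Finset ℕ) (j : ℕ) : ℝ :=
  ∑ D ∈ S.powersetCard j, ∏ p ∈ D, x p

theorem es_zero (x : ℕ → ℝ) (S : Finset ℕ) : es x S 0 = 1 := by
  unfold es
  rw [powersetCard_zero, sum_singleton, prod_empty]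

theorem es_insert (x : ℕ → ℝ) (S : Finset ℕ) (q : ℕ) (hq : q ∉ S) (j : ℕ) :
    es x (insert q S) (j + 1) = es x S (j + 1) + x q * es x S j := by
  unfold es
  rw [powersetCard_succ_insert hq, sum_union, sum_image, mul_sum]
  · congr 1
    apply sum_congr rfl
    intro D hD
    rw [mem_powersetCard] at hD
    rw [prod_insert fun h => hq (hD.1 h)]
  · intro D hD E hE hDE
    simp only [mem_coe, mem_powersetCard] at hD hE
    have h1 : q ∉ D := fun h => hq (hD.1 h)
    have h2 : q ∉ E := fun h => hq (hE.1 h)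
    rw [← erase_insert h1, ← erase_insert h2]
    rw [hDE]
  · rw [disjoint_left]
    intro D hD hE
    rw [mem_powersetCard] at hD
    rw [mem_image] at hE
    obtain ⟨E, _, rfl⟩ := hE
    exact hq (hD.1 (mem_insert_self _ _))

theorem es_empty (x : ℕ → ℝ) (j : ℕ) : es x ∅ (j + 1) = 0 := by
  unfold es
  rw [powersetCard_eq_empty.2 (by simp), sum_empty]

/-- `M^j / j!` -/
noncomputable def P (j : ℕ) (M : ℝ) : ℝ := M ^ j / (Nat.factorial j : ℝ)

theorem P_zero (M : ℝ) : P 0 M = 1 := by simp [P]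

theorem P_succ (j : ℕ) (M : ℝ) : P (j + 1) M = M / ((j : ℝ) + 1) * P j M := by
  unfold P
  rw [Nat.factorial_succ]
  push_cast
  have h1 : (Nat.factorial j : ℝ) ≠ 0 := by positivity
  have h2 : ((j : ℝ) + 1) ≠ 0 := by positivity
  field_simp
  ring

theorem P_nonneg (j : ℕ) {M : ℝ} (hM : 0 ≤ M) : 0 ≤ P j M := by
  unfold P
  positivity

theorem P_le_one (j : ℕ) {M : ℝ} (hM : 0 ≤ M) (hM1 : M ≤ 1) : P j M ≤ 1 := by
  induction j with
  | zero => rw [P_zero]
  | succ j ih =>
    rw [P_succ]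
    have h1 : M / ((j : ℝ) + 1) ≤ 1 := by
      rw [div_le_one (by positivity)]
      have : (0 : ℝ) ≤ j := Nat.cast_nonneg j
      linarith
    calc M / ((j : ℝ) + 1) * P j M ≤ 1 * 1 :=
          mul_le_mul h1 ih (P_nonneg j hM) zero_le_one
      _ = 1 := one_mul 1

/-- Taylor expansion with remainder -/
theorem P_add (j : ℕ) {M t : ℝ} (hM : 0 ≤ M) (ht : 0 ≤ t) (h1 : M + t ≤ 1) :
    P (j + 1) M + t * P j M ≤ P (j + 1) (M + t) ∧
      P (j + 1) (M + t) ≤ P (j + 1) M + t * P j M + t ^ 2 := by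
  induction j with
  | zero =>
    rw [P_succ, P_succ, P_zero, P_zero]
    norm_num
    positivity
  | succ j ih =>
    obtain ⟨ih1, ih2⟩ := ih
    have hj : (0 : ℝ) < (j : ℝ) + 1 + 1 := by positivity
    have e1 : P (j + 1 + 1) (M + t) = (M + t) / ((j : ℝ) + 1 + 1) * P (j + 1) (M + t) := by
      rw [P_succ]
      push_cast
      rfl
    have e2 : P (j + 1 + 1) M = M / ((j : ℝ) + 1 + 1) * P (j + 1) M := by
      rw [P_succ]
      push_cast
      rfl
    have e3 : M * P j M = ((j : ℝ) + 1) * P (j + 1) M := by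
      rw [P_succ]
      field_simp
    have h2 : (0 : ℝ) ≤ (M + t) / ((j : ℝ) + 1 + 1) := by positivity
    have hP : 0 ≤ P j M := P_nonneg j hM
    have hP1 : P j M ≤ 1 := P_le_one j hM (by linarith)
    have e4 : (M + t) / ((j : ℝ) + 1 + 1) * (P (j + 1) M + t * P j M) =
        M / ((j : ℝ) + 1 + 1) * P (j + 1) M + t * P (j + 1) M +
          t ^ 2 / ((j : ℝ) + 1 + 1) * P j M := by
      have e5 : (M + t) * (P (j + 1) M + t * P j M) =
          M * P (j + 1) M + ((j : ℝ) + 1 + 1) * (t * P (j + 1) M) + t ^ 2 * P j M := by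
        linear_combination t * e3
      field_simp
      linear_combination e5
    constructor
    · rw [e1, e2]
      refine le_trans ?_ (mul_le_mul_of_nonneg_left ih1 h2)
      rw [e4]
      have : 0 ≤ t ^ 2 / ((j : ℝ) + 1 + 1) * P j M := by positivity
      linarith
    · rw [e1, e2]
      refine le_trans (mul_le_mul_of_nonneg_left ih2 h2) ?_
      rw [mul_add, e4]
      have h3 : t ^ 2 / ((j : ℝ) + 1 + 1) * P j M + (M + t) / ((j : ℝ) + 1 + 1) * t ^ 2 ≤ t ^ 2 := by
        have h4 : t ^ 2 / ((j : ℝ) + 1 + 1) * P j M + (M + t) / ((j : ℝ) + 1 + 1) * t ^ 2 =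
            t ^ 2 * ((P j M + (M + t)) / ((j : ℝ) + 1 + 1)) := by ring
        rw [h4]
        apply mul_le_of_le_one_right (sq_nonneg t)
        rw [div_le_one hj]
        have : (0 : ℝ) ≤ j := Nat.cast_nonneg j
        linarith
      linarith

/-- the elementary symmetric functions are close to `M^j / j!` -/
theorem es_close (x : ℕ → ℝ) (S : Finset ℕ) (hx : ∀ p ∈ S, 0 ≤ x p) (hM : ∑ p ∈ S, x p ≤ 1)
    (j : ℕ) : 0 ≤ P j (∑ p ∈ S, x p) - es x S j ∧
      P j (∑ p ∈ S, x p) - es x S j ≤ (∑ p ∈ S, x p ^ 2) * (1 + ∑ p ∈ S, x p) ^ j := by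
  induction S using Finset.induction_on generalizing j with
  | empty =>
    rcases j with _ | j
    · rw [es_zero, P_zero]
      simp
    · rw [es_empty]
      simp [P]
  | insert q S hq ih =>
    rw [sum_insert hq] at hM ⊢
    rw [sum_insert hq]
    have hq0 : 0 ≤ x q := hx q (mem_insert_self _ _)
    have hS : ∀ p ∈ S, 0 ≤ x p := fun p hp => hx p (mem_insert_of_mem hp)
    have hM0 : 0 ≤ ∑ p ∈ S, x p := sum_nonneg hS
    have hV0 : 0 ≤ ∑ p ∈ S, x p ^ 2 := sum_nonneg fun p _ => sq_nonneg _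
    have hih := ih hS (by linarith)
    set M := ∑ p ∈ S, x p with hMdef
    set V := ∑ p ∈ S, x p ^ 2 with hVdef
    set t := x q with htdef
    rcases j with _ | j
    · rw [es_zero, P_zero]
      simp only [sub_self, pow_zero, mul_one, le_refl, true_and]
      positivity
    · rw [es_insert x S q hq, add_comm t M]
      obtain ⟨a1, a2⟩ := hih (j + 1)
      obtain ⟨b1, b2⟩ := hih j
      obtain ⟨c1, c2⟩ := P_add j hM0 hq0 (by linarith)
      constructor
      · have : 0 ≤ t * (P j M - es x S j) := mul_nonneg hq0 b1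
        linarith
      · have h1 : P (j + 1) (M + t) - (es x S (j + 1) + t * es x S j) ≤
            V * (1 + M) ^ (j + 1) + t * (V * (1 + M) ^ j) + t ^ 2 := by
          have : t * (P j M - es x S j) ≤ t * (V * (1 + M) ^ j) :=
            mul_le_mul_of_nonneg_left b2 hq0
          linarith
        refine le_trans h1 ?_
        have h2 : (1 + M) ^ j ≤ (1 + (M + t)) ^ j :=
          pow_le_pow_left₀ (by linarith) (by linarith) j
        have h3 : (1 + M) ^ j * (1 + M + t) ≤ (1 + (M + t)) ^ (j + 1) := by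
          rw [pow_succ]
          have : 1 + (M + t) = 1 + M + t := by ring
          rw [this] at h2 ⊢
          exact mul_le_mul_of_nonneg_right h2 (by linarith)
        have h4 : 1 ≤ (1 + (M + t)) ^ (j + 1) := one_le_pow₀ (by linarith)
        calc V * (1 + M) ^ (j + 1) + t * (V * (1 + M) ^ j) + t ^ 2
            = t ^ 2 * 1 + V * ((1 + M) ^ j * (1 + M + t)) := by ring
          _ ≤ t ^ 2 * (1 + (M + t)) ^ (j + 1) + V * (1 + (M + t)) ^ (j + 1) :=
              add_le_add (mul_le_mul_of_nonneg_left h4 (sq_nonneg t))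
                (mul_le_mul_of_nonneg_left h3 hV0)
          _ = (t ^ 2 + V) * (1 + (M + t)) ^ (j + 1) := by ring

/-! ### The exponential function -/

/-- the remainder of the exponential series, with sign -/
noncomputable def G (k : ℕ) (t : ℝ) : ℝ :=
  (-1) ^ k * (∑ j ∈ range (k + 1), (-1) ^ j * P j t - Real.exp (-t))

theorem G_succ (k : ℕ) (t : ℝ) : G (k + 1) t = P (k + 1) t - G k t := by
  unfold G
  rw [sum_range_succ _ (k + 1)]
  have h : ((-1 : ℝ) ^ (k + 1)) * (-1) ^ (k + 1) = 1 := by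
    rw [← mul_pow]
    norm_num
  have e : (-1 : ℝ) ^ (k + 1) = -(-1) ^ k := by rw [pow_succ]; ring
  calc (-1 : ℝ) ^ (k + 1) * (∑ j ∈ range (k + 1), (-1) ^ j * P j t + (-1) ^ (k + 1) * P (k + 1) t -
        Real.exp (-t))
      = ((-1 : ℝ) ^ (k + 1) * (-1) ^ (k + 1)) * P (k + 1) t +
          (-1 : ℝ) ^ (k + 1) * (∑ j ∈ range (k + 1), (-1) ^ j * P j t - Real.exp (-t)) := by ring
    _ = P (k + 1) t - (-1) ^ k * (∑ j ∈ range (k + 1), (-1) ^ j * P j t - Real.exp (-t)) := by
        rw [h, e]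
        ring

theorem hasDerivAt_P (j : ℕ) (t : ℝ) : HasDerivAt (P (j + 1)) (P j t) t := by
  unfold P
  have h := (hasDerivAt_pow (j + 1) t).div_const (Nat.factorial (j + 1) : ℝ)
  refine h.congr_deriv ?_
  rw [Nat.factorial_succ]
  push_cast
  have h1 : (Nat.factorial j : ℝ) ≠ 0 := by positivity
  have h2 : ((j : ℝ) + 1) ≠ 0 := by positivity
  field_simp

theorem G_zero (t : ℝ) : G 0 t = 1 - Real.exp (-t) := by
  unfold G
  simp [P_zero]

theorem hasDerivAt_G (k : ℕ) : ∀ t : ℝ, HasDerivAt (G (k + 1)) (G k t) t := by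
  induction k with
  | zero =>
    intro t
    have h0 : G (0 + 1) = fun t => P (0 + 1) t - (1 - Real.exp (-t)) := by
      funext s
      rw [G_succ, G_zero]
    rw [h0]
    have h1 := (hasDerivAt_P 0 t)
    have h2 : HasDerivAt (fun s : ℝ => 1 - Real.exp (-s)) (Real.exp (-t)) t := by
      have h3 : HasDerivAt (fun s : ℝ => Real.exp (-s)) (Real.exp (-t) * (-1)) t :=
        (hasDerivAt_neg t).exp
      exact (h3.const_sub 1).congr_deriv (by ring)
    refine (h1.sub h2).congr_deriv ?_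
    rw [P_zero, G_zero]
  | succ k ih =>
    intro t
    have h0 : G (k + 1 + 1) = fun t => P (k + 1 + 1) t - G (k + 1) t := by
      funext s
      rw [G_succ]
    rw [h0]
    refine ((hasDerivAt_P (k + 1) t).sub (ih t)).congr_deriv ?_
    rw [G_succ]

theorem G_at_zero (k : ℕ) : G k 0 = 0 := by
  induction k with
  | zero => rw [G_zero]; simp
  | succ k ih =>
    rw [G_succ, ih]
    unfold P
    simp

theorem G_nonneg (k : ℕ) : ∀ t : ℝ, 0 ≤ t → 0 ≤ G k t := by
  induction k with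
  | zero =>
    intro t ht
    rw [G_zero]
    have : Real.exp (-t) ≤ 1 := Real.exp_le_one_iff.2 (by linarith)
    linarith
  | succ k ih =>
    intro t ht
    have hmono : MonotoneOn (G (k + 1)) (Set.Ici 0) := by
      apply monotoneOn_of_hasDerivWithinAt_nonneg (convex_Ici 0) (f' := G k)
      · intro s _
        exact (hasDerivAt_G k s).continuousAt.continuousWithinAt
      · intro s _
        exact (hasDerivAt_G k s).hasDerivWithinAt
      · intro s hs
        rw [interior_Ici] at hs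
        exact ih s (le_of_lt hs)
    have h := hmono (Set.mem_Ici.2 le_rfl) (Set.mem_Ici.2 ht) ht
    rwa [G_at_zero] at h

theorem G_ge (k : ℕ) {t : ℝ} (ht : 0 ≤ t) (ht1 : t ≤ 1) : P (k + 1) t / 2 ≤ G k t := by
  have h1 := G_nonneg (k + 1 + 1) t ht
  have h2 := G_succ (k + 1) t
  have h3 := G_succ k t
  have h4 : P (k + 1 + 1) t ≤ P (k + 1) t / 2 := by
    rw [P_succ]
    have h5 : t / (((k + 1 : ℕ) : ℝ) + 1) ≤ 1 / 2 := by
      rw [div_le_div_iff₀ (by positivity) (by norm_num)]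
      push_cast
      have : (0 : ℝ) ≤ k := Nat.cast_nonneg k
      nlinarith
    have h6 := mul_le_mul_of_nonneg_right h5 (P_nonneg (k + 1) ht)
    linarith
  linarith

end Pool.Agent.N785.MG.T1c_

namespace Pool.Agent.N785.MG

open T1c_

theorem t_T1c : S_T1c := by
  intro k c0 hc0
  set δ : ℝ := P (k + 1) c0 / 4 with hδ
  have hδ0 : 0 < δ := by
    rw [hδ]
    unfold P
    positivity
  refine ⟨δ, ⌈(2 : ℝ) ^ (k + 1) / δ⌉₊ + 1, hδ0, ?_⟩
  intro y PL x hy hPL hx hM hs
  have hy1 : (1 : ℝ) ≤ y := by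
    have : 1 ≤ y := by omega
    exact_mod_cast this
  have hyδ : (2 : ℝ) ^ (k + 1) / δ ≤ y := by
    have h1 : ⌈(2 : ℝ) ^ (k + 1) / δ⌉₊ ≤ y := by omega
    exact (Nat.ceil_le).1 h1
  set M := ∑ p ∈ PL, x p with hMdef
  have hM1 : M ≤ 1 := le_trans (sum_le_sum fun p hp => (hx p hp).2) hs
  have hM0 : 0 ≤ M := le_trans hc0.le hM
  have hx0 : ∀ p ∈ PL, 0 ≤ x p := fun p hp => (hx p hp).1
  have hV : ∑ p ∈ PL, x p ^ 2 ≤ 1 / y := by
    calc ∑ p ∈ PL, x p ^ 2 ≤ ∑ p ∈ PL, x p * (1 / y) := by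
          apply sum_le_sum
          intro p hp
          rw [pow_two]
          apply mul_le_mul_of_nonneg_left _ (hx0 p hp)
          refine le_trans (hx p hp).2 ?_
          apply one_div_le_one_div_of_le (by linarith)
          exact_mod_cast (hPL p hp).le
      _ = M * (1 / y) := by rw [← sum_mul]
      _ ≤ 1 * (1 / y) := mul_le_mul_of_nonneg_right hM1 (by positivity)
      _ = 1 / y := one_mul _
  have hV0 : 0 ≤ ∑ p ∈ PL, x p ^ 2 := sum_nonneg fun p _ => sq_nonneg _
  have hD : ∀ j ∈ range (k + 1), |P j M - es x PL j| ≤ 1 / y * 2 ^ j := by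
    intro j _
    obtain ⟨h1, h2⟩ := es_close x PL hx0 hM1 j
    rw [abs_of_nonneg h1]
    refine le_trans h2 ?_
    apply mul_le_mul hV _ (by positivity) (by positivity)
    exact pow_le_pow_left₀ (by positivity) (by linarith) j
  have hsum : |∑ j ∈ range (k + 1), (-1 : ℝ) ^ j * (P j M - es x PL j)| ≤ 1 / y * 2 ^ (k + 1) := by
    refine le_trans (abs_sum_le_sum_abs _ _) ?_
    calc ∑ j ∈ range (k + 1), |(-1 : ℝ) ^ j * (P j M - es x PL j)|
        ≤ ∑ j ∈ range (k + 1), 1 / (y : ℝ) * 2 ^ j := by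
          apply sum_le_sum
          intro j hj
          rw [abs_mul, abs_pow, abs_neg, abs_one, one_pow, one_mul]
          exact hD j hj
      _ = 1 / y * ∑ j ∈ range (k + 1), (2 : ℝ) ^ j := by rw [mul_sum]
      _ ≤ 1 / y * 2 ^ (k + 1) := by
          apply mul_le_mul_of_nonneg_left _ (by positivity)
          have h := geom_sum_eq (by norm_num : (2 : ℝ) ≠ 1) (k + 1)
          rw [h]
          norm_num
  have hG : 2 * δ ≤ G k M := by
    refine le_trans ?_ (G_ge k hM0 hM1)
    have h1 : P (k + 1) c0 ≤ P (k + 1) M := by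
      unfold P
      apply div_le_div_of_nonneg_right _ (by positivity)
      exact pow_le_pow_left₀ hc0.le hM _
    rw [hδ]
    linarith
  have hsmall : 1 / (y : ℝ) * 2 ^ (k + 1) ≤ δ := by
    rw [div_le_iff₀ hδ0] at hyδ
    rw [one_div_mul_eq_div, div_le_iff₀ (by linarith)]
    linarith
  have hkey : (-1 : ℝ) ^ k * (Real.exp M *
      ∑ j ∈ range (k + 1), (-1 : ℝ) ^ j * ∑ D ∈ PL.powersetCard j, ∏ p ∈ D, x p - 1) =
      Real.exp M * (G k M - (-1) ^ k * ∑ j ∈ range (k + 1), (-1 : ℝ) ^ j * (P j M - es x PL j)) := by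
    have h1 : ∑ j ∈ range (k + 1), (-1 : ℝ) ^ j * (P j M - es x PL j) =
        ∑ j ∈ range (k + 1), (-1 : ℝ) ^ j * P j M -
          ∑ j ∈ range (k + 1), (-1 : ℝ) ^ j * es x PL j := by
      rw [← sum_sub_distrib]
      apply sum_congr rfl
      intro j _
      ring
    have h2 : Real.exp M * Real.exp (-M) = 1 := by
      rw [← Real.exp_add, add_neg_cancel, Real.exp_zero]
    have h3 : ∑ j ∈ range (k + 1), (-1 : ℝ) ^ j * ∑ D ∈ PL.powersetCard j, ∏ p ∈ D, x p =
        ∑ j ∈ range (k + 1), (-1 : ℝ) ^ j * es x PL j := rfl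
    rw [h1, h3]
    unfold G
    linear_combination ((-1 : ℝ) ^ k) * h2
  rw [hkey]
  have habs : |(-1 : ℝ) ^ k * ∑ j ∈ range (k + 1), (-1 : ℝ) ^ j * (P j M - es x PL j)| ≤ δ := by
    rw [abs_mul, abs_pow, abs_neg, abs_one, one_pow, one_mul]
    exact le_trans hsum hsmall
  have h4 : δ ≤ G k M - (-1) ^ k * ∑ j ∈ range (k + 1), (-1 : ℝ) ^ j * (P j M - es x PL j) := by
    have := (abs_le.1 habs).2
    linarith
  have h5 : 1 ≤ Real.exp M := Real.one_le_exp hM0
  calc δ = 1 * δ := (one_mul δ).symm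
    _ ≤ Real.exp M * (G k M - (-1) ^ k * ∑ j ∈ range (k + 1), (-1 : ℝ) ^ j * (P j M - es x PL j)) :=
        mul_le_mul h5 h4 hδ0.le (by linarith)

end Pool.Agent.N785.MG
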