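import Pool.Agent.N785.MG.Stm

/-!
Project MG (helper785), part T2a (helper187): the roots of `g + c` modulo `p`.
-/

open Finset Polynomial

namespace Pool.Agent.N785.MG

namespace T2a_

/-- the number of the zeros in `range p` is at most the degree -/
theorem card_le {p : ℕ} [Fact p.Prime] (f : (ZMod p)[X]) (hf : f ≠ 0) (Q : ℕ → Prop) [DecidablePred Q]
    (hQ : ∀ t, Q t → f.eval (t : ZMod p) = 0) : ((range p).filter Q).card ≤ f.natDegree := by
  classical
  refine le_trans ?_ ((Multiset.toFinset_card_le f.roots).trans (Polynomial.card_roots' f))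
  refine Finset.card_le_card_of_injOn (fun t : ℕ => (t : ZMod p)) ?_ ?_
  · intro t ht
    rw [Finset.mem_coe, mem_filter] at ht
    rw [Finset.mem_coe, Multiset.mem_toFinset, mem_roots hf]
    exact hQ t ht.2
  · intro s hs t ht h
    rw [Finset.mem_coe, mem_filter, mem_range] at hs ht
    have h1 : (s : ZMod p) = (t : ZMod p) := h
    rw [ZMod.natCast_eq_natCast_iff'] at h1
    rwa [Nat.mod_eq_of_lt hs.1, Nat.mod_eq_of_lt ht.1] at h1

/-- reduction modulo `p` of the values -/
theorem ev {p : ℕ} (g : ℤ[X]) (n : ℤ) :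
    (g.map (Int.castRingHom (ZMod p))).eval (n : ZMod p) = ((g.eval n : ℤ) : ZMod p) := by
  have h := Polynomial.eval_intCast_map (Int.castRingHom (ZMod p)) g n
  rw [h]
  rfl

theorem nu_le {g : ℤ[X]} (hg : 0 < g.natDegree) {p : ℕ} [Fact p.Prime]
    (ha : (g.leadingCoeff : ZMod p) ≠ 0) (c : ℤ) : nu g p c ≤ g.natDegree := by
  set G : (ZMod p)[X] := (g + C c).map (Int.castRingHom (ZMod p)) with hG
  have h1 : (g + C c).natDegree = g.natDegree := natDegree_add_C
  have h0 : G ≠ 0 := by
    intro h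
    have h2 : G.coeff g.natDegree = 0 := by rw [h, coeff_zero]
    rw [hG, coeff_map, coeff_add, coeff_C, if_neg hg.ne', add_zero] at h2
    exact ha h2
  have h2 : G.natDegree ≤ g.natDegree := by
    rw [hG, ← h1]
    exact natDegree_map_le
  refine le_trans (card_le G h0 _ fun t ht => ?_) h2
  have h3 : G.eval ((t : ℤ) : ZMod p) = (((g + C c).eval (t : ℤ) : ℤ) : ZMod p) := ev (g + C c) t
  rw [Int.cast_natCast] at h3
  rw [h3, eval_add, eval_C]
  exact (ZMod.intCast_zmod_eq_zero_iff_dvd _ p).2 ht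

end T2a_

open T2a_

theorem t_T2a : S_T2a := by
  intro g hg
  refine ⟨2 * g.natDegree + g.leadingCoeff.natAbs + 1, fun p hp hp0 => ?_⟩
  have := Fact.mk hp
  have ha0 : g.leadingCoeff ≠ 0 := by
    intro h
    rw [leadingCoeff_eq_zero] at h
    rw [h, natDegree_zero] at hg
    exact lt_irrefl _ hg
  have ha : (g.leadingCoeff : ZMod p) ≠ 0 := by
    intro h
    rw [ZMod.intCast_zmod_eq_zero_iff_dvd] at h
    have h1 := Int.natAbs_dvd_natAbs.2 h
    rw [Int.natAbs_natCast] at h1
    have h2 := Nat.le_of_dvd (Int.natAbs_pos.2 ha0) h1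
    omega
  have hnu := fun c => nu_le hg ha c
  refine ⟨hnu, by omega, ?_, ?_⟩
  · unfold nu
    simp_rw [card_filter]
    rw [sum_comm]
    have h1 : ∀ t ∈ range p, (∑ c ∈ range p, if (p : ℤ) ∣ g.eval (t : ℤ) + ((c : ℕ) : ℤ) then 1 else 0) = 1 := by
      intro t _
      rw [← card_filter, card_eq_one]
      have hp1 : (0 : ℤ) < p := by exact_mod_cast hp.pos
      refine ⟨((-(g.eval (t : ℤ))) % (p : ℤ)).toNat, ?_⟩
      have hnn : 0 ≤ (-(g.eval (t : ℤ))) % (p : ℤ) := Int.emod_nonneg _ hp1.ne'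
      have hlt : (-(g.eval (t : ℤ))) % (p : ℤ) < p := Int.emod_lt_of_pos _ hp1
      ext c
      rw [mem_filter, mem_range, mem_singleton]
      constructor
      · rintro ⟨hc, hd⟩
        have h2 : (c : ℤ) % p = (-(g.eval (t : ℤ))) % (p : ℤ) := by
          refine Int.ModEq.symm ?_
          rw [Int.modEq_iff_dvd]
          rw [sub_neg_eq_add, add_comm]
          exact hd
        rw [← h2, Int.emod_eq_of_lt (by positivity) (by exact_mod_cast hc)]
        simp
      · intro hc
        have h3 : (c : ℤ) = (-(g.eval (t : ℤ))) % (p : ℤ) := by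
          rw [hc, Int.toNat_of_nonneg hnn]
        refine ⟨by exact_mod_cast (h3.trans_lt hlt), ?_⟩
        rw [h3]
        have h4 := Int.emod_add_mul_ediv (-(g.eval (t : ℤ))) (p : ℤ)
        refine ⟨-(-(g.eval (t : ℤ)) / (p : ℤ)), ?_⟩
        linarith
    rw [sum_congr rfl h1, sum_const, card_range, smul_eq_mul, mul_one]
  · intro r hr
    set F : ℤ[X] := g.comp (X + C (r : ℤ)) - g with hF
    set f : (ZMod p)[X] := F.map (Int.castRingHom (ZMod p)) with hf
    have hev : ∀ t : ℕ, f.eval (t : ZMod p) =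
        ((g.eval ((t + r : ℕ) : ℤ) - g.eval (t : ℤ) : ℤ) : ZMod p) := by
      intro t
      have h3 : f.eval ((t : ℤ) : ZMod p) = ((F.eval (t : ℤ) : ℤ) : ZMod p) := ev F t
      rw [Int.cast_natCast] at h3
      rw [h3, hF, eval_sub, eval_comp, eval_add, eval_X, eval_C, Nat.cast_add]
    have hdeg : f.natDegree ≤ g.natDegree := by
      refine natDegree_map_le.trans ?_
      rw [hF]
      refine (natDegree_sub_le _ _).trans ?_
      rw [natDegree_comp, natDegree_X_add_C, mul_one, max_self]
    refine le_trans (card_le f ?_ _ fun t ht => ?_) hdeg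
    · intro h0
      have hper : ∀ t : ℕ, ((g.eval ((t + r : ℕ) : ℤ) : ℤ) : ZMod p) = ((g.eval (t : ℤ) : ℤ) : ZMod p) := by
        intro t
        have h1 := hev t
        rw [h0, eval_zero, Int.cast_sub] at h1
        exact (sub_eq_zero.1 h1.symm)
      have hk : ∀ k : ℕ, ((g.eval ((k * r : ℕ) : ℤ) : ℤ) : ZMod p) = ((g.eval 0 : ℤ) : ZMod p) := by
        intro k
        induction k with
        | zero => simp
        | succ k ih => rw [add_mul, one_mul, hper, ih]
      have hr' : (r : ZMod p) ≠ 0 := by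
        rw [Ne, ZMod.natCast_eq_zero_iff]
        exact hr
      have hall : ∀ t : ℕ, (p : ℤ) ∣ g.eval (t : ℤ) + (-(g.eval 0)) := by
        intro t
        rw [← ZMod.intCast_zmod_eq_zero_iff_dvd, Int.cast_add, Int.cast_neg, add_neg_eq_zero]
        set k : ℕ := ((t : ZMod p) / (r : ZMod p)).val with hkdef
        rw [← hk k]
        have e1 := ev (p := p) g (t : ℤ)
        have e2 := ev (p := p) g ((k * r : ℕ) : ℤ)
        rw [← e1, ← e2]
        congr 1
        push_cast
        rw [hkdef, ZMod.natCast_val, ZMod.cast_id', id, div_mul_cancel₀ _ hr']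
      have h5 : nu g p (-(g.eval 0)) = p := by
        unfold nu
        rw [filter_true_of_mem (fun t _ => hall t), card_range]
      have h6 := hnu (-(g.eval 0))
      omega
    · rw [hev t]
      exact (ZMod.intCast_zmod_eq_zero_iff_dvd _ p).2 ht

end Pool.Agent.N785.MG
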