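import Pool.Agent.N785.MG.KA
import Pool.Agent.N785.MG.KF
import Pool.Agent.N785.MG.KS
import Pool.Agent.N785.MG.KT
import Pool.Agent.N785.MG.KW
import Pool.Agent.N785.MG.KR
import Pool.Agent.N785.MG.K2
import Pool.Agent.N785.MG.K3a
import Pool.Agent.N785.MG.K3b
import Pool.Agent.N785.MG.K3c
import Pool.Agent.N785.MG.K3d
import Pool.Agent.N785.MG.F1
import Pool.Agent.N785.MG.F2
import Pool.Agent.N785.MG.GB
import Pool.Agent.N785.MG.MT
import Pool.Agent.N785.MG.WM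
import Pool.Agent.N785.MG.T1
import Pool.Agent.N785.MG.T1a
import Pool.Agent.N785.MG.T1b
import Pool.Agent.N785.MG.T1c
import Pool.Agent.N785.MG.T2a
import Pool.Agent.N785.MG.CR

/-!
Project MG: all the pieces of the theorem for systems.
-/

namespace Pool.Agent.N785.MG

theorem s_KA : S_KA :=
  t_KA (t_KW (t_KL (t_T1 t_T1a t_T1b t_T1c) (t_K2 t_T2a) (t_K3a t_CR) (t_K3b t_KR) t_K3c
      (t_K3d t_KR (t_K2 t_T2a) t_K3c)))
    (t_KF (t_F1 t_WM)) (t_KS (t_F2 t_WM) (t_GB t_WM)) (t_KT (t_K2 t_T2a) t_WM) t_MT t_WM (t_GB t_WM)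

end Pool.Agent.N785.MG
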