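import Pool.Agent.N785.MG.Stm

/-!
Project MG (helper785), part T2 (helper490): the mean factors `ee g p r`.
-/

set_option autoImplicit false

open Finset Polynomial

namespace Pool.Agent.N785.MG

namespace T2_

theorem dvd_per (g : ℤ[X]) (p : ℕ) (γ : ℤ) (m : ℕ) :
    (p : ℤ) ∣ g.eval ((m + p : ℕ) : ℤ) + γ ↔ (p : ℤ) ∣ g.eval (m : ℤ) + γ := by
  have h : (p : ℤ) ∣ (g.eval ((m + p : ℕ) : ℤ) + γ) - (g.eval (m : ℤ) + γ) := by
    have h1 := g.sub_dvd_eval_sub ((m + p : ℕ) : ℤ) (m : ℤ)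
    have e1 : ((m + p : ℕ) : ℤ) - m = p := by push_cast; ring
    rw [e1] at h1
    have e2 : (g.eval ((m + p : ℕ) : ℤ) + γ) - (g.eval (m : ℤ) + γ) =
      g.eval ((m + p : ℕ) : ℤ) - g.eval (m : ℤ) := by ring
    rw [e2]
    exact h1
  exact dvd_iff_dvd_of_dvd_sub h

theorem card_shift {p : ℕ} (P : ℕ → Prop) [DecidablePred P] (hP : ∀ m, P (m + p) ↔ P m) (t : ℕ) :
    ((range p).filter (fun r => P (t + r))).card = ((range p).filter P).card := by
  have h1 := Nat.filter_Ico_card_eq_of_periodic t p P (fun m => propext (hP m))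
  rw [Nat.count_eq_card_filter_range] at h1
  rw [← h1]
  refine card_bij (fun r _ => t + r) ?_ ?_ ?_
  · intro r hr
    rw [mem_filter, mem_range] at hr
    rw [mem_filter, mem_Ico]
    exact ⟨⟨by omega, by omega⟩, hr.2⟩
  · intro a _ b _ hab
    omega
  · intro x hx
    rw [mem_filter, mem_Ico] at hx
    refine ⟨x - t, ?_, by omega⟩
    rw [mem_filter, mem_range]
    have e : t + (x - t) = x := by omega
    rw [e]
    exact ⟨by omega, hx.2⟩

/-- the number of the roots `t` such that `t + r` is not a root -/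
noncomputable def NN (g : ℤ[X]) (p : ℕ) (γ : ℤ) (r : ℕ) : ℕ :=
  ((range p).filter (fun t : ℕ => (p : ℤ) ∣ g.eval (t : ℤ) + γ ∧ ¬ (p : ℤ) ∣ g.eval ((t + r : ℕ) : ℤ) + γ)).card

/-- the number of the roots `t` such that `t + r` is a root -/
noncomputable def BB (g : ℤ[X]) (p : ℕ) (γ : ℤ) (r : ℕ) : ℕ :=
  ((range p).filter (fun t : ℕ => (p : ℤ) ∣ g.eval (t : ℤ) + γ ∧ (p : ℤ) ∣ g.eval ((t + r : ℕ) : ℤ) + γ)).card

theorem NN_add_BB (g : ℤ[X]) (p : ℕ) (γ : ℤ) (r : ℕ) : BB g p γ r + NN g p γ r = nu g p γ := by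
  unfold NN BB nu
  rw [← card_filter_add_card_filter_not (s := (range p).filter (fun t : ℕ => (p : ℤ) ∣ g.eval (t : ℤ) + γ))
    (fun t : ℕ => (p : ℤ) ∣ g.eval ((t + r : ℕ) : ℤ) + γ), filter_filter, filter_filter]

theorem AA_zero {g : ℤ[X]} {p : ℕ} {γ : ℤ} (h : nu g p γ = 0) (r : ℕ) : AA g p γ r = 1 := by
  unfold AA
  rw [if_pos h, h]
  simp

theorem AA_pos {g : ℤ[X]} {p : ℕ} {γ : ℤ} (h : nu g p γ ≠ 0) (r : ℕ) :
    AA g p γ r = (NN g p γ r : ℝ) / nu g p γ / (1 - (nu g p γ : ℝ) / p) := by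
  unfold AA
  rw [if_neg h]
  rfl

theorem NN_per (g : ℤ[X]) (p : ℕ) (γ : ℤ) (r : ℕ) : NN g p γ (r + p) = NN g p γ r := by
  unfold NN
  congr 1
  refine filter_congr fun t _ => ?_
  rw [← add_assoc, dvd_per]

theorem sum_NN (g : ℤ[X]) (p : ℕ) (γ : ℤ) :
    ∑ r ∈ range p, (NN g p γ r : ℝ) = nu g p γ * (p - nu g p γ) := by
  have h1 : ∀ r, (NN g p γ r : ℝ) = ∑ t ∈ (range p).filter (fun t : ℕ => (p : ℤ) ∣ g.eval (t : ℤ) + γ),
      if ¬ (p : ℤ) ∣ g.eval ((t + r : ℕ) : ℤ) + γ then (1 : ℝ) else 0 := by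
    intro r
    rw [sum_boole, filter_filter]
    rfl
  rw [sum_congr rfl fun r _ => h1 r, sum_comm]
  have h2 : ∀ t ∈ (range p).filter (fun t : ℕ => (p : ℤ) ∣ g.eval (t : ℤ) + γ),
      ∑ r ∈ range p, (if ¬ (p : ℤ) ∣ g.eval ((t + r : ℕ) : ℤ) + γ then (1 : ℝ) else 0) = p - nu g p γ := by
    intro t _
    rw [sum_boole, card_shift (p := p) (fun m : ℕ => ¬ (p : ℤ) ∣ g.eval (m : ℤ) + γ)
      (fun m => not_congr (dvd_per g p γ m)) t]
    have h3 := card_filter_add_card_filter_not (s := range p) (fun m : ℕ => (p : ℤ) ∣ g.eval (m : ℤ) + γ)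
    rw [card_range] at h3
    have h4 : (((range p).filter (fun m : ℕ => (p : ℤ) ∣ g.eval (m : ℤ) + γ)).card : ℝ) +
      ((range p).filter (fun m : ℕ => ¬ (p : ℤ) ∣ g.eval (m : ℤ) + γ)).card = p := by exact_mod_cast h3
    have h5 : (nu g p γ : ℝ) = ((range p).filter (fun m : ℕ => (p : ℤ) ∣ g.eval (m : ℤ) + γ)).card := rfl
    rw [h5]
    linarith
  rw [sum_congr rfl h2, sum_const, nsmul_eq_mul]
  rfl

theorem sum_AA {g : ℤ[X]} {p : ℕ} {γ : ℤ} (hp : 0 < p) (h : nu g p γ < p) :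
    ∑ r ∈ range p, AA g p γ r = p := by
  by_cases h0 : nu g p γ = 0
  · rw [sum_congr rfl fun r _ => AA_zero h0 r]
    simp
  · rw [sum_congr rfl fun r _ => AA_pos h0 r, ← sum_div, ← sum_div, sum_NN]
    have hp0 : (p : ℝ) ≠ 0 := by exact_mod_cast hp.ne'
    have hn0 : (nu g p γ : ℝ) ≠ 0 := by exact_mod_cast h0
    have hpn : (p : ℝ) - nu g p γ ≠ 0 := by
      have : (nu g p γ : ℝ) < p := by exact_mod_cast h
      linarith
    have e : 1 - (nu g p γ : ℝ) / p = (p - nu g p γ) / p := by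
      field_simp
    rw [e]
    field_simp

theorem AA_r0 {g : ℤ[X]} {p : ℕ} {γ : ℤ} (h0 : nu g p γ ≠ 0) : AA g p γ 0 = 0 := by
  rw [AA_pos h0]
  have h1 : NN g p γ 0 = 0 := by
    unfold NN
    rw [card_eq_zero, filter_eq_empty_iff]
    rintro t _ ⟨h1, h2⟩
    rw [add_zero] at h2
    exact h2 h1
  rw [h1]
  simp

/-- the sum of `BB` over the classes -/
theorem sum_BB (g : ℤ[X]) (p : ℕ) (r : ℕ) :
    ∑ γ ∈ range p, BB g p (γ : ℤ) r ≤ ((range p).filter (fun t : ℕ =>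
      (p : ℤ) ∣ g.eval ((t + r : ℕ) : ℤ) - g.eval (t : ℤ))).card := by
  have h1 : ∀ γ : ℕ, BB g p (γ : ℤ) r = ∑ t ∈ range p,
      if (p : ℤ) ∣ g.eval (t : ℤ) + γ ∧ (p : ℤ) ∣ g.eval ((t + r : ℕ) : ℤ) + γ then 1 else 0 := by
    intro γ
    unfold BB
    rw [card_filter]
  rw [sum_congr rfl fun γ _ => h1 γ, sum_comm, card_filter]
  refine sum_le_sum fun t _ => ?_
  rw [← card_filter]
  split_ifs with h2
  · rw [card_le_one]
    intro a ha b hb
    rw [mem_filter, mem_range] at ha hb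
    have h3 : (p : ℤ) ∣ (a : ℤ) - b := by
      have := dvd_sub ha.2.1 hb.2.1
      have e : g.eval (t : ℤ) + (a : ℤ) - (g.eval (t : ℤ) + (b : ℤ)) = (a : ℤ) - b := by ring
      rwa [e] at this
    have h4 : (a : ℤ) = b := by
      have h5 := Int.eq_zero_of_abs_lt_dvd h3 (by
        rw [abs_lt]
        constructor
        · have := hb.1
          have : (b : ℤ) < p := by exact_mod_cast this
          omega
        · have := ha.1
          have : (a : ℤ) < p := by exact_mod_cast this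
          omega)
      linarith
    exact_mod_cast h4
  · rw [Nat.le_zero, card_eq_zero, filter_eq_empty_iff]
    rintro γ _ ⟨h3, h4⟩
    refine h2 ?_
    have := dvd_sub h4 h3
    have e : g.eval ((t + r : ℕ) : ℤ) + (γ : ℤ) - (g.eval (t : ℤ) + (γ : ℤ)) =
      g.eval ((t + r : ℕ) : ℤ) - g.eval (t : ℤ) := by ring
    rwa [e] at this

theorem AA_sub {g : ℤ[X]} {p d : ℕ} {γ : ℤ} (hp : 0 < p) (h : nu g p γ ≤ d) (hd : 2 * d ≤ p) (r : ℕ) :
    |AA g p γ r - 1| ≤ 2 * ((d : ℝ) / p + BB g p γ r) := by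
  have hp0 : (0 : ℝ) < p := by exact_mod_cast hp
  by_cases h0 : nu g p γ = 0
  · rw [AA_zero h0, sub_self, abs_zero]
    positivity
  · rw [AA_pos h0]
    have hn0 : (0 : ℝ) < nu g p γ := by exact_mod_cast Nat.pos_of_ne_zero h0
    have hn1 : (1 : ℝ) ≤ nu g p γ := by exact_mod_cast Nat.pos_of_ne_zero h0
    have hnd : (nu g p γ : ℝ) ≤ d := by exact_mod_cast h
    have hdp : 2 * (d : ℝ) ≤ p := by exact_mod_cast hd
    have hN : (NN g p γ r : ℝ) = nu g p γ - BB g p γ r := by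
      have : (BB g p γ r : ℝ) + NN g p γ r = nu g p γ := by exact_mod_cast NN_add_BB g p γ r
      linarith
    obtain ⟨x, hx⟩ : ∃ x : ℝ, x = (nu g p γ : ℝ) / p := ⟨_, rfl⟩
    obtain ⟨y, hy⟩ : ∃ y : ℝ, y = (BB g p γ r : ℝ) / nu g p γ := ⟨_, rfl⟩
    have hx0 : 0 ≤ x := by rw [hx]; positivity
    have hx1 : x ≤ 1 / 2 := by
      rw [hx, div_le_iff₀ hp0]
      linarith
    have hy0 : 0 ≤ y := by rw [hy]; positivity
    have hyB : y ≤ BB g p γ r := by
      rw [hy]
      exact div_le_self (Nat.cast_nonneg _) hn1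
    have hxd : x ≤ d / p := by
      rw [hx]
      exact div_le_div_of_nonneg_right hnd hp0.le
    have e1 : (NN g p γ r : ℝ) / nu g p γ = 1 - y := by
      rw [hN, hy]
      field_simp
    rw [e1, ← hx]
    have e2 : (1 - y) / (1 - x) - 1 = (x - y) / (1 - x) := by
      have : 1 - x ≠ 0 := by linarith
      field_simp
      ring
    rw [e2, abs_div, abs_of_pos (show 0 < 1 - x by linarith), div_le_iff₀ (by linarith)]
    have h3 : |x - y| ≤ x + y := by
      rw [abs_le]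
      constructor <;> linarith
    nlinarith

end T2_

open T2_ in
theorem t_T2 (h : S_T2a) : S_T2 := by
  intro g hg
  obtain ⟨p0, hp0⟩ := h g hg
  refine ⟨p0, 4 * g.natDegree, by positivity, fun p hp hpp => ?_⟩
  obtain ⟨h1, h2, h3, h4⟩ := hp0 p hp hpp
  have hpp0 : 0 < p := hp.pos
  have hpR : (0 : ℝ) < p := by exact_mod_cast hpp0
  have hlt : ∀ γ : ℤ, nu g p γ < p := fun γ => by
    have := h1 γ
    omega
  have hd0 : (0 : ℝ) < g.natDegree := by exact_mod_cast hg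
  -- the value at `0`
  have hz : ∑ γ ∈ range p, AA g p (γ : ℤ) 0 = (((range p).filter (fun γ : ℕ => nu g p (γ : ℤ) = 0)).card : ℝ) := by
    rw [← sum_boole]
    refine sum_congr rfl fun γ _ => ?_
    split_ifs with h0
    · exact AA_zero h0 0
    · exact AA_r0 h0
  refine ⟨h1, h2, fun r => ?_, ?_, ?_, ?_, fun r hr => ?_⟩
  · unfold ee
    congr 1
    refine sum_congr rfl fun γ _ => ?_
    by_cases h0 : nu g p (γ : ℤ) = 0
    · rw [AA_zero h0, AA_zero h0]
    · rw [AA_pos h0, AA_pos h0, NN_per]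
  · unfold ee
    rw [← sum_div, sum_comm]
    have h5 : ∀ γ ∈ range p, ∑ r ∈ range p, AA g p ((γ : ℕ) : ℤ) r = p := fun γ _ => sum_AA hpp0 (hlt (γ : ℤ))
    rw [sum_congr rfl h5, sum_const, card_range, nsmul_eq_mul]
    field_simp
  · unfold ee
    rw [hz]
    positivity
  · unfold ee
    rw [hz]
    have h5 := card_filter_add_card_filter_not (s := range p) (fun γ : ℕ => nu g p (γ : ℤ) = 0)
    rw [card_range] at h5
    have h6 : (((range p).filter (fun γ : ℕ => nu g p (γ : ℤ) = 0)).card : ℝ) +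
      ((range p).filter (fun γ : ℕ => ¬ nu g p (γ : ℤ) = 0)).card = p := by exact_mod_cast h5
    have h7 : (p : ℝ) ≤ g.natDegree * ((range p).filter (fun γ : ℕ => ¬ nu g p (γ : ℤ) = 0)).card := by
      have h8 : p ≤ g.natDegree * ((range p).filter (fun γ : ℕ => ¬ nu g p (γ : ℤ) = 0)).card := by
        calc p = ∑ c ∈ range p, nu g p (c : ℤ) := h3.symm
          _ = ∑ c ∈ (range p).filter (fun γ : ℕ => ¬ nu g p (γ : ℤ) = 0), nu g p (c : ℤ) := by
              rw [sum_filter]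
              refine sum_congr rfl fun c _ => ?_
              split_ifs with h9
              · exact h9
              · rfl
          _ ≤ ∑ c ∈ (range p).filter (fun γ : ℕ => ¬ nu g p (γ : ℤ) = 0), g.natDegree :=
              sum_le_sum fun c _ => h1 c
          _ = g.natDegree * ((range p).filter (fun γ : ℕ => ¬ nu g p (γ : ℤ) = 0)).card := by
              rw [sum_const, smul_eq_mul, mul_comm]
      exact_mod_cast h8
    have e : 1 - (((range p).filter (fun γ : ℕ => nu g p (γ : ℤ) = 0)).card : ℝ) / p =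
        (((range p).filter (fun γ : ℕ => ¬ nu g p (γ : ℤ) = 0)).card : ℝ) / p := by
      rw [eq_div_iff hpR.ne', sub_mul, div_mul_cancel₀ _ hpR.ne', one_mul]
      linarith
    rw [e, div_le_div_iff₀ hd0 hpR, one_mul]
    linarith
  · unfold ee
    have e : (∑ γ ∈ range p, AA g p (γ : ℤ) r) / p - 1 = (∑ γ ∈ range p, (AA g p (γ : ℤ) r - 1)) / p := by
      rw [sum_sub_distrib, sum_const, card_range, nsmul_eq_mul, mul_one, sub_div, div_self hpR.ne']
    rw [e, abs_div, abs_of_pos hpR]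
    refine div_le_div_of_nonneg_right ?_ hpR.le
    calc |∑ γ ∈ range p, (AA g p (γ : ℤ) r - 1)| ≤ ∑ γ ∈ range p, |AA g p (γ : ℤ) r - 1| :=
          abs_sum_le_sum_abs _ _
      _ ≤ ∑ γ ∈ range p, 2 * ((g.natDegree : ℝ) / p + BB g p (γ : ℤ) r) :=
          sum_le_sum fun γ _ => AA_sub hpp0 (h1 γ) h2 r
      _ = 2 * (g.natDegree + ((∑ γ ∈ range p, BB g p (γ : ℤ) r : ℕ) : ℝ)) := by
          rw [← mul_sum, sum_add_distrib, sum_const, card_range, nsmul_eq_mul]
          push_cast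
          field_simp
      _ ≤ 2 * (g.natDegree + g.natDegree) := by
          have h5 : ∑ γ ∈ range p, BB g p (γ : ℤ) r ≤ g.natDegree := (sum_BB g p r).trans (h4 r hr)
          have h6 : ((∑ γ ∈ range p, BB g p (γ : ℤ) r : ℕ) : ℝ) ≤ g.natDegree := by exact_mod_cast h5
          linarith
      _ = 4 * g.natDegree := by ring

end Pool.Agent.N785.MG
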