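import Pool.Agent.N785.MG.CR

set_option autoImplicit false

/-!
Project MG: classes modulo a product of coprime moduli (helper407).
-/

open Finset Polynomial

namespace Pool.Agent.N785.MG

namespace T3c_

open Classical in
theorem card_eq (N : ℕ) (A : ℕ → Prop) : Nat.card {n // n < N ∧ A n} = ((range N).filter A).card := by
  refine Nat.subtype_card _ fun n => ?_
  rw [mem_filter, mem_range]

open Classical in
theorem card_sum (N : ℕ) (A : ℕ → Prop) : ((Nat.card {n // n < N ∧ A n} : ℕ) : ℝ) = ∑ n ∈ range N, (if A n then (1 : ℝ) else 0) := by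
  rw [card_eq, ← Finset.sum_filter, Finset.sum_const, nsmul_eq_mul, mul_one]

end T3c_

theorem t_T3c : S_T3c := by
  classical
  intro P1 P2 A B h1 h2 hd hA hB
  have hprod : prm (P1 ∪ P2) = prm P1 * prm P2 := by
    unfold prm
    rw [Finset.prod_union hd]
  have hco : (prm P1).Coprime (prm P2) := by
    unfold prm
    refine Nat.Coprime.prod_left fun p hp => Nat.Coprime.prod_right fun q hq => ?_
    rw [Nat.coprime_primes (h1 p hp) (h2 q hq)]
    rintro rfl
    exact Finset.disjoint_left.1 hd hp hq
  have key : ((Nat.card {n // n < prm (P1 ∪ P2) ∧ A n ∧ B n} : ℕ) : ℝ) =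
      ((Nat.card {n // n < prm P1 ∧ A n} : ℕ) : ℝ) * ((Nat.card {n // n < prm P2 ∧ B n} : ℕ) : ℝ) := by
    rw [T3c_.card_sum, T3c_.card_sum, T3c_.card_sum, hprod]
    refine (Finset.sum_congr rfl (g := fun n => (fun s t => (if A s then (1 : ℝ) else 0) *
      (if B t then (1 : ℝ) else 0)) (n % prm P1) (n % prm P2)) fun n _ => ?_).trans ?_
    · have e1 := hA (n % prm P1) n (Nat.mod_modEq n _)
      have e2 := hB (n % prm P2) n (Nat.mod_modEq n _)
      simp only [e1, e2]
      by_cases k1 : A n <;> by_cases k2 : B n <;> simp [k1, k2]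
    rw [CR_.sum_two (CR_.prm_pos h1) (CR_.prm_pos h2) hco
      (fun s t => (if A s then (1 : ℝ) else 0) * (if B t then (1 : ℝ) else 0)), Finset.sum_mul]
    refine Finset.sum_congr rfl fun s _ => ?_
    rw [Finset.mul_sum]
  exact_mod_cast key

end Pool.Agent.N785.MG
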