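import Pool.Agent.N785.MG.T3a

/-!
Project MG (helper785), piece T3d (helper954): a positive proportion of all classes has `bh` bounded below.
-/

open Finset Polynomial

namespace Pool.Agent.N785.MG

namespace T3d_

theorem nu_mod (g : ℤ[X]) (p : ℕ) (n : ℕ) : nu g p (n : ℤ) = nu g p ((n % p : ℕ) : ℤ) := by
  classical
  unfold nu
  congr 1
  refine Finset.filter_congr fun t _ => ?_
  have h : (p : ℤ) ∣ (g.eval (t : ℤ) + (n : ℤ)) - (g.eval (t : ℤ) + ((n % p : ℕ) : ℤ)) := by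
    refine ⟨(n / p : ℕ), ?_⟩
    have h := Nat.div_add_mod n p
    have : (n : ℤ) = p * (n / p : ℕ) + (n % p : ℕ) := by exact_mod_cast h.symm
    push_cast at this ⊢
    linarith
  exact dvd_iff_dvd_of_dvd_sub h

/-- every `t` belongs to at most one class `c` -/
theorem sum_nu_le (g : ℤ[X]) (p : ℕ) : ∑ c ∈ range p, nu g p (c : ℤ) ≤ p := by
  classical
  have h1 : ∑ c ∈ range p, nu g p (c : ℤ) =
      ∑ t ∈ range p, ((range p).filter fun c : ℕ => (p : ℤ) ∣ g.eval (t : ℤ) + (c : ℤ)).card := by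
    unfold nu
    simp only [Finset.card_filter]
    rw [Finset.sum_comm]
  rw [h1]
  refine (Finset.sum_le_sum (g := fun _ => 1) fun t _ => ?_).trans (by simp)
  rw [Finset.card_le_one]
  intro a ha b hb
  rw [Finset.mem_filter, Finset.mem_range] at ha hb
  have h2 := dvd_sub ha.2 hb.2
  have e : g.eval (t : ℤ) + (a : ℤ) - (g.eval (t : ℤ) + (b : ℤ)) = (a : ℤ) - b := by ring
  rw [e] at h2
  have h3 : a ≡ b [MOD p] := by
    rw [Nat.ModEq.comm]
    exact (Nat.modEq_iff_dvd).2 h2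
  have h4 : a % p = b % p := h3
  rwa [Nat.mod_eq_of_lt ha.1, Nat.mod_eq_of_lt hb.1] at h4

theorem exists_small (g : ℤ[X]) {p : ℕ} (hp : 0 < p) : ∃ c : ℕ, c < p ∧ nu g p (c : ℤ) ≤ 1 := by
  by_contra hcon
  push Not at hcon
  have h1 : ∑ _c ∈ range p, 2 ≤ ∑ c ∈ range p, nu g p (c : ℤ) :=
    Finset.sum_le_sum fun c hc => hcon c (Finset.mem_range.1 hc)
  rw [Finset.sum_const, Finset.card_range, smul_eq_mul] at h1
  have := sum_nu_le g p
  omega

/-- a class with prescribed residues -/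
theorem exists_class (h : S_CR) (P : Finset ℕ) (hP : ∀ p ∈ P, p.Prime) (a : ℕ → ℕ)
    (ha : ∀ p ∈ P, a p < p) : ∃ n, n < prm P ∧ ∀ p ∈ P, n % p = a p := by
  classical
  have h1 := h P (fun p t => if t = a p then 1 else 0) hP
  have h2 : ∀ p ∈ P, ∑ t ∈ range p, (if t = a p then (1:ℝ) else 0) = 1 := by
    intro p hp
    rw [Finset.sum_ite_eq', if_pos (Finset.mem_range.2 (ha p hp))]
  rw [Finset.prod_congr rfl h2, Finset.prod_const_one] at h1
  by_contra hcon
  push Not at hcon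
  have h3 : ∑ n ∈ range (prm P), ∏ p ∈ P, (if n % p = a p then (1:ℝ) else 0) = 0 := by
    refine Finset.sum_eq_zero fun n hn => ?_
    obtain ⟨p, hp, hne⟩ := hcon n (Finset.mem_range.1 hn)
    exact Finset.prod_eq_zero hp (if_neg hne)
  rw [h3] at h1
  exact zero_ne_one h1

theorem sum_inv_sq_le (S : Finset ℕ) : ∑ p ∈ S, (1:ℝ) / (p:ℝ) ^ 2 ≤ 2 := by
  have h1 : ∑ p ∈ S, (1:ℝ) / (p:ℝ) ^ 2 ≤ ∑' n : ℕ, (1:ℝ) / (n:ℝ) ^ 2 :=
    hasSum_zeta_two.summable.sum_le_tsum S fun n _ => by positivity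
  rw [hasSum_zeta_two.tsum_eq] at h1
  have h2 := Real.pi_lt_d2
  have h3 := Real.pi_pos
  nlinarith

/-- the mean of the inverse factors -/
theorem mean_inv {g : ℤ[X]} {p d : ℕ} (hp : p.Prime) (hd : ∀ c : ℤ, nu g p c ≤ d) (h2 : 2 * d ≤ p)
    (hs : ∑ c ∈ range p, nu g p (c : ℤ) = p) :
    ∑ t ∈ range p, ((1 - (nu g p (t : ℤ) : ℝ) / p) / (1 - 1 / (p : ℝ)))⁻¹ ≤
      p * Real.exp (2 * d ^ 2 * (1 / (p:ℝ) ^ 2)) := by
  have hp0 : (0:ℝ) < p := by exact_mod_cast hp.pos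
  have hp1 : (1:ℝ) < p := by exact_mod_cast hp.one_lt
  have hip : 1 / (p:ℝ) < 1 := by rw [div_lt_one hp0]; exact hp1
  have hip0 : 0 < 1 / (p:ℝ) := by positivity
  have h1 : ∀ t ∈ range p, ((1 - (nu g p (t : ℤ) : ℝ) / p) / (1 - 1 / (p : ℝ)))⁻¹ ≤
      (1 - 1 / (p:ℝ)) * (1 + (nu g p (t : ℤ) : ℝ) / p + 2 * d ^ 2 * (1 / (p:ℝ) ^ 2)) := by
    intro t _
    rw [inv_div, div_eq_mul_inv]
    refine mul_le_mul_of_nonneg_left ?_ (by linarith)
    set s : ℝ := (nu g p (t : ℤ) : ℝ) / p with hs'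
    have hs0 : 0 ≤ s := by positivity
    have hnd : (nu g p (t : ℤ) : ℝ) ≤ d := by exact_mod_cast hd t
    have h2' : 2 * (d:ℝ) ≤ p := by exact_mod_cast h2
    have hs1 : s ≤ 1 / 2 := by
      rw [hs', div_le_iff₀ hp0]
      linarith
    have hs2 : s ^ 2 ≤ d ^ 2 * (1 / (p:ℝ) ^ 2) := by
      rw [hs', div_pow, mul_one_div]
      exact div_le_div_of_nonneg_right (pow_le_pow_left₀ (Nat.cast_nonneg _) hnd 2) (by positivity)
    have h3 : (1 - s)⁻¹ ≤ 1 + s + 2 * s ^ 2 := by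
      rw [inv_eq_one_div, div_le_iff₀ (by linarith)]
      nlinarith [mul_nonneg (sq_nonneg s) (by linarith : (0:ℝ) ≤ 1 - 2 * s)]
    linarith
  refine (Finset.sum_le_sum h1).trans ?_
  rw [← Finset.mul_sum, Finset.sum_add_distrib, Finset.sum_add_distrib, ← Finset.sum_div]
  have h4 : ∑ c ∈ range p, (nu g p (c : ℤ) : ℝ) = p := by exact_mod_cast hs
  rw [h4]
  simp only [Finset.sum_const, Finset.card_range, nsmul_eq_mul, mul_one]
  rw [div_self hp0.ne']
  have h5 := Real.add_one_le_exp (2 * (d:ℝ) ^ 2 * (1 / (p:ℝ) ^ 2))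
  have h6 : 0 ≤ 2 * (d:ℝ) ^ 2 * (1 / (p:ℝ) ^ 2) := by positivity
  have h7 : (1 - 1 / (p:ℝ)) * ((p:ℝ) + 1) ≤ p := by
    have : (1 - 1 / (p:ℝ)) * ((p:ℝ) + 1) = p - 1 / p := by
      field_simp
      ring
    rw [this]
    linarith
  calc (1 - 1 / (p:ℝ)) * ((p:ℝ) + 1 + p * (2 * d ^ 2 * (1 / (p:ℝ) ^ 2)))
      = (1 - 1 / (p:ℝ)) * ((p:ℝ) + 1) +
        (1 - 1 / (p:ℝ)) * (p * (2 * d ^ 2 * (1 / (p:ℝ) ^ 2))) := by ring
    _ ≤ p + 1 * (p * (2 * d ^ 2 * (1 / (p:ℝ) ^ 2))) := by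
        refine add_le_add h7 (mul_le_mul_of_nonneg_right (by linarith) (by positivity))
    _ = p * (2 * d ^ 2 * (1 / (p:ℝ) ^ 2) + 1) := by ring
    _ ≤ p * Real.exp (2 * d ^ 2 * (1 / (p:ℝ) ^ 2)) := mul_le_mul_of_nonneg_left h5 hp0.le

end T3d_

open T3d_ in
/-- **T3d** -/
theorem t_T3d (h : S_CR) (h2 : S_T2a) (h3 : S_T3c) : S_T3d := by
  classical
  intro g hg
  obtain ⟨p0, hp0⟩ := h2 g hg
  set d := g.natDegree with hd
  set E : ℝ := Real.exp (4 * d ^ 2) with hE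
  have hE0 : 0 < E := Real.exp_pos _
  set W : ℕ := ∏ p ∈ (range p0).filter Nat.Prime, p with hW
  have hW0 : 0 < W := Finset.prod_pos fun p hp => (Finset.mem_filter.1 hp).2.pos
  have hWr : (0:ℝ) < W := by exact_mod_cast hW0
  refine ⟨1 / (2 * E), 1 / (2 * W), by positivity, by positivity, ?_⟩
  intro P hP
  set P1 := P.filter (fun p => p < p0) with hP1
  set P2 := P.filter (fun p => ¬ p < p0) with hP2
  have hunion : P1 ∪ P2 = P := Finset.filter_union_filter_not_eq _ _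
  have hdisj : Disjoint P1 P2 := Finset.disjoint_filter_filter_not _ _ _
  have hP1' : ∀ p ∈ P1, p.Prime := fun p hp => hP p (Finset.mem_filter.1 hp).1
  have hP2' : ∀ p ∈ P2, p.Prime := fun p hp => hP p (Finset.mem_filter.1 hp).1
  have hP2'' : ∀ p ∈ P2, p0 ≤ p := fun p hp => not_lt.1 (Finset.mem_filter.1 hp).2
  have hprm0 : ∀ Q : Finset ℕ, (∀ p ∈ Q, p.Prime) → (0:ℝ) < prm Q := fun Q hQ => by
    have : 0 < prm Q := Finset.prod_pos fun p hp => (hQ p hp).pos
    exact_mod_cast this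
  -- factors
  set fac : ℕ → ℕ → ℝ := fun p t => (1 - (nu g p (t : ℤ) : ℝ) / p) / (1 - 1 / (p : ℝ)) with hfac
  have hbh : ∀ (Q : Finset ℕ) (n : ℕ), bh g Q (n : ℤ) = ∏ p ∈ Q, fac p (n % p) := by
    intro Q n
    unfold bh
    refine Finset.prod_congr rfl fun p _ => ?_
    simp only [hfac]
    rw [nu_mod g p n]
  -- the classes
  choose! a ha1 ha2 using fun (p : ℕ) (hp : 0 < p) => exists_small g hp
  have haP : ∀ p ∈ P1, a p < p := fun p hp => ha1 p (hP1' p hp).pos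
  obtain ⟨n1, hn1, hn1'⟩ := exists_class h P1 hP1' a haP
  set A : ℕ → Prop := fun n => ∀ p ∈ P1, n % p = a p with hA
  set B : ℕ → Prop := fun n => 1 / (2 * E) ≤ bh g P2 (n : ℤ) with hB
  have hmodP : ∀ (Q : Finset ℕ) (n m : ℕ), n ≡ m [MOD prm Q] → ∀ p ∈ Q, n % p = m % p := by
    intro Q n m hnm p hp
    have hdvd : p ∣ prm Q := Finset.dvd_prod_of_mem _ hp
    exact hnm.of_dvd hdvd
  have key := h3 P1 P2 A B hP1' hP2' hdisj
    (fun n m hnm => by
      have := hmodP P1 n m hnm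
      constructor
      · intro hn p hp
        rw [← this p hp]
        exact hn p hp
      · intro hm p hp
        rw [this p hp]
        exact hm p hp)
    (fun n m hnm => by
      have := hmodP P2 n m hnm
      have e : bh g P2 (n : ℤ) = bh g P2 (m : ℤ) := by
        rw [hbh, hbh]
        exact Finset.prod_congr rfl fun p hp => by rw [this p hp]
      simp only [hB, e])
  rw [hunion] at key
  -- A is nonempty
  have cA : 1 ≤ Nat.card {n // n < prm P1 ∧ A n} := by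
    have hfin : Finite {n // n < prm P1 ∧ A n} :=
      Finite.of_injective (fun x : {n // n < prm P1 ∧ A n} => (⟨x.1, x.2.1⟩ : Fin (prm P1)))
        fun x y hxy => Subtype.ext (congrArg Fin.val hxy)
    have : Nonempty {n // n < prm P1 ∧ A n} := ⟨⟨n1, hn1, hn1'⟩⟩
    exact Nat.one_le_iff_ne_zero.2 Nat.card_pos.ne'
  -- the mean of the inverses
  have hfpos : ∀ p ∈ P2, ∀ t, 0 < fac p t := by
    intro p hp t
    obtain ⟨q1, q2, -, -⟩ := hp0 p (hP2' p hp) (hP2'' p hp)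
    have hpp : (0:ℝ) < p := by exact_mod_cast (hP2' p hp).pos
    have hp1 : (1:ℝ) < p := by exact_mod_cast (hP2' p hp).one_lt
    have h4 : (nu g p (t : ℤ) : ℝ) ≤ d := by exact_mod_cast q1 t
    have h5 : 2 * (d:ℝ) ≤ p := by exact_mod_cast q2
    have h6 : (nu g p (t : ℤ) : ℝ) / p ≤ 1 / 2 := by
      rw [div_le_iff₀ hpp]
      linarith
    have h7 : 1 / (p:ℝ) < 1 := by rw [div_lt_one hpp]; exact hp1
    exact div_pos (by linarith) (by linarith)
  have hbpos : ∀ n : ℕ, 0 < bh g P2 (n : ℤ) := by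
    intro n
    rw [hbh]
    exact Finset.prod_pos fun p hp => hfpos p hp _
  have hmean : ∑ n ∈ range (prm P2), (bh g P2 (n : ℤ))⁻¹ ≤ prm P2 * E := by
    have e1 : ∀ n ∈ range (prm P2), (bh g P2 (n : ℤ))⁻¹ = ∏ p ∈ P2, (fac p (n % p))⁻¹ := by
      intro n _
      rw [hbh, Finset.prod_inv_distrib]
    rw [Finset.sum_congr rfl e1, h P2 (fun p t => (fac p t)⁻¹) hP2']
    have e2 : ∏ p ∈ P2, ∑ t ∈ range p, (fac p t)⁻¹ ≤
        ∏ p ∈ P2, ((p:ℝ) * Real.exp (2 * d ^ 2 * (1 / (p:ℝ) ^ 2))) := by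
      refine Finset.prod_le_prod (fun p hp => Finset.sum_nonneg fun t _ =>
        (inv_pos.2 (hfpos p hp t)).le) fun p hp => ?_
      obtain ⟨q1, q2, q3, -⟩ := hp0 p (hP2' p hp) (hP2'' p hp)
      exact mean_inv (hP2' p hp) q1 q2 q3
    refine e2.trans ?_
    rw [Finset.prod_mul_distrib, ← Real.exp_sum, ← Finset.mul_sum]
    have e3 : ((prm P2 : ℕ) : ℝ) = ∏ p ∈ P2, (p:ℝ) := by
      unfold prm
      push_cast
      rfl
    rw [← e3]
    refine mul_le_mul_of_nonneg_left ?_ (hprm0 P2 hP2').le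
    rw [hE]
    apply Real.exp_le_exp.2
    have := sum_inv_sq_le P2
    have h4 : (0:ℝ) ≤ 2 * d ^ 2 := by positivity
    nlinarith
  -- Markov
  have cB : (prm P2 : ℝ) / 2 ≤ Nat.card {n // n < prm P2 ∧ B n} := by
    have ec : Nat.card {n // n < prm P2 ∧ B n} = ((range (prm P2)).filter B).card :=
      Nat.subtype_card _ (fun n => by rw [Finset.mem_filter, Finset.mem_range])
    rw [ec]
    have e1 : (((range (prm P2)).filter fun n => ¬ B n).card : ℝ) * (2 * E) ≤ prm P2 * E := by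
      refine le_trans ?_ hmean
      rw [← nsmul_eq_mul, ← Finset.sum_const]
      refine le_trans ?_ (Finset.sum_le_sum_of_subset_of_nonneg
        (Finset.filter_subset (fun n => ¬ B n) (range (prm P2)))
        (fun n _ _ => (inv_pos.2 (hbpos n)).le))
      refine Finset.sum_le_sum fun n hn => ?_
      have hn' : bh g P2 (n : ℤ) < 1 / (2 * E) := not_le.1 (Finset.mem_filter.1 hn).2
      have h5 := (inv_strictAnti₀ (hbpos n) hn').le
      rw [one_div, inv_inv] at h5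
      exact h5
    have e2 : (((range (prm P2)).filter B).card : ℝ) +
        (((range (prm P2)).filter fun n => ¬ B n).card : ℝ) = prm P2 := by
      have := Finset.card_filter_add_card_filter_not (s := range (prm P2)) B
      rw [Finset.card_range] at this
      exact_mod_cast this
    have e3 : (((range (prm P2)).filter fun n => ¬ B n).card : ℝ) ≤ prm P2 / 2 := by
      have : ((((range (prm P2)).filter fun n => ¬ B n).card : ℝ) * 2) * E ≤ prm P2 * E := by
        linarith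
      have := le_of_mul_le_mul_right this hE0
      linarith
    linarith
  -- conclusion
  have hsub : Nat.card {n // n < prm P ∧ A n ∧ B n} ≤
      Nat.card {γ : ℕ // γ < prm P ∧ 1 / (2 * E) ≤ bh g P (γ : ℤ)} := by
    have e1 : Nat.card {n // n < prm P ∧ A n ∧ B n} =
        ((range (prm P)).filter fun n => A n ∧ B n).card :=
      Nat.subtype_card _ (fun n => by rw [Finset.mem_filter, Finset.mem_range])
    have e2 : Nat.card {γ : ℕ // γ < prm P ∧ 1 / (2 * E) ≤ bh g P (γ : ℤ)} =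
        ((range (prm P)).filter fun γ : ℕ => 1 / (2 * E) ≤ bh g P (γ : ℤ)).card :=
      Nat.subtype_card _ (fun n => by rw [Finset.mem_filter, Finset.mem_range])
    rw [e1, e2]
    refine Finset.card_le_card fun n hn => ?_
    rw [Finset.mem_filter] at hn ⊢
    obtain ⟨hn0, hnA, hnB⟩ := hn
    refine ⟨hn0, ?_⟩
    have e3 : bh g P (n : ℤ) = bh g P1 (n : ℤ) * bh g P2 (n : ℤ) := by
      rw [← hunion]
      unfold bh
      rw [hunion]
      exact (Finset.prod_filter_mul_prod_filter_not P _ _).symm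
    have e4 : 1 ≤ bh g P1 (n : ℤ) := by
      rw [hbh]
      have : ∏ _p ∈ P1, (1:ℝ) ≤ ∏ p ∈ P1, fac p (n % p) := by
        refine Finset.prod_le_prod (fun _ _ => zero_le_one) fun p hp => ?_
        rw [hnA p hp]
        have hpp : (0:ℝ) < p := by exact_mod_cast (hP1' p hp).pos
        have hp1 : (1:ℝ) < p := by exact_mod_cast (hP1' p hp).one_lt
        have h7 : 1 / (p:ℝ) < 1 := by rw [div_lt_one hpp]; exact hp1
        have h8 : (nu g p (a p : ℤ) : ℝ) ≤ 1 := by exact_mod_cast ha2 p (hP1' p hp).pos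
        have h9 : (nu g p (a p : ℤ) : ℝ) / p ≤ 1 / p := div_le_div_of_nonneg_right h8 hpp.le
        show 1 ≤ (1 - (nu g p (a p : ℤ) : ℝ) / p) / (1 - 1 / (p : ℝ))
        rw [one_le_div (by linarith)]
        linarith
      simpa using this
    rw [e3]
    have e5 := hbpos n
    have e6 : 1 / (2 * E) ≤ bh g P2 (n : ℤ) := hnB
    nlinarith
  have hprm : (prm P : ℝ) = prm P1 * prm P2 := by
    have : prm P = prm P1 * prm P2 := by
      unfold prm
      exact (Finset.prod_filter_mul_prod_filter_not P _ _).symm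
    exact_mod_cast this
  have hP1W : (prm P1 : ℝ) ≤ W := by
    have h4 : P1 ⊆ (range p0).filter Nat.Prime := fun p hp =>
      Finset.mem_filter.2 ⟨Finset.mem_range.2 (Finset.mem_filter.1 hp).2, hP1' p hp⟩
    have h5 : prm P1 ∣ W := Finset.prod_dvd_prod_of_subset _ _ _ h4
    exact_mod_cast Nat.le_of_dvd hW0 h5
  have hfinal : (prm P2 : ℝ) / 2 ≤ Nat.card {n // n < prm P ∧ A n ∧ B n} := by
    rw [key]
    push_cast
    have c1 : (1:ℝ) ≤ Nat.card {n // n < prm P1 ∧ A n} := by exact_mod_cast cA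
    have c2 : (0:ℝ) ≤ Nat.card {n // n < prm P2 ∧ B n} := Nat.cast_nonneg _
    nlinarith
  have hsub' : (Nat.card {n // n < prm P ∧ A n ∧ B n} : ℝ) ≤
      Nat.card {γ : ℕ // γ < prm P ∧ 1 / (2 * E) ≤ bh g P (γ : ℤ)} := by exact_mod_cast hsub
  refine le_trans ?_ (hfinal.trans hsub')
  rw [hprm]
  have h6 := hprm0 P2 hP2'
  rw [one_div, ← div_eq_inv_mul, div_le_div_iff₀ (by positivity) (by norm_num)]
  nlinarith

end Pool.Agent.N785.MG
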