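import Pool.Agent.N785.MG.Stm

/-!
# TL: the tail of the singular product, second moment over `c` (helper568)
-/

set_option autoImplicit false

open Finset Polynomial
open Pool.Agent.H378R2 (Phi GoodP GoodS)

namespace Pool.Agent.N785.MG

namespace TL_

theorem nu_congr (g : ℤ[X]) (p : ℕ) {c c' : ℤ} (h : (p : ℤ) ∣ c - c') :
    nu g p c = nu g p c' := by
  unfold nu
  congr 1
  refine Finset.filter_congr fun t _ => ?_
  have e : g.eval (t : ℤ) + c = (g.eval (t : ℤ) + c') + (c - c') := by ring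
  rw [e]
  exact dvd_add_left h

/-! ### one prime -/

theorem lemA (p d n : ℝ) (hd : 1 ≤ d) (hp : 4 * d ≤ p) (hn0 : 0 ≤ n) (hn : n ≤ d) :
    0 < (1 - n / p) / (1 - 1 / p) ∧ |Real.log ((1 - n / p) / (1 - 1 / p))| ≤ 4 * d / p ∧
      |Real.log ((1 - n / p) / (1 - 1 / p)) - (1 - n) / p| ≤ 10 * d ^ 2 / p ^ 2 := by
  have hp4 : 4 ≤ p := by linarith
  have hp0 : 0 < p := by linarith
  have hp1 : 0 < p - 1 := by linarith
  set a : ℝ := (1 - n) / (p - 1) with ha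
  have e1 : (1 - n / p) / (1 - 1 / p) = 1 + a := by
    rw [ha]
    field_simp
    ring
  have h1 : |1 - n| ≤ d := by
    rw [abs_le]
    constructor <;> linarith
  have h34 : 3 / 4 * p ≤ p - 1 := by linarith
  have ha1 : |a| ≤ 4 / 3 * d / p := by
    rw [ha, abs_div, abs_of_pos hp1, div_le_div_iff₀ hp1 hp0]
    calc |1 - n| * p ≤ d * p := by gcongr
      _ = 4 / 3 * d * (3 / 4 * p) := by ring
      _ ≤ 4 / 3 * d * (p - 1) := by gcongr
  have ha2 : |a| ≤ 1 / 3 := by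
    refine ha1.trans ?_
    rw [div_le_div_iff₀ hp0 (by norm_num)]
    linarith
  have hlog : |Real.log (1 + a) - a| ≤ 3 / 2 * a ^ 2 := by
    have h2 := Real.abs_log_sub_add_sum_range_le (x := -a) (by rw [abs_neg]; linarith) 1
    simp only [Finset.range_one, Finset.sum_singleton] at h2
    norm_num at h2
    rw [show Real.log (1 + a) - a = -a + Real.log (1 + a) by ring]
    refine h2.trans ?_
    rw [div_le_iff₀ (by linarith)]
    nlinarith [sq_nonneg a, abs_nonneg a]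
  have hasq : a ^ 2 ≤ 16 / 9 * d ^ 2 / p ^ 2 := by
    rw [← sq_abs]
    calc |a| ^ 2 ≤ (4 / 3 * d / p) ^ 2 := by gcongr
      _ = 16 / 9 * d ^ 2 / p ^ 2 := by
        field_simp
        ring
  have hb : |a - (1 - n) / p| ≤ 4 / 3 * d ^ 2 / p ^ 2 := by
    have e2 : a - (1 - n) / p = (1 - n) / (p * (p - 1)) := by
      rw [ha]
      field_simp
      ring
    rw [e2, abs_div, abs_of_pos (by positivity : 0 < p * (p - 1)),
      div_le_div_iff₀ (by positivity) (by positivity)]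
    calc |1 - n| * p ^ 2 ≤ d * p ^ 2 := by gcongr
      _ ≤ d ^ 2 * p ^ 2 := by
        gcongr
        nlinarith
      _ = 4 / 3 * d ^ 2 * (p * (3 / 4 * p)) := by ring
      _ ≤ 4 / 3 * d ^ 2 * (p * (p - 1)) := by gcongr
  rw [e1]
  refine ⟨?_, ?_, ?_⟩
  · have := (abs_le.1 ha2).1
    linarith
  · have h3 : |Real.log (1 + a)| ≤ |Real.log (1 + a) - a| + |a| := by
      have := abs_add_le (Real.log (1 + a) - a) a
      simpa using this
    have h4 : a ^ 2 ≤ 1 / 3 * |a| := by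
      rw [← sq_abs]
      nlinarith [abs_nonneg a]
    have h5 : |Real.log (1 + a)| ≤ 3 * |a| := by
      nlinarith [abs_nonneg a]
    calc |Real.log (1 + a)| ≤ 3 * |a| := h5
      _ ≤ 3 * (4 / 3 * d / p) := by gcongr
      _ = 4 * d / p := by ring
  · have h3 : |Real.log (1 + a) - (1 - n) / p| ≤
        |Real.log (1 + a) - a| + |a - (1 - n) / p| := abs_sub_le _ _ _
    have h4 : 10 * d ^ 2 / p ^ 2 = 3 / 2 * (16 / 9 * d ^ 2 / p ^ 2) + 4 / 3 * d ^ 2 / p ^ 2 +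
        6 * (d ^ 2 / p ^ 2) := by ring
    have h5 : 0 ≤ d ^ 2 / p ^ 2 := by positivity
    rw [h4]
    nlinarith

/-! ### periodic functions -/

theorem per_sum (F : ℕ → ℝ) (m : ℕ) (B : ℝ) (hF : ∀ t, F (t + m) = F t)
    (h0 : ∑ t ∈ range m, F t = 0) (hB : ∀ t, |F t| ≤ B) (hm : 0 < m) (T : ℕ) :
    |∑ t ∈ range T, F t| ≤ m * B := by
  have hB0 : 0 ≤ B := (abs_nonneg _).trans (hB 0)
  induction T using Nat.strong_induction_on with
  | _ T ih =>
    by_cases hT : T ≤ m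
    · calc |∑ t ∈ range T, F t| ≤ ∑ t ∈ range T, |F t| := abs_sum_le_sum_abs _ _
        _ ≤ ∑ _t ∈ range T, B := sum_le_sum fun t _ => hB t
        _ = T * B := by rw [sum_const, card_range, nsmul_eq_mul]
        _ ≤ m * B := by
          have : (T : ℝ) ≤ m := by exact_mod_cast hT
          gcongr
    · push Not at hT
      have h1 := ih (T - m) (by omega)
      have h2 : T = m + (T - m) := by omega
      rw [h2, Finset.sum_range_add, h0, zero_add]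
      have h3 : ∑ x ∈ range (T - m), F (m + x) = ∑ x ∈ range (T - m), F x := by
        refine sum_congr rfl fun x _ => ?_
        rw [add_comm, hF]
      rwa [h3]

theorem full_sum (F : ℕ → ℝ) (q M x : ℕ) (hq : 0 < q) (hF : ∀ t, F (t + q) = F t)
    (hM : Nat.Coprime M q) : ∑ b ∈ range q, F (x + M * b) = ∑ s ∈ range q, F s := by
  have hper : Function.Periodic F q := hF
  have hmaps : Set.MapsTo (fun b => (x + M * b) % q) (range q : Set ℕ) (range q) := by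
    intro b _
    simp only [coe_range, Set.mem_Iio]
    exact Nat.mod_lt _ hq
  have hinj : Set.InjOn (fun b => (x + M * b) % q) (range q : Set ℕ) := by
    intro a ha b hb hab
    simp only [coe_range, Set.mem_Iio] at ha hb
    have h1 : x + M * a ≡ x + M * b [MOD q] := hab
    have h2 : M * a ≡ M * b [MOD q] := Nat.ModEq.add_left_cancel' x h1
    have h3 : a ≡ b [MOD q] := Nat.ModEq.cancel_left_of_coprime
      (by rw [Nat.gcd_comm]; exact hM) h2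
    have h4 : a % q = b % q := h3
    rwa [Nat.mod_eq_of_lt ha, Nat.mod_eq_of_lt hb] at h4
  refine sum_nbij (fun b => (x + M * b) % q) ?_ hinj
    (surjOn_of_injOn_of_card_le _ hmaps hinj le_rfl) ?_
  · intro a ha
    exact hmaps ha
  · intro a _
    exact (hper.map_mod_nat _).symm

theorem sum_mul_range (f : ℕ → ℝ) (p q : ℕ) :
    ∑ t ∈ range (p * q), f t = ∑ a ∈ range p, ∑ b ∈ range q, f (a + p * b) := by
  rw [sum_comm]
  induction q with
  | zero => simp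
  | succ q ih =>
    rw [Nat.mul_succ, sum_range_add, ih, sum_range_succ]
    congr 1
    exact sum_congr rfl fun a _ => by rw [add_comm]

theorem dbl_sum (F1 F2 : ℕ → ℝ) (p q W x : ℕ) (hq : 0 < q) (h1 : ∀ t, F1 (t + p) = F1 t)
    (h2 : ∀ t, F2 (t + q) = F2 t) (h0 : ∑ s ∈ range q, F2 s = 0) (hpq : Nat.Coprime p q)
    (hW : Nat.Coprime W q) : ∑ t ∈ range (p * q), F1 (x + W * t) * F2 (x + W * t) = 0 := by
  rw [sum_mul_range]
  refine sum_eq_zero fun a _ => ?_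
  have e1 : ∀ b, F1 (x + W * (a + p * b)) = F1 (x + W * a) := by
    intro b
    have hper : Function.Periodic F1 p := h1
    have e : x + W * (a + p * b) = (x + W * a) + (W * b) * p := by ring
    rw [e]
    exact hper.nat_mul (W * b) (x + W * a)
  simp_rw [e1, ← mul_sum]
  have e2 : ∑ b ∈ range q, F2 (x + W * (a + p * b)) = 0 := by
    rw [← h0, ← full_sum F2 q (W * p) (x + W * a) hq h2 (Nat.Coprime.mul_left hW hpq)]
    exact sum_congr rfl fun b _ => by ring_nf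
  rw [e2, mul_zero]

/-- the second moment -/
theorem second (P : Finset ℕ) (G : ℕ → ℕ → ℝ) (B : ℝ) (W x T : ℕ) (hP : ∀ p ∈ P, p.Prime)
    (hW : ∀ p ∈ P, Nat.Coprime W p) (hG : ∀ p ∈ P, ∀ t, G p (t + p) = G p t)
    (h0 : ∀ p ∈ P, ∑ s ∈ range p, G p s = 0) (hB : ∀ p ∈ P, ∀ t, |G p t| ≤ B) (hB0 : 0 ≤ B) :
    ∑ t ∈ range T, (∑ p ∈ P, G p (x + W * t) / p) ^ 2 ≤
      B ^ 2 * (P.card : ℝ) ^ 2 + T * B ^ 2 * ∑ p ∈ P, ((p : ℝ) ^ 2)⁻¹ := by
  have e1 : ∑ t ∈ range T, (∑ p ∈ P, G p (x + W * t) / p) ^ 2 =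
      ∑ p ∈ P, ∑ q ∈ P, ∑ t ∈ range T, G p (x + W * t) / p * (G q (x + W * t) / q) := by
    have e : ∀ t, (∑ p ∈ P, G p (x + W * t) / p) ^ 2 =
        ∑ p ∈ P, ∑ q ∈ P, G p (x + W * t) / p * (G q (x + W * t) / q) := by
      intro t
      rw [sq, sum_mul_sum]
    simp_rw [e]
    rw [sum_comm]
    exact sum_congr rfl fun p _ => sum_comm
  rw [e1]
  have key : ∀ p ∈ P, ∀ q ∈ P, ∑ t ∈ range T, G p (x + W * t) / p * (G q (x + W * t) / q) ≤
      B ^ 2 + if p = q then T * B ^ 2 * ((p : ℝ) ^ 2)⁻¹ else 0 := by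
    intro p hp q hq
    have hp0 : (0 : ℝ) < p := by exact_mod_cast (hP p hp).pos
    have hq0 : (0 : ℝ) < q := by exact_mod_cast (hP q hq).pos
    by_cases hpq : p = q
    · subst hpq
      rw [if_pos rfl]
      have h1 : ∀ t ∈ range T, G p (x + W * t) / p * (G p (x + W * t) / p) ≤
          B ^ 2 * ((p : ℝ) ^ 2)⁻¹ := by
        intro t _
        have h2 := hB p hp (x + W * t)
        have h3 : G p (x + W * t) ^ 2 ≤ B ^ 2 := by
          rw [← sq_abs]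
          gcongr
        calc G p (x + W * t) / p * (G p (x + W * t) / p) = G p (x + W * t) ^ 2 * ((p : ℝ) ^ 2)⁻¹ := by
              field_simp
          _ ≤ _ := by gcongr
      calc ∑ t ∈ range T, G p (x + W * t) / p * (G p (x + W * t) / p) ≤
          ∑ _t ∈ range T, B ^ 2 * ((p : ℝ) ^ 2)⁻¹ := sum_le_sum h1
        _ = T * B ^ 2 * ((p : ℝ) ^ 2)⁻¹ := by
          rw [sum_const, card_range, nsmul_eq_mul, mul_assoc]
        _ ≤ _ := by
          have : 0 ≤ B ^ 2 := by positivity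
          linarith
    · rw [if_neg hpq, add_zero]
      have hc : Nat.Coprime p q := (Nat.coprime_primes (hP p hp) (hP q hq)).2 hpq
      have h1 := per_sum (fun t => G p (x + W * t) * G q (x + W * t)) (p * q) (B ^ 2)
        (by
          intro t
          have hper1 : Function.Periodic (G p) p := hG p hp
          have hper2 : Function.Periodic (G q) q := hG q hq
          have ea : x + W * (t + p * q) = (x + W * t) + (W * q) * p := by ring
          have eb : x + W * (t + p * q) = (x + W * t) + (W * p) * q := by ring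
          have e2 : G p (x + W * (t + p * q)) = G p (x + W * t) := by
            rw [ea]; exact hper1.nat_mul (W * q) _
          have e3 : G q (x + W * (t + p * q)) = G q (x + W * t) := by
            rw [eb]; exact hper2.nat_mul (W * p) _
          simp only [e2, e3])
        (dbl_sum (G p) (G q) p q W x (hP q hq).pos (hG p hp) (hG q hq) (h0 q hq) hc (hW q hq))
        (by
          intro t
          rw [abs_mul, sq]
          exact mul_le_mul (hB p hp _) (hB q hq _) (abs_nonneg _) hB0)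
        (Nat.mul_pos (hP p hp).pos (hP q hq).pos) T
      have h2 : ∑ t ∈ range T, G p (x + W * t) / p * (G q (x + W * t) / q) =
          (∑ t ∈ range T, G p (x + W * t) * G q (x + W * t)) / (p * q) := by
        rw [sum_div]
        refine sum_congr rfl fun t _ => ?_
        rw [div_mul_div_comm]
      rw [h2, div_le_iff₀ (by positivity)]
      refine (le_abs_self _).trans (h1.trans ?_)
      push_cast
      linarith
  calc ∑ p ∈ P, ∑ q ∈ P, ∑ t ∈ range T, G p (x + W * t) / p * (G q (x + W * t) / q) ≤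
      ∑ p ∈ P, ∑ q ∈ P, (B ^ 2 + if p = q then T * B ^ 2 * ((p : ℝ) ^ 2)⁻¹ else 0) :=
        sum_le_sum fun p hp => sum_le_sum fun q hq => key p hp q hq
    _ = _ := by
      simp only [sum_add_distrib, sum_const, nsmul_eq_mul, sum_ite_eq]
      rw [mul_sum]
      congr 1
      · ring
      · exact sum_congr rfl fun p hp => by rw [if_pos hp]

/-- the local factor -/
noncomputable def ff (g : ℤ[X]) (p : ℕ) (c : ℤ) : ℝ :=
  (1 - (nu g p c : ℝ) / p) / (1 - 1 / (p : ℝ))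

theorem nu_le (g : ℤ[X]) (p : ℕ) (c : ℤ) : nu g p c ≤ p := by
  unfold nu
  exact (card_filter_le _ _).trans (by rw [card_range])

theorem ff_nonneg (g : ℤ[X]) (p : ℕ) (c : ℤ) (hp : p.Prime) : 0 ≤ ff g p c := by
  have h1 : (nu g p c : ℝ) ≤ p := by exact_mod_cast nu_le g p c
  have h2 : (2 : ℝ) ≤ p := by exact_mod_cast hp.two_le
  unfold ff
  refine div_nonneg ?_ ?_
  · rw [sub_nonneg, div_le_one (by linarith)]
    exact h1
  · rw [sub_nonneg, div_le_one (by linarith)]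
    linarith

theorem bh_nonneg (g : ℤ[X]) (P : Finset ℕ) (c : ℤ) (hP : ∀ p ∈ P, p.Prime) : 0 ≤ bh g P c :=
  prod_nonneg fun p hp => ff_nonneg g p c (hP p hp)

theorem bh_congr (g : ℤ[X]) (P : Finset ℕ) {c γ : ℕ} (h : c ≡ γ [MOD prm P]) :
    bh g P (c : ℤ) = bh g P (γ : ℤ) := by
  unfold bh
  refine prod_congr rfl fun p hp => ?_
  have h1 : p ∣ prm P := dvd_prod_of_mem (fun p => p) hp
  have h2 : c ≡ γ [MOD p] := h.of_dvd h1
  have h3 : (p : ℤ) ∣ (c : ℤ) - γ := (Nat.modEq_iff_dvd.1 h2.symm)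
  rw [nu_congr g p h3]

theorem core (g : ℤ[X]) (d : ℝ) (hdg : d = g.natDegree) (hd : 1 ≤ d) (p0 : ℕ)
    (hp0 : ∀ p : ℕ, p.Prime → p0 ≤ p → (∀ c : ℤ, nu g p c ≤ g.natDegree) ∧
      ∑ c ∈ range p, nu g p (c : ℤ) = p)
    (P : Finset ℕ) (hP : ∀ p ∈ P, p.Prime) (w z N γ : ℕ) (hPw : P ⊆ prs w)
    (hPz : ∀ p ∈ P, p ≤ z) (hz0 : z ≠ 0) (hzw : z ≤ w) (hz1 : p0 ≤ z) (hz2 : 4 * d ≤ z)
    (η : ℝ) (hη : 0 < η) (hη1 : η ≤ 1)
    (hR : ∀ p ∈ (prs w \ P).filter (fun p => p ≤ z), p0 ≤ p ∧ 4 * d ≤ p)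
    (hR1 : ∑ p ∈ (prs w \ P).filter (fun p => p ≤ z), 4 * d / p ≤ η / 4)
    (hz3 : 10 * d ^ 2 / z ≤ η / 8) (Y : ℝ)
    (hfin : d ^ 2 * (w : ℝ) ^ 2 + ((N / prm P + 1 : ℕ) : ℝ) * d ^ 2 * (1 / z) ≤
      (η / 8) ^ 2 * Y) :
    (Nat.card {c : ℕ // c ∈ Icc 1 N ∧ c ≡ γ [MOD prm P] ∧
        ¬ |bh g (prs w) (c : ℤ) - bh g P (γ : ℤ)| ≤ η * bh g P (γ : ℤ)} : ℝ) ≤ Y := by
  obtain ⟨W, hWdef⟩ : ∃ W, W = prm P := ⟨_, rfl⟩
  have hW0 : 0 < W := by
    rw [hWdef]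
    exact prod_pos fun p hp => (hP p hp).pos
  rw [← hWdef] at hfin ⊢
  obtain ⟨R1, hR1d⟩ : ∃ R1, R1 = (prs w \ P).filter (fun p => p ≤ z) := ⟨_, rfl⟩
  obtain ⟨R2, hR2d⟩ : ∃ R2, R2 = (prs w \ P).filter (fun p => ¬ p ≤ z) := ⟨_, rfl⟩
  rw [← hR1d] at hR hR1
  have hR2m : ∀ p ∈ R2, p.Prime ∧ z < p ∧ p ≤ w := by
    intro p hp
    rw [hR2d, mem_filter, mem_sdiff] at hp
    obtain ⟨⟨h1, -⟩, h2⟩ := hp
    unfold prs at h1
    rw [mem_filter, mem_Icc] at h1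
    exact ⟨h1.2, not_le.1 h2, h1.1.2⟩
  have hR1m : ∀ p ∈ R1, p.Prime := by
    intro p hp
    rw [hR1d, mem_filter, mem_sdiff] at hp
    obtain ⟨⟨h1, -⟩, h2⟩ := hp
    unfold prs at h1
    rw [mem_filter, mem_Icc] at h1
    exact h1.2
  have hR2p0 : ∀ p ∈ R2, p0 ≤ p := fun p hp => hz1.trans (hR2m p hp).2.1.le
  have hR2d4 : ∀ p ∈ R2, 4 * d ≤ (p : ℝ) := fun p hp =>
    hz2.trans (by exact_mod_cast (hR2m p hp).2.1.le)
  have hnu : ∀ p : ℕ, p.Prime → p0 ≤ p → ∀ c : ℤ, (nu g p c : ℝ) ≤ d := by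
    intro p h1 h2 c
    rw [hdg]
    exact_mod_cast (hp0 p h1 h2).1 c
  -- the sum of the squares of the inverses
  have hsq : ∑ p ∈ R2, ((p : ℝ) ^ 2)⁻¹ ≤ 1 / z := by
    calc ∑ p ∈ R2, ((p : ℝ) ^ 2)⁻¹ ≤ ∑ i ∈ Ioc z w, ((i : ℝ) ^ 2)⁻¹ := by
          refine sum_le_sum_of_subset_of_nonneg ?_ fun i _ _ => by positivity
          intro p hp
          rw [mem_Ioc]
          exact (hR2m p hp).2
      _ ≤ (z : ℝ)⁻¹ - (w : ℝ)⁻¹ := sum_Ioc_inv_sq_le_sub hz0 hzw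
      _ ≤ 1 / z := by
        rw [one_div]
        have : (0 : ℝ) ≤ (w : ℝ)⁻¹ := by positivity
        linarith
  obtain ⟨YY, hYY⟩ : ∃ YY : ℕ → ℝ, YY = fun c : ℕ => ∑ p ∈ R2, (1 - (nu g p (c : ℤ) : ℝ)) / p :=
    ⟨_, rfl⟩
  -- good constants
  have good : ∀ c : ℕ, c ≡ γ [MOD W] → |YY c| ≤ η / 8 →
      |bh g (prs w) (c : ℤ) - bh g P (γ : ℤ)| ≤ η * bh g P (γ : ℤ) := by
    intro c hc hY
    have e1 : bh g (prs w) (c : ℤ) = (∏ p ∈ prs w \ P, ff g p c) * bh g P (γ : ℤ) := by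
      have hc' : c ≡ γ [MOD prm P] := by rw [← hWdef]; exact hc
      rw [← bh_congr g P hc']
      unfold bh
      rw [← prod_sdiff hPw]
      rfl
    have hpos : ∀ p ∈ prs w \ P, 0 < ff g p c ∧ |Real.log (ff g p c)| ≤ 4 * d / p ∧
        |Real.log (ff g p c) - (1 - (nu g p (c : ℤ) : ℝ)) / p| ≤ 10 * d ^ 2 / p ^ 2 := by
      intro p hp
      by_cases hpz : p ≤ z
      · have hp1 : p ∈ R1 := by rw [hR1d, mem_filter]; exact ⟨hp, hpz⟩
        exact lemA p d _ hd (hR p hp1).2 (Nat.cast_nonneg _) (hnu p (hR1m p hp1) (hR p hp1).1 c)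
      · have hp1 : p ∈ R2 := by rw [hR2d, mem_filter]; exact ⟨hp, hpz⟩
        exact lemA p d _ hd (hR2d4 p hp1) (Nat.cast_nonneg _)
          (hnu p (hR2m p hp1).1 (hR2p0 p hp1) c)
    have hprodpos : 0 < ∏ p ∈ prs w \ P, ff g p c := prod_pos fun p hp => (hpos p hp).1
    have hlog : Real.log (∏ p ∈ prs w \ P, ff g p c) = ∑ p ∈ R1, Real.log (ff g p c) +
        ∑ p ∈ R2, Real.log (ff g p c) := by
      rw [Real.log_prod (fun p hp => (hpos p hp).1.ne'), hR1d, hR2d,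
        sum_filter_add_sum_filter_not]
    have hb1 : |∑ p ∈ R1, Real.log (ff g p c)| ≤ η / 4 := by
      refine (abs_sum_le_sum_abs _ _).trans (le_trans (sum_le_sum fun p hp => ?_) hR1)
      refine (hpos p ?_).2.1
      rw [hR1d, mem_filter] at hp
      exact hp.1
    have hb2 : |∑ p ∈ R2, Real.log (ff g p c) - YY c| ≤ η / 8 := by
      rw [hYY, ← sum_sub_distrib]
      refine (abs_sum_le_sum_abs _ _).trans ?_
      calc ∑ p ∈ R2, |Real.log (ff g p c) - (1 - (nu g p (c : ℤ) : ℝ)) / p| ≤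
          ∑ p ∈ R2, 10 * d ^ 2 * ((p : ℝ) ^ 2)⁻¹ := by
            refine sum_le_sum fun p hp => ?_
            have hp' : p ∈ prs w \ P := by
              rw [hR2d, mem_filter] at hp
              exact hp.1
            refine (hpos p hp').2.2.trans (le_of_eq ?_)
            rw [div_eq_mul_inv]
        _ = 10 * d ^ 2 * ∑ p ∈ R2, ((p : ℝ) ^ 2)⁻¹ := by rw [mul_sum]
        _ ≤ 10 * d ^ 2 * (1 / z) := by gcongr
        _ = 10 * d ^ 2 / z := by ring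
        _ ≤ η / 8 := hz3
    have hL : |Real.log (∏ p ∈ prs w \ P, ff g p c)| ≤ η / 2 := by
      rw [hlog]
      have e2 : ∑ p ∈ R1, Real.log (ff g p c) + ∑ p ∈ R2, Real.log (ff g p c) =
          ∑ p ∈ R1, Real.log (ff g p c) + (∑ p ∈ R2, Real.log (ff g p c) - YY c) + YY c := by
        ring
      rw [e2]
      have h3 := abs_add_le (∑ p ∈ R1, Real.log (ff g p c) +
        (∑ p ∈ R2, Real.log (ff g p c) - YY c)) (YY c)
      have h4 := abs_add_le (∑ p ∈ R1, Real.log (ff g p c))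
        (∑ p ∈ R2, Real.log (ff g p c) - YY c)
      linarith
    have hE : |(∏ p ∈ prs w \ P, ff g p c) - 1| ≤ η := by
      have h5 := Real.abs_exp_sub_one_le (x := Real.log (∏ p ∈ prs w \ P, ff g p c))
        (by linarith)
      rw [Real.exp_log hprodpos] at h5
      linarith
    rw [e1]
    have hb0 := bh_nonneg g P γ hP
    have e3 : (∏ p ∈ prs w \ P, ff g p c) * bh g P (γ : ℤ) - bh g P (γ : ℤ) =
        ((∏ p ∈ prs w \ P, ff g p c) - 1) * bh g P (γ : ℤ) := by ring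
    rw [e3, abs_mul, abs_of_nonneg hb0]
    gcongr
  -- the second moment
  obtain ⟨T, hT⟩ : ∃ T, T = N / W + 1 := ⟨_, rfl⟩
  rw [← hT] at hfin
  have hsec := second R2 (fun p c => 1 - (nu g p (c : ℤ) : ℝ)) d W (γ % W) T
    (fun p hp => (hR2m p hp).1)
    (by
      intro p hp
      rw [hWdef]
      unfold prm
      refine Nat.Coprime.prod_left fun q hq => ?_
      rw [Nat.coprime_primes (hP q hq) (hR2m p hp).1]
      have h1 := hPz q hq
      have h2 := (hR2m p hp).2.1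
      omega)
    (by
      intro p hp t
      rw [nu_congr g p (c := ((t + p : ℕ) : ℤ)) (c' := (t : ℤ))]
      push_cast
      simp)
    (by
      intro p hp
      rw [sum_sub_distrib, sum_const, card_range, nsmul_eq_mul, mul_one, sub_eq_zero]
      have := (hp0 p (hR2m p hp).1 (hR2p0 p hp)).2
      exact_mod_cast this.symm)
    (by
      intro p hp t
      have h1 := hnu p (hR2m p hp).1 (hR2p0 p hp) (t : ℤ)
      have h2 : (0 : ℝ) ≤ nu g p (t : ℤ) := Nat.cast_nonneg _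
      rw [abs_le]
      constructor <;> linarith)
    (by linarith)
  have hcard : (R2.card : ℝ) ≤ w := by
    have h1 : R2 ⊆ Icc 1 w := by
      intro p hp
      rw [mem_Icc]
      exact ⟨(hR2m p hp).1.one_le, (hR2m p hp).2.2⟩
    have h2 := card_le_card h1
    rw [Nat.card_Icc] at h2
    exact_mod_cast (by omega : R2.card ≤ w)
  have hsum : ∑ t ∈ range T, (YY (γ % W + W * t)) ^ 2 ≤ (η / 8) ^ 2 * Y := by
    refine le_trans ?_ hfin
    rw [hYY]
    refine hsec.trans ?_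
    have h1 : (R2.card : ℝ) ^ 2 ≤ (w : ℝ) ^ 2 := by gcongr
    gcongr
  -- counting
  obtain ⟨Bd, hBd⟩ : ∃ Bd, Bd = (range T).filter (fun t => η / 8 < |YY (γ % W + W * t)|) :=
    ⟨_, rfl⟩
  have hcount : (Bd.card : ℝ) * (η / 8) ^ 2 ≤ (η / 8) ^ 2 * Y := by
    refine le_trans ?_ hsum
    calc (Bd.card : ℝ) * (η / 8) ^ 2 = ∑ _t ∈ Bd, (η / 8) ^ 2 := by
          rw [sum_const, nsmul_eq_mul]
      _ ≤ ∑ t ∈ Bd, (YY (γ % W + W * t)) ^ 2 := by
        refine sum_le_sum fun t ht => ?_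
        rw [hBd, mem_filter] at ht
        rw [← sq_abs (YY (γ % W + W * t))]
        have := ht.2.le
        gcongr
      _ ≤ _ := by
        refine sum_le_sum_of_subset_of_nonneg ?_ fun i _ _ => sq_nonneg _
        rw [hBd]
        exact filter_subset _ _
  have hcount2 : (Bd.card : ℝ) ≤ Y := by
    have h1 : 0 < (η / 8) ^ 2 := by positivity
    rw [mul_comm] at hcount
    exact le_of_mul_le_mul_left hcount h1
  refine le_trans ?_ hcount2
  norm_cast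
  have hsub : {c : ℕ | c ∈ Icc 1 N ∧ c ≡ γ [MOD W] ∧
      ¬ |bh g (prs w) (c : ℤ) - bh g P (γ : ℤ)| ≤ η * bh g P (γ : ℤ)} ⊆
      ((Bd.image (fun t => γ % W + W * t) : Finset ℕ) : Set ℕ) := by
    rintro c ⟨h1, h2, h3⟩
    rw [coe_image]
    have h4 : c % W = γ % W := h2
    have h5 : γ % W + W * (c / W) = c := by rw [← h4]; exact Nat.mod_add_div c W
    refine ⟨c / W, ?_, h5⟩
    rw [hBd, coe_filter]
    refine ⟨?_, ?_⟩
    · rw [mem_range, hT]
      rw [mem_Icc] at h1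
      exact Nat.lt_succ_of_le (Nat.div_le_div_right h1.2)
    · rw [h5]
      by_contra h6
      exact h3 (good c h2 (not_lt.1 h6))
  calc Nat.card {c : ℕ // c ∈ Icc 1 N ∧ c ≡ γ [MOD W] ∧
      ¬ |bh g (prs w) (c : ℤ) - bh g P (γ : ℤ)| ≤ η * bh g P (γ : ℤ)} =
      Set.ncard {c : ℕ | c ∈ Icc 1 N ∧ c ≡ γ [MOD W] ∧
      ¬ |bh g (prs w) (c : ℤ) - bh g P (γ : ℤ)| ≤ η * bh g P (γ : ℤ)} := rfl
    _ ≤ Set.ncard ((Bd.image (fun t => γ % W + W * t) : Finset ℕ) : Set ℕ) :=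
        Set.ncard_le_ncard hsub (finite_toSet _)
    _ = (Bd.image (fun t => γ % W + W * t)).card := Set.ncard_coe_finset _
    _ ≤ Bd.card := card_image_le

/-- the choice of the constants, for real `X` large -/
theorem evt (M K L ε XW : ℝ) (hε : 0 < ε) : ∃ X0 : ℝ, ∀ X : ℝ, X0 ≤ X →
    XW ≤ X ∧ 1 ≤ X ∧ 64 ≤ Real.log X ∧ K ≤ (Real.log X) ^ ε ∧ M ≤ Real.log (Real.log X) ∧
      L ≤ X ^ (1 / 4 : ℝ) := by
  have h1 : ∀ᶠ X : ℝ in Filter.atTop, 64 ≤ Real.log X :=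
    Real.tendsto_log_atTop.eventually_ge_atTop 64
  have h2 : ∀ᶠ X : ℝ in Filter.atTop, K ≤ (Real.log X) ^ ε :=
    ((tendsto_rpow_atTop hε).comp Real.tendsto_log_atTop).eventually_ge_atTop K
  have h3 : ∀ᶠ X : ℝ in Filter.atTop, M ≤ Real.log (Real.log X) :=
    (Real.tendsto_log_atTop.comp Real.tendsto_log_atTop).eventually_ge_atTop M
  have h4 : ∀ᶠ X : ℝ in Filter.atTop, L ≤ X ^ (1 / 4 : ℝ) :=
    (tendsto_rpow_atTop (by norm_num)).eventually_ge_atTop L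
  have h5 : ∀ᶠ X : ℝ in Filter.atTop, XW ≤ X := Filter.eventually_ge_atTop XW
  have h6 : ∀ᶠ X : ℝ in Filter.atTop, 1 ≤ X := Filter.eventually_ge_atTop 1
  obtain ⟨X0, hX0⟩ := Filter.eventually_atTop.1
    (h1.and (h2.and (h3.and (h4.and (h5.and h6)))))
  refine ⟨X0, fun X hX => ?_⟩
  obtain ⟨a, b, c, e, f, k⟩ := hX0 X hX
  exact ⟨f, k, a, b, c, e⟩

theorem pow_le (X ε : ℝ) (hX : 64 ≤ Real.log X) (hε2 : ε ≤ 1 / 2) :
    8 * (Real.log X) ^ ε ≤ Real.log X := by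
  have h1 : (Real.log X) ^ ε ≤ (Real.log X) ^ (1 / 2 : ℝ) :=
    Real.rpow_le_rpow_of_exponent_le (by linarith) hε2
  rw [← Real.sqrt_eq_rpow] at h1
  have h2 : 8 ≤ Real.sqrt (Real.log X) := by
    rw [show (8 : ℝ) = Real.sqrt (8 ^ 2) by rw [Real.sqrt_sq (by norm_num)]]
    exact Real.sqrt_le_sqrt (by norm_num; exact hX)
  have h3 : Real.sqrt (Real.log X) * Real.sqrt (Real.log X) = Real.log X :=
    Real.mul_self_sqrt (by linarith)
  have h4 : 0 ≤ Real.sqrt (Real.log X) := Real.sqrt_nonneg _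
  nlinarith

/-- the final inequality -/
theorem fin_ineq (d η X W z : ℝ) (T : ℝ) (w : ℝ) (hd : 1 ≤ d) (hη : 0 < η) (hη1 : η ≤ 1)
    (hX : 1 ≤ X) (hW1 : 1 ≤ W) (hWX : W ≤ X ^ (1 / 4 : ℝ)) (hw : w ≤ X ^ (1 / 4 : ℝ))
    (hw0 : 0 ≤ w) (hT : T ≤ 4 * (X / W)) (hz : 512 * d ^ 2 / η ^ 3 ≤ z)
    (hL : 128 * d ^ 2 / η ^ 3 ≤ X ^ (1 / 4 : ℝ)) :
    d ^ 2 * w ^ 2 + T * d ^ 2 * (1 / z) ≤ (η / 8) ^ 2 * (η * (X / W)) := by
  have hX0 : 0 < X := by linarith
  have hz0 : 0 < z := lt_of_lt_of_le (by positivity) hz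
  obtain ⟨r, hr⟩ : ∃ r, r = X ^ (1 / 4 : ℝ) := ⟨_, rfl⟩
  have hr4 : r ^ 4 = X := by
    rw [hr, ← Real.rpow_natCast, ← Real.rpow_mul hX0.le]
    norm_num
  rw [← hr] at hWX hw hL
  have hr1 : 1 ≤ r := by rw [hr]; exact Real.one_le_rpow hX (by norm_num)
  have hXW : r ^ 3 ≤ X / W := by
    rw [le_div_iff₀ (by linarith), ← hr4]
    calc r ^ 3 * W ≤ r ^ 3 * r := by gcongr
      _ = r ^ 4 := by ring
  have h1 : d ^ 2 * w ^ 2 ≤ η ^ 3 / 128 * (X / W) := by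
    rw [div_le_iff₀ (by positivity)] at hL
    calc d ^ 2 * w ^ 2 ≤ d ^ 2 * r ^ 2 := by gcongr
      _ ≤ (η ^ 3 / 128 * r) * r ^ 2 := by
        gcongr
        linarith
      _ = η ^ 3 / 128 * r ^ 3 := by ring
      _ ≤ η ^ 3 / 128 * (X / W) := by gcongr
  have h2 : T * d ^ 2 * (1 / z) ≤ η ^ 3 / 128 * (X / W) := by
    rw [div_le_iff₀ (by positivity)] at hz
    have hXW0 : 0 < X / W := by positivity
    calc T * d ^ 2 * (1 / z) ≤ (4 * (X / W)) * d ^ 2 * (1 / z) := by gcongr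
      _ = (X / W) * ((4 * d ^ 2) / z) := by ring
      _ ≤ (X / W) * (η ^ 3 / 128) := by
        have h3 : 4 * d ^ 2 / z ≤ η ^ 3 / 128 := by
          rw [div_le_iff₀ hz0]
          linarith
        exact mul_le_mul_of_nonneg_left h3 hXW0.le
      _ = _ := by ring
  calc d ^ 2 * w ^ 2 + T * d ^ 2 * (1 / z) ≤ η ^ 3 / 128 * (X / W) + η ^ 3 / 128 * (X / W) :=
        add_le_add h1 h2
    _ = (η / 8) ^ 2 * (η * (X / W)) := by ring

/-- the theorem for `η ≤ 1` -/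
theorem small (h : S_T2a) (hW : S_WM) (g : ℤ[X]) (ε η : ℝ) (hg : 0 < g.natDegree) (hε : 0 < ε)
    (hε2 : ε ≤ 1 / 2) (hη : 0 < η) (hη1 : η ≤ 1) :
  ∃ (Z : ℕ) (X0 : ℝ), ∀ X : ℝ, X0 ≤ X → ∀ (ps : ℕ) (S : Finset ℕ), GoodP Z ps → GoodS X S →
    ∀ γ w : ℕ, Real.log X ≤ w → (w : ℝ) ≤ X ^ (1 / 4 : ℝ) →
      (Nat.card {c : ℕ // c ∈ Icc 1 ⌊3 * X⌋₊ ∧ c ≡ γ [MOD prm (PM X ε S ps)] ∧
        ¬ |bh g (prs w) (c : ℤ) - bh g (PM X ε S ps) (γ : ℤ)| ≤ η * bh g (PM X ε S ps) (γ : ℤ)} : ℝ) ≤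
        η * (X / prm (PM X ε S ps)) := by
  obtain ⟨p0, hp0⟩ := h g hg
  obtain ⟨cW, XW, -, hWM⟩ := hW ε hε hε2
  obtain ⟨d, hd⟩ : ∃ d : ℝ, d = g.natDegree := ⟨_, rfl⟩
  have hd1 : 1 ≤ d := by rw [hd]; exact_mod_cast hg
  obtain ⟨Kn, hKn⟩ : ∃ Kn : ℕ, Kn = p0 + ⌈4 * d⌉₊ + ⌈80 * d ^ 2 / η⌉₊ + ⌈512 * d ^ 2 / η ^ 3⌉₊ + 1 :=
    ⟨_, rfl⟩
  obtain ⟨M, hM⟩ : ∃ M : ℝ, M = 1 + p0 + 4 * d + 192 * d / η := ⟨_, rfl⟩
  have hM0 : 0 ≤ 192 * d / η := by positivity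
  have hM1 : 1 ≤ M := by
    have : (0 : ℝ) ≤ p0 := Nat.cast_nonneg _
    linarith
  obtain ⟨X0, hX0⟩ := evt M Kn (128 * d ^ 2 / η ^ 3) ε XW hε
  refine ⟨p0 + ⌈4 * d⌉₊ + ⌈32 * d / η⌉₊, X0, fun X hX ps S hps hS γ w hw1 hw2 => ?_⟩
  obtain ⟨f1, f2, f3, f4, f5, f6⟩ := hX0 X hX
  obtain ⟨hWup, -⟩ := hWM X f1 ps S
  have hX1 : 0 < X := by linarith
  -- the cut-off
  have hzK : Kn ≤ zz X ε := Nat.le_floor f4
  have hzlog : (zz X ε : ℝ) ≤ (Real.log X) ^ ε := Nat.floor_le (Real.rpow_nonneg (by linarith) _)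
  have hz8 := pow_le X ε f3 hε2
  have hzw : (zz X ε : ℝ) ≤ w := by
    have : 0 ≤ (Real.log X) ^ ε := Real.rpow_nonneg (by linarith) _
    linarith
  have hPM : ∀ p ∈ PM X ε S ps, p.Prime ∧ p ≤ zz X ε := by
    intro p hp
    unfold PM at hp
    rw [mem_filter, mem_Icc] at hp
    exact ⟨hp.2.1, hp.1.2⟩
  have hzwn : zz X ε ≤ w := by exact_mod_cast hzw
  have hKr : (Kn : ℝ) ≤ zz X ε := by exact_mod_cast hzK
  have hK1 : 4 * d ≤ Kn := by
    rw [hKn]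
    push_cast
    have h1 := Nat.le_ceil (4 * d)
    have h2 : (0 : ℝ) ≤ p0 := Nat.cast_nonneg _
    have h3 : (0 : ℝ) ≤ ⌈80 * d ^ 2 / η⌉₊ := Nat.cast_nonneg _
    have h4 : (0 : ℝ) ≤ ⌈512 * d ^ 2 / η ^ 3⌉₊ := Nat.cast_nonneg _
    linarith
  have hK2 : 80 * d ^ 2 / η ≤ Kn := by
    rw [hKn]
    push_cast
    have h1 := Nat.le_ceil (80 * d ^ 2 / η)
    have h2 : (0 : ℝ) ≤ p0 := Nat.cast_nonneg _
    have h3 : (0 : ℝ) ≤ ⌈4 * d⌉₊ := Nat.cast_nonneg _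
    have h4 : (0 : ℝ) ≤ ⌈512 * d ^ 2 / η ^ 3⌉₊ := Nat.cast_nonneg _
    linarith
  have hK3 : 512 * d ^ 2 / η ^ 3 ≤ Kn := by
    rw [hKn]
    push_cast
    have h1 := Nat.le_ceil (512 * d ^ 2 / η ^ 3)
    have h2 : (0 : ℝ) ≤ p0 := Nat.cast_nonneg _
    have h3 : (0 : ℝ) ≤ ⌈4 * d⌉₊ := Nat.cast_nonneg _
    have h4 : (0 : ℝ) ≤ ⌈80 * d ^ 2 / η⌉₊ := Nat.cast_nonneg _
    linarith
  have hK4 : p0 ≤ Kn := by rw [hKn]; omega
  have hz0 : (0 : ℝ) < zz X ε := by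
    have : (0 : ℝ) < 4 * d := by linarith
    linarith
  -- removed primes
  have hSbig : ∀ q ∈ S, p0 ≤ q ∧ 4 * d ≤ (q : ℝ) := by
    intro q hq
    have h1 := (hS.1 q hq).2.1
    have h2 : (Real.log (Real.log X)) ^ 3 < (q : ℝ) := by
      unfold Pool.Agent.H378R2.z2 at h1
      exact lt_of_le_of_lt (Nat.le_ceil _) (by exact_mod_cast h1)
    have h3 : M ≤ (Real.log (Real.log X)) ^ 3 := by
      calc M = M * 1 := (mul_one M).symm
        _ ≤ M * M ^ 2 := by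
          gcongr
          exact one_le_pow₀ hM1
        _ = M ^ 3 := by ring
        _ ≤ (Real.log (Real.log X)) ^ 3 := by gcongr
    have h4 : (p0 : ℝ) ≤ q := by linarith
    refine ⟨by exact_mod_cast h4, ?_⟩
    have : (0 : ℝ) ≤ p0 := Nat.cast_nonneg _
    linarith
  have hpsbig : ps.Prime → p0 ≤ ps ∧ 4 * d ≤ (ps : ℝ) ∧ 4 * d / ps ≤ η / 8 := by
    intro hprime
    rcases hps with h1 | ⟨-, h1⟩
    · rw [h1] at hprime
      exact absurd hprime (by norm_num)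
    · have h5 : ((p0 + ⌈4 * d⌉₊ + ⌈32 * d / η⌉₊ : ℕ) : ℝ) ≤ ps := by exact_mod_cast h1.le
      push_cast at h5
      have h2 : (0 : ℝ) ≤ p0 := Nat.cast_nonneg _
      have h3 := Nat.le_ceil (4 * d)
      have h4 := Nat.le_ceil (32 * d / η)
      have h6 : 0 ≤ 32 * d / η := by positivity
      have h7 : (0 : ℝ) ≤ ⌈4 * d⌉₊ := Nat.cast_nonneg _
      refine ⟨by omega, by linarith, ?_⟩
      have h8 : 32 * d / η ≤ ps := by linarith
      have h9 : (0 : ℝ) < ps := by exact_mod_cast hprime.pos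
      rw [div_le_iff₀ hη] at h8
      rw [div_le_iff₀ h9]
      linarith
  have hR1mem : ∀ p ∈ (prs w \ PM X ε S ps).filter (fun p => p ≤ zz X ε),
      p.Prime ∧ (p ∈ S ∨ p = ps) := by
    intro p hp
    rw [mem_filter, mem_sdiff] at hp
    obtain ⟨⟨h1, h2⟩, h3⟩ := hp
    unfold prs at h1
    rw [mem_filter, mem_Icc] at h1
    refine ⟨h1.2, ?_⟩
    by_contra h4
    push Not at h4
    apply h2
    unfold PM
    rw [mem_filter, mem_Icc]
    exact ⟨⟨h1.1.1, h3⟩, h1.2, h4.1, h4.2⟩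
  have hW1 : (1 : ℝ) ≤ prm (PM X ε S ps) := by
    have : 0 < prm (PM X ε S ps) := prod_pos fun p hp => (hPM p hp).1.pos
    exact_mod_cast this
  have hWX : (prm (PM X ε S ps) : ℝ) ≤ X ^ (1 / 4 : ℝ) := by
    refine hWup.trans ?_
    rw [Real.rpow_def_of_pos hX1]
    refine Real.exp_le_exp.2 ?_
    linarith
  have hXle : X ^ (1 / 4 : ℝ) ≤ X := by
    conv_rhs => rw [← Real.rpow_one X]
    exact Real.rpow_le_rpow_of_exponent_le f2 (by norm_num)
  refine core g d hd hd1 p0 (fun p h1 h2 => ⟨(hp0 p h1 h2).1, (hp0 p h1 h2).2.2.1⟩) _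
    (fun p hp => (hPM p hp).1) w (zz X ε) ⌊3 * X⌋₊ γ ?_ (fun p hp => (hPM p hp).2) ?_ hzwn
    (hK4.trans hzK) (hK1.trans hKr) η hη hη1 ?_ ?_ ?_ _ ?_
  · intro p hp
    unfold prs
    rw [mem_filter, mem_Icc]
    exact ⟨⟨(hPM p hp).1.one_le, (hPM p hp).2.trans hzwn⟩, (hPM p hp).1⟩
  · have : zz X ε ≠ 0 := by
      intro h0
      rw [h0] at hz0
      simp at hz0
    exact this
  · intro p hp
    obtain ⟨h1, h2 | h2⟩ := hR1mem p hp
    · exact hSbig p h2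
    · subst h2
      exact ⟨(hpsbig h1).1, (hpsbig h1).2.1⟩
  · -- the sum over the removed primes
    have hll : 0 < Real.log (Real.log X) := by linarith
    have hSsum : ∑ q ∈ S, 4 * d / (q : ℝ) ≤ η / 8 := by
      have h1 : ∑ q ∈ S, 4 * d / (q : ℝ) = 4 * d * ∑ q ∈ S, (1 : ℝ) / q := by
        rw [mul_sum]
        exact sum_congr rfl fun q _ => by ring
      rw [h1]
      have h2 : 192 * d / η ≤ (Real.log (Real.log X)) ^ 2 := by
        calc 192 * d / η ≤ M := by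
              have : (0 : ℝ) ≤ p0 := Nat.cast_nonneg _
              linarith
          _ = M * 1 := (mul_one M).symm
          _ ≤ M * M := by gcongr
          _ = M ^ 2 := by ring
          _ ≤ (Real.log (Real.log X)) ^ 2 := by gcongr
      calc 4 * d * ∑ q ∈ S, (1 : ℝ) / q ≤ 4 * d * (6 / (Real.log (Real.log X)) ^ 2) := by
            gcongr
            exact hS.2
        _ = 24 * d / (Real.log (Real.log X)) ^ 2 := by ring
        _ ≤ η / 8 := by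
          rw [div_le_iff₀ (by positivity)]
          rw [div_le_iff₀ hη] at h2
          linarith
    by_cases hprime : ps.Prime
    · have h1 : (prs w \ PM X ε S ps).filter (fun p => p ≤ zz X ε) ⊆ S ∪ {ps} := by
        intro p hp
        rw [mem_union, mem_singleton]
        exact (hR1mem p hp).2
      have h3 := (hpsbig hprime).2.2
      calc ∑ p ∈ (prs w \ PM X ε S ps).filter (fun p => p ≤ zz X ε), 4 * d / (p : ℝ) ≤
          ∑ p ∈ S ∪ {ps}, 4 * d / (p : ℝ) :=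
            sum_le_sum_of_subset_of_nonneg h1 fun i _ _ => by positivity
        _ ≤ ∑ p ∈ S ∪ {ps}, 4 * d / (p : ℝ) + ∑ p ∈ S ∩ {ps}, 4 * d / (p : ℝ) := by
          have : 0 ≤ ∑ p ∈ S ∩ {ps}, 4 * d / (p : ℝ) := sum_nonneg fun i _ => by positivity
          linarith
        _ = ∑ p ∈ S, 4 * d / (p : ℝ) + 4 * d / ps := by
          rw [sum_union_inter, sum_singleton]
        _ ≤ η / 4 := by linarith
    · have h1 : (prs w \ PM X ε S ps).filter (fun p => p ≤ zz X ε) ⊆ S := by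
        intro p hp
        obtain ⟨h2, h3 | h3⟩ := hR1mem p hp
        · exact h3
        · rw [h3] at h2
          exact absurd h2 hprime
      calc ∑ p ∈ (prs w \ PM X ε S ps).filter (fun p => p ≤ zz X ε), 4 * d / (p : ℝ) ≤
          ∑ p ∈ S, 4 * d / (p : ℝ) :=
            sum_le_sum_of_subset_of_nonneg h1 fun i _ _ => by positivity
        _ ≤ η / 4 := by linarith
  · rw [div_le_iff₀ hz0]
    have h1 := hK2.trans hKr
    rw [div_le_iff₀ hη] at h1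
    linarith
  · refine fin_ineq d η X _ _ _ _ hd1 hη hη1 f2 hW1 hWX hw2 (Nat.cast_nonneg _) ?_
      (hK3.trans hKr) f6
    have h1 : ((⌊3 * X⌋₊ / prm (PM X ε S ps) : ℕ) : ℝ) ≤ (⌊3 * X⌋₊ : ℝ) / prm (PM X ε S ps) :=
      Nat.cast_div_le
    have h2 : (⌊3 * X⌋₊ : ℝ) ≤ 3 * X := Nat.floor_le (by linarith)
    have h3 : (⌊3 * X⌋₊ : ℝ) / prm (PM X ε S ps) ≤ 3 * X / prm (PM X ε S ps) := by gcongr
    have h4 : 1 ≤ X / prm (PM X ε S ps) := by
      rw [le_div_iff₀ (by linarith)]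
      linarith
    push_cast
    have h5 : 3 * X / prm (PM X ε S ps) = 3 * (X / prm (PM X ε S ps)) := by ring
    linarith

end TL_

theorem t_TL (h : S_T2a) (hW : S_WM) : S_TL := by
  intro g ε η hg hε hε2 hη
  obtain ⟨Z, X0, hX0⟩ := TL_.small h hW g ε (min η 1) hg hε hε2 (lt_min hη one_pos)
    (min_le_right _ _)
  refine ⟨Z, max X0 0, fun X hX ps S hps hS γ w hw1 hw2 => ?_⟩
  have h1 := hX0 X ((le_max_left _ _).trans hX) ps S hps hS γ w hw1 hw2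
  have hX1 : 0 ≤ X := (le_max_right _ _).trans hX
  have hP : ∀ p ∈ PM X ε S ps, p.Prime := by
    intro p hp
    unfold PM at hp
    rw [mem_filter] at hp
    exact hp.2.1
  have hb0 := TL_.bh_nonneg g (PM X ε S ps) γ hP
  have hfinite : ({c : ℕ | c ∈ Icc 1 ⌊3 * X⌋₊ ∧ c ≡ γ [MOD prm (PM X ε S ps)] ∧
      ¬ |bh g (prs w) (c : ℤ) - bh g (PM X ε S ps) (γ : ℤ)| ≤
        min η 1 * bh g (PM X ε S ps) (γ : ℤ)}).Finite :=
    (finite_toSet (Icc 1 ⌊3 * X⌋₊)).subset fun c hc => hc.1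
  have h2 : Nat.card {c : ℕ // c ∈ Icc 1 ⌊3 * X⌋₊ ∧ c ≡ γ [MOD prm (PM X ε S ps)] ∧
      ¬ |bh g (prs w) (c : ℤ) - bh g (PM X ε S ps) (γ : ℤ)| ≤ η * bh g (PM X ε S ps) (γ : ℤ)} ≤
      Nat.card {c : ℕ // c ∈ Icc 1 ⌊3 * X⌋₊ ∧ c ≡ γ [MOD prm (PM X ε S ps)] ∧
      ¬ |bh g (prs w) (c : ℤ) - bh g (PM X ε S ps) (γ : ℤ)| ≤
        min η 1 * bh g (PM X ε S ps) (γ : ℤ)} := by
    refine Set.ncard_le_ncard ?_ hfinite
    rintro c ⟨h3, h4, h5⟩
    refine ⟨h3, h4, fun h6 => h5 (h6.trans ?_)⟩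
    gcongr
    exact min_le_left _ _
  have h3 : min η 1 * (X / prm (PM X ε S ps)) ≤ η * (X / prm (PM X ε S ps)) := by
    gcongr
    exact min_le_left _ _
  have h4 : (Nat.card {c : ℕ // c ∈ Icc 1 ⌊3 * X⌋₊ ∧ c ≡ γ [MOD prm (PM X ε S ps)] ∧
      ¬ |bh g (prs w) (c : ℤ) - bh g (PM X ε S ps) (γ : ℤ)| ≤
        η * bh g (PM X ε S ps) (γ : ℤ)} : ℝ) ≤ _ := Nat.cast_le.2 h2
  exact h4.trans (h1.trans h3)

end Pool.Agent.N785.MG
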