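import Pool.Agent.N785.MG.Stm
import Pool.Agent.H510R2.Maier.MA4
import Pool.Agent.H378R2.M7c

/-!
Project MG (helper785), part WM (helper8): size of the modulus, `φ(W)/W`, total weight.
-/

set_option autoImplicit false

open Finset Polynomial Filter Topology
open Pool.Agent.H378R2 (Phi GoodP GoodS)

namespace Pool.Agent.N785.MG

namespace WM_

lemma zz_le {X ε : ℝ} (hX : 1 ≤ X) : (zz X ε : ℝ) ≤ (Real.log X) ^ ε :=
  Nat.floor_le (Real.rpow_nonneg (Real.log_nonneg hX) _)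

lemma PM_prime {X ε : ℝ} {S : Finset ℕ} {ps : ℕ} : ∀ p ∈ PM X ε S ps, p.Prime := fun _ hp =>
  (mem_filter.1 hp).2.1

lemma prm_le {X ε : ℝ} (hX : 1 ≤ X) (S : Finset ℕ) (ps : ℕ) :
    (prm (PM X ε S ps) : ℝ) ≤ Real.exp (2 * (Real.log X) ^ ε) := by
  have h1 : prm (PM X ε S ps) ≤ primorial (zz X ε) := by
    unfold prm primorial
    refine Finset.prod_le_prod_of_subset_of_one_le' ?_ ?_
    · intro p hp
      have h := mem_filter.1 hp
      rw [mem_filter, mem_range]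
      exact ⟨Nat.lt_succ_of_le (mem_Icc.1 h.1).2, h.2.1⟩
    · intro p hp _
      exact (mem_filter.1 hp).2.one_lt.le
  have h2 : (prm (PM X ε S ps) : ℝ) ≤ (4 : ℝ) ^ (zz X ε) := by
    exact_mod_cast h1.trans (primorial_le_four_pow _)
  refine h2.trans ?_
  have h3 : (4 : ℝ) ^ (zz X ε) = Real.exp (Real.log 4 * zz X ε) := by
    rw [mul_comm, Real.exp_nat_mul, Real.exp_log (by norm_num)]
  rw [h3]
  refine Real.exp_le_exp.2 ?_
  have h4 : Real.log 4 ≤ 2 := by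
    have : (4 : ℝ) = 2 ^ 2 := by norm_num
    rw [this, Real.log_pow]
    have := Real.log_two_lt_d9
    push_cast
    linarith
  exact mul_le_mul h4 (zz_le hX) (Nat.cast_nonneg _) (by norm_num)

lemma prm_pos (P : Finset ℕ) (hP : ∀ p ∈ P, p.Prime) : 0 < prm P :=
  Finset.prod_pos fun p hp => (hP p hp).pos

lemma factor_mem {p : ℕ} (hp : p.Prime) : 0 ≤ 1 - 1 / (p : ℝ) ∧ 1 - 1 / (p : ℝ) ≤ 1 := by
  have h1 : (1 : ℝ) ≤ p := by exact_mod_cast hp.one_lt.le
  have h2 : 1 / (p : ℝ) ≤ 1 := by rw [div_le_one (by linarith)]; exact h1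
  have h3 : 0 ≤ 1 / (p : ℝ) := by positivity
  constructor <;> linarith

lemma QQ_le (X ε : ℝ) (S : Finset ℕ) (ps : ℕ) :
    Pool.Agent.H510R2.Maier.QQ (zz X ε) ≤ ∏ p ∈ PM X ε S ps, (1 - 1 / (p : ℝ)) := by
  unfold Pool.Agent.H510R2.Maier.QQ
  refine Finset.prod_le_prod_of_subset_of_le_one ?_ ?_ ?_
  · intro p hp
    have h := mem_filter.1 hp
    exact mem_filter.2 ⟨h.1, h.2.1⟩
  · intro p hp
    exact (factor_mem (mem_filter.1 hp).2).1
  · intro p hp _
    exact (factor_mem (mem_filter.1 hp).2).2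

lemma totient_prm (P : Finset ℕ) (hP : ∀ p ∈ P, p.Prime) :
    (Nat.totient (prm P) : ℝ) = prm P * ∏ p ∈ P, (1 - 1 / (p : ℝ)) := by
  induction P using Finset.induction_on with
  | empty => simp [prm]
  | insert q P hq ih =>
    have hqp := hP q (mem_insert_self _ _)
    have hP' : ∀ p ∈ P, p.Prime := fun p hp => hP p (mem_insert_of_mem hp)
    have e : prm (insert q P) = q * prm P := Finset.prod_insert hq
    have hco : Nat.Coprime q (prm P) := by
      unfold prm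
      refine Nat.Coprime.prod_right fun p hp => ?_
      exact (Nat.coprime_primes hqp (hP' p hp)).2 fun h => hq (h ▸ hp)
    rw [e, Nat.totient_mul hco, Nat.totient_prime hqp, Finset.prod_insert hq]
    push_cast
    rw [ih hP', Nat.cast_sub hqp.one_lt.le]
    have hq0 : (q : ℝ) ≠ 0 := by exact_mod_cast hqp.pos.ne'
    push_cast
    field_simp

/-- Mertens -/
lemma mertens {ε : ℝ} (hε : 0 < ε) : ∃ c X0 : ℝ, 0 < c ∧ ∀ X : ℝ, X0 ≤ X →
    c / Real.log (Real.log X) ≤ Pool.Agent.H510R2.Maier.QQ (zz X ε) := by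
  have h1 : Tendsto (fun X : ℝ => (Real.log X) ^ ε) atTop atTop :=
    (tendsto_rpow_atTop hε).comp Real.tendsto_log_atTop
  have h2 := Pool.Agent.H510R2.Maier.QQ_real.comp h1
  have hC : Real.exp Real.eulerMascheroniConstant < Real.exp Real.eulerMascheroniConstant + 1 := by
    linarith
  obtain ⟨C, hCdef⟩ : ∃ C : ℝ, C = Real.exp Real.eulerMascheroniConstant + 1 := ⟨_, rfl⟩
  have hC0 : 0 < C := by rw [hCdef]; positivity
  rw [← hCdef] at hC
  have h3 := h2.eventually (gt_mem_nhds hC)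
  have h4 : ∀ᶠ X : ℝ in atTop, 1 < Real.log X := Real.tendsto_log_atTop.eventually_gt_atTop 1
  obtain ⟨X0, hX0⟩ := eventually_atTop.1 (h3.and h4)
  refine ⟨1 / (C * ε), X0, by positivity, fun X hX => ?_⟩
  obtain ⟨h5, h6⟩ := hX0 X hX
  have h7 : 0 < Real.log (Real.log X) := Real.log_pos h6
  have h8 : Real.log ((Real.log X) ^ ε) = ε * Real.log (Real.log X) :=
    Real.log_rpow (by linarith) _
  simp only [Function.comp_apply] at h5
  rw [h8, div_lt_iff₀ (by positivity)] at h5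
  have h9 : 0 < Pool.Agent.H510R2.Maier.QQ (zz X ε) := Pool.Agent.H510R2.Maier.QQ_pos _
  change (Pool.Agent.H510R2.Maier.QQ (zz X ε))⁻¹ < C * (ε * Real.log (Real.log X)) at h5
  rw [div_div, div_le_iff₀ (by positivity)]
  have h10 : 1 < C * (ε * Real.log (Real.log X)) * Pool.Agent.H510R2.Maier.QQ (zz X ε) := by
    rw [inv_eq_one_div, div_lt_iff₀ h9] at h5
    exact h5
  nlinarith

/-- the modulus is at most `X` -/
lemma exp_le {X ε : ℝ} (hε : ε ≤ 1 / 2) (hX0 : 0 < X) (hX : 4 ≤ Real.log X) :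
    Real.exp (2 * (Real.log X) ^ ε) ≤ X := by
  rw [← Real.le_log_iff_exp_le hX0]
  have h1 : (Real.log X) ^ ε ≤ (Real.log X) ^ (1 / 2 : ℝ) :=
    Real.rpow_le_rpow_of_exponent_le (by linarith) hε
  rw [← Real.sqrt_eq_rpow] at h1
  have h2 : 2 * Real.sqrt (Real.log X) ≤ Real.log X := by
    have h3 : 2 ≤ Real.sqrt (Real.log X) := by
      have : Real.sqrt 4 ≤ Real.sqrt (Real.log X) := Real.sqrt_le_sqrt hX
      rwa [show (4 : ℝ) = 2 ^ 2 by norm_num, Real.sqrt_sq (by norm_num)] at this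
    have h4 := Real.mul_self_sqrt (show 0 ≤ Real.log X by linarith)
    nlinarith
  linarith

lemma MX_ge {X : ℝ} (hX : 40 ≤ X) : X / 10 ≤ MX X := by
  unfold MX
  have hsub : Icc ⌈3 / 2 * X⌉₊ ⌊2 * X⌋₊ ⊆ Icc 1 ⌊3 * X⌋₊ := by
    intro n hn
    rw [Finset.mem_Icc] at hn ⊢
    constructor
    · have : 0 < ⌈3 / 2 * X⌉₊ := Nat.ceil_pos.2 (by linarith)
      omega
    · exact hn.2.trans (Nat.floor_le_floor (by linarith))
  have h1 := Finset.sum_le_sum_of_subset_of_nonneg (f := fun n : ℕ => Phi (n / X)) hsub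
    (fun n _ _ => Pool.Agent.H378R2.Phi_nonneg _)
  refine le_trans ?_ h1
  have hlow : ∀ n ∈ Icc ⌈3 / 2 * X⌉₊ ⌊2 * X⌋₊, (3 / 10 : ℝ) ≤ Phi (n / X) := by
    intro n hn
    rw [Finset.mem_Icc] at hn
    have hn1 : 3 / 2 * X ≤ n := (Nat.le_ceil _).trans (by exact_mod_cast hn.1)
    have hn2 : (n : ℝ) ≤ 2 * X := le_trans (by exact_mod_cast hn.2) (Nat.floor_le (by linarith))
    have hX0 : 0 < X := by linarith
    have h3 : 3 / 2 ≤ (n : ℝ) / X := by rw [le_div_iff₀ hX0]; linarith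
    have h4 : (n : ℝ) / X ≤ 2 := by rw [div_le_iff₀ hX0]; linarith
    have h5 : Real.log ((n : ℝ) / X) ≤ 7 / 10 := by
      have := Real.log_le_log (by linarith) h4
      have h6 := Real.log_two_lt_d9
      linarith
    have h6 : 3 / 10 ≤ Real.log ((n : ℝ) / X) := by
      have h7 : 1 - ((n : ℝ) / X)⁻¹ ≤ Real.log ((n : ℝ) / X) := by
        have := Real.one_sub_inv_le_log_of_pos (by linarith : 0 < (n : ℝ) / X)
        exact this
      have h8 : ((n : ℝ) / X)⁻¹ ≤ 2 / 3 := (inv_anti₀ (by norm_num) h3).trans (by norm_num)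
      linarith
    unfold Pool.Agent.H378R2.Phi
    apply le_max_of_le_right
    have : |Real.log ((n : ℝ) / X) - 1 / 2| ≤ 1 / 5 := by
      rw [abs_le]; constructor <;> linarith
    linarith
  refine le_trans ?_ (Finset.sum_le_sum hlow)
  rw [Finset.sum_const, Nat.card_Icc, nsmul_eq_mul]
  have h3 : (2 * X - 1 : ℝ) < ⌊2 * X⌋₊ := by
    have := Nat.lt_floor_add_one (2 * X)
    linarith
  have h4 : (⌈3 / 2 * X⌉₊ : ℝ) < 3 / 2 * X + 1 := Nat.ceil_lt_add_one (by linarith)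
  have h5 : ⌈3 / 2 * X⌉₊ ≤ ⌊2 * X⌋₊ + 1 := by
    have : (⌈3 / 2 * X⌉₊ : ℝ) ≤ ((⌊2 * X⌋₊ + 1 : ℕ) : ℝ) := by push_cast; linarith
    exact_mod_cast this
  rw [Nat.cast_sub h5]
  push_cast
  nlinarith

lemma MX_le {X : ℝ} (hX : 40 ≤ X) : MX X ≤ X := by
  have hX0 : 0 < X := by linarith
  unfold MX
  have h1 : ∀ n ∈ Icc 1 ⌊3 * X⌋₊, Phi (n / X) ≤
      if n ∈ Ioc ⌊X⌋₊ ⌊(272 / 100) * X⌋₊ then (1 / 2 : ℝ) else 0 := by
    intro n _
    split_ifs with h
    · exact Pool.Agent.H378R2.Phi_le_half _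
    · rw [mem_Ioc, not_and_or, not_lt, not_le] at h
      rcases h with h | h
      · have h2 : (n : ℝ) ≤ X := le_trans (by exact_mod_cast h) (Nat.floor_le hX0.le)
        rw [Pool.Agent.H378R2.Phi_eq_zero_of_le (by positivity) ((div_le_one hX0).2 h2)]
      · have h2 : (272 / 100) * X < n := by
          have := (Nat.floor_lt (show 0 ≤ (272 / 100 : ℝ) * X by positivity)).1 h
          exact this
        have h3 := Real.exp_one_lt_d9
        rw [Pool.Agent.H378R2.Phi_eq_zero_of_ge (by rw [le_div_iff₀ hX0]; nlinarith)]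
  refine (sum_le_sum h1).trans ?_
  rw [← sum_filter, sum_const, nsmul_eq_mul]
  have h2 : ((Icc 1 ⌊3 * X⌋₊).filter (fun n => n ∈ Ioc ⌊X⌋₊ ⌊(272 / 100) * X⌋₊)).card ≤
      ⌊(272 / 100) * X⌋₊ - ⌊X⌋₊ := by
    rw [← Nat.card_Ioc]
    exact card_le_card fun n hn => (mem_filter.1 hn).2
  have h3 : ⌊X⌋₊ ≤ ⌊(272 / 100) * X⌋₊ := Nat.floor_le_floor (by linarith)
  have h4 : (((Icc 1 ⌊3 * X⌋₊).filter (fun n => n ∈ Ioc ⌊X⌋₊ ⌊(272 / 100) * X⌋₊)).card : ℝ) ≤
      (⌊(272 / 100) * X⌋₊ : ℝ) - ⌊X⌋₊ := by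
    rw [← Nat.cast_sub h3]
    exact_mod_cast h2
  have h5 : (⌊(272 / 100) * X⌋₊ : ℝ) ≤ (272 / 100) * X := Nat.floor_le (by positivity)
  have h6 : X < (⌊X⌋₊ : ℝ) + 1 := Nat.lt_floor_add_one X
  linarith

end WM_

theorem t_WM : S_WM := by
  intro ε hε hε2
  obtain ⟨c, X1, hc, h1⟩ := WM_.mertens hε
  refine ⟨c, max X1 (Real.exp 40), hc, fun X hX ps S => ?_⟩
  have hX1 : X1 ≤ X := (le_max_left _ _).trans hX
  have hXe : Real.exp 40 ≤ X := (le_max_right _ _).trans hX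
  have hX40 : 40 ≤ X := by
    have := Real.add_one_le_exp (40 : ℝ)
    linarith
  have hlog : 40 ≤ Real.log X := by
    rw [Real.le_log_iff_exp_le (by linarith)]
    exact hXe
  have hpm := WM_.prm_le (ε := ε) (show (1 : ℝ) ≤ X by linarith) S ps
  refine ⟨hpm, (h1 X hX1).trans (WM_.QQ_le X ε S ps), WM_.totient_prm _ WM_.PM_prime, fun γ => ?_,
    WM_.MX_ge hX40, WM_.MX_le hX40⟩
  have h2 := Pool.Agent.H378R2.phi_sum_class X (by linarith) (prm (PM X ε S ps)) γ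
    (WM_.prm_pos _ WM_.PM_prime) (hpm.trans (WM_.exp_le hε2 (by linarith) (by linarith)))
  have e : Pool.Agent.H378R2.MPhi X = MX X := rfl
  rw [e, mul_one_div] at h2
  exact h2

end Pool.Agent.N785.MG
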